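import Pool.Agent.MP_e62678_mp.H54.Work

/-! Elementary facts on `H¹`, `L²` norms and coordinate permutations. -/

open MeasureTheory Filter Topology
open scoped ComplexConjugate

namespace Pool.Agent.MP_e62678_mp.H54

variable {u v : E3 → ℂ} {g h : Fin 3 → E3 → ℂ}

theorem basic_cont_pd {F : Type} [NormedAddCommGroup F] [NormedSpace ℝ F] {f : E3 → F}
    (hf : ContDiff ℝ 1 f) (k : Fin 3) : Continuous (pd k f) := by
  unfold pd
  exact (hf.continuous_fderiv one_ne_zero).clm_apply continuous_const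

theorem basic_supp_pd {F : Type} [NormedAddCommGroup F] [NormedSpace ℝ F] {f : E3 → F}
    (hf : HasCompactSupport f) (k : Fin 3) : HasCompactSupport (pd k f) :=
  hf.fderiv_apply ℝ _

theorem basic_memLp_real {φ : E3 → ℝ} (hc : Continuous φ) (hs : HasCompactSupport φ) :
    MemLp (fun x => ((φ x : ℝ) : ℂ)) 2 volume := by
  have h1 : Continuous fun x => ((φ x : ℝ) : ℂ) := Complex.continuous_ofReal.comp hc
  have h2 : HasCompactSupport fun x => ((φ x : ℝ) : ℂ) :=
    hs.comp_left (g := fun r : ℝ => (r : ℂ)) (by simp)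
  exact h1.memLp_of_hasCompactSupport h2

theorem basic_int_mul {φ : E3 → ℝ} (hc : Continuous φ) (hs : HasCompactSupport φ)
    (hu : MemLp u 2 volume) : Integrable (fun x => ((φ x : ℝ) : ℂ) * u x) :=
  (basic_memLp_real hc hs).integrable_mul hu

theorem basic_test_one {φ : E3 → ℝ} (hφ : ContDiff ℝ ((⊤ : ℕ∞) : WithTop ℕ∞) φ) :
    ContDiff ℝ 1 φ := hφ.of_le (by exact_mod_cast le_top)

theorem IsH1.zero : IsH1 0 0 :=
  ⟨MemLp.zero, fun _ => MemLp.zero, fun k φ _ _ => by simp⟩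

theorem IsH1.add (hu : IsH1 u g) (hv : IsH1 v h) : IsH1 (u + v) (g + h) := by
  refine ⟨hu.memL2.add hv.memL2, fun k => (hu.gradL2 k).add (hv.gradL2 k), fun k φ hφ hs => ?_⟩
  have h1 := basic_test_one hφ
  have a1 := basic_int_mul (basic_cont_pd h1 k) (basic_supp_pd hs k) hu.memL2
  have a2 := basic_int_mul (basic_cont_pd h1 k) (basic_supp_pd hs k) hv.memL2
  have b1 := basic_int_mul h1.continuous hs (hu.gradL2 k)
  have b2 := basic_int_mul h1.continuous hs (hv.gradL2 k)
  simp only [Pi.add_apply, mul_add]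
  rw [integral_add a1 a2, integral_add b1 b2, hu.weak k φ hφ hs, hv.weak k φ hφ hs]
  ring

theorem IsH1.smul (c : ℂ) (hu : IsH1 u g) : IsH1 (c • u) (c • g) := by
  refine ⟨hu.memL2.const_smul c, fun k => (hu.gradL2 k).const_smul c, fun k φ hφ hs => ?_⟩
  have e1 : (fun x => ((pd k φ x : ℝ) : ℂ) * (c • u) x) =
      fun x => c * (((pd k φ x : ℝ) : ℂ) * u x) := by
    funext x; simp only [Pi.smul_apply, smul_eq_mul]; ring
  have e2 : (fun x => ((φ x : ℝ) : ℂ) * (c • g) k x) = fun x => c * (((φ x : ℝ) : ℂ) * g k x) := by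
    funext x; simp only [Pi.smul_apply, smul_eq_mul]; ring
  rw [e1, e2, integral_const_mul, integral_const_mul, hu.weak k φ hφ hs]
  ring

theorem IsH1.sub (hu : IsH1 u g) (hv : IsH1 v h) : IsH1 (u - v) (g - h) := by
  have := hu.add (hv.smul (-1))
  simpa [sub_eq_add_neg] using this

theorem isH1_of_contDiff (hv : ContDiff ℝ 1 v) (h2 : MemLp v 2 volume)
    (hg : ∀ k, MemLp (pd k v) 2 volume) : IsH1 v (grad v) := by
  refine ⟨h2, hg, fun k φ hφ hs => ?_⟩
  have h1 := basic_test_one hφ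
  have a1 := basic_int_mul (basic_cont_pd h1 k) (basic_supp_pd hs k) h2
  have b1 := basic_int_mul h1.continuous hs (hg k)
  have c1 := basic_int_mul h1.continuous hs h2
  have key := integral_smul_fderiv_eq_neg_fderiv_smul_of_integrable (μ := volume) (f := φ) (g := v)
    (v := EuclideanSpace.single k (1 : ℝ))
    (by simpa [pd, Complex.real_smul] using a1) (by simpa [pd, Complex.real_smul] using b1)
    (by simpa [Complex.real_smul] using c1)
    (fun x _ => (h1.differentiable one_ne_zero) x) (fun x _ => (hv.differentiable one_ne_zero) x)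
  simp only [Complex.real_smul] at key
  simp only [grad, pd]
  rw [key, neg_neg]

theorem Nice.continuous_pd (hv : Nice v) (k : Fin 3) : Continuous (pd k v) :=
  basic_cont_pd hv.1 k

theorem Nice.hasCompactSupport_pd (hv : Nice v) (k : Fin 3) : HasCompactSupport (pd k v) :=
  basic_supp_pd hv.2 k

theorem Nice.memLp (hv : Nice v) : MemLp v 2 volume :=
  hv.1.continuous.memLp_of_hasCompactSupport hv.2

theorem Nice.isH1 (hv : Nice v) : IsH1 v (grad v) :=
  isH1_of_contDiff hv.1 hv.memLp fun k =>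
    (hv.continuous_pd k).memLp_of_hasCompactSupport (hv.hasCompactSupport_pd k)

theorem integrable_sq (hu : MemLp u 2 volume) : Integrable (fun x => ‖u x‖ ^ 2) :=
  (memLp_two_iff_integrable_sq_norm hu.1).1 hu

theorem integrable_ip (hu : MemLp u 2 volume) (hv : MemLp v 2 volume) :
    Integrable (fun x => conj (u x) * v x) :=
  hu.star.integrable_mul hv

theorem nrm_nonneg (u : E3 → ℂ) : 0 ≤ nrm u :=
  integral_nonneg fun _ => by positivity

theorem kin_nonneg (g : Fin 3 → E3 → ℂ) : 0 ≤ kin g :=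
  Finset.sum_nonneg fun k _ => nrm_nonneg (g k)

theorem cou_nonneg (a : E3) (u : E3 → ℂ) : 0 ≤ cou a u :=
  integral_nonneg fun _ => by positivity

theorem nrm_smul (c : ℂ) (u : E3 → ℂ) : nrm (c • u) = ‖c‖ ^ 2 * nrm u := by
  unfold nrm
  rw [← integral_const_mul]
  congr 1; funext x
  simp only [Pi.smul_apply, smul_eq_mul, norm_mul]; ring

theorem kin_smul (c : ℂ) (g : Fin 3 → E3 → ℂ) : kin (c • g) = ‖c‖ ^ 2 * kin g := by
  unfold kin
  rw [Finset.mul_sum]
  exact Finset.sum_congr rfl fun k _ => nrm_smul c (g k)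

theorem cou_smul (a : E3) (c : ℂ) (u : E3 → ℂ) : cou a (c • u) = ‖c‖ ^ 2 * cou a u := by
  unfold cou
  rw [← integral_const_mul]
  congr 1; funext x
  simp only [Pi.smul_apply, smul_eq_mul, norm_mul]; ring

theorem qf_smul (L : ℝ) (c : ℂ) (u : E3 → ℂ) (g : Fin 3 → E3 → ℂ) :
    qf L (c • u) (c • g) = ‖c‖ ^ 2 * qf L u g := by
  unfold qf
  rw [kin_smul, mul_sub, Finset.mul_sum]
  simp only [cou_smul]

theorem inner_toLp (hu : MemLp u 2 volume) (hv : MemLp v 2 volume) :
    inner ℂ (hu.toLp u) (hv.toLp v) = ip u v := by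
  rw [L2.inner_def]
  unfold ip
  refine integral_congr_ae ?_
  filter_upwards [hu.coeFn_toLp, hv.coeFn_toLp] with x h1 h2
  rw [h1, h2, RCLike.inner_apply, mul_comm]

theorem ip_self (hu : MemLp u 2 volume) : ip u u = (nrm u : ℝ) := by
  have _ := hu
  unfold ip nrm
  rw [← integral_complex_ofReal]
  congr 1; funext x
  rw [Complex.conj_mul']; push_cast; rfl

theorem norm_toLp_sq (hu : MemLp u 2 volume) : ‖hu.toLp u‖ ^ 2 = nrm u := by
  have h1 := inner_toLp hu hu
  rw [ip_self hu, inner_self_eq_norm_sq_to_K] at h1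
  have h2 : ((‖hu.toLp u‖ ^ 2 : ℝ) : ℂ) = ((nrm u : ℝ) : ℂ) := by
    rw [← h1]; push_cast; rfl
  exact_mod_cast h2

theorem norm_ip_sq_le (hu : MemLp u 2 volume) (hv : MemLp v 2 volume) :
    ‖ip u v‖ ^ 2 ≤ nrm u * nrm v := by
  rw [← inner_toLp hu hv, ← norm_toLp_sq hu, ← norm_toLp_sq hv, ← mul_pow]
  exact pow_le_pow_left₀ (norm_nonneg _) (norm_inner_le_norm _ _) 2

theorem nrm_add_le (hu : MemLp u 2 volume) (hv : MemLp v 2 volume) {s : ℝ} (hs : 0 < s) :
    nrm (u + v) ≤ (1 + s) * nrm u + (1 + 1 / s) * nrm v := by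
  rw [← norm_toLp_sq hu, ← norm_toLp_sq hv, ← norm_toLp_sq (hu.add hv), MemLp.toLp_add hu hv]
  have h1 := norm_add_le (hu.toLp u) (hv.toLp v)
  set a := ‖hu.toLp u‖
  set b := ‖hv.toLp v‖
  have h2 : ‖hu.toLp u + hv.toLp v‖ ^ 2 ≤ (a + b) ^ 2 :=
    pow_le_pow_left₀ (norm_nonneg _) h1 2
  have h3 : (1 + s) * a ^ 2 + (1 + 1 / s) * b ^ 2 - (a + b) ^ 2 = (s * a - b) ^ 2 / s := by
    field_simp; ring
  have h4 : 0 ≤ (s * a - b) ^ 2 / s := by positivity
  linarith

theorem basic_memLp_comb {w : Fin 3 → E3 → ℂ} (hw : ∀ j, MemLp (w j) 2 volume) (β : Fin 3 → ℂ) :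
    MemLp (∑ j, β j • w j) 2 volume :=
  memLp_finsetSum' _ fun j _ => (hw j).const_smul (β j)

theorem basic_toLp_comb {w : Fin 3 → E3 → ℂ} (hw : ∀ j, MemLp (w j) 2 volume) (β : Fin 3 → ℂ) :
    (basic_memLp_comb hw β).toLp (∑ j, β j • w j) = ∑ j, β j • (hw j).toLp (w j) := by
  simp only [Fin.sum_univ_three]
  rw [← MemLp.toLp_const_smul, ← MemLp.toLp_const_smul, ← MemLp.toLp_const_smul,
    ← MemLp.toLp_add, ← MemLp.toLp_add]

theorem basic_expand {w : Fin 3 → E3 → ℂ} (hw : ∀ j, MemLp (w j) 2 volume)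
    (ho : ∀ j k, ip (w j) (w k) = if j = k then 1 else 0) (hu : MemLp u 2 volume)
    (β : Fin 3 → ℂ) : nrm (u - ∑ j, β j • w j) =
      nrm u - ∑ j, ‖ip (w j) u‖ ^ 2 + ∑ j, ‖β j - ip (w j) u‖ ^ 2 := by
  have hon : Orthonormal ℂ fun j => (hw j).toLp (w j) := by
    rw [orthonormal_iff_ite]
    intro j k
    rw [inner_toLp, ho]
  rw [← norm_toLp_sq (hu.sub (basic_memLp_comb hw β)), MemLp.toLp_sub hu (basic_memLp_comb hw β),
    basic_toLp_comb hw β, ← norm_toLp_sq hu, @norm_sub_sq ℂ]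
  have e1 : ‖∑ j, β j • (hw j).toLp (w j)‖ ^ 2 = ∑ j, ‖β j‖ ^ 2 := by
    have := hon.inner_sum β β Finset.univ
    rw [inner_self_eq_norm_sq_to_K] at this
    have h2 : ((‖∑ j, β j • (hw j).toLp (w j)‖ ^ 2 : ℝ) : ℂ) = ((∑ j, ‖β j‖ ^ 2 : ℝ) : ℂ) := by
      push_cast
      refine Eq.trans ?_ (this.trans ?_)
      · rfl
      · exact Finset.sum_congr rfl fun j _ => by rw [Complex.conj_mul']
    exact_mod_cast h2
  have e2 : inner ℂ (hu.toLp u) (∑ j, β j • (hw j).toLp (w j)) =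
      ∑ j, β j * conj (ip (w j) u) := by
    rw [inner_sum]
    refine Finset.sum_congr rfl fun j _ => ?_
    rw [inner_smul_right, ← inner_toLp (hw j) hu, inner_conj_symm]
  rw [e1, e2]
  simp only [RCLike.re_to_complex, Complex.re_sum]
  have e3 : ∀ j, ‖β j - ip (w j) u‖ ^ 2 =
      ‖β j‖ ^ 2 + ‖ip (w j) u‖ ^ 2 - 2 * (β j * conj (ip (w j) u)).re := by
    intro j
    simp only [← Complex.normSq_eq_norm_sq, Complex.normSq_sub]
  simp only [e3, Fin.sum_univ_three]
  ring

/-- Pythagoras for the projection onto three orthonormal functions. -/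
theorem nrm_sub_proj {w : Fin 3 → E3 → ℂ} (hw : ∀ j, MemLp (w j) 2 volume)
    (ho : ∀ j k, ip (w j) (w k) = if j = k then 1 else 0) (hu : MemLp u 2 volume) :
    nrm (u - ∑ j, ip (w j) u • w j) = nrm u - ∑ j, ‖ip (w j) u‖ ^ 2 := by
  rw [basic_expand hw ho hu]
  simp

/-- The projection is the best approximation. -/
theorem proj_le {w : Fin 3 → E3 → ℂ} (hw : ∀ j, MemLp (w j) 2 volume)
    (ho : ∀ j k, ip (w j) (w k) = if j = k then 1 else 0) (hu : MemLp u 2 volume)
    (β : Fin 3 → ℂ) : nrm u - ∑ j, ‖ip (w j) u‖ ^ 2 ≤ nrm (u - ∑ j, β j • w j) := by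
  rw [basic_expand hw ho hu]
  have : 0 ≤ ∑ j, ‖β j - ip (w j) u‖ ^ 2 := Finset.sum_nonneg fun j _ => by positivity
  linarith

theorem integrable_exp_neg_norm : Integrable (fun x : E3 => Real.exp (-‖x‖)) := by
  have h1 : Integrable (fun x : E3 => (1 + ‖x‖) ^ (-(4 : ℝ))) volume :=
    integrable_one_add_norm (by simp; norm_num)
  refine (h1.const_mul (24 * Real.exp 1)).mono' (by fun_prop) (Eventually.of_forall fun x => ?_)
  have hx : 0 < 1 + ‖x‖ := by positivity
  rw [Real.norm_eq_abs, abs_of_pos (Real.exp_pos _), Real.rpow_neg hx.le]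
  have h2 : (1 + ‖x‖) ^ 4 / 24 ≤ Real.exp (1 + ‖x‖) := by
    have := Real.pow_div_factorial_le_exp (1 + ‖x‖) hx.le 4
    simpa [Nat.factorial] using this
  have h3 : (1 + ‖x‖) ^ (4 : ℝ) = (1 + ‖x‖) ^ 4 := by exact_mod_cast Real.rpow_natCast (1 + ‖x‖) 4
  rw [h3, ← div_eq_mul_inv, le_div_iff₀ (by positivity)]
  have h4 : Real.exp (-‖x‖) * Real.exp (1 + ‖x‖) = Real.exp 1 := by
    rw [← Real.exp_add]; congr 1; ring
  have h5 : 0 < Real.exp (-‖x‖) := Real.exp_pos _
  nlinarith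

/-! Coordinate permutations. -/

@[simp] theorem prm_apply (π : Equiv.Perm (Fin 3)) (x : E3) (j : Fin 3) : prm π x j = x (π j) := rfl

/-- The coordinate permutation as a linear isometry. -/
noncomputable def basic_iso (π : Equiv.Perm (Fin 3)) : E3 ≃ₗᵢ[ℝ] E3 :=
  LinearIsometryEquiv.piLpCongrLeft 2 ℝ ℝ π.symm

theorem basic_iso_apply (π : Equiv.Perm (Fin 3)) (x : E3) : basic_iso π x = prm π x := by
  ext j
  simp [basic_iso, LinearIsometryEquiv.piLpCongrLeft_apply, Equiv.piCongrLeft']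

theorem basic_iso_coe (π : Equiv.Perm (Fin 3)) : (basic_iso π : E3 → E3) = prm π :=
  funext (basic_iso_apply π)

theorem prm_prm (π π' : Equiv.Perm (Fin 3)) (x : E3) : prm π (prm π' x) = prm (π' * π) x := by
  ext j; simp

theorem prm_one (x : E3) : prm 1 x = x := by
  ext j; simp

theorem prm_sub (π : Equiv.Perm (Fin 3)) (x y : E3) : prm π (x - y) = prm π x - prm π y := by
  ext j; simp

theorem norm_prm (π : Equiv.Perm (Fin 3)) (x : E3) : ‖prm π x‖ = ‖x‖ := by
  rw [← basic_iso_apply]; exact (basic_iso π).norm_map x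

theorem prm_site (π : Equiv.Perm (Fin 3)) (L : ℝ) (j : Fin 3) :
    prm π (site L (π j)) = site L j := by
  ext k
  simp [site]

theorem contDiff_prm (π : Equiv.Perm (Fin 3)) {n : WithTop ℕ∞} : ContDiff ℝ n (prm π) := by
  rw [← basic_iso_coe]
  exact (basic_iso π).contDiff

theorem measurePreserving_prm (π : Equiv.Perm (Fin 3)) :
    MeasurePreserving (prm π) volume volume := by
  rw [← basic_iso_coe]
  exact (basic_iso π).measurePreserving

theorem integral_prm {F : Type} [NormedAddCommGroup F] [NormedSpace ℝ F] (π : Equiv.Perm (Fin 3))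
    (f : E3 → F) : ∫ x, f (prm π x) = ∫ x, f x := by
  refine (measurePreserving_prm π).integral_comp ?_ f
  rw [← basic_iso_coe]
  exact (basic_iso π).toHomeomorph.measurableEmbedding

theorem pd_prm {F : Type} [NormedAddCommGroup F] [NormedSpace ℝ F] (π : Equiv.Perm (Fin 3))
    (f : E3 → F) (k : Fin 3) (x : E3) :
    pd k (fun y => f (prm π y)) x = pd (π.symm k) f (prm π x) := by
  have h1 := (basic_iso π).toContinuousLinearEquiv.comp_right_fderiv (f := f) (x := x)
  have e : (fun y => f (prm π y)) = f ∘ (basic_iso π).toContinuousLinearEquiv := by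
    funext y
    simp [basic_iso_apply]
  have e2 : prm π (EuclideanSpace.single k (1 : ℝ)) = EuclideanSpace.single (π.symm k) (1 : ℝ) := by
    ext j
    simp [Equiv.eq_symm_apply]
  unfold pd
  rw [e, h1]
  simp [basic_iso_apply, e2]

theorem basic_supp_prm {F : Type} [Zero F] {f : E3 → F} (hf : HasCompactSupport f)
    (π : Equiv.Perm (Fin 3)) : HasCompactSupport fun x => f (prm π x) := by
  have := hf.comp_homeomorph (basic_iso π).toHomeomorph
  have e : (fun x => f (prm π x)) = f ∘ (basic_iso π).toHomeomorph := by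
    funext x
    simp [basic_iso_apply]
  rw [e]
  exact this

theorem Nice.comp_prm (hv : Nice v) (π : Equiv.Perm (Fin 3)) : Nice fun x => v (prm π x) :=
  ⟨hv.1.comp (contDiff_prm π), basic_supp_prm hv.2 π⟩

theorem IsH1.comp_prm (hu : IsH1 u g) (π : Equiv.Perm (Fin 3)) :
    IsH1 (fun x => u (prm π x)) (fun k x => g (π.symm k) (prm π x)) := by
  refine ⟨hu.memL2.comp_measurePreserving (measurePreserving_prm π),
    fun k => (hu.gradL2 _).comp_measurePreserving (measurePreserving_prm π), fun k φ hφ hs => ?_⟩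
  have hφ' : ContDiff ℝ ((⊤ : ℕ∞) : WithTop ℕ∞) fun y => φ (prm π⁻¹ y) :=
    hφ.comp (contDiff_prm π⁻¹)
  have key := hu.weak (π.symm k) _ hφ' (basic_supp_prm hs π⁻¹)
  rw [← integral_prm π, ← integral_prm π (fun x => ((φ (prm π⁻¹ x) : ℝ) : ℂ) * g (π.symm k) x)]
    at key
  simp only [pd_prm, prm_prm, mul_inv_cancel, prm_one] at key
  have e : (π⁻¹).symm (π.symm k) = k := by
    simp [Equiv.Perm.inv_def]
  rw [e] at key
  exact key

theorem nrm_prm (π : Equiv.Perm (Fin 3)) (u : E3 → ℂ) : nrm (fun x => u (prm π x)) = nrm u :=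
  integral_prm π fun x => ‖u x‖ ^ 2

theorem ip_prm (π : Equiv.Perm (Fin 3)) (u v : E3 → ℂ) :
    ip (fun x => u (prm π x)) (fun x => v (prm π x)) = ip u v :=
  integral_prm π fun x => conj (u x) * v x

theorem kin_prm (π : Equiv.Perm (Fin 3)) (g : Fin 3 → E3 → ℂ) :
    kin (fun k x => g (π.symm k) (prm π x)) = kin g := by
  unfold kin
  simp only [nrm_prm]
  exact Equiv.sum_comp π.symm fun k => nrm (g k)

theorem cou_prm (π : Equiv.Perm (Fin 3)) (L : ℝ) (j : Fin 3) (u : E3 → ℂ) :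
    cou (site L (π j)) (fun x => u (prm π x)) = cou (site L j) u := by
  unfold cou
  rw [← integral_prm π fun x => ‖u x‖ ^ 2 / ‖x - site L j‖]
  congr 1; funext x
  rw [← prm_site π L j, ← prm_sub, norm_prm]

theorem qf_prm (π : Equiv.Perm (Fin 3)) (L : ℝ) (u : E3 → ℂ) (g : Fin 3 → E3 → ℂ) :
    qf L (fun x => u (prm π x)) (fun k x => g (π.symm k) (prm π x)) = qf L u g := by
  unfold qf
  rw [kin_prm, ← Equiv.sum_comp π fun j => cou (site L j) fun x => u (prm π x)]
  simp only [cou_prm]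

theorem norm_site_sub (L : ℝ) {j k : Fin 3} (hjk : j ≠ k) :
    ‖site L j - site L k‖ ^ 2 = 2 * L ^ 2 := by
  rw [EuclideanSpace.real_norm_sq_eq]
  fin_cases j <;> fin_cases k <;> first | exact absurd rfl hjk | (simp [site, Fin.sum_univ_three]; ring)

end Pool.Agent.MP_e62678_mp.H54
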