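import Pool.Agent.MP_e62678_mp.H54.Work

/-! Symmetry sectors of an abstract quadratic form with a `D₃` symmetry. -/

open MeasureTheory Filter Topology
open scoped ComplexConjugate

namespace Pool.Agent.MP_e62678_mp.H54

theorem om_sum : 1 + om + om ^ 2 = 0 := by
  have h3 : ((Real.sqrt 3 : ℝ) : ℂ) ^ 2 = 3 := by
    rw [← Complex.ofReal_pow, Real.sq_sqrt (by norm_num)]; norm_num
  have hI : Complex.I ^ 2 = -1 := Complex.I_sq
  unfold om
  linear_combination (Complex.I ^ 2 / 4) * h3 + (3 / 4) * hI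

theorem om_cube : om ^ 3 = 1 := by
  linear_combination (om - 1) * om_sum

theorem sector_norm_of_cube {m : ℂ} (hm : m ^ 3 = 1) : ‖m‖ = 1 := by
  have h : ‖m‖ ^ 3 = 1 := by rw [← norm_pow, hm, norm_one]
  exact (pow_eq_one_iff_of_nonneg (norm_nonneg m) (by norm_num)).1 h

theorem sector_conj_of_cube {m : ℂ} (hm : m ^ 3 = 1) : conj m = m ^ 2 := by
  have h : m * conj m = 1 := by
    rw [Complex.mul_conj, Complex.normSq_eq_norm_sq, sector_norm_of_cube hm]; norm_num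
  linear_combination m ^ 2 * h - conj m * hm

theorem norm_om : ‖om‖ = 1 := sector_norm_of_cube om_cube

theorem conj_om : conj om = om ^ 2 := sector_conj_of_cube om_cube

theorem sector_om_ne_one : om ≠ 1 := by
  intro h
  have := om_sum
  rw [h] at this
  norm_num at this

theorem sector_om_sq_cube : (om ^ 2) ^ 3 = 1 := by
  linear_combination (om ^ 3 + 1) * om_cube

theorem sector_parseval (a b c : ℂ) :
    ‖a + b + c‖ ^ 2 + ‖a + om * b + om ^ 2 * c‖ ^ 2 + ‖a + om ^ 2 * b + om * c‖ ^ 2 =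
      3 * (‖a‖ ^ 2 + ‖b‖ ^ 2 + ‖c‖ ^ 2) := by
  have key : ∀ z : ℂ, ((‖z‖ ^ 2 : ℝ) : ℂ) = z * conj z := by
    intro z; rw [Complex.mul_conj, Complex.normSq_eq_norm_sq]
  apply Complex.ofReal_injective
  simp only [Complex.ofReal_add, Complex.ofReal_mul, key, map_add, map_mul, map_pow, conj_om]
  have h1 := om_sum
  have h2 := om_cube
  push_cast
  linear_combination
    (a * conj b + b * conj a + a * conj c + c * conj a + b * conj c + c * conj b) * h1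
      + (a * conj b * om + a * conj c * om + b * conj b * (om ^ 3 + 2) + c * conj c * (om ^ 3 + 2)
        + b * conj c * (om ^ 2 + om) + c * conj b * (om ^ 2 + om)) * h2

section abstract

variable {S X : Type} [AddCommGroup S] [Module ℂ S] [NormedAddCommGroup X]
  [InnerProductSpace ℂ X]

/-- Every vector splits into the three sectors. -/
theorem sector_split (T : S →ₗ[ℂ] S) (hT3 : ∀ u, T (T (T u)) = u) (u : S) :
    ∃ a b c : S, T a = a ∧ T b = om ^ 2 • b ∧ T c = om • c ∧ u = a + b + c := by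
  have h1 := om_sum
  have h2 := om_cube
  refine ⟨(1 / 3 : ℂ) • (u + T u + T (T u)), (1 / 3 : ℂ) • (u + om • T u + om ^ 2 • T (T u)),
    (1 / 3 : ℂ) • (u + om ^ 2 • T u + om • T (T u)), ?_, ?_, ?_, ?_⟩
  · simp only [map_smul, map_add, hT3]
    module
  · simp only [map_smul, map_add, hT3]
    match_scalars
    · linear_combination (-(1 / 3 : ℂ)) * h2
    · linear_combination (-(1 / 3 : ℂ) * om) * h2
    · ring
  · simp only [map_smul, map_add, hT3]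
    match_scalars
    · linear_combination (-(1 / 3 : ℂ)) * h2
    · ring
    · ring
  · match_scalars
    · ring
    · linear_combination (-(1 / 3 : ℂ)) * h1
    · linear_combination (-(1 / 3 : ℂ)) * h1

/-- The form is additive across sectors. -/
theorem sector_q_add (q : S → ℝ) (T : S →ₗ[ℂ] S) (hqT : ∀ u, q (T u) = q u)
    (hqs : ∀ (c : ℂ) u, q (c • u) = ‖c‖ ^ 2 * q u)
    (hdft : ∀ a b c, q (a + b + c) + q (a + om • b + om ^ 2 • c) + q (a + om ^ 2 • b + om • c) =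
      3 * (q a + q b + q c))
    {a b c : S} (ha : T a = a) (hb : T b = om ^ 2 • b) (hc : T c = om • c) :
    q (a + b + c) = q a + q b + q c := by
  have h1 := om_sum
  have h2 := om_cube
  have key := hdft (a + b + c) (T (a + b + c)) (T (T (a + b + c)))
  have e0 : a + b + c + T (a + b + c) + T (T (a + b + c)) = (3 : ℂ) • a := by
    simp only [map_smul, map_add, ha, hb, hc]
    match_scalars
    · ring
    · linear_combination h1 + om * h2
    · linear_combination h1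
  have e1 : a + b + c + om • T (a + b + c) + om ^ 2 • T (T (a + b + c)) = (3 : ℂ) • b := by
    simp only [map_smul, map_add, ha, hb, hc]
    match_scalars
    · linear_combination h1
    · linear_combination (om ^ 3 + 2) * h2
    · linear_combination h1 + om * h2
  have e2 : a + b + c + om ^ 2 • T (a + b + c) + om • T (T (a + b + c)) = (3 : ℂ) • c := by
    simp only [map_smul, map_add, ha, hb, hc]
    match_scalars
    · linear_combination h1
    · linear_combination h1 + (om + om ^ 2) * h2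
    · linear_combination 2 * h2
  rw [e0, e1, e2, hqs, hqs, hqs, hqT (T _), hqT] at key
  have h3 : ‖(3 : ℂ)‖ = 3 := by simp
  rw [h3] at key
  linarith

/-- Different sectors are orthogonal. -/
theorem sector_orth (ι : S →ₗ[ℂ] X) (T : S →ₗ[ℂ] S)
    (hιT : ∀ u v, inner ℂ (ι (T u)) (ι (T v)) = inner ℂ (ι u) (ι v))
    {l m : ℂ} {a b : S} (ha : T a = l • a) (hb : T b = m • b) (hlm : conj l * m ≠ 1) :
    inner ℂ (ι a) (ι b) = 0 := by
  have h := hιT a b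
  rw [ha, hb, map_smul, map_smul, inner_smul_left, inner_smul_right] at h
  have h' : (conj l * m - 1) * inner ℂ (ι a) (ι b) = 0 := by linear_combination h
  rcases mul_eq_zero.1 h' with h0 | h0
  · exact absurd (sub_eq_zero.1 h0) hlm
  · exact h0

theorem sector_orth01 (ι : S →ₗ[ℂ] X) (T : S →ₗ[ℂ] S)
    (hιT : ∀ u v, inner ℂ (ι (T u)) (ι (T v)) = inner ℂ (ι u) (ι v))
    {a b : S} (ha : T a = a) (hb : T b = om ^ 2 • b) : inner ℂ (ι a) (ι b) = 0 := by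
  refine sector_orth ι T hιT (l := 1) (by rw [ha, one_smul]) hb ?_
  rw [map_one, one_mul]
  intro h
  apply sector_om_ne_one
  linear_combination om_cube - om * h

theorem sector_orth02 (ι : S →ₗ[ℂ] X) (T : S →ₗ[ℂ] S)
    (hιT : ∀ u v, inner ℂ (ι (T u)) (ι (T v)) = inner ℂ (ι u) (ι v))
    {a c : S} (ha : T a = a) (hc : T c = om • c) : inner ℂ (ι a) (ι c) = 0 := by
  refine sector_orth ι T hιT (l := 1) (by rw [ha, one_smul]) hc ?_
  rw [map_one, one_mul]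
  exact sector_om_ne_one

theorem sector_orth12 (ι : S →ₗ[ℂ] X) (T : S →ₗ[ℂ] S)
    (hιT : ∀ u v, inner ℂ (ι (T u)) (ι (T v)) = inner ℂ (ι u) (ι v))
    {b c : S} (hb : T b = om ^ 2 • b) (hc : T c = om • c) : inner ℂ (ι b) (ι c) = 0 := by
  refine sector_orth ι T hιT hb hc ?_
  rw [map_pow, conj_om]
  intro h
  apply sector_om_ne_one
  linear_combination (1 - om ^ 3) * om_cube - om_cube * (-om ^ 3) - om * h + om ^ 3 * om_cube

/-- The squared norm is additive across sectors. -/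
theorem sector_norm_add (ι : S →ₗ[ℂ] X) (T : S →ₗ[ℂ] S)
    (hιT : ∀ u v, inner ℂ (ι (T u)) (ι (T v)) = inner ℂ (ι u) (ι v))
    {a b c : S} (ha : T a = a) (hb : T b = om ^ 2 • b) (hc : T c = om • c) :
    ‖ι (a + b + c)‖ ^ 2 = ‖ι a‖ ^ 2 + ‖ι b‖ ^ 2 + ‖ι c‖ ^ 2 := by
  have h01 := sector_orth01 ι T hιT ha hb
  have h02 := sector_orth02 ι T hιT ha hc
  have h12 := sector_orth12 ι T hιT hb hc
  rw [map_add, map_add, @norm_add_sq ℂ, @norm_add_sq ℂ, inner_add_left, h01, h02, h12]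
  simp

/-- Coefficients of a sector vector on the three wells. -/
theorem sector_coef (ι : S →ₗ[ℂ] X) (T : S →ₗ[ℂ] S) (w : Fin 3 → S)
    (hιT : ∀ u v, inner ℂ (ι (T u)) (ι (T v)) = inner ℂ (ι u) (ι v))
    (hTw : ∀ j, T (w j) = w (j + 1)) {m : ℂ} (hm : m ^ 3 = 1) {a : S} (ha : T a = m ^ 2 • a) :
    inner ℂ (ι (w 1)) (ι a) = m * inner ℂ (ι (w 0)) (ι a) ∧
      inner ℂ (ι (w 2)) (ι a) = m ^ 2 * inner ℂ (ι (w 0)) (ι a) := by
  have h0 := hιT (w 0) a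
  have h1 := hιT (w 1) a
  rw [hTw, ha, map_smul, inner_smul_right] at h0 h1
  have e1 : (0 : Fin 3) + 1 = 1 := rfl
  have e2 : (1 : Fin 3) + 1 = 2 := rfl
  rw [e1] at h0
  rw [e2] at h1
  have r1 : inner ℂ (ι (w 1)) (ι a) = m * inner ℂ (ι (w 0)) (ι a) := by
    linear_combination m * h0 - inner ℂ (ι (w 1)) (ι a) * hm
  refine ⟨r1, ?_⟩
  linear_combination m * h1 - inner ℂ (ι (w 2)) (ι a) * hm + m * r1

theorem sector_sqrt3 : ((Real.sqrt 3 : ℝ) : ℂ) ^ 2 = 3 := by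
  rw [← Complex.ofReal_pow, Real.sq_sqrt (by norm_num)]; norm_num

theorem sector_sqrt3_ne : ((Real.sqrt 3 : ℝ) : ℂ) ≠ 0 := by
  intro h
  have := sector_sqrt3
  rw [h] at this
  norm_num at this

theorem sector_norm_coef {m : ℂ} (hm : m ^ 3 = 1) (j : ℕ) :
    ‖m ^ j / ((Real.sqrt 3 : ℝ) : ℂ)‖ ^ 2 = 1 / 3 := by
  rw [norm_div, norm_pow, sector_norm_of_cube hm, one_pow, Complex.norm_real, Real.norm_eq_abs,
    div_pow, sq_abs, Real.sq_sqrt (by norm_num)]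
  norm_num

/-- The symmetric combination of the wells is a unit vector of the sector. -/
theorem sector_Phi (ι : S →ₗ[ℂ] X) (T : S →ₗ[ℂ] S) (w : Fin 3 → S)
    (hw : Orthonormal ℂ fun j => ι (w j)) (hTw : ∀ j, T (w j) = w (j + 1))
    {m : ℂ} (hm : m ^ 3 = 1) :
    T (∑ j : Fin 3, (m ^ j.val / (Real.sqrt 3 : ℝ)) • w j) =
        m ^ 2 • (∑ j : Fin 3, (m ^ j.val / (Real.sqrt 3 : ℝ)) • w j) ∧
      ‖ι (∑ j : Fin 3, (m ^ j.val / (Real.sqrt 3 : ℝ)) • w j)‖ = 1 := by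
  constructor
  · have e1 : (0 : Fin 3) + 1 = 1 := rfl
    have e2 : (1 : Fin 3) + 1 = 2 := rfl
    have e3 : (2 : Fin 3) + 1 = 0 := rfl
    simp only [Fin.sum_univ_three, map_add, map_smul, hTw, e1, e2, e3, Fin.val_zero, Fin.val_one,
      Fin.val_two]
    match_scalars
    · linear_combination (-(((Real.sqrt 3 : ℝ) : ℂ))⁻¹) * hm
    · linear_combination (-(((Real.sqrt 3 : ℝ) : ℂ))⁻¹ * m) * hm
    · ring
  · have h := hw.inner_sum (fun j : Fin 3 => m ^ j.val / ((Real.sqrt 3 : ℝ) : ℂ))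
      (fun j : Fin 3 => m ^ j.val / ((Real.sqrt 3 : ℝ) : ℂ)) Finset.univ
    have h2 : ‖ι (∑ j : Fin 3, (m ^ j.val / (Real.sqrt 3 : ℝ)) • w j)‖ ^ 2 = 1 := by
      apply Complex.ofReal_injective
      rw [map_sum]
      simp only [map_smul]
      have h3 := inner_self_eq_norm_sq_to_K (𝕜 := ℂ)
        (∑ j : Fin 3, (m ^ j.val / ((Real.sqrt 3 : ℝ) : ℂ)) • ι (w j))
      rw [h] at h3
      have h4 : ∀ j : Fin 3, conj (m ^ j.val / ((Real.sqrt 3 : ℝ) : ℂ)) *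
          (m ^ j.val / ((Real.sqrt 3 : ℝ) : ℂ)) = 1 / 3 := by
        intro j
        rw [mul_comm, Complex.mul_conj, Complex.normSq_eq_norm_sq, sector_norm_coef hm]
        norm_num
      simp only [h4] at h3
      push_cast
      simp only [Fin.sum_univ_three] at h3 ⊢
      have h5 : (1 / 3 + 1 / 3 + 1 / 3 : ℂ) = 1 := by norm_num
      rw [h5] at h3
      exact h3.symm
    exact (pow_eq_one_iff_of_nonneg (norm_nonneg _) (by norm_num)).1 h2

theorem sector_bessel (ι : S →ₗ[ℂ] X) (w : Fin 3 → S) (hw : Orthonormal ℂ fun j => ι (w j))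
    (u : S) : ∑ j, ‖inner ℂ (ι (w j)) (ι u)‖ ^ 2 ≤ ‖ι u‖ ^ 2 :=
  hw.sum_inner_products_le (ι u)

/-- A low-energy unit vector of a sector is, up to a phase, close to the symmetric combination. -/
theorem sector_close (ι : S →ₗ[ℂ] X) (q : S → ℝ) (T : S →ₗ[ℂ] S) (w : Fin 3 → S)
    (g δ : ℝ) (hg : 0 < g)
    (hιT : ∀ u v, inner ℂ (ι (T u)) (ι (T v)) = inner ℂ (ι u) (ι v))
    (hw : Orthonormal ℂ fun j => ι (w j)) (hTw : ∀ j, T (w j) = w (j + 1))
    (P1 : ∀ u, g * (‖ι u‖ ^ 2 - ∑ j, ‖inner ℂ (ι (w j)) (ι u)‖ ^ 2) ≤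
      q u + (1 / 4 + δ) * ‖ι u‖ ^ 2)
    {m : ℂ} (hm : m ^ 3 = 1) {a : S} (ha : T a = m ^ 2 • a) (ha1 : ‖ι a‖ = 1)
    (hqa : q a ≤ -1 / 4 + 2 * δ) :
    ∃ c : ℂ, ‖c‖ = 1 ∧
      ‖ι (c • a) - ∑ j : Fin 3, (m ^ j.val / (Real.sqrt 3 : ℝ)) • ι (w j)‖ ^ 2 ≤ 6 * δ / g := by
  obtain ⟨r1, r2⟩ := sector_coef ι T w hιT hTw hm ha
  have hΦ := (sector_Phi ι T w hw hTw hm).2
  rw [map_sum] at hΦ
  simp only [map_smul] at hΦ
  set Φ : X := ∑ j : Fin 3, (m ^ j.val / ((Real.sqrt 3 : ℝ) : ℂ)) • ι (w j) with hΦdef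
  set α : ℂ := inner ℂ (ι (w 0)) (ι a) with hα
  have hs := sector_sqrt3
  have hs0 := sector_sqrt3_ne
  have hz : inner ℂ Φ (ι a) = ((Real.sqrt 3 : ℝ) : ℂ) * α := by
    rw [hΦdef]
    simp only [Fin.sum_univ_three, inner_add_left, inner_smul_left, r1, r2, ← hα, map_div₀,
      map_pow, Complex.conj_ofReal, sector_conj_of_cube hm, Fin.val_zero, Fin.val_one,
      Fin.val_two]
    field_simp
    linear_combination α * (m ^ 3 + 2) * hm - α * hs
  have hW : ∑ j, ‖inner ℂ (ι (w j)) (ι a)‖ ^ 2 = ‖inner ℂ Φ (ι a)‖ ^ 2 := by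
    rw [hz, Fin.sum_univ_three, r1, r2, ← hα]
    simp only [norm_mul, norm_pow, sector_norm_of_cube hm, Complex.norm_real, Real.norm_eq_abs,
      mul_pow, sq_abs]
    rw [Real.sq_sqrt (by norm_num)]
    ring
  obtain ⟨c, hc1, hc⟩ := Complex.exists_norm_eq_mul_self (inner ℂ Φ (ι a))
  refine ⟨c, hc1, ?_⟩
  set b : ℝ := ‖inner ℂ Φ (ι a)‖ with hb
  have hb0 : 0 ≤ b := norm_nonneg _
  have hB := sector_bessel ι w hw a
  have hP := P1 a
  rw [hW, ha1] at hB hP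
  have hb1 : b ≤ 1 := by nlinarith
  have hn : ‖ι (c • a) - Φ‖ ^ 2 = 2 - 2 * b := by
    rw [norm_sub_rev, @norm_sub_sq ℂ, hΦ, map_smul, inner_smul_right, ← hc, norm_smul, hc1, ha1]
    simp
    ring
  rw [hn, le_div_iff₀ hg]
  have h1 : g * (1 - b ^ 2) ≤ 3 * δ := by nlinarith
  have h2 : g * (1 - b) ≤ g * (1 - b ^ 2) := by
    apply mul_le_mul_of_nonneg_left _ hg.le
    nlinarith
  nlinarith

/-- The bottom of the form on one sector. -/
theorem sector_bottom (ι : S →ₗ[ℂ] X) (q : S → ℝ) (T : S →ₗ[ℂ] S) (w : Fin 3 → S)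
    (g δ : ℝ) (hg : 0 < g)
    (hqs : ∀ (c : ℂ) u, q (c • u) = ‖c‖ ^ 2 * q u)
    (hw : Orthonormal ℂ fun j => ι (w j)) (hTw : ∀ j, T (w j) = w (j + 1))
    (P1 : ∀ u, g * (‖ι u‖ ^ 2 - ∑ j, ‖inner ℂ (ι (w j)) (ι u)‖ ^ 2) ≤
      q u + (1 / 4 + δ) * ‖ι u‖ ^ 2)
    (P2 : ∀ α : Fin 3 → ℂ, q (∑ j, α j • w j) ≤ (-1 / 4 + δ) * ∑ j, ‖α j‖ ^ 2)
    {m : ℂ} (hm : m ^ 3 = 1) :
    ∃ E : ℝ, -(1 / 4 + δ) ≤ E ∧ E ≤ -1 / 4 + δ ∧ (∀ v, T v = m ^ 2 • v → E * ‖ι v‖ ^ 2 ≤ q v) ∧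
      ∀ ε : ℝ, 0 < ε → ∃ a, T a = m ^ 2 • a ∧ ‖ι a‖ = 1 ∧ q a ≤ E + ε := by
  have hlow : ∀ u, -(1 / 4 + δ) * ‖ι u‖ ^ 2 ≤ q u := by
    intro u
    have h1 := P1 u
    have h2 := sector_bessel ι w hw u
    have h3 : 0 ≤ g * (‖ι u‖ ^ 2 - ∑ j, ‖inner ℂ (ι (w j)) (ι u)‖ ^ 2) :=
      mul_nonneg hg.le (by linarith)
    linarith
  set A : Set ℝ := {r | ∃ u, T u = m ^ 2 • u ∧ ‖ι u‖ = 1 ∧ q u = r} with hA
  obtain ⟨hΦ1, hΦ2⟩ := sector_Phi ι T w hw hTw hm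
  have hmem : q (∑ j : Fin 3, (m ^ j.val / (Real.sqrt 3 : ℝ)) • w j) ∈ A := ⟨_, hΦ1, hΦ2, rfl⟩
  have hne : A.Nonempty := ⟨_, hmem⟩
  have hlb : ∀ r ∈ A, -(1 / 4 + δ) ≤ r := by
    rintro r ⟨u, -, hu1, rfl⟩
    have := hlow u
    rw [hu1] at this
    linarith
  have hbdd : BddBelow A := ⟨_, hlb⟩
  refine ⟨sInf A, le_csInf hne hlb, ?_, ?_, ?_⟩
  · refine (csInf_le hbdd hmem).trans ?_
    have h := P2 (fun j : Fin 3 => m ^ j.val / ((Real.sqrt 3 : ℝ) : ℂ))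
    simp only [sector_norm_coef hm] at h
    rw [Fin.sum_univ_three (f := fun _ => (1 / 3 : ℝ))] at h
    linarith
  · intro v hv
    by_cases h0 : ‖ι v‖ = 0
    · have := hlow v
      rw [h0] at this ⊢
      simpa using this
    · have hpos : 0 < ‖ι v‖ := lt_of_le_of_ne (norm_nonneg _) (Ne.symm h0)
      have hc : ‖((‖ι v‖⁻¹ : ℝ) : ℂ)‖ = ‖ι v‖⁻¹ := by
        rw [Complex.norm_real, Real.norm_eq_abs, abs_of_pos (inv_pos.2 hpos)]
      have hmem' : q (((‖ι v‖⁻¹ : ℝ) : ℂ) • v) ∈ A := by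
        refine ⟨_, ?_, ?_, rfl⟩
        · rw [map_smul, hv, smul_comm]
        · rw [map_smul, norm_smul, hc, inv_mul_cancel₀ h0]
      have h := csInf_le hbdd hmem'
      rw [hqs, hc] at h
      have h2 : sInf A * ‖ι v‖ ^ 2 ≤ (‖ι v‖⁻¹ ^ 2 * q v) * ‖ι v‖ ^ 2 :=
        mul_le_mul_of_nonneg_right h (by positivity)
      have h3 : (‖ι v‖⁻¹ ^ 2 * q v) * ‖ι v‖ ^ 2 = q v := by field_simp
      linarith
  · intro ε hε
    obtain ⟨r, ⟨u, hu, hu1, rfl⟩, hr⟩ := exists_lt_of_csInf_lt hne (lt_add_of_pos_right _ hε)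
    exact ⟨u, hu, hu1, hr.le⟩

theorem sector_norm_iso (ι : S →ₗ[ℂ] X) (σ : S →ₗ[ℂ] S)
    (hισ : ∀ u v, inner ℂ (ι (σ u)) (ι (σ v)) = inner ℂ (ι u) (ι v)) (u : S) :
    ‖ι (σ u)‖ = ‖ι u‖ := by
  rw [@norm_eq_sqrt_re_inner ℂ, @norm_eq_sqrt_re_inner ℂ _ _ _ _ (ι u), hισ]

/-- The reflection inverts the sector eigenvalue. -/
theorem sector_swap (T σ : S →ₗ[ℂ] S) (hT3 : ∀ u, T (T (T u)) = u)
    (hσT : ∀ u, σ (T u) = T (T (σ u))) {l l' : ℂ} (hl : l' * l = 1) {u : S} (hu : T u = l • u) :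
    T (σ u) = l' • σ u := by
  have h := hσT u
  rw [hu, map_smul] at h
  have h2 := congrArg T h
  rw [hT3, map_smul] at h2
  calc T (σ u) = (l' * l) • T (σ u) := by rw [hl, one_smul]
    _ = l' • σ u := by rw [mul_smul, h2]

end abstract

theorem sector {S X : Type} [AddCommGroup S] [Module ℂ S] [NormedAddCommGroup X]
    [InnerProductSpace ℂ X] (ι : S →ₗ[ℂ] X) (q : S → ℝ) (T σ : S →ₗ[ℂ] S) (w : Fin 3 → S)
    (g δ : ℝ) (hg : 0 < g) (hδ : 0 < δ) (hδ1 : δ ≤ 1 / 8) (hδg : 8 * δ ≤ g)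
    (hT3 : ∀ u, T (T (T u)) = u) (hσ2 : ∀ u, σ (σ u) = u) (hσT : ∀ u, σ (T u) = T (T (σ u)))
    (hιT : ∀ u v, inner ℂ (ι (T u)) (ι (T v)) = inner ℂ (ι u) (ι v))
    (hισ : ∀ u v, inner ℂ (ι (σ u)) (ι (σ v)) = inner ℂ (ι u) (ι v))
    (hqT : ∀ u, q (T u) = q u) (hqσ : ∀ u, q (σ u) = q u)
    (hqs : ∀ (c : ℂ) u, q (c • u) = ‖c‖ ^ 2 * q u)
    (hdft : ∀ a b c, q (a + b + c) + q (a + om • b + om ^ 2 • c) + q (a + om ^ 2 • b + om • c) =
      3 * (q a + q b + q c))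
    (hw : Orthonormal ℂ fun j => ι (w j)) (hTw : ∀ j, T (w j) = w (j + 1))
    (hσw : σ (w 0) = w 0 ∧ σ (w 1) = w 2 ∧ σ (w 2) = w 1)
    (P1 : ∀ u, g * (‖ι u‖ ^ 2 - ∑ j, ‖inner ℂ (ι (w j)) (ι u)‖ ^ 2) ≤
      q u + (1 / 4 + δ) * ‖ι u‖ ^ 2)
    (P2 : ∀ α : Fin 3 → ℂ, q (∑ j, α j • w j) ≤ (-1 / 4 + δ) * ∑ j, ‖α j‖ ^ 2)
    (P3 : ∀ μ : ℝ, 0 ≤ μ → μ ≤ 1 →
      (∀ ε : ℝ, 0 < ε → ∃ u, σ u = -u ∧ q u + μ * ‖ι u‖ ^ 2 ≤ ε ∧
        1 ≤ ∑ j, ‖inner ℂ (ι (w j)) (ι u)‖ ^ 2) → ∃ u, q u + μ * ‖ι u‖ ^ 2 < 0) :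
    ∃ E0 E1 : ℝ, E0 < E1 ∧ E1 ≤ -1 / 4 + δ ∧
      (∀ u, E1 * ‖ι u‖ ^ 2 - (E1 - E0) * (‖∑ j, inner ℂ (ι (w j)) (ι u)‖ ^ 2 / 3 +
        (‖ι u‖ ^ 2 - ∑ j, ‖inner ℂ (ι (w j)) (ι u)‖ ^ 2)) ≤ q u) ∧
      ∀ ε : ℝ, 0 < ε → ε ≤ δ → ∃ a : Fin 3 → S, (Orthonormal ℂ fun k => ι (a k)) ∧
        q (a 0) ≤ E0 + ε ∧ q (a 1) ≤ E1 + ε ∧ q (a 2) ≤ E1 + ε ∧
        ∀ k : Fin 3, ‖ι (a k) - ∑ j : Fin 3, (om ^ (j.val * k.val) / (Real.sqrt 3 : ℝ)) • ι (w j)‖ ^ 2
          ≤ 6 * δ / g := by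
  have hone : (1 : ℂ) ^ 3 = 1 := one_pow 3
  have hom4 : (om ^ 2) ^ 2 = om := by linear_combination om * om_cube
  obtain ⟨E0, hE0l, hE0u, hE0b, hE0m⟩ := sector_bottom ι q T w g δ hg hqs hw hTw P1 P2 hone
  obtain ⟨E1, hE1l, hE1u, hE1b, hE1m⟩ := sector_bottom ι q T w g δ hg hqs hw hTw P1 P2 om_cube
  simp only [one_pow, one_smul] at hE0b hE0m
  have hsw12 : ∀ u, T u = om ^ 2 • u → T (σ u) = om • σ u := fun u hu =>
    sector_swap T σ hT3 hσT (by linear_combination om_cube) hu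
  have hsw21 : ∀ u, T u = om • u → T (σ u) = om ^ 2 • σ u := fun u hu =>
    sector_swap T σ hT3 hσT (by linear_combination om_cube) hu
  have hE2b : ∀ v, T v = om • v → E1 * ‖ι v‖ ^ 2 ≤ q v := by
    intro v hv
    have := hE1b (σ v) (hsw21 v hv)
    rwa [sector_norm_iso ι σ hισ, hqσ] at this
  have hlt : E0 < E1 := by
    by_contra hcon
    have hle : E1 ≤ E0 := not_lt.1 hcon
    have hall : ∀ u, E1 * ‖ι u‖ ^ 2 ≤ q u := by
      intro u
      obtain ⟨a, b, c, ha, hb, hc, rfl⟩ := sector_split T hT3 u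
      rw [sector_q_add q T hqT hqs hdft ha hb hc, sector_norm_add ι T hιT ha hb hc]
      have h0 := hE0b a ha
      have h1 := hE1b b hb
      have h2 := hE2b c hc
      have h3 : E1 * ‖ι a‖ ^ 2 ≤ E0 * ‖ι a‖ ^ 2 := mul_le_mul_of_nonneg_right hle (by positivity)
      linarith
    obtain ⟨u, hu⟩ := P3 (-E1) (by linarith) (by linarith) (by
      intro ε hε
      obtain ⟨ψ, hψ, hψ1, hψq⟩ := hE1m (min (ε / 2) δ) (lt_min (by linarith) hδ)
      have hm1 : min (ε / 2) δ ≤ ε / 2 := min_le_left _ _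
      have hm2 : min (ε / 2) δ ≤ δ := min_le_right _ _
      have hc : T ((-1 : ℂ) • σ ψ) = om • ((-1 : ℂ) • σ ψ) := by
        rw [map_smul, hsw12 ψ hψ, smul_comm]
      have h0 : T (0 : S) = 0 := map_zero T
      have hq0 : q 0 = 0 := by
        have := hqs 0 0
        simpa using this
      have hq := sector_q_add q T hqT hqs hdft h0 hψ hc
      have hn := sector_norm_add ι T hιT h0 hψ hc
      rw [hq0, hqs, hqσ] at hq
      rw [map_zero, map_smul, norm_smul, sector_norm_iso ι σ hισ, hψ1] at hn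
      simp only [norm_neg, norm_one, norm_zero] at hq hn
      refine ⟨0 + ψ + (-1 : ℂ) • σ ψ, ?_, ?_, ?_⟩
      · simp only [map_add, map_smul, map_zero, hσ2]
        module
      · rw [hq, hn]
        linarith
      · have hP := P1 (0 + ψ + (-1 : ℂ) • σ ψ)
        rw [hq, hn] at hP
        by_contra hcon'
        have hlt' := not_le.1 hcon'
        have h5 : g * 1 ≤ g * ((0 : ℝ) ^ 2 + 1 ^ 2 + (1 * 1) ^ 2 -
            ∑ j, ‖inner ℂ (ι (w j)) (ι (0 + ψ + (-1 : ℂ) • σ ψ))‖ ^ 2) :=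
          mul_le_mul_of_nonneg_left (by linarith) hg.le
        linarith)
    have := hall u
    linarith
  refine ⟨E0, E1, hlt, hE1u, ?_, ?_⟩
  · intro u
    obtain ⟨a, b, c, ha, hb, hc, rfl⟩ := sector_split T hT3 u
    obtain ⟨a1, a2⟩ := sector_coef ι T w hιT hTw hone (a := a) (by rw [ha, one_pow, one_smul])
    obtain ⟨b1, b2⟩ := sector_coef ι T w hιT hTw om_cube hb
    obtain ⟨c1, c2⟩ := sector_coef ι T w hιT hTw sector_om_sq_cube (a := c) (by rw [hc, hom4])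
    have hBb := sector_bessel ι w hw b
    have hBc := sector_bessel ι w hw c
    rw [sector_q_add q T hqT hqs hdft ha hb hc, sector_norm_add ι T hιT ha hb hc]
    rw [Fin.sum_univ_three, b1, b2] at hBb
    rw [Fin.sum_univ_three, c1, c2] at hBc
    simp only [Fin.sum_univ_three, map_add, inner_add_right, a1, a2, b1, b2, c1, c2, hom4,
      one_pow, one_mul]
    set α : ℂ := inner ℂ (ι (w 0)) (ι a)
    set β : ℂ := inner ℂ (ι (w 0)) (ι b)
    set γ : ℂ := inner ℂ (ι (w 0)) (ι c)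
    have hsum : α + β + γ + (α + om * β + om ^ 2 * γ) + (α + om ^ 2 * β + om * γ) = 3 * α := by
      linear_combination (β + γ) * om_sum
    rw [hsum, sector_parseval]
    simp only [norm_mul, norm_pow, norm_om, one_pow, one_mul] at hBb hBc
    have h3 : ‖(3 : ℂ) * α‖ ^ 2 = 9 * ‖α‖ ^ 2 := by
      rw [norm_mul, mul_pow]; norm_num
    rw [h3]
    have h0 := hE0b a ha
    have h1 := hE1b b hb
    have h2 := hE2b c hc
    have h4 : (E1 - E0) * ‖ι a‖ ^ 2 ≤ (E1 - E0) * (9 * ‖α‖ ^ 2 / 3 +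
        (‖ι a‖ ^ 2 + ‖ι b‖ ^ 2 + ‖ι c‖ ^ 2 - 3 * (‖α‖ ^ 2 + ‖β‖ ^ 2 + ‖γ‖ ^ 2))) :=
      mul_le_mul_of_nonneg_left (by linarith) (by linarith)
    linarith
  · intro ε hε hεδ
    obtain ⟨a, ha, ha1, haq⟩ := hE0m ε hε
    obtain ⟨b, hb, hb1, hbq⟩ := hE1m ε hε
    have hc := hsw12 b hb
    have hc1 : ‖ι (σ b)‖ = 1 := by rw [sector_norm_iso ι σ hισ, hb1]
    have hcq : q (σ b) ≤ E1 + ε := by rw [hqσ]; exact hbq
    obtain ⟨x, hx1, hx⟩ := sector_close ι q T w g δ hg hιT hw hTw P1 hone (a := a)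
      (by rw [ha, one_pow, one_smul]) ha1 (by linarith)
    obtain ⟨y, hy1, hy⟩ := sector_close ι q T w g δ hg hιT hw hTw P1 om_cube hb hb1 (by linarith)
    obtain ⟨z, hz1, hz⟩ := sector_close ι q T w g δ hg hιT hw hTw P1 sector_om_sq_cube
      (a := σ b) (by rw [hc, hom4]) hc1 (by linarith)
    have ha' : T (x • a) = x • a := by rw [map_smul, ha]
    have hb' : T (y • b) = om ^ 2 • (y • b) := by rw [map_smul, hb, smul_comm]
    have hc' : T (z • σ b) = om • (z • σ b) := by rw [map_smul, hc, smul_comm]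
    have o01 := sector_orth01 ι T hιT ha' hb'
    have o02 := sector_orth02 ι T hιT ha' hc'
    have o12 := sector_orth12 ι T hιT hb' hc'
    have o10 := inner_eq_zero_symm.1 o01
    have o20 := inner_eq_zero_symm.1 o02
    have o21 := inner_eq_zero_symm.1 o12
    refine ⟨![x • a, y • b, z • σ b], ⟨?_, ?_⟩, ?_, ?_, ?_, ?_⟩
    · intro k
      fin_cases k
      · show ‖ι (x • a)‖ = 1
        rw [map_smul, norm_smul, hx1, ha1, one_mul]
      · show ‖ι (y • b)‖ = 1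
        rw [map_smul, norm_smul, hy1, hb1, one_mul]
      · show ‖ι (z • σ b)‖ = 1
        rw [map_smul, norm_smul, hz1, hc1, one_mul]
    · intro i j hij
      fin_cases i <;> fin_cases j
      · exact absurd rfl hij
      · exact o01
      · exact o02
      · exact o10
      · exact absurd rfl hij
      · exact o12
      · exact o20
      · exact o21
      · exact absurd rfl hij
    · show q (x • a) ≤ _
      rw [hqs, hx1]; linarith
    · show q (y • b) ≤ _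
      rw [hqs, hy1]; linarith
    · show q (z • σ b) ≤ _
      rw [hqs, hz1]; linarith
    · intro k
      simp only [pow_mul']
      fin_cases k
      · simpa using hx
      · simpa using hy
      · simpa using hz

end Pool.Agent.MP_e62678_mp.H54
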