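import Pool.Agent.MP_e62678_mp.H54.TunnelAux

/-! Tunnelling: odd states are strictly above the ground state energy. -/

open MeasureTheory Filter Topology
open scoped ComplexConjugate

namespace Pool.Agent.MP_e62678_mp.H54

/-- A real function seen as a complex one. -/
noncomputable def tn_c (f : E3 → ℝ) : E3 → ℂ := fun x => ((f x : ℝ) : ℂ)

theorem tn_pd_c {f : E3 → ℝ} (hf : ContDiff ℝ 1 f) (k : Fin 3) :
    pd k (tn_c f) = tn_c (pd k f) := by
  funext x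
  have h := Complex.ofRealCLM.hasFDerivAt.comp x
    (hf.differentiable (by simp) x).hasFDerivAt
  rw [tn_c, show tn_c f = Complex.ofRealCLM ∘ f from rfl, tn_pd_eq h]
  rfl

theorem tn_contDiff_c {f : E3 → ℝ} (hf : ContDiff ℝ 1 f) : ContDiff ℝ 1 (tn_c f) :=
  Complex.ofRealCLM.contDiff.comp hf

theorem tn_nice_c {f : E3 → ℝ} (hf : ContDiff ℝ 1 f) (hc : HasCompactSupport f) :
    Nice (tn_c f) :=
  ⟨tn_contDiff_c hf, hc.comp_left (g := fun t : ℝ => (t : ℂ)) (by simp)⟩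

theorem tn_norm_c (f : E3 → ℝ) (x : E3) : ‖tn_c f x‖ ^ 2 = f x ^ 2 := by
  simp [tn_c]

theorem tn_int_G_sq (a : ℝ) : Integrable fun x => tn_G a x ^ 2 :=
  (integrable_exp_neg_norm.const_mul (Real.exp 2)).mono'
    ((tn_cont_G a).pow 2).aestronglyMeasurable (ae_of_all _ fun x => by
      rw [Real.norm_of_nonneg (sq_nonneg _)]; exact tn_G_sq_le a x)

theorem tn_int_H_sq {a : ℝ} (ha : 0 < a) (k : Fin 3) :
    Integrable fun x => (tn_G a x * tn_l a k x) ^ 2 :=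
  (integrable_exp_neg_norm.const_mul (4 * Real.exp 2)).mono'
    (((tn_cont_G a).mul (tn_cont_l ha k)).pow 2).aestronglyMeasurable (ae_of_all _ fun x => by
      rw [Real.norm_of_nonneg (sq_nonneg _)]; exact tn_H_sq_le ha k x)

theorem tn_memLp_c {f : E3 → ℝ} (hf : Continuous f) (h : Integrable fun x => f x ^ 2) :
    MemLp (tn_c f) 2 volume := by
  have h1 : Continuous (tn_c f) := Complex.continuous_ofReal.comp hf
  rw [memLp_two_iff_integrable_sq_norm h1.aestronglyMeasurable]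
  simpa only [tn_norm_c] using h

theorem tn_pd_cG {a : ℝ} (ha : 0 < a) (k : Fin 3) :
    pd k (tn_c (tn_G a)) = tn_c fun x => tn_G a x * tn_l a k x := by
  rw [tn_pd_c (tn_contDiff_G ha)]
  congr 1
  funext x
  exact tn_pd_G ha k x

theorem tn_G_isH1 {a : ℝ} (ha : 0 < a) : IsH1 (tn_c (tn_G a)) (grad (tn_c (tn_G a))) := by
  refine isH1_of_contDiff (tn_contDiff_c (tn_contDiff_G ha))
    (tn_memLp_c (tn_cont_G a) (tn_int_G_sq a)) fun k => ?_
  rw [tn_pd_cG ha]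
  exact tn_memLp_c ((tn_cont_G a).mul (tn_cont_l ha k)) (tn_int_H_sq ha k)

theorem tn_int_mul {a b r : E3 → ℝ} (ha : Continuous a) (hb : Continuous b) (hr : Continuous r)
    (hr0 : ∀ x, 0 ≤ r x) (h1 : Integrable fun x => a x ^ 2 / r x)
    (h2 : Integrable fun x => b x ^ 2 / r x) : Integrable fun x => a x * b x / r x := by
  refine (h1.add h2).mono' ((ha.mul hb).measurable.div hr.measurable).aestronglyMeasurable
    (ae_of_all _ fun x => ?_)
  rw [Real.norm_eq_abs, abs_div, abs_of_nonneg (hr0 x), Pi.add_apply, ← add_div]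
  refine div_le_div_of_nonneg_right ?_ (hr0 x)
  rw [abs_le]
  constructor <;> nlinarith [sq_nonneg (a x + b x), sq_nonneg (a x - b x)]

theorem tn_expand {a b r : E3 → ℝ} (d : ℝ) (ha : Continuous a) (hb : Continuous b)
    (hr : Continuous r) (hr0 : ∀ x, 0 ≤ r x) (h1 : Integrable fun x => a x ^ 2 / r x)
    (h2 : Integrable fun x => b x ^ 2 / r x) :
    ∫ x, ‖(tn_c a + (d : ℂ) • tn_c b) x‖ ^ 2 / r x = (∫ x, a x ^ 2 / r x) +
      2 * d * (∫ x, a x * b x / r x) + d ^ 2 * ∫ x, b x ^ 2 / r x := by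
  have h3 := tn_int_mul ha hb hr hr0 h1 h2
  have h5 : Integrable fun x => a x ^ 2 / r x + 2 * d * (a x * b x / r x) :=
    h1.add (h3.const_mul _)
  rw [← integral_const_mul, ← integral_const_mul, ← integral_add h1 (h3.const_mul _),
    ← integral_add h5 (h2.const_mul _)]
  refine integral_congr_ae (ae_of_all _ fun x => ?_)
  have h4 : (tn_c a + (d : ℂ) • tn_c b) x = tn_c (fun x => a x + d * b x) x := by
    simp [tn_c]
  simp only [h4, tn_norm_c]
  ring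

theorem tn_expand' {a b : E3 → ℝ} (d : ℝ) (ha : Continuous a) (hb : Continuous b)
    (h1 : Integrable fun x => a x ^ 2) (h2 : Integrable fun x => b x ^ 2) :
    nrm (tn_c a + (d : ℂ) • tn_c b) = (∫ x, a x ^ 2) +
      2 * d * (∫ x, a x * b x) + d ^ 2 * ∫ x, b x ^ 2 := by
  have h := tn_expand (r := fun _ => 1) d ha hb continuous_const (fun _ => zero_le_one)
    (by simpa using h1) (by simpa using h2)
  simpa only [div_one, nrm] using h

/-- Lower bound for the attraction of the mixed term. -/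
theorem tn_attr (s : E3) {W : E3 → ℝ} (hW : Continuous W) (hc : HasCompactSupport W) :
    ∃ c : ℝ, 0 < c ∧ ∀ a : ℝ, 0 < a → a ≤ 1 → ∀ f : E3 → ℝ, Continuous f → (∀ x, 0 ≤ f x) →
      (Integrable fun x => f x * tn_G a x / ‖x - s‖) →
      c * ∫ x, f x * W x ≤ ∫ x, f x * tn_G a x / ‖x - s‖ := by
  obtain ⟨M, hM⟩ := Continuous.bounded_above_of_compact_support
    (f := fun x => W x * (‖x - s‖ * Real.exp (4 * ‖x‖ + 2 + ‖x‖ ^ 2))) (by fun_prop) hc.mul_right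
  have hM0 : 0 ≤ M := (norm_nonneg _).trans (hM 0)
  refine ⟨1 / (M + 1), by positivity, fun a ha ha1 f hf h0 hi => ?_⟩
  rw [← integral_const_mul]
  refine integral_mono_ae ((Continuous.integrable_of_hasCompactSupport (hf.mul hW)
    hc.mul_left).const_mul _) hi ?_
  filter_upwards [volume.ae_ne s] with x hx
  have hr : 0 < ‖x - s‖ := norm_pos_iff.mpr (sub_ne_zero.mpr hx)
  have h1 : W x * (‖x - s‖ * Real.exp (4 * ‖x‖ + 2 + ‖x‖ ^ 2)) ≤ M := (le_abs_self _).trans (hM x)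
  have h2 := tn_G_ge ha ha1 x
  have h3 : Real.exp (4 * ‖x‖ + 2 + ‖x‖ ^ 2) * Real.exp (-(4 * ‖x‖ + 2 + ‖x‖ ^ 2)) = 1 := by
    rw [← Real.exp_add, add_neg_cancel, Real.exp_zero]
  have h4 : W x * ‖x - s‖ ≤ (M + 1) * tn_G a x := by
    calc W x * ‖x - s‖ = W x * (‖x - s‖ * Real.exp (4 * ‖x‖ + 2 + ‖x‖ ^ 2)) *
          Real.exp (-(4 * ‖x‖ + 2 + ‖x‖ ^ 2)) := by
          rw [mul_assoc, mul_assoc, h3, mul_one]
      _ ≤ (M + 1) * Real.exp (-(4 * ‖x‖ + 2 + ‖x‖ ^ 2)) :=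
          mul_le_mul_of_nonneg_right (by linarith) (Real.exp_pos _).le
      _ ≤ (M + 1) * tn_G a x := mul_le_mul_of_nonneg_left h2 (by linarith)
  have h5 : 1 / (M + 1) * W x ≤ tn_G a x / ‖x - s‖ := by
    rw [le_div_iff₀ hr, one_div, mul_assoc, inv_mul_le_iff₀ (by linarith)]
    exact h4
  calc 1 / (M + 1) * (f x * W x) = f x * (1 / (M + 1) * W x) := by ring
    _ ≤ f x * (tn_G a x / ‖x - s‖) := mul_le_mul_of_nonneg_left h5 (h0 x)
    _ = f x * tn_G a x / ‖x - s‖ := by ring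

/-! The regularised modulus. -/

/-- Regularised modulus. -/
noncomputable def tn_f (η : ℝ) (p : E3 → ℂ) (x : E3) : ℝ := Real.sqrt (‖p x‖ ^ 2 + η ^ 2) - η

theorem tn_f_nonneg (η : ℝ) (p : E3 → ℂ) (x : E3) : 0 ≤ tn_f η p x :=
  sub_nonneg.mpr (Real.le_sqrt_of_sq_le (by nlinarith [sq_nonneg ‖p x‖]))

theorem tn_f_le {η : ℝ} (hη : 0 < η) (p : E3 → ℂ) (x : E3) : tn_f η p x ≤ ‖p x‖ := by
  rw [tn_f, sub_le_iff_le_add]
  exact Real.sqrt_le_iff.mpr ⟨by positivity, by nlinarith [norm_nonneg (p x)]⟩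

theorem tn_f_ge (η : ℝ) (p : E3 → ℂ) (x : E3) : ‖p x‖ - η ≤ tn_f η p x :=
  sub_le_sub_right (Real.le_sqrt_of_sq_le (by nlinarith [sq_nonneg η])) η

theorem tn_f_le' {η : ℝ} (hη : 0 < η) (p : E3 → ℂ) (x : E3) :
    tn_f η p x ≤ ‖p x‖ ^ 2 / (2 * η) := by
  rw [tn_f, sub_le_iff_le_add]
  refine Real.sqrt_le_iff.mpr ⟨by positivity, ?_⟩
  have h : (‖p x‖ ^ 2 / (2 * η) + η) ^ 2 = (‖p x‖ ^ 2 / (2 * η)) ^ 2 + ‖p x‖ ^ 2 + η ^ 2 := by
    field_simp
    ring
  rw [h]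
  nlinarith [sq_nonneg (‖p x‖ ^ 2 / (2 * η))]

theorem tn_f_contDiff {η : ℝ} (hη : 0 < η) {p : E3 → ℂ} (hp : Nice p) :
    ContDiff ℝ 1 (tn_f η p) :=
  (ContDiff.sqrt ((hp.1.norm_sq ℝ).add contDiff_const)
    fun x => (by positivity : (0 : ℝ) < ‖p x‖ ^ 2 + η ^ 2).ne').sub contDiff_const

theorem tn_f_cs {η : ℝ} (hη : 0 < η) {p : E3 → ℂ} (hp : Nice p) :
    HasCompactSupport (tn_f η p) :=
  hp.2.comp_left (g := fun z : ℂ => Real.sqrt (‖z‖ ^ 2 + η ^ 2) - η) (by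
    simp [Real.sqrt_sq hη.le])

theorem tn_f_pd {η : ℝ} (hη : 0 < η) {p : E3 → ℂ} (hp : Nice p) (k : Fin 3) (x : E3) :
    pd k (tn_f η p) x ^ 2 ≤ ‖pd k p x‖ ^ 2 := by
  have hpos : (0 : ℝ) < ‖p x‖ ^ 2 + η ^ 2 := by positivity
  have h1 := ((((hp.1.differentiable (by simp) x).hasFDerivAt.norm_sq).add_const (η ^ 2)).sqrt
    hpos.ne').sub_const η
  have h2 : pd k (tn_f η p) x = inner ℝ (p x) (pd k p x) / Real.sqrt (‖p x‖ ^ 2 + η ^ 2) := by
    rw [show tn_f η p = fun y => Real.sqrt (‖p y‖ ^ 2 + η ^ 2) - η from rfl, tn_pd_eq h1]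
    have h3 := (Real.sqrt_pos.mpr hpos).ne'
    simp only [smul_apply, ContinuousLinearMap.comp_apply, innerSL_apply_apply, pd, smul_eq_mul,
      nsmul_eq_mul]
    field_simp
    norm_num
  rw [h2, div_pow, Real.sq_sqrt hpos.le, div_le_iff₀ hpos]
  have h4 := abs_real_inner_le_norm (p x) (pd k p x)
  have h5 := pow_le_pow_left₀ (abs_nonneg _) h4 2
  rw [sq_abs] at h5
  nlinarith [mul_nonneg (sq_nonneg ‖pd k p x‖) (sq_nonneg η)]

theorem tn_f_cou {p : E3 → ℂ} (hp : Nice p) (s : E3) :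
    Tendsto (fun n : ℕ => ∫ x, tn_f (1 / ((n : ℝ) + 1)) p x ^ 2 / ‖x - s‖) atTop
      (𝓝 (cou s p)) := by
  refine tendsto_integral_of_dominated_convergence (fun x => ‖p x‖ ^ 2 / ‖x - s‖) (fun n => ?_)
    (hp.isH1.integrable_cou s) (fun n => ae_of_all _ fun x => ?_) (ae_of_all _ fun x => ?_)
  · have h := (tn_f_contDiff (Nat.one_div_pos_of_nat (n := n)) hp).continuous
    exact ((h.pow 2).measurable.div (by fun_prop)).aestronglyMeasurable
  · rw [Real.norm_of_nonneg (by positivity)]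
    exact div_le_div_of_nonneg_right (pow_le_pow_left₀ (tn_f_nonneg _ _ _)
      (tn_f_le Nat.one_div_pos_of_nat p x) 2) (norm_nonneg _)
  · have h1 : Continuous fun η : ℝ => tn_f η p x ^ 2 / ‖x - s‖ := by
      unfold tn_f
      fun_prop
    have h2 := (h1.tendsto 0).comp tendsto_one_div_add_atTop_nhds_zero_nat
    simpa [tn_f, Function.comp_def] using h2

/-! Odd approximants. -/

theorem tn_half {a b : E3 → ℂ} (ha : MemLp a 2 volume) (hb : MemLp b 2 volume) :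
    nrm (fun x => (1 / 2 : ℂ) * (a x - b x)) ≤ (nrm a + nrm b) / 2 := by
  have h1 := nrm_add_le ha hb.neg one_pos
  have h2 : (fun x => (1 / 2 : ℂ) * (a x - b x)) = (1 / 2 : ℂ) • (a + -b) := by
    funext x
    simp [sub_eq_add_neg]
  have h3 : nrm (-b) = nrm b := by simp [nrm]
  rw [h2, nrm_smul]
  rw [h3] at h1
  norm_num at h1 ⊢
  linarith

theorem tn_odd {u : E3 → ℂ} {g : Fin 3 → E3 → ℂ} (hu : IsH1 u g)
    (h1 : ∀ x, u (prm (Equiv.swap 1 2) x) = -u x)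
    (h2 : ∀ k x, g (Equiv.swap 1 2 k) (prm (Equiv.swap 1 2) x) = -g k x) :
    ∃ p : ℕ → E3 → ℂ, (∀ n, Nice (p n)) ∧ (∀ n x, p n (prm (Equiv.swap 1 2) x) = -p n x) ∧
      Tendsto (fun n => nrm (u - p n)) atTop (𝓝 0) ∧
      Tendsto (fun n => kin (g - grad (p n))) atTop (𝓝 0) := by
  obtain ⟨v, hv, t1, t2⟩ := hu.approx
  set σ : Equiv.Perm (Fin 3) := Equiv.swap 1 2 with hσ
  have hσσ : ∀ x, prm σ (prm σ x) = x := by
    intro x
    rw [prm_prm, hσ, Equiv.swap_mul_self, prm_one]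
  have hsy : σ.symm = σ := Equiv.symm_swap 1 2
  refine ⟨fun n x => (1 / 2 : ℂ) * (v n x - v n (prm σ x)), fun n => ?_, fun n x => ?_, ?_, ?_⟩
  · have h3 := (hv n).comp_prm σ
    exact ⟨contDiff_const.mul ((hv n).1.sub h3.1), ((hv n).2.sub h3.2).mul_left⟩
  · simp only [hσσ]
    ring
  · refine squeeze_zero (fun n => nrm_nonneg _) (fun n => ?_) t1
    have h3 := (hu.sub (hv n).isH1)
    have h4 := tn_half h3.memL2 (h3.comp_prm σ).memL2
    rw [nrm_prm] at h4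
    refine le_trans (le_of_eq ?_) (h4.trans (le_of_eq (by ring)))
    congr 1
    funext x
    simp only [Pi.sub_apply, h1]
    ring
  · refine squeeze_zero (fun n => kin_nonneg _) (fun n => ?_) t2
    have h3 := (hu.sub (hv n).isH1)
    have h5 := kin_prm σ (g - grad (v n))
    have h6 : ∀ k, nrm ((g - grad fun x => (1 / 2 : ℂ) * (v n x - v n (prm σ x))) k) ≤
        (nrm ((g - grad (v n)) k) + nrm fun x => (g - grad (v n)) (σ.symm k) (prm σ x)) / 2 := by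
      intro k
      refine le_trans (le_of_eq ?_) (tn_half (h3.gradL2 k) ((h3.comp_prm σ).gradL2 k))
      congr 1
      funext x
      have d1 := ((hv n).1.differentiable (by simp) x).hasFDerivAt
      have d2 := (((hv n).comp_prm σ).1.differentiable (by simp) x).hasFDerivAt
      have d3 := tn_pd_eq ((d1.fun_sub d2).const_mul (1 / 2 : ℂ)) k
      have d4 := pd_prm σ (v n) k x
      simp only [Pi.sub_apply, grad, d3, hsy, h2]
      rw [hsy] at d4
      rw [← d4]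
      simp only [smul_apply, sub_apply, pd, smul_eq_mul]
      ring
    refine (Finset.sum_le_sum fun k _ => h6 k).trans (le_of_eq ?_)
    rw [← Finset.sum_div, Finset.sum_add_distrib]
    change (kin (g - grad (v n)) + kin fun k x => (g - grad (v n)) (σ.symm k) (prm σ x)) / 2 = _
    rw [h5]
    ring

theorem tn_odd_bound {p : E3 → ℂ} (hp : Nice p) (h : ∀ x, p (prm (Equiv.swap 1 2) x) = -p x) :
    ∃ K : ℝ, 0 ≤ K ∧ ∀ x, ‖p x‖ ^ 2 ≤ K * (x 1 - x 2) ^ 2 := by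
  obtain ⟨C, hC⟩ := ContDiff.lipschitzWith_of_hasCompactSupport hp.2 hp.1 (by simp)
  refine ⟨C ^ 2, by positivity, fun x => ?_⟩
  have h1 := hC.dist_le_mul x (prm (Equiv.swap 1 2) x)
  rw [dist_eq_norm, dist_eq_norm, h, sub_neg_eq_add, ← two_mul, norm_mul] at h1
  have h2 : ‖x - prm (Equiv.swap 1 2) x‖ ^ 2 = 2 * (x 1 - x 2) ^ 2 := by
    rw [EuclideanSpace.real_norm_sq_eq, Fin.sum_univ_three]
    simp [Equiv.swap_apply_of_ne_of_ne]
    ring
  have h3 := pow_le_pow_left₀ (by positivity) h1 2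
  rw [mul_pow, mul_pow, h2] at h3
  norm_num at h3
  nlinarith [mul_nonneg (sq_nonneg (C : ℝ)) (sq_nonneg (x 1 - x 2))]

/-- The trial function `f + d G`. -/
theorem tn_trial (L : ℝ) {μ a K d : ℝ} (hμ1 : μ ≤ 1) (ha : 0 < a) (ha1 : a ≤ 1)
    (hK : 0 ≤ K) (hd : 0 ≤ d) {f : E3 → ℝ} (hf : ContDiff ℝ 1 f) (hc : HasCompactSupport f)
    (h0 : ∀ x, 0 ≤ f x) (h1 : ∀ x, f x ≤ K * (x 1 - x 2) ^ 2) :
    ∃ (u : E3 → ℂ) (g : Fin 3 → E3 → ℂ), IsH1 u g ∧
      (Integrable fun x => f x * tn_G a x / ‖x - site L 0‖) ∧ qf L u g + μ * nrm u ≤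
      ((∑ k, ∫ x, pd k f x ^ 2) - (∑ j, ∫ x, f x ^ 2 / ‖x - site L j‖) + μ * ∫ x, f x ^ 2) +
        2 * d * (a * (12 * K * Real.exp 1 * ∫ x : E3, Real.exp (-‖x‖)) -
          ∫ x, f x * tn_G a x / ‖x - site L 0‖) +
        d ^ 2 * (13 * Real.exp 2 * ∫ x : E3, Real.exp (-‖x‖)) := by
  have hN := tn_nice_c hf hc
  have hG := tn_G_isH1 ha
  have cG := tn_cont_G a
  have i1 : ∀ j, Integrable fun x => f x ^ 2 / ‖x - site L j‖ := fun j => by
    simpa only [tn_norm_c] using hN.isH1.integrable_cou (site L j)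
  have i2 : ∀ j, Integrable fun x => tn_G a x ^ 2 / ‖x - site L j‖ := fun j => by
    simpa only [tn_norm_c] using hG.integrable_cou (site L j)
  have i3 : Integrable fun x => f x ^ 2 := by
    simpa only [tn_norm_c] using integrable_sq hN.memLp
  have i4 : ∀ k, Integrable fun x => pd k f x ^ 2 := fun k => by
    have h2 := integrable_sq (hN.isH1.gradL2 k)
    simpa only [grad, tn_pd_c hf, tn_norm_c] using h2
  refine ⟨_, _, hN.isH1.add (hG.smul (d : ℂ)),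
    tn_int_mul hf.continuous cG (by fun_prop) (fun _ => norm_nonneg _) (i1 0) (i2 0), ?_⟩
  have e1 : ∀ k, nrm ((grad (tn_c f) + (d : ℂ) • grad (tn_c (tn_G a))) k) =
      (∫ x, pd k f x ^ 2) + 2 * d * (∫ x, pd k f x * (tn_G a x * tn_l a k x)) +
        d ^ 2 * ∫ x, (tn_G a x * tn_l a k x) ^ 2 := by
    intro k
    rw [Pi.add_apply, Pi.smul_apply, grad, grad, tn_pd_c hf, tn_pd_cG ha]
    exact tn_expand' d (tn_cont_pd hf k) (cG.mul (tn_cont_l ha k)) (i4 k) (tn_int_H_sq ha k)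
  have e2 : ∀ j, cou (site L j) (tn_c f + (d : ℂ) • tn_c (tn_G a)) =
      (∫ x, f x ^ 2 / ‖x - site L j‖) + 2 * d * (∫ x, f x * tn_G a x / ‖x - site L j‖) +
        d ^ 2 * ∫ x, tn_G a x ^ 2 / ‖x - site L j‖ := fun j =>
    tn_expand d hf.continuous cG (by fun_prop) (fun _ => norm_nonneg _) (i1 j) (i2 j)
  have e3 := tn_expand' d hf.continuous cG i3 (tn_int_G_sq a)
  have b1 := tn_mixed ha ha1 hμ1 hK hf hc h0 h1
  have b2 : ∀ k, ∫ x, (tn_G a x * tn_l a k x) ^ 2 ≤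
      4 * Real.exp 2 * ∫ x : E3, Real.exp (-‖x‖) := fun k => by
    rw [← integral_const_mul]
    exact integral_mono (tn_int_H_sq ha k) (integrable_exp_neg_norm.const_mul _)
      fun x => tn_H_sq_le ha k x
  have b3 : ∫ x, tn_G a x ^ 2 ≤ Real.exp 2 * ∫ x : E3, Real.exp (-‖x‖) := by
    rw [← integral_const_mul]
    exact integral_mono (tn_int_G_sq a) (integrable_exp_neg_norm.const_mul _)
      fun x => tn_G_sq_le a x
  have b4 : ∀ j, 0 ≤ ∫ x, tn_G a x ^ 2 / ‖x - site L j‖ := fun j =>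
    integral_nonneg fun x => by positivity
  have b5 : ∀ j, 0 ≤ ∫ x, f x * tn_G a x / ‖x - site L j‖ := fun j =>
    integral_nonneg fun x => div_nonneg (mul_nonneg (h0 x) (tn_G_pos a x).le) (norm_nonneg _)
  have b6 : 0 ≤ ∫ x, tn_G a x ^ 2 := integral_nonneg fun x => by positivity
  have b7 : μ * ∫ x, tn_G a x ^ 2 ≤ Real.exp 2 * ∫ x : E3, Real.exp (-‖x‖) :=
    (mul_le_of_le_one_left b6 hμ1).trans b3
  rw [qf, kin, e3]
  simp only [e1, e2, Fin.sum_univ_three] at b1 ⊢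
  have c1 := mul_le_mul_of_nonneg_left b1 hd
  have c2 := mul_le_mul_of_nonneg_left b7 (sq_nonneg d)
  have c3 := fun k => mul_le_mul_of_nonneg_left (b2 k) (sq_nonneg d)
  have c4 := fun j => mul_nonneg (sq_nonneg d) (b4 j)
  have c5 := fun j => mul_nonneg hd (b5 j)
  linarith [c3 0, c3 1, c3 2, c4 0, c4 1, c4 2, c5 1, c5 2]

theorem tunnel (L μ : ℝ) (hμ0 : 0 ≤ μ) (hμ1 : μ ≤ 1) (w : Fin 3 → E3 → ℝ)
    (hw : ∀ j, Continuous (w j)) (hc : ∀ j, HasCompactSupport (w j)) (h0 : ∀ j x, 0 ≤ w j x)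
    (h : ∀ ε : ℝ, 0 < ε → ∃ (u : E3 → ℂ) (g : Fin 3 → E3 → ℂ), IsH1 u g ∧
      (∀ x, u (prm (Equiv.swap 1 2) x) = -u x) ∧
      (∀ k x, g (Equiv.swap 1 2 k) (prm (Equiv.swap 1 2) x) = -g k x) ∧
      qf L u g + μ * nrm u ≤ ε ∧ 1 ≤ ∑ j, ‖ip (fun x => ((w j x : ℝ) : ℂ)) u‖ ^ 2) :
    ∃ (u : E3 → ℂ) (g : Fin 3 → E3 → ℂ), IsH1 u g ∧ qf L u g + μ * nrm u < 0 := by
  set W : E3 → ℝ := fun x => w 0 x + w 1 x + w 2 x with hWdef
  have hW : Continuous W := ((hw 0).add (hw 1)).add (hw 2)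
  have hWc : HasCompactSupport W := ((hc 0).add (hc 1)).add (hc 2)
  have hwW : ∀ j x, w j x ≤ W x := by
    intro j x
    have := h0 0 x
    have := h0 1 x
    have := h0 2 x
    fin_cases j <;> simp [hWdef] <;> linarith
  have hW0 : ∀ x, 0 ≤ W x := fun x => (h0 0 x).trans (hwW 0 x)
  obtain ⟨c, hc0, hattr⟩ := tn_attr (site L 0) hW hWc
  set A : ℝ := ∫ x : E3, Real.exp (-‖x‖) with hA
  have hA0 : 0 ≤ A := integral_nonneg fun x => (Real.exp_pos _).le
  set C0 : ℝ := 13 * Real.exp 2 * A with hC0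
  have hC00 : 0 ≤ C0 := by positivity
  set d : ℝ := c / (8 * (C0 + 1)) with hd
  have hd0 : 0 < d := by positivity
  have hdC : d * C0 ≤ c / 8 := by
    rw [hd, div_mul_eq_mul_div, div_le_div_iff₀ (by positivity) (by norm_num)]
    nlinarith
  set ε : ℝ := d * c / 24 with hε
  have hε0 : 0 < ε := by positivity
  -- an odd nice near-minimiser
  obtain ⟨u, g, hu, ho1, ho2, hB, hip⟩ := h ε hε0
  obtain ⟨v, hv, hvo, t1, t2⟩ := tn_odd hu ho1 ho2
  obtain ⟨l1, -, -, l4, l5⟩ := hu.tendsto_of_approx v hv t1 t2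
  have hwL : ∀ j, MemLp (fun x => ((w j x : ℝ) : ℂ)) 2 volume := fun j =>
    (Complex.continuous_ofReal.comp (hw j)).memLp_of_hasCompactSupport
      ((hc j).comp_left (g := fun t : ℝ => (t : ℂ)) (by simp))
  have l6 : Tendsto (fun n => ∑ j, ‖ip (fun x => ((w j x : ℝ) : ℂ)) (v n)‖ ^ 2) atTop
      (𝓝 (∑ j, ‖ip (fun x => ((w j x : ℝ) : ℂ)) u‖ ^ 2)) :=
    tendsto_finsetSum _ fun j _ => (l5 _ (hwL j)).norm.pow 2
  have l7 := (l4 L).add (l1.const_mul μ)
  obtain ⟨n, hn1, hn2⟩ := ((l7.eventually (gt_mem_nhds (show _ < 2 * ε by linarith))).and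
    (l6.eventually (lt_mem_nhds (show (1 / 2 : ℝ) < _ by linarith)))).exists
  set p := v n with hp
  have hpN : Nice p := hv n
  have hpc : Continuous p := hpN.1.continuous
  have iW : Integrable fun x => ‖p x‖ * W x :=
    Continuous.integrable_of_hasCompactSupport (hpc.norm.mul hW) hWc.mul_left
  have hpW : 1 / 3 ≤ ∫ x, ‖p x‖ * W x := by
    by_contra hcon
    have h1 : ∀ j, ‖ip (fun x => ((w j x : ℝ) : ℂ)) p‖ ^ 2 ≤ 1 / 9 := by
      intro j
      have h2 : ‖ip (fun x => ((w j x : ℝ) : ℂ)) p‖ ≤ ∫ x, ‖p x‖ * W x := by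
        refine norm_integral_le_of_norm_le iW (ae_of_all _ fun x => ?_)
        rw [norm_mul, RCLike.norm_conj, Complex.norm_real, Real.norm_of_nonneg (h0 j x), mul_comm]
        exact mul_le_mul_of_nonneg_left (hwW j x) (norm_nonneg _)
      nlinarith [norm_nonneg (ip (fun x => ((w j x : ℝ) : ℂ)) p)]
    rw [Fin.sum_univ_three] at hn2
    linarith [h1 0, h1 1, h1 2]
  obtain ⟨K, hK0, hK⟩ := tn_odd_bound hpN (hvo n)
  -- the regularisation parameter
  have m1 : Tendsto (fun m : ℕ => ∑ j, ∫ x, tn_f (1 / ((m : ℝ) + 1)) p x ^ 2 / ‖x - site L j‖)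
      atTop (𝓝 (∑ j, cou (site L j) p)) := tendsto_finsetSum _ fun j _ => tn_f_cou hpN _
  have m2 : Tendsto (fun m : ℕ => 1 / ((m : ℝ) + 1) * ∫ x, W x) atTop (𝓝 (0 * ∫ x, W x)) :=
    tendsto_one_div_add_atTop_nhds_zero_nat.mul_const _
  obtain ⟨m, hm1, hm2⟩ := ((m1.eventually (lt_mem_nhds
    (show ∑ j, cou (site L j) p - ε < _ by linarith))).and
    (m2.eventually (gt_mem_nhds (show _ < (1 / 12 : ℝ) by norm_num)))).exists
  set η : ℝ := 1 / ((m : ℝ) + 1) with hη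
  have hη0 : 0 < η := Nat.one_div_pos_of_nat
  set f := tn_f η p with hf
  have hfd : ContDiff ℝ 1 f := tn_f_contDiff hη0 hpN
  have hfc : HasCompactSupport f := tn_f_cs hη0 hpN
  have hf0 : ∀ x, 0 ≤ f x := tn_f_nonneg η p
  have hfK : ∀ x, f x ≤ K / (2 * η) * (x 1 - x 2) ^ 2 := by
    intro x
    refine (tn_f_le' hη0 p x).trans ?_
    rw [div_mul_eq_mul_div]
    exact div_le_div_of_nonneg_right (hK x) (by positivity)
  have iW' : Integrable W := hW.integrable_of_hasCompactSupport hWc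
  have hfW : 1 / 4 ≤ ∫ x, f x * W x := by
    have h1 : (∫ x, ‖p x‖ * W x) - η * ∫ x, W x ≤ ∫ x, f x * W x := by
      rw [← integral_const_mul, ← integral_sub iW (iW'.const_mul _)]
      refine integral_mono (iW.sub (iW'.const_mul _))
        (Continuous.integrable_of_hasCompactSupport (hfd.continuous.mul hW) hWc.mul_left)
        fun x => ?_
      have h2 := mul_le_mul_of_nonneg_right (tn_f_ge η p x) (hW0 x)
      simp only
      linarith
    linarith
  have k1 : ∀ k, ∫ x, pd k f x ^ 2 ≤ nrm (grad p k) := fun k =>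
    integral_mono_of_nonneg (ae_of_all _ fun x => sq_nonneg _)
      (integrable_sq (hpN.isH1.gradL2 k)) (ae_of_all _ fun x => tn_f_pd hη0 hpN k x)
  have k2 : ∫ x, f x ^ 2 ≤ nrm p :=
    integral_mono_of_nonneg (ae_of_all _ fun x => sq_nonneg _) (integrable_sq hpN.memLp)
      (ae_of_all _ fun x => pow_le_pow_left₀ (hf0 x) (tn_f_le hη0 p x) 2)
  have k3 : ∑ k, ∫ x, pd k f x ^ 2 ≤ kin (grad p) := Finset.sum_le_sum fun k _ => k1 k
  have k4 := mul_le_mul_of_nonneg_left k2 hμ0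
  -- the width of the kink
  set C : ℝ := 12 * (K / (2 * η)) * Real.exp 1 * A with hC
  have hCpos : 0 ≤ C := by positivity
  set a : ℝ := min 1 (c / (16 * (C + 1))) with ha
  have ha0 : 0 < a := lt_min one_pos (by positivity)
  have haC : a * C ≤ c / 16 := by
    refine (mul_le_mul_of_nonneg_right (min_le_right _ _) hCpos).trans ?_
    rw [div_mul_eq_mul_div, div_le_div_iff₀ (by positivity) (by norm_num)]
    nlinarith
  obtain ⟨u', g', hu', hi, hle⟩ := tn_trial L hμ1 ha0 (min_le_left _ _)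
    (by positivity : 0 ≤ K / (2 * η)) hd0.le hfd hfc hf0 hfK
  refine ⟨u', g', hu', hle.trans_lt ?_⟩
  have h3 := hattr a ha0 (min_le_left _ _) f hfd.continuous hf0 hi
  have h4 : c / 4 ≤ ∫ x, f x * tn_G a x / ‖x - site L 0‖ := by
    have := mul_le_mul_of_nonneg_left hfW hc0.le
    linarith
  rw [qf] at hn1
  rw [← hA, ← hC, ← hC0]
  have h5 := mul_le_mul_of_nonneg_left h4 hd0.le
  have h6 := mul_le_mul_of_nonneg_left haC hd0.le
  have h7 := mul_le_mul_of_nonneg_left hdC hd0.le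
  have h8 : 0 < d * c := by positivity
  nlinarith

end Pool.Agent.MP_e62678_mp.H54
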