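import Pool.Agent.MP_e62678_mp.H54.WellsEx
import Pool.Agent.MP_e62678_mp.H54.Sector
import Pool.Agent.MP_e62678_mp.H54.Tunnel

/-! `H¹` as a complex vector space, and the symmetry sectors of the three-well form. -/

open MeasureTheory Filter Topology
open scoped ComplexConjugate

namespace Pool.Agent.MP_e62678_mp.H54

/-- `H¹` as a space of pairs (function, weak gradient). -/
def H1s : Submodule ℂ ((E3 → ℂ) × (Fin 3 → E3 → ℂ)) where
  carrier := {p | IsH1 p.1 p.2}
  add_mem' := fun ha hb => IsH1.add ha hb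
  zero_mem' := IsH1.zero
  smul_mem' := fun c _ h => IsH1.smul c h

theorem H1s.h1 (p : H1s) : IsH1 p.1.1 p.1.2 := p.2

/-- The map to `L²`. -/
noncomputable def iota : H1s →ₗ[ℂ] Lp ℂ 2 (volume : Measure E3) where
  toFun p := (H1s.h1 p).memL2.toLp p.1.1
  map_add' p q := MemLp.toLp_add (H1s.h1 p).memL2 (H1s.h1 q).memL2
  map_smul' c p := MemLp.toLp_const_smul c (H1s.h1 p).memL2

theorem norm_iota (p : H1s) : ‖iota p‖ ^ 2 = nrm p.1.1 := norm_toLp_sq (H1s.h1 p).memL2

theorem inner_iota (p q : H1s) : inner ℂ (iota p) (iota q) = ip p.1.1 q.1.1 :=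
  inner_toLp (H1s.h1 p).memL2 (H1s.h1 q).memL2

/-- Coordinate permutations act on `H¹`. -/
noncomputable def act (π : Equiv.Perm (Fin 3)) : H1s →ₗ[ℂ] H1s where
  toFun p := ⟨(fun x => p.1.1 (prm π x), fun k x => p.1.2 (π.symm k) (prm π x)),
    (H1s.h1 p).comp_prm π⟩
  map_add' _ _ := rfl
  map_smul' _ _ := rfl

theorem act_act (π π' : Equiv.Perm (Fin 3)) (p : H1s) : act π' (act π p) = act (π' * π) p := by
  apply Subtype.ext
  apply Prod.ext
  · funext x
    show p.1.1 (prm π (prm π' x)) = p.1.1 (prm (π' * π) x)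
    rw [prm_prm]
  · funext k x
    show p.1.2 (π.symm (π'.symm k)) (prm π (prm π' x)) = p.1.2 ((π' * π).symm k) (prm (π' * π) x)
    rw [prm_prm]
    rfl

theorem act_one (p : H1s) : act 1 p = p := by
  apply Subtype.ext
  apply Prod.ext
  · funext x
    show p.1.1 (prm 1 x) = p.1.1 x
    rw [prm_one]
  · funext k x
    show p.1.2 ((1 : Equiv.Perm (Fin 3)).symm k) (prm 1 x) = p.1.2 k x
    rw [prm_one]
    rfl

/-- The one-body form on `H¹`. -/
noncomputable def qS (L : ℝ) (p : H1s) : ℝ := qf L p.1.1 p.1.2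

/-- The wells as elements of `H¹`. -/
noncomputable def wS {g cU δ L : ℝ} {W : E3 → ℝ} (h : Wells g cU δ L W) (j : Fin 3) : H1s :=
  ⟨(well L W j, grad (well L W j)), (h.nice j).isH1⟩

theorem act_wS {g cU δ L : ℝ} {W : E3 → ℝ} (h : Wells g cU δ L W) (π : Equiv.Perm (Fin 3))
    (j : Fin 3) : act π (wS h j) = wS h (π j) := by
  have e : (fun x => well L W j (prm π x)) = well L W (π j) := funext (h.well_prm π j)
  apply Subtype.ext
  apply Prod.ext
  · exact e
  · funext k x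
    show pd (π.symm k) (well L W j) (prm π x) = pd k (well L W (π j)) x
    rw [← pd_prm, e]

theorem ortho_wS {g cU δ L : ℝ} {W : E3 → ℝ} (h : Wells g cU δ L W) :
    Orthonormal ℂ fun j => iota (wS h j) := by
  rw [orthonormal_iff_ite]
  intro j k
  rw [inner_iota]
  exact h.ortho j k

theorem dft_point (a b c : ℂ) :
    ‖a + b + c‖ ^ 2 + ‖a + om * b + om ^ 2 * c‖ ^ 2 + ‖a + om ^ 2 * b + om * c‖ ^ 2 =
      3 * (‖a‖ ^ 2 + ‖b‖ ^ 2 + ‖c‖ ^ 2) := by
  have h3 : Real.sqrt 3 * Real.sqrt 3 = 3 := Real.mul_self_sqrt (by norm_num)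
  have h2 : om ^ 2 = (-1 - (Real.sqrt 3 : ℝ) * Complex.I) / 2 := by
    have := om_sum
    unfold om at this ⊢
    linear_combination this
  rw [h2]
  simp only [← Complex.normSq_eq_norm_sq, Complex.normSq_apply, om, Complex.add_re, Complex.add_im,
    Complex.mul_re, Complex.mul_im, Complex.div_ofNat_re, Complex.div_ofNat_im, Complex.sub_re,
    Complex.sub_im, Complex.neg_re, Complex.neg_im, Complex.one_re, Complex.one_im,
    Complex.ofReal_re, Complex.ofReal_im, Complex.I_re, Complex.I_im]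
  ring_nf
  rw [Real.sq_sqrt (by norm_num : (0 : ℝ) ≤ 3)]
  ring

theorem dft_int (m : E3 → ℝ) (a b c : E3 → ℂ)
    (ha : Integrable fun x => ‖a x‖ ^ 2 * m x) (hb : Integrable fun x => ‖b x‖ ^ 2 * m x)
    (hc : Integrable fun x => ‖c x‖ ^ 2 * m x)
    (h0 : Integrable fun x => ‖(a + b + c) x‖ ^ 2 * m x)
    (h1 : Integrable fun x => ‖(a + om • b + om ^ 2 • c) x‖ ^ 2 * m x)
    (h2 : Integrable fun x => ‖(a + om ^ 2 • b + om • c) x‖ ^ 2 * m x) :
    (∫ x, ‖(a + b + c) x‖ ^ 2 * m x) + (∫ x, ‖(a + om • b + om ^ 2 • c) x‖ ^ 2 * m x) +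
      (∫ x, ‖(a + om ^ 2 • b + om • c) x‖ ^ 2 * m x) =
      3 * ((∫ x, ‖a x‖ ^ 2 * m x) + (∫ x, ‖b x‖ ^ 2 * m x) + ∫ x, ‖c x‖ ^ 2 * m x) := by
  have e1 := integral_add (h0.add h1) h2
  have e2 := integral_add (ha.add hb) hc
  simp only [Pi.add_apply (fun x => _ * m x)] at e1 e2
  rw [← integral_add h0 h1, ← e1, ← integral_add ha hb, ← e2, ← integral_const_mul]
  refine integral_congr_ae (Eventually.of_forall fun x => ?_)
  have := dft_point (a x) (b x) (c x)
  simp only [Pi.add_apply, Pi.smul_apply, smul_eq_mul]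
  linear_combination (m x) * this

theorem dft_nrm {a b c : E3 → ℂ} (ha : MemLp a 2 volume) (hb : MemLp b 2 volume)
    (hc : MemLp c 2 volume) :
    nrm (a + b + c) + nrm (a + om • b + om ^ 2 • c) + nrm (a + om ^ 2 • b + om • c) =
      3 * (nrm a + nrm b + nrm c) := by
  have k : ∀ {f : E3 → ℂ}, MemLp f 2 volume → Integrable fun x => ‖f x‖ ^ 2 * (1 : ℝ) := by
    intro f hf
    simpa using integrable_sq hf
  have := dft_int (fun _ => 1) a b c (k ha) (k hb) (k hc) (k ((ha.add hb).add hc))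
    (k ((ha.add (hb.const_smul _)).add (hc.const_smul _)))
    (k ((ha.add (hb.const_smul _)).add (hc.const_smul _)))
  simpa only [mul_one, nrm] using this

theorem dft_qS (L : ℝ) (a b c : H1s) :
    qS L (a + b + c) + qS L (a + om • b + om ^ 2 • c) + qS L (a + om ^ 2 • b + om • c) =
      3 * (qS L a + qS L b + qS L c) := by
  have k : ∀ (p : H1s) (j : Fin 3),
      Integrable fun x => ‖p.1.1 x‖ ^ 2 * (‖x - site L j‖)⁻¹ := by
    intro p j
    simpa only [div_eq_mul_inv] using (H1s.h1 p).integrable_cou (site L j)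
  have hc : ∀ j, cou (site L j) (a + b + c).1.1 + cou (site L j) (a + om • b + om ^ 2 • c).1.1 +
      cou (site L j) (a + om ^ 2 • b + om • c).1.1 =
      3 * (cou (site L j) a.1.1 + cou (site L j) b.1.1 + cou (site L j) c.1.1) := by
    intro j
    have := dft_int (fun x => (‖x - site L j‖)⁻¹) a.1.1 b.1.1 c.1.1 (k a j) (k b j) (k c j)
      (k (a + b + c) j) (k (a + om • b + om ^ 2 • c) j) (k (a + om ^ 2 • b + om • c) j)
    simp only [cou, div_eq_mul_inv]
    exact this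
  have hk : ∀ j, nrm ((a + b + c).1.2 j) + nrm ((a + om • b + om ^ 2 • c).1.2 j) +
      nrm ((a + om ^ 2 • b + om • c).1.2 j) = 3 * (nrm (a.1.2 j) + nrm (b.1.2 j) + nrm (c.1.2 j)) :=
    fun j => dft_nrm ((H1s.h1 a).gradL2 j) ((H1s.h1 b).gradL2 j) ((H1s.h1 c).gradL2 j)
  simp only [qS, qf, kin, Fin.sum_univ_three]
  linear_combination hk 0 + hk 1 + hk 2 - hc 0 - hc 1 - hc 2

theorem coe_sum_fst {ι : Type} (s : Finset ι) (α : ι → ℂ) (p : ι → H1s) :
    (∑ j ∈ s, α j • p j : H1s).1.1 = ∑ j ∈ s, α j • (p j).1.1 := by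
  simp [Prod.fst_sum]

theorem coe_sum_snd {ι : Type} (s : Finset ι) (α : ι → ℂ) (p : ι → H1s) :
    (∑ j ∈ s, α j • p j : H1s).1.2 = ∑ j ∈ s, α j • (p j).1.2 := by
  simp [Prod.snd_sum]

/-- The sector theorem for the three wells. -/
theorem wells_sector {g cU δ L : ℝ} {W : E3 → ℝ} (h : Wells g cU δ L W) (hg : 0 < g) (hδ : 0 < δ)
    (hδ1 : δ ≤ 1 / 8) (hδg : 8 * δ ≤ g) :
    ∃ E0 E1 : ℝ, E0 < E1 ∧ E1 ≤ -1 / 4 + δ ∧
      (∀ u : H1s, E1 * ‖iota u‖ ^ 2 - (E1 - E0) *
        (‖∑ j, inner ℂ (iota (wS h j)) (iota u)‖ ^ 2 / 3 +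
        (‖iota u‖ ^ 2 - ∑ j, ‖inner ℂ (iota (wS h j)) (iota u)‖ ^ 2)) ≤ qS L u) ∧
      ∀ ε : ℝ, 0 < ε → ε ≤ δ → ∃ a : Fin 3 → H1s, (Orthonormal ℂ fun k => iota (a k)) ∧
        qS L (a 0) ≤ E0 + ε ∧ qS L (a 1) ≤ E1 + ε ∧ qS L (a 2) ≤ E1 + ε ∧
        ∀ k : Fin 3, ‖iota (a k) - ∑ j : Fin 3,
          (om ^ (j.val * k.val) / (Real.sqrt 3 : ℝ)) • iota (wS h j)‖ ^ 2 ≤ 6 * δ / g := by
  refine sector iota (qS L) (act (finRotate 3)) (act (Equiv.swap 1 2)) (wS h) g δ hg hδ hδ1 hδg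
    ?_ ?_ ?_ ?_ ?_ ?_ ?_ ?_ (dft_qS L) (ortho_wS h) ?_ ?_ ?_ ?_ ?_
  · intro u
    rw [act_act, act_act]
    have : finRotate 3 * finRotate 3 * finRotate 3 = 1 := by decide
    rw [this, act_one]
  · intro u
    rw [act_act, Equiv.swap_mul_self, act_one]
  · intro u
    rw [act_act, act_act, act_act]
    have : Equiv.swap (1 : Fin 3) 2 * finRotate 3 =
      finRotate 3 * finRotate 3 * Equiv.swap 1 2 := by decide
    rw [this]
  · intro u v
    rw [inner_iota, inner_iota]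
    exact ip_prm _ _ _
  · intro u v
    rw [inner_iota, inner_iota]
    exact ip_prm _ _ _
  · intro u
    exact qf_prm _ _ _ _
  · intro u
    exact qf_prm _ _ _ _
  · intro c u
    exact qf_smul L c _ _
  · intro j
    rw [act_wS, finRotate_apply]
  · refine ⟨?_, ?_, ?_⟩ <;> rw [act_wS] <;> rfl
  · intro u
    simp only [norm_iota, inner_iota]
    exact h.gap_h1 (H1s.h1 u)
  · intro α
    have := h.low_comb α
    simp only [qS, coe_sum_fst, coe_sum_snd]
    exact this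
  · intro μ hμ0 hμ1 hh
    have hcont : ∀ j, Continuous fun x => W (x - site L j) :=
      fun j => h.smooth.continuous.comp (continuous_id.sub continuous_const)
    have hcomp : ∀ j, HasCompactSupport fun x => W (x - site L j) := fun j =>
      h.compact.comp_homeomorph (Homeomorph.subRight (site L j))
    obtain ⟨u, G, hu, hlt⟩ := tunnel L μ hμ0 hμ1 (fun j x => W (x - site L j)) hcont hcomp
      (fun j x => h.nonneg _) (by
        intro ε hε
        obtain ⟨p, hp, h1, h2⟩ := hh ε hε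
        refine ⟨p.1.1, p.1.2, H1s.h1 p, ?_, ?_, ?_, ?_⟩
        · intro x
          exact congrFun (congrArg (fun r : H1s => r.1.1) hp) x
        · intro k x
          have := congrFun (congrFun (congrArg (fun r : H1s => r.1.2) hp) k) x
          exact this
        · rw [norm_iota] at h1
          exact h1
        · simp only [inner_iota] at h2
          exact h2)
    refine ⟨⟨(u, G), hu⟩, ?_⟩
    rw [norm_iota]
    exact hlt

end Pool.Agent.MP_e62678_mp.H54
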