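import Mathlib

/-! Hartree-Fock theory: orbitals in `H¹(ℝ³; ℂ²)`, admissible tuples, the energy. -/

open MeasureTheory
open scoped ComplexOrder ComplexConjugate

namespace Pool.Agent.MP_e62678_mp.H54

/-- Euclidean three-space. -/
abbrev E3 : Type := EuclideanSpace ℝ (Fin 3)

/-- The classical `k`-th first derivative of `f` at `x`. -/
noncomputable def pd {F : Type} [NormedAddCommGroup F] [NormedSpace ℝ F] (k : Fin 3)
    (f : E3 → F) (x : E3) : F :=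
  fderiv ℝ f x (EuclideanSpace.single k 1)

/-- `u` lies in the Sobolev space `H¹(ℝ³)` and `(g 0, g 1, g 2)` is its weak gradient. -/
structure IsH1 (u : E3 → ℂ) (g : Fin 3 → E3 → ℂ) : Prop where
  memL2 : MemLp u 2 volume
  gradL2 : ∀ k, MemLp (g k) 2 volume
  weak : ∀ (k : Fin 3) (φ : E3 → ℝ), ContDiff ℝ ((⊤ : ℕ∞) : WithTop ℕ∞) φ → HasCompactSupport φ →
    ∫ x, ((pd k φ x : ℝ) : ℂ) * u x = -∫ x, ((φ x : ℝ) : ℂ) * g k x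

/-- A tuple of `N` orbitals `u i ∈ H¹(ℝ³; ℂ²)`, written `u i σ x`, with weak gradients `g i σ`. -/
structure Orbitals (N : ℕ) where
  u : Fin N → Fin 2 → E3 → ℂ
  g : Fin N → Fin 2 → Fin 3 → E3 → ℂ
  h1 : ∀ i σ, IsH1 (u i σ) (g i σ)

/-- The Gram matrix `M i j = (u i, u j)`. -/
noncomputable def gram {N : ℕ} (U : Orbitals N) : Matrix (Fin N) (Fin N) ℂ :=
  Matrix.of fun i j => ∑ σ, ∫ x, conj (U.u i σ x) * U.u j σ x

/-- Admissible tuples: `0 ≤ M ≤ 1`. -/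
def Admissible {N : ℕ} (U : Orbitals N) : Prop :=
  (gram U).PosSemidef ∧ (1 - gram U).PosSemidef

/-- The nuclear potential `V(x) = -∑ z_j / |x - R_j|`. -/
noncomputable def pot {K : ℕ} (z : Fin K → ℝ) (R : Fin K → E3) (x : E3) : ℝ :=
  -∑ j, z j / ‖x - R j‖

/-- The density `ρ(x)`. -/
noncomputable def rho {N : ℕ} (u : Fin N → Fin 2 → E3 → ℂ) (x : E3) : ℝ :=
  ∑ i, ∑ σ, ‖u i σ x‖ ^ 2

/-- The density matrix `γ(x, σ; y, τ)`. -/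
noncomputable def gam {N : ℕ} (u : Fin N → Fin 2 → E3 → ℂ) (x : E3) (σ : Fin 2) (y : E3)
    (τ : Fin 2) : ℂ :=
  ∑ i, u i σ x * conj (u i τ y)

/-- The Hartree-Fock energy. -/
noncomputable def energy {N K : ℕ} (z : Fin K → ℝ) (R : Fin K → E3) (U : Orbitals N) : ℝ :=
  (∑ i, ∑ σ, ((∑ k, ∫ x, ‖U.g i σ k x‖ ^ 2) + ∫ x, pot z R x * ‖U.u i σ x‖ ^ 2))
    + 1 / 2 * (∫ p : E3 × E3, rho U.u p.1 * rho U.u p.2 / ‖p.1 - p.2‖)
    - 1 / 2 * (∫ p : E3 × E3, (∑ σ, ∑ τ, ‖gam U.u p.1 σ p.2 τ‖ ^ 2) / ‖p.1 - p.2‖)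

/-- Every orbital has the form `φ(x) χ(σ)` with `φ ∈ H¹(ℝ³)`, `χ ∈ ℂ²` (almost everywhere). -/
def ProductForm {N : ℕ} (U : Orbitals N) : Prop :=
  ∀ i, ∃ (φ : E3 → ℂ) (gφ : Fin 3 → E3 → ℂ) (χ : Fin 2 → ℂ),
    IsH1 φ gφ ∧ ∀ σ, U.u i σ =ᵐ[volume] fun x => φ x * χ σ

end Pool.Agent.MP_e62678_mp.H54
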