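import Pool.Agent.MP_e62678_mp.H54.Basic

/-! Compactly supported `C¹` functions are dense in `H¹(ℝ³)`. -/

open MeasureTheory Filter Topology
open scoped ComplexConjugate Convolution

namespace Pool.Agent.MP_e62678_mp.H54

theorem dens_memLp_trans {f : E3 → ℂ} (hf : MemLp f 2 volume) (y : E3) :
    MemLp (fun x => f (x - y)) 2 volume :=
  hf.comp_measurePreserving (measurePreserving_sub_right volume y)

/-- Continuity of translation in `L²`. -/
theorem dens_trans {f : E3 → ℂ} (hf : MemLp f 2 volume) {ε : ℝ} (hε : 0 < ε) :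
    ∃ δ > 0, ∀ y : E3, ‖y‖ < δ → nrm (fun x => f (x - y) - f x) ≤ ε := by
  let T : C(E3, C(E3, E3)) :=
    (ContinuousMap.mk (fun a : E3 × E3 => a.2 - a.1) (by fun_prop)).curry
  have hT : ∀ y, MeasurePreserving (T y) volume volume := fun y =>
    measurePreserving_sub_right volume y
  have hc : Continuous (fun y : E3 => Lp.compMeasurePreserving (T y) (hT y) (hf.toLp f)) :=
    continuous_const.compMeasurePreservingLp T.continuous hT (by norm_num)
  have key : ∀ y, ‖Lp.compMeasurePreserving (T y) (hT y) (hf.toLp f) - hf.toLp f‖ ^ 2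
      = nrm (fun x => f (x - y) - f x) := by
    intro y
    have h1 : MemLp (fun x => f (x - y) - f x) 2 volume := (dens_memLp_trans hf y).sub hf
    rw [← norm_toLp_sq h1]
    rfl
  have hc2 : Continuous (fun y : E3 => nrm (fun x => f (x - y) - f x)) := by
    simp_rw [← key]
    fun_prop
  have h0 : nrm (fun x => f (x - (0 : E3)) - f x) < ε := by
    simp [nrm, hε]
  have := (hc2.tendsto 0).eventually (gt_mem_nhds h0)
  obtain ⟨δ, hδ, h⟩ := Metric.eventually_nhds_iff.1 this
  exact ⟨δ, hδ, fun y hy => (h (by simpa using hy)).le⟩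

/-- Jensen inequality for a probability density. -/
theorem dens_jensen {ρ : E3 → ℝ} {h : E3 → ℂ} (h0 : ∀ y, 0 ≤ ρ y) (hi : Integrable ρ)
    (h1 : ∫ y, ρ y = 1) (ha : Integrable (fun y => ρ y * ‖h y‖))
    (hb : Integrable (fun y => ρ y * ‖h y‖ ^ 2)) :
    ‖∫ y, ρ y • h y‖ ^ 2 ≤ ∫ y, ρ y * ‖h y‖ ^ 2 := by
  set a := ∫ y, ρ y * ‖h y‖ with ha'
  have e1 : ‖∫ y, ρ y • h y‖ ≤ a := by
    refine (norm_integral_le_integral_norm _).trans (le_of_eq ?_)
    congr 1
    ext y
    rw [norm_smul, Real.norm_of_nonneg (h0 y)]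
  have e2 : a ^ 2 ≤ ∫ y, ρ y * ‖h y‖ ^ 2 := by
    have : ∫ y, (2 * a * (ρ y * ‖h y‖) - a ^ 2 * ρ y) ≤ ∫ y, ρ y * ‖h y‖ ^ 2 := by
      apply integral_mono ((ha.const_mul _).sub (hi.const_mul _)) hb
      intro y
      have := mul_nonneg (h0 y) (sq_nonneg (‖h y‖ - a))
      show 2 * a * (ρ y * ‖h y‖) - a ^ 2 * ρ y ≤ ρ y * ‖h y‖ ^ 2
      nlinarith
    rw [integral_sub (ha.const_mul _) (hi.const_mul _), integral_const_mul, integral_const_mul,
      h1, ← ha'] at this
    nlinarith
  exact (pow_le_pow_left₀ (norm_nonneg _) e1 2).trans e2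

/-- The mollification. -/
noncomputable def densMol (φ : ContDiffBump (0 : E3)) (f : E3 → ℂ) : E3 → ℂ :=
  φ.normed volume ⋆[ContinuousLinearMap.lsmul ℝ ℝ, volume] f

theorem dens_locInt {f : E3 → ℂ} (hf : MemLp f 2 volume) : LocallyIntegrable f volume :=
  hf.locallyIntegrable (by norm_num)

theorem dens_contDiff (φ : ContDiffBump (0 : E3)) {f : E3 → ℂ} (hf : MemLp f 2 volume) :
    ContDiff ℝ 1 (densMol φ f) :=
  φ.hasCompactSupport_normed.contDiff_convolution_left (n := 1) _ φ.contDiff_normed
    (dens_locInt hf)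

theorem dens_pointwise (φ : ContDiffBump (0 : E3)) {f : E3 → ℂ} (hf : MemLp f 2 volume) (x : E3) :
    Integrable (fun y => φ.normed volume y * ‖f (x - y) - f x‖ ^ 2) ∧
    ‖densMol φ f x - f x‖ ^ 2 ≤ ∫ y, φ.normed volume y * ‖f (x - y) - f x‖ ^ 2 := by
  have hm : MemLp (fun y => f (x - y)) 2 volume :=
    hf.comp_measurePreserving (Measure.measurePreserving_sub_left volume x)
  have hl : LocallyIntegrable (fun y => f (x - y)) volume := dens_locInt hm
  have hl1 : LocallyIntegrable (fun y => f (x - y) - f x) volume :=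
    hl.sub (locallyIntegrable_const _)
  have hl2 : LocallyIntegrable (fun y => ‖f (x - y) - f x‖ ^ 2) volume := by
    have hA : LocallyIntegrable (fun y => 2 * ‖f (x - y)‖ ^ 2 + 2 * ‖f x‖ ^ 2) volume :=
      ((integrable_sq hm).const_mul 2).locallyIntegrable.add (locallyIntegrable_const _)
    refine hA.mono ((hl1.aestronglyMeasurable.norm).pow 2) (Eventually.of_forall fun y => ?_)
    rw [Real.norm_of_nonneg (by positivity), Real.norm_of_nonneg (by positivity)]
    have := norm_sub_le (f (x - y)) (f x)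
    have h2 := pow_le_pow_left₀ (norm_nonneg _) this 2
    nlinarith [sq_nonneg (‖f (x - y)‖ - ‖f x‖)]
  have hc := φ.continuous_normed (μ := (volume : Measure E3))
  have hs := φ.hasCompactSupport_normed (μ := (volume : Measure E3))
  have hb : Integrable (fun y => φ.normed volume y * ‖f (x - y) - f x‖ ^ 2) :=
    hl2.integrable_smul_left_of_hasCompactSupport hc hs
  have ha : Integrable (fun y => φ.normed volume y * ‖f (x - y) - f x‖) :=
    LocallyIntegrable.integrable_smul_left_of_hasCompactSupport
      (f := fun y => ‖f (x - y) - f x‖) (fun z => (hl1 z).norm) hc hs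
  refine ⟨hb, ?_⟩
  have e : densMol φ f x - f x = ∫ y, φ.normed volume y • (f (x - y) - f x) := by
    simp_rw [smul_sub]
    rw [integral_sub (hl.integrable_smul_left_of_hasCompactSupport hc hs)
      (φ.integrable_normed.smul_const _), φ.integral_normed_smul]
    rfl
  rw [e]
  exact dens_jensen φ.nonneg_normed φ.integrable_normed φ.integral_normed ha hb

theorem dens_mol_close (φ : ContDiffBump (0 : E3)) {f : E3 → ℂ} (hf : MemLp f 2 volume) {ε : ℝ}
    (hε : 0 ≤ ε) (h : ∀ y : E3, ‖y‖ < φ.rOut → nrm (fun x => f (x - y) - f x) ≤ ε) :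
    MemLp (densMol φ f) 2 volume ∧ nrm (f - densMol φ f) ≤ ε := by
  have hme : AEStronglyMeasurable (fun x => densMol φ f x - f x) volume :=
    (dens_contDiff φ hf).continuous.aestronglyMeasurable.sub hf.aestronglyMeasurable
  have hG : AEMeasurable (Function.uncurry fun x y : E3 =>
      ENNReal.ofReal (φ.normed volume y * ‖f (x - y) - f x‖ ^ 2)) (volume.prod volume) := by
    have m1 : AEStronglyMeasurable (fun p : E3 × E3 => f (p.1 - p.2)) (volume.prod volume) :=
      hf.aestronglyMeasurable.comp_quasiMeasurePreserving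
        (quasiMeasurePreserving_sub_of_right_invariant volume volume)
    have m2 : AEStronglyMeasurable (fun p : E3 × E3 => f p.1) (volume.prod volume) :=
      hf.aestronglyMeasurable.comp_fst
    have m3 : AEStronglyMeasurable (fun p : E3 × E3 => φ.normed volume p.2)
        (volume.prod volume) :=
      (φ.continuous_normed.comp continuous_snd).aestronglyMeasurable
    exact (m3.mul (((m1.sub m2).norm).pow 2)).aemeasurable.ennreal_ofReal
  have main : ∫⁻ x, ENNReal.ofReal (‖densMol φ f x - f x‖ ^ 2) ≤ ENNReal.ofReal ε := by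
    calc ∫⁻ x, ENNReal.ofReal (‖densMol φ f x - f x‖ ^ 2)
        ≤ ∫⁻ x, ∫⁻ y, ENNReal.ofReal (φ.normed volume y * ‖f (x - y) - f x‖ ^ 2) := by
          refine lintegral_mono fun x => ?_
          obtain ⟨hb, hle⟩ := dens_pointwise φ hf x
          rw [← ofReal_integral_eq_lintegral_ofReal hb
            (Eventually.of_forall fun y => mul_nonneg (φ.nonneg_normed y) (by positivity))]
          exact ENNReal.ofReal_le_ofReal hle
      _ = ∫⁻ y, ∫⁻ x, ENNReal.ofReal (φ.normed volume y * ‖f (x - y) - f x‖ ^ 2) :=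
          lintegral_lintegral_swap hG
      _ ≤ ∫⁻ y, ENNReal.ofReal (φ.normed volume y * ε) := by
          refine lintegral_mono fun y => ?_
          have h1 : MemLp (fun x => f (x - y) - f x) 2 volume := (dens_memLp_trans hf y).sub hf
          rw [← ofReal_integral_eq_lintegral_ofReal ((integrable_sq h1).const_mul _)
            (Eventually.of_forall fun x => mul_nonneg (φ.nonneg_normed y) (by positivity)),
            integral_const_mul]
          apply ENNReal.ofReal_le_ofReal
          by_cases hy : ‖y‖ < φ.rOut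
          · exact mul_le_mul_of_nonneg_left (h y hy) (φ.nonneg_normed y)
          · have : φ.normed volume y = 0 := by
              by_contra hne
              have : y ∈ Function.support (φ.normed (volume : Measure E3)) := hne
              rw [φ.support_normed_eq] at this
              exact hy (by simpa using this)
            simp [this]
      _ = ENNReal.ofReal ε := by
          rw [← ofReal_integral_eq_lintegral_ofReal (φ.integrable_normed.mul_const _)
            (Eventually.of_forall fun y => mul_nonneg (φ.nonneg_normed y) hε),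
            integral_mul_const, φ.integral_normed, one_mul]
  have hint : Integrable (fun x => ‖densMol φ f x - f x‖ ^ 2) := by
    refine ⟨hme.norm.pow 2, ?_⟩
    rw [hasFiniteIntegral_iff_ofReal (Eventually.of_forall fun x => by positivity)]
    exact main.trans_lt ENNReal.ofReal_lt_top
  have hm : MemLp (fun x => densMol φ f x - f x) 2 volume :=
    (memLp_two_iff_integrable_sq_norm hme).2 hint
  refine ⟨?_, ?_⟩
  · have := hm.add hf
    refine this.ae_eq (Eventually.of_forall fun x => ?_)
    simp
  · rw [← ofReal_integral_eq_lintegral_ofReal hint (Eventually.of_forall fun x => by positivity),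
      ENNReal.ofReal_le_ofReal_iff hε] at main
    unfold nrm
    simp_rw [Pi.sub_apply, norm_sub_rev (f _)]
    exact main

/-- The derivative of the mollification is the mollification of the weak derivative. -/
theorem dens_pd {u : E3 → ℂ} {g : Fin 3 → E3 → ℂ} (hu : IsH1 u g) (φ : ContDiffBump (0 : E3))
    (k : Fin 3) : pd k (densMol φ u) = densMol φ (g k) := by
  funext x
  have hc : ContDiff ℝ 1 (φ.normed (volume : Measure E3)) := φ.contDiff_normed
  have hs := φ.hasCompactSupport_normed (μ := (volume : Measure E3))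
  have hd := hs.hasFDerivAt_convolution_left (ContinuousLinearMap.lsmul ℝ ℝ) hc
    (dens_locInt hu.memL2) x
  have hci : ContDiff ℝ ((⊤ : ℕ∞) : WithTop ℕ∞) (fun y => φ.normed (volume : Measure E3) (x - y)) :=
    φ.contDiff_normed.comp (contDiff_const.sub contDiff_id)
  have hsi : HasCompactSupport (fun y => φ.normed (volume : Measure E3) (x - y)) :=
    hs.comp_homeomorph (Homeomorph.subLeft x)
  have hw := hu.weak k _ hci hsi
  have hpd : ∀ y, pd k (fun y => φ.normed (volume : Measure E3) (x - y)) y
      = -(fderiv ℝ (φ.normed (volume : Measure E3)) (x - y) (EuclideanSpace.single k 1)) := by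
    intro y
    have h1 : HasFDerivAt (fun y => φ.normed (volume : Measure E3) (x - y))
        ((fderiv ℝ (φ.normed (volume : Measure E3)) (x - y)).comp
          (-(ContinuousLinearMap.id ℝ E3))) y :=
      ((hc.differentiable one_ne_zero) (x - y)).hasFDerivAt.comp y
        ((hasFDerivAt_id y).const_sub x)
    unfold pd
    rw [h1.fderiv]
    simp
  simp_rw [hpd] at hw
  unfold pd densMol
  rw [hd.fderiv, convolution_eq_swap, ContinuousLinearMap.integral_apply, convolution_lsmul_swap]
  · simp only [ContinuousLinearMap.precompL_apply, ContinuousLinearMap.lsmul_apply,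
      Complex.real_smul]
    simp only [Complex.ofReal_neg, neg_mul, integral_neg, neg_inj] at hw
    exact hw
  · exact ((hs.fderiv ℝ).convolutionExists_left _ (hc.continuous_fderiv one_ne_zero)
      (dens_locInt hu.memL2) x).integrable_swap

/-- A fixed cut-off. -/
noncomputable def densChi : ContDiffBump (0 : E3) := ⟨1, 2, one_pos, one_lt_two⟩

/-- The rescaled cut-off. -/
noncomputable def densCut (n : ℕ) (x : E3) : ℝ := densChi (((n : ℝ) + 1)⁻¹ • x)

theorem dens_cut_contDiff (n : ℕ) : ContDiff ℝ 1 (densCut n) :=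
  densChi.contDiff.comp (contDiff_id.const_smul _)

theorem dens_cut_compact (n : ℕ) : HasCompactSupport (densCut n) :=
  densChi.hasCompactSupport.comp_smul (inv_ne_zero (by positivity))

theorem dens_cut_tendsto {f : E3 → ℂ} (hf : MemLp f 2 volume) :
    Tendsto (fun n : ℕ => nrm (fun x => (1 - densCut n x) • f x)) atTop (𝓝 0) := by
  have h := tendsto_integral_of_dominated_convergence (μ := (volume : Measure E3))
    (F := fun (n : ℕ) x => ‖(1 - densCut n x) • f x‖ ^ 2) (f := fun _ => (0 : ℝ))
    (fun x => ‖f x‖ ^ 2) ?_ (integrable_sq hf) ?_ ?_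
  · simpa [nrm] using h
  · intro n
    exact (((continuous_const.sub (dens_cut_contDiff n).continuous).aestronglyMeasurable.smul
      hf.aestronglyMeasurable).norm).pow 2
  · intro n
    refine Eventually.of_forall fun x => ?_
    rw [Real.norm_of_nonneg (by positivity), norm_smul]
    have h0 : 0 ≤ densCut n x := densChi.nonneg
    have h1 : densCut n x ≤ 1 := densChi.le_one
    rw [Real.norm_of_nonneg (by linarith)]
    apply pow_le_pow_left₀ (mul_nonneg (by linarith) (norm_nonneg _))
    nlinarith [norm_nonneg (f x)]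
  · refine Eventually.of_forall fun x => ?_
    refine tendsto_const_nhds.congr' ?_
    filter_upwards [eventually_ge_atTop ⌈‖x‖⌉₊] with n hn
    have h1 : densCut n x = 1 := by
      apply densChi.one_of_mem_closedBall
      have hn' : ‖x‖ ≤ n := Nat.ceil_le.1 hn
      have hp : (0 : ℝ) < (n : ℝ) + 1 := by positivity
      simp only [densChi, mem_closedBall_zero_iff, norm_smul, norm_inv]
      rw [Real.norm_of_nonneg hp.le, inv_mul_le_iff₀ hp]
      linarith
    simp [h1]

theorem dens_cut_pd : ∃ C : ℝ, 0 ≤ C ∧ ∀ (n : ℕ) (k : Fin 3) (x : E3),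
    |pd k (densCut n) x| ≤ C * ((n : ℝ) + 1)⁻¹ := by
  have hc : ContDiff ℝ 1 (densChi : E3 → ℝ) := densChi.contDiff
  obtain ⟨C, hC⟩ := (hc.continuous_fderiv one_ne_zero).bounded_above_of_compact_support
    (densChi.hasCompactSupport.fderiv ℝ)
  refine ⟨C, (norm_nonneg _).trans (hC 0), fun n k x => ?_⟩
  have h0 : HasFDerivAt (fun y : E3 => ((n : ℝ) + 1)⁻¹ • y)
      (((n : ℝ) + 1)⁻¹ • ContinuousLinearMap.id ℝ E3) x :=
    (((n : ℝ) + 1)⁻¹ • ContinuousLinearMap.id ℝ E3).hasFDerivAt
  have h1 : HasFDerivAt (densCut n)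
      ((fderiv ℝ (densChi : E3 → ℝ) (((n : ℝ) + 1)⁻¹ • x)).comp
        (((n : ℝ) + 1)⁻¹ • ContinuousLinearMap.id ℝ E3)) x :=
    ((hc.differentiable one_ne_zero) _).hasFDerivAt.comp x h0
  unfold pd
  rw [h1.fderiv, ← Real.norm_eq_abs]
  have hp : (0 : ℝ) ≤ ((n : ℝ) + 1)⁻¹ := by positivity
  simp only [ContinuousLinearMap.comp_apply, smul_apply,
    ContinuousLinearMap.id_apply]
  refine (ContinuousLinearMap.le_opNorm _ _).trans ?_
  rw [norm_smul, Real.norm_of_nonneg hp, EuclideanSpace.norm_single, norm_one, mul_one]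
  exact mul_le_mul_of_nonneg_right (hC _) hp

theorem dens_memLp_mul {c : E3 → ℝ} {f : E3 → ℂ} (hc : Continuous c) {C : ℝ}
    (hb : ∀ x, |c x| ≤ C) (hf : MemLp f 2 volume) :
    MemLp (fun x => c x • f x) 2 volume ∧ nrm (fun x => c x • f x) ≤ C ^ 2 * nrm f := by
  have hm : MemLp (fun x => c x • f x) 2 volume := by
    refine MemLp.of_le_mul (c := C) hf (hc.aestronglyMeasurable.smul hf.aestronglyMeasurable)
      (Eventually.of_forall fun x => ?_)
    rw [norm_smul]
    exact mul_le_mul_of_nonneg_right (hb x) (norm_nonneg _)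
  refine ⟨hm, ?_⟩
  unfold nrm
  rw [← integral_const_mul]
  refine integral_mono (integrable_sq hm) ((integrable_sq hf).const_mul _) fun x => ?_
  show ‖c x • f x‖ ^ 2 ≤ C ^ 2 * ‖f x‖ ^ 2
  rw [norm_smul, mul_pow]
  exact mul_le_mul_of_nonneg_right (pow_le_pow_left₀ (norm_nonneg _) (hb x) 2) (by positivity)

theorem dens_cut {w : E3 → ℂ} (hw : ContDiff ℝ 1 w) (h2 : MemLp w 2 volume)
    (hg : ∀ k, MemLp (pd k w) 2 volume) {ε : ℝ} (hε : 0 < ε) :
    ∃ v, Nice v ∧ nrm (w - v) ≤ ε ∧ ∀ k, nrm (pd k w - pd k v) ≤ ε := by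
  obtain ⟨C, hC0, hC⟩ := dens_cut_pd
  have t1 := (dens_cut_tendsto h2).eventually (gt_mem_nhds hε)
  have t2 : ∀ᶠ n : ℕ in atTop, ∀ k, nrm (fun x => (1 - densCut n x) • pd k w x) < ε / 4 :=
    eventually_all.2 fun k => (dens_cut_tendsto (hg k)).eventually (gt_mem_nhds (by linarith))
  have t3 : ∀ᶠ n : ℕ in atTop, (C * ((n : ℝ) + 1)⁻¹) ^ 2 * nrm w < ε / 4 := by
    have : Tendsto (fun n : ℕ => (C * ((n : ℝ) + 1)⁻¹) ^ 2 * nrm w) atTop
        (𝓝 ((C * 0) ^ 2 * nrm w)) := by
      have h : Tendsto (fun n : ℕ => ((n : ℝ) + 1)⁻¹) atTop (𝓝 0) := by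
        simpa using tendsto_one_div_add_atTop_nhds_zero_nat (𝕜 := ℝ)
      exact ((h.const_mul C).pow 2).mul_const _
    exact this.eventually (gt_mem_nhds (by simpa using hε))
  obtain ⟨n, h1, h3, h4⟩ := (t1.and (t2.and t3)).exists
  have hcd := dens_cut_contDiff n
  refine ⟨fun x => densCut n x • w x, ⟨hcd.smul hw, (dens_cut_compact n).smul_right⟩, ?_, ?_⟩
  · refine le_trans (le_of_eq ?_) h1.le
    congr 1
    funext x
    simp [sub_smul]
  · intro k
    have hcp : Continuous (pd k (densCut n)) :=
      (hcd.continuous_fderiv one_ne_zero).clm_apply continuous_const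
    have e : pd k w - pd k (fun x => densCut n x • w x)
        = (fun x => (1 - densCut n x) • pd k w x) + fun x => (-pd k (densCut n) x) • w x := by
      funext x
      have := fderiv_fun_smul (hcd.differentiable one_ne_zero x) (hw.differentiable one_ne_zero x)
      simp only [Pi.sub_apply, Pi.add_apply, pd]
      rw [this]
      simp only [add_apply, smul_apply,
        ContinuousLinearMap.smulRight_apply, sub_smul, one_smul, neg_smul]
      abel
    have m1 := dens_memLp_mul (c := fun x => 1 - densCut n x) (C := 1)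
      (continuous_const.sub hcd.continuous) (fun x => by
        have h0 : 0 ≤ densCut n x := densChi.nonneg
        have h1 : densCut n x ≤ 1 := densChi.le_one
        rw [abs_le]
        constructor <;> linarith) (hg k)
    have m2 := dens_memLp_mul (c := fun x => -pd k (densCut n) x) (C := C * ((n : ℝ) + 1)⁻¹)
      hcp.neg (fun x => by rw [abs_neg]; exact hC n k x) h2
    rw [e]
    have := nrm_add_le m1.1 m2.1 one_pos
    have h5 := h3 k
    have h6 := m2.2
    rw [show (1 : ℝ) + 1 / 1 = 2 by norm_num, show (1 : ℝ) + 1 = 2 by norm_num] at this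
    linarith

theorem IsH1.dense {u : E3 → ℂ} {g : Fin 3 → E3 → ℂ} (hu : IsH1 u g) {ε : ℝ} (hε : 0 < ε) :
    ∃ v, Nice v ∧ nrm (u - v) ≤ ε ∧ kin (g - grad v) ≤ ε := by
  have hε' : 0 < ε / 12 := by linarith
  obtain ⟨δ, hδ, h1⟩ := dens_trans hu.memL2 hε'
  choose d hd h2 using fun k => dens_trans (hu.gradL2 k) hε'
  set r := min δ (min (d 0) (min (d 1) (d 2))) with hr
  have hr0 : 0 < r := lt_min hδ (lt_min (hd 0) (lt_min (hd 1) (hd 2)))
  have hr1 : r ≤ δ := min_le_left _ _
  have hr2 : ∀ k, r ≤ d k := by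
    intro k
    fin_cases k
    · exact (min_le_right _ _).trans (min_le_left _ _)
    · exact (min_le_right _ _).trans ((min_le_right _ _).trans (min_le_left _ _))
    · exact (min_le_right _ _).trans ((min_le_right _ _).trans (min_le_right _ _))
  let φ : ContDiffBump (0 : E3) := ⟨r / 2, r, by linarith, by linarith⟩
  obtain ⟨a1, a2⟩ := dens_mol_close φ hu.memL2 hε'.le fun y hy => h1 y (hy.trans_le hr1)
  have b := fun k => dens_mol_close φ (hu.gradL2 k) hε'.le
    fun y hy => h2 k y (hy.trans_le (hr2 k))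
  have hg : ∀ k, MemLp (pd k (densMol φ u)) 2 volume := fun k => by
    rw [dens_pd hu]
    exact (b k).1
  obtain ⟨v, hv, c1, c2⟩ := dens_cut (dens_contDiff φ hu.memL2) a1 hg hε'
  have hvm := hv.isH1
  refine ⟨v, hv, ?_, ?_⟩
  · have := nrm_add_le (hu.memL2.sub a1) (a1.sub hvm.memL2) one_pos
    rw [sub_add_sub_cancel] at this
    norm_num at this
    linarith
  · have : ∀ k, nrm ((g - grad v) k) ≤ ε / 3 := by
      intro k
      have := nrm_add_le ((hu.gradL2 k).sub (hg k)) ((hg k).sub (hvm.gradL2 k)) one_pos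
      rw [sub_add_sub_cancel] at this
      have h3 := (b k).2
      rw [← dens_pd hu] at h3
      have h4 := c2 k
      norm_num at this
      change nrm (g k - grad v k) ≤ ε / 3
      change nrm (pd k (densMol φ u) - grad v k) ≤ ε / 12 at h4
      linarith
    unfold kin
    rw [Fin.sum_univ_three]
    linarith [this 0, this 1, this 2]

end Pool.Agent.MP_e62678_mp.H54
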