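import Pool.Agent.MP_e62678_mp.H54.FinDimAux

/-! The Hubbard triangle: a lower bound for product-form tuples. -/

open MeasureTheory Filter Topology
open scoped ComplexConjugate

namespace Pool.Agent.MP_e62678_mp.H54

/-- Squared wedge product of two spinors. -/
noncomputable def fdW (a b : Fin 2 → ℂ) : ℝ := ‖a 0 * b 1 - a 1 * b 0‖ ^ 2

theorem fdW_nonneg (a b : Fin 2 → ℂ) : 0 ≤ fdW a b := sq_nonneg _

theorem fdW_comm (a b : Fin 2 → ℂ) : fdW a b = fdW b a := by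
  unfold fdW
  rw [norm_sub_rev]
  congr 2
  ring

theorem fd_lag2 (a b : Fin 2 → ℂ) :
    fdW a b + ‖∑ σ, conj (a σ) * b σ‖ ^ 2 = (∑ σ, ‖a σ‖ ^ 2) * ∑ σ, ‖b σ‖ ^ 2 := by
  simp only [fdW, Fin.sum_univ_two, Complex.sq_norm, Complex.normSq_apply, Complex.add_re,
    Complex.add_im, Complex.sub_re, Complex.sub_im, Complex.mul_re, Complex.mul_im,
    Complex.conj_re, Complex.conj_im]
  ring

theorem fd_lag3 (x0 x1 x2 y0 y1 y2 : ℂ) :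
    (‖x0‖ ^ 2 + ‖x1‖ ^ 2 + ‖x2‖ ^ 2) * (‖y0‖ ^ 2 + ‖y1‖ ^ 2 + ‖y2‖ ^ 2) -
      ‖x0 * conj y0 + x1 * conj y1 + x2 * conj y2‖ ^ 2 =
      ‖x0 * y1 - y0 * x1‖ ^ 2 + ‖x0 * y2 - y0 * x2‖ ^ 2 + ‖x1 * y2 - y1 * x2‖ ^ 2 := by
  simp only [Complex.sq_norm, Complex.normSq_apply, Complex.add_re,
    Complex.add_im, Complex.sub_re, Complex.sub_im, Complex.mul_re, Complex.mul_im,
    Complex.conj_re, Complex.conj_im]
  ring

theorem fd_det (c : Fin 3 → Fin 3 → ℂ) (χ : Fin 3 → Fin 2 → ℂ) (j : Fin 3) :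
    detj (fun i σ j => c i j * χ i σ) j =
      ‖c 0 j‖ ^ 2 * ‖c 1 j‖ ^ 2 * fdW (χ 0) (χ 1) + ‖c 0 j‖ ^ 2 * ‖c 2 j‖ ^ 2 * fdW (χ 0) (χ 2) +
        ‖c 1 j‖ ^ 2 * ‖c 2 j‖ ^ 2 * fdW (χ 1) (χ 2) := by
  have h : ∀ (s u : ℂ) (a b : Fin 2 → ℂ),
      ‖s * a 0 * (u * b 1) - s * a 1 * (u * b 0)‖ ^ 2 = ‖s‖ ^ 2 * ‖u‖ ^ 2 * fdW a b := by
    intro s u a b
    rw [show s * a 0 * (u * b 1) - s * a 1 * (u * b 0) = s * u * (a 0 * b 1 - a 1 * b 0) by ring,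
      norm_mul, norm_mul, fdW]
    ring
  simp only [detj, Fin.sum_univ_three]
  rw [fd_lag3, h, h, h]

theorem fd_pars (a b d : Fin 2 → ℂ) (ha : ∑ σ, ‖a σ‖ ^ 2 = 1) (hb : ∑ σ, ‖b σ‖ ^ 2 = 1)
    (hd : ∑ σ, ‖d σ‖ ^ 2 = 1) (hab : ∑ σ, conj (a σ) * b σ = 0) :
    fdW a b = 1 ∧ fdW a d + fdW b d = 1 := by
  have h1 : fdW a b = 1 := by
    have := fd_lag2 a b
    rw [hab, ha, hb] at this
    simpa using this
  refine ⟨h1, ?_⟩
  have hba : ∑ σ, a σ * conj (b σ) = 0 := by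
    have h2 := congrArg conj hab
    simpa only [map_sum, map_mul, Complex.conj_conj, map_zero] using h2
  have cast : ∀ x : Fin 2 → ℂ, ∑ σ, ‖x σ‖ ^ 2 = 1 →
      x 0 * conj (x 0) + x 1 * conj (x 1) = 1 := by
    intro x hx
    rw [Complex.mul_conj', Complex.mul_conj']
    rw [Fin.sum_univ_two] at hx
    exact_mod_cast hx
  have castW : ∀ x y : Fin 2 → ℂ, ((fdW x y : ℝ) : ℂ) =
      (x 0 * y 1 - x 1 * y 0) * (conj (x 0) * conj (y 1) - conj (x 1) * conj (y 0)) := by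
    intro x y
    rw [← map_mul, ← map_mul, ← map_sub, Complex.mul_conj', fdW]
    push_cast
    rfl
  have ha' := cast a ha
  have hb' := cast b hb
  have hd' := cast d hd
  have h1' := castW a b
  rw [h1] at h1'
  rw [Fin.sum_univ_two] at hab hba
  have : ((fdW a d + fdW b d : ℝ) : ℂ) = ((1 : ℝ) : ℂ) := by
    push_cast at h1' ⊢
    rw [castW, castW]
    linear_combination
      -((a 0 * d 1 - a 1 * d 0) * (conj (a 0) * conj (d 1) - conj (a 1) * conj (d 0))) * hb'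
      - ((b 0 * d 1 - b 1 * d 0) * (conj (b 0) * conj (d 1) - conj (b 1) * conj (d 0))) * ha'
      + ((b 0 * d 1 - b 1 * d 0) * (conj (a 0) * conj (d 1) - conj (a 1) * conj (d 0))) * hba
      + ((a 0 * d 1 - a 1 * d 0) * (conj (b 0) * conj (d 1) - conj (b 1) * conj (d 0))) * hab
      - (d 0 * conj (d 0) + d 1 * conj (d 1)) * h1' + hd'
  exact_mod_cast this

/-- The case of two orthogonal spinors `x ⟂ y`, with third spinor `z`. -/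
theorem fd_case (a b d : Fin 3 → ℂ) (x y z : Fin 2 → ℂ)
    (ha : ∑ j, ‖a j‖ ^ 2 = 1) (hb : ∑ j, ‖b j‖ ^ 2 = 1) (hd : ∑ j, ‖d j‖ ^ 2 = 1)
    (hx : ∑ σ, ‖x σ‖ ^ 2 = 1) (hy : ∑ σ, ‖y σ‖ ^ 2 = 1) (hz : ∑ σ, ‖z σ‖ ^ 2 = 1)
    (hxy : ∑ σ, conj (x σ) * y σ = 0)
    (had : (∑ j, conj (a j) * d j) * (∑ σ, conj (x σ) * z σ) = 0)
    (hbd : (∑ j, conj (b j) * d j) * (∑ σ, conj (y σ) * z σ) = 0) :
    -(3 / 60 : ℝ) - 431 / 100 * (1 / 60) ^ 2 ≤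
      -(1 / 60) * (‖∑ j, a j‖ ^ 2 + ‖∑ j, b j‖ ^ 2 + ‖∑ j, d j‖ ^ 2) +
        ∑ j, (‖a j‖ ^ 2 * ‖b j‖ ^ 2 * fdW x y + ‖a j‖ ^ 2 * ‖d j‖ ^ 2 * fdW x z +
          ‖b j‖ ^ 2 * ‖d j‖ ^ 2 * fdW y z) := by
  obtain ⟨h1, h2⟩ := fd_pars x y z hx hy hz hxy
  have hB := fdW_nonneg x z
  have hA := fdW_nonneg y z
  have hxz := fd_lag2 x z
  have hyz := fd_lag2 y z
  rw [hx, hz] at hxz
  rw [hy, hz] at hyz
  have hs : ∑ j, (‖a j‖ ^ 2 * ‖b j‖ ^ 2 * fdW x y + ‖a j‖ ^ 2 * ‖d j‖ ^ 2 * fdW x z +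
      ‖b j‖ ^ 2 * ‖d j‖ ^ 2 * fdW y z) =
      fdW y z * (∑ j, (‖a j‖ ^ 2 + ‖d j‖ ^ 2) * ‖b j‖ ^ 2) +
        fdW x z * ∑ j, (‖b j‖ ^ 2 + ‖d j‖ ^ 2) * ‖a j‖ ^ 2 := by
    rw [Finset.mul_sum, Finset.mul_sum, ← Finset.sum_add_distrib]
    refine Finset.sum_congr rfl fun j _ => ?_
    rw [h1]
    linear_combination -(‖a j‖ ^ 2 * ‖b j‖ ^ 2) * h2
  rw [hs]
  have hEA : fdW y z * (-(3 / 60 : ℝ) - 431 / 100 * (1 / 60) ^ 2) ≤ fdW y z *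
      (-(1 / 60) * ((‖∑ j, a j‖ ^ 2 + ‖∑ j, d j‖ ^ 2) + ‖∑ j, b j‖ ^ 2) +
        ∑ j, (‖a j‖ ^ 2 + ‖d j‖ ^ 2) * ‖b j‖ ^ 2) := by
    rcases mul_eq_zero.1 had with h | h
    · exact mul_le_mul_of_nonneg_left (fd_uhf a d b ha hd h hb) hA
    · rw [h] at hxz
      have : fdW y z = 0 := by
        simp only [norm_zero, ne_eq, OfNat.ofNat_ne_zero, not_false_eq_true, zero_pow] at hxz
        linarith
      rw [this, zero_mul, zero_mul]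
  have hEB : fdW x z * (-(3 / 60 : ℝ) - 431 / 100 * (1 / 60) ^ 2) ≤ fdW x z *
      (-(1 / 60) * ((‖∑ j, b j‖ ^ 2 + ‖∑ j, d j‖ ^ 2) + ‖∑ j, a j‖ ^ 2) +
        ∑ j, (‖b j‖ ^ 2 + ‖d j‖ ^ 2) * ‖a j‖ ^ 2) := by
    rcases mul_eq_zero.1 hbd with h | h
    · exact mul_le_mul_of_nonneg_left (fd_uhf b d a hb hd h ha) hB
    · rw [h] at hyz
      have : fdW x z = 0 := by
        simp only [norm_zero, ne_eq, OfNat.ofNat_ne_zero, not_false_eq_true, zero_pow] at hyz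
        linarith
      rw [this, zero_mul, zero_mul]
  have hz' : fdW x z = 1 - fdW y z := by linarith
  rw [hz'] at hEB ⊢
  nlinarith

theorem fd_conj_zero {n m : ℕ} {a b : Fin n → ℂ} {x y : Fin m → ℂ}
    (h : (∑ j, conj (a j) * b j) * (∑ σ, conj (x σ) * y σ) = 0) :
    (∑ j, conj (b j) * a j) * (∑ σ, conj (y σ) * x σ) = 0 := by
  have h1 := congrArg conj h
  simp only [map_sum, map_mul, Complex.conj_conj, map_zero] at h1
  simpa only [mul_comm] using h1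

theorem fd_exact (c : Fin 3 → Fin 3 → ℂ) (χ : Fin 3 → Fin 2 → ℂ)
    (hc : ∀ i, ∑ j, ‖c i j‖ ^ 2 = 1) (hχ : ∀ i, ∑ σ, ‖χ i σ‖ ^ 2 = 1)
    (ho : ∀ i i', i ≠ i' → (∑ j, conj (c i j) * c i' j) * (∑ σ, conj (χ i σ) * χ i' σ) = 0) :
    -(3 / 60 : ℝ) - 431 / 100 * (1 / 60) ^ 2 ≤
      -(1 / 60) * (∑ i, ∑ σ, ‖∑ j, c i j * χ i σ‖ ^ 2) +
        ∑ j, detj (fun i σ j => c i j * χ i σ) j := by
  have h1 : ∀ i, ∑ σ, ‖∑ j, c i j * χ i σ‖ ^ 2 = ‖∑ j, c i j‖ ^ 2 := by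
    intro i
    simp only [← Finset.sum_mul, norm_mul, mul_pow, ← Finset.mul_sum, hχ, mul_one]
  simp only [h1, fd_det]
  rw [Fin.sum_univ_three fun i => ‖∑ j, c i j‖ ^ 2]
  by_cases h01 : ∑ σ, conj (χ 0 σ) * χ 1 σ = 0
  · exact fd_case (c 0) (c 1) (c 2) (χ 0) (χ 1) (χ 2) (hc 0) (hc 1) (hc 2) (hχ 0) (hχ 1) (hχ 2)
      h01 (ho 0 2 (by decide)) (ho 1 2 (by decide))
  by_cases h02 : ∑ σ, conj (χ 0 σ) * χ 2 σ = 0
  · have := fd_case (c 0) (c 2) (c 1) (χ 0) (χ 2) (χ 1) (hc 0) (hc 2) (hc 1) (hχ 0) (hχ 2) (hχ 1)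
      h02 (ho 0 1 (by decide)) (ho 2 1 (by decide))
    rw [fdW_comm (χ 2) (χ 1)] at this
    refine this.trans (le_of_eq ?_)
    congr 1
    · ring
    · exact Finset.sum_congr rfl fun j _ => by ring
  by_cases h12 : ∑ σ, conj (χ 1 σ) * χ 2 σ = 0
  · have := fd_case (c 1) (c 2) (c 0) (χ 1) (χ 2) (χ 0) (hc 1) (hc 2) (hc 0) (hχ 1) (hχ 2) (hχ 0)
      h12 (ho 1 0 (by decide)) (ho 2 0 (by decide))
    rw [fdW_comm (χ 2) (χ 0), fdW_comm (χ 1) (χ 0)] at this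
    refine this.trans (le_of_eq ?_)
    congr 1
    · ring
    · exact Finset.sum_congr rfl fun j _ => by ring
  have k01 := (mul_eq_zero.1 (ho 0 1 (by decide))).resolve_right h01
  have k02 := (mul_eq_zero.1 (ho 0 2 (by decide))).resolve_right h02
  have k12 := (mul_eq_zero.1 (ho 1 2 (by decide))).resolve_right h12
  have hsw : ∀ i i', ∑ j, conj (c i j) * c i' j = 0 → ∑ j, conj (c i' j) * c i j = 0 := by
    intro i i' h
    have h2 := congrArg conj h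
    simp only [map_sum, map_mul, Complex.conj_conj, map_zero] at h2
    simpa only [mul_comm] using h2
  have hsq : ∀ i, ∑ j, conj (c i j) * c i j = 1 := by
    intro i
    have : ((∑ j, ‖c i j‖ ^ 2 : ℝ) : ℂ) = 1 := by rw [hc]; simp
    rw [← this]
    push_cast
    exact Finset.sum_congr rfl fun j _ => Complex.conj_mul' _
  have hb := fd_bessel c (by
    intro i i'
    fin_cases i <;> fin_cases i'
    · simpa using hsq 0
    · simpa using k01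
    · simpa using k02
    · simpa using hsw _ _ k01
    · simpa using hsq 1
    · simpa using k12
    · simpa using hsw _ _ k02
    · simpa using hsw _ _ k12
    · simpa using hsq 2) (fun _ => 1)
  simp only [mul_one, norm_one, one_pow, Finset.sum_const, Finset.card_univ, Fintype.card_fin,
    nsmul_eq_mul, Nat.cast_ofNat] at hb
  rw [Fin.sum_univ_three fun i => ‖∑ j, c i j‖ ^ 2] at hb
  have hpos : 0 ≤ ∑ j, (‖c 0 j‖ ^ 2 * ‖c 1 j‖ ^ 2 * fdW (χ 0) (χ 1) +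
      ‖c 0 j‖ ^ 2 * ‖c 2 j‖ ^ 2 * fdW (χ 0) (χ 2) +
        ‖c 1 j‖ ^ 2 * ‖c 2 j‖ ^ 2 * fdW (χ 1) (χ 2)) := by
    refine Finset.sum_nonneg fun j _ => ?_
    have := fdW_nonneg (χ 0) (χ 1)
    have := fdW_nonneg (χ 0) (χ 2)
    have := fdW_nonneg (χ 1) (χ 2)
    positivity
  nlinarith

theorem fd_mass_le (v : Fin 3 → Fin 2 → Fin 3 → ℂ)
    (H : ∀ α : Fin 3 → ℂ, ∑ σ, ∑ j, ‖∑ i, α i * v i σ j‖ ^ 2 ≤ ∑ i, ‖α i‖ ^ 2) (i : Fin 3) :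
    ∑ σ, ∑ j, ‖v i σ j‖ ^ 2 ≤ 1 := by
  have h := H (Pi.single i 1)
  have h1 : ∀ σ j, ∑ k, (Pi.single i (1 : ℂ) : Fin 3 → ℂ) k * v k σ j = v i σ j := by
    intro σ j
    simp [Pi.single_apply]
  have h2 : ∑ k, ‖(Pi.single i (1 : ℂ) : Fin 3 → ℂ) k‖ ^ 2 = 1 := by
    rw [Finset.sum_eq_single i] <;> simp +contextual
  simpa only [h1, h2] using h

theorem fd_gram (v : Fin 3 → Fin 2 → Fin 3 → ℂ)
    (H : ∀ α : Fin 3 → ℂ, ∑ σ, ∑ j, ‖∑ i, α i * v i σ j‖ ^ 2 ≤ ∑ i, ‖α i‖ ^ 2)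
    (hm : ∀ i, ∑ σ, ∑ j, ‖v i σ j‖ ^ 2 = 1) {i i' : Fin 3} (hi : i ≠ i') :
    ∑ σ, ∑ j, conj (v i σ j) * v i' σ j = 0 := by
  obtain ⟨G, hG⟩ : ∃ G, G = ∑ σ, ∑ j, conj (v i σ j) * v i' σ j := ⟨_, rfl⟩
  rw [← hG]
  have h := H (Pi.single i 1 + Pi.single i' (conj G))
  have h1 : ∀ σ j, ∑ k, (Pi.single i (1 : ℂ) + Pi.single i' (conj G) : Fin 3 → ℂ) k * v k σ j =
      v i σ j + conj G * v i' σ j := by
    intro σ j
    simp [Pi.single_apply, add_mul, Finset.sum_add_distrib]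
  have h2 : ∑ k, ‖(Pi.single i (1 : ℂ) + Pi.single i' (conj G) : Fin 3 → ℂ) k‖ ^ 2 =
      1 + ‖G‖ ^ 2 := by
    have : ∀ k, ‖(Pi.single i (1 : ℂ) + Pi.single i' (conj G) : Fin 3 → ℂ) k‖ ^ 2 =
        (if k = i then 1 else 0) + (if k = i' then ‖G‖ ^ 2 else 0) := by
      intro k
      by_cases hk : k = i
      · subst hk
        simp [hi]
      · by_cases hk' : k = i'
        · subst hk'
          simp [hk]
        · simp [hk, hk']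
    simp only [this, Finset.sum_add_distrib]
    simp
  have h3 : ∀ σ j, ‖v i σ j + conj G * v i' σ j‖ ^ 2 = ‖v i σ j‖ ^ 2 + ‖G‖ ^ 2 * ‖v i' σ j‖ ^ 2 +
      2 * (conj G * (conj (v i σ j) * v i' σ j)).re := by
    intro σ j
    simp only [Complex.sq_norm, Complex.normSq_apply, Complex.add_re, Complex.add_im,
      Complex.mul_re, Complex.mul_im, Complex.conj_re, Complex.conj_im]
    ring
  have h4 : ∑ σ, ∑ j, 2 * (conj G * (conj (v i σ j) * v i' σ j)).re = 2 * ‖G‖ ^ 2 := by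
    simp only [← Finset.mul_sum, ← Complex.re_sum]
    rw [← hG, Complex.conj_mul']
    norm_cast
  simp only [h1, h2, h3, Finset.sum_add_distrib, h4] at h
  simp only [← Finset.mul_sum, hm] at h
  have h5 : ‖G‖ ^ 2 ≤ 0 := by linarith
  have h6 : ‖G‖ ^ 2 = 0 := le_antisymm h5 (sq_nonneg _)
  simpa using h6

theorem fd_mass_eq (c : Fin 3 → ℂ) (χ : Fin 2 → ℂ) :
    ∑ σ, ∑ j, ‖c j * χ σ‖ ^ 2 = (∑ j, ‖c j‖ ^ 2) * ∑ σ, ‖χ σ‖ ^ 2 := by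
  simp only [norm_mul, mul_pow, ← Finset.sum_mul, ← Finset.mul_sum]

theorem fd_unit : ∃ δ0 : ℝ, 0 < δ0 ∧ ∀ (c : Fin 3 → Fin 3 → ℂ) (χ : Fin 3 → Fin 2 → ℂ),
    (∀ i, ∑ σ, ‖χ i σ‖ ^ 2 = 1) →
    (∀ α : Fin 3 → ℂ, ∑ σ, ∑ j, ‖∑ i, α i * (c i j * χ i σ)‖ ^ 2 ≤ ∑ i, ‖α i‖ ^ 2) →
    3 - δ0 ≤ ∑ i, ∑ σ, ∑ j, ‖c i j * χ i σ‖ ^ 2 →
    -(3 / 60 : ℝ) - 44 / 10 * (1 / 60) ^ 2 ≤
      -(1 / 60) * (∑ i, ∑ σ, ‖∑ j, c i j * χ i σ‖ ^ 2) +
        ∑ j, detj (fun i σ j => c i j * χ i σ) j := by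
  let K : Set ((Fin 3 → Fin 3 → ℂ) × (Fin 3 → Fin 2 → ℂ)) := {z |
    (∀ i, ∑ σ, ‖z.2 i σ‖ ^ 2 = 1) ∧
    (∀ α : Fin 3 → ℂ, ∑ σ, ∑ j, ‖∑ i, α i * (z.1 i j * z.2 i σ)‖ ^ 2 ≤ ∑ i, ‖α i‖ ^ 2) ∧
    -(1 / 60) * (∑ i, ∑ σ, ‖∑ j, z.1 i j * z.2 i σ‖ ^ 2) +
        ∑ j, detj (fun i σ j => z.1 i j * z.2 i σ) j ≤ -(3 / 60 : ℝ) - 44 / 10 * (1 / 60) ^ 2}
  have hcl : IsClosed K := by
    simp only [K, Set.ofPred_and, Set.ofPred_forall, detj]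
    refine IsClosed.inter (isClosed_iInter fun i => isClosed_eq (by fun_prop) (by fun_prop))
      (IsClosed.inter (isClosed_iInter fun α => isClosed_le (by fun_prop) (by fun_prop))
        (isClosed_le (by fun_prop) (by fun_prop)))
  have hle : ∀ {n : ℕ} (x : Fin n → ℂ), ∑ j, ‖x j‖ ^ 2 ≤ 1 → ‖x‖ ≤ 1 := by
    intro n x hx
    refine (pi_norm_le_iff_of_nonneg zero_le_one).2 fun j => ?_
    have : ‖x j‖ ^ 2 ≤ ∑ j, ‖x j‖ ^ 2 :=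
      Finset.single_le_sum (f := fun j => ‖x j‖ ^ 2) (fun _ _ => sq_nonneg _) (Finset.mem_univ j)
    nlinarith [norm_nonneg (x j)]
  have hsub : K ⊆ Metric.closedBall 0 1 := by
    rintro z ⟨h1, h2, -⟩
    rw [mem_closedBall_zero_iff, Prod.norm_def]
    refine max_le ((pi_norm_le_iff_of_nonneg zero_le_one).2 fun i => hle _ ?_)
      ((pi_norm_le_iff_of_nonneg zero_le_one).2 fun i => hle _ (h1 i).le)
    have := fd_mass_le (fun i σ j => z.1 i j * z.2 i σ) h2 i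
    rwa [fd_mass_eq, h1, mul_one] at this
  have hK : IsCompact K := (isCompact_closedBall 0 1).of_isClosed_subset hcl hsub
  have hpos : ∀ z ∈ K, ∑ i, ∑ σ, ∑ j, ‖z.1 i j * z.2 i σ‖ ^ 2 < 3 := by
    rintro z ⟨h1, h2, h3⟩
    by_contra hn
    push Not at hn
    have hm := fd_mass_le (fun i σ j => z.1 i j * z.2 i σ) h2
    have hm' : ∀ i, ∑ σ, ∑ j, ‖z.1 i j * z.2 i σ‖ ^ 2 = 1 := by
      rw [Fin.sum_univ_three] at hn
      have m0 := hm 0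
      have m1 := hm 1
      have m2 := hm 2
      intro i
      fin_cases i
      · exact le_antisymm m0 (by simp only [Fin.zero_eta]; linarith)
      · exact le_antisymm m1 (by simp only [Fin.mk_one]; linarith)
      · exact le_antisymm m2 (by simp only [Fin.reduceFinMk]; linarith)
    have := fd_exact z.1 z.2 (fun i => by
      have := hm' i
      rwa [fd_mass_eq, h1, mul_one] at this) h1 (fun i i' hi => by
      have := fd_gram (fun i σ j => z.1 i j * z.2 i σ) h2 hm' hi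
      rw [← this, mul_comm, Finset.sum_mul_sum]
      refine Finset.sum_congr rfl fun σ _ => Finset.sum_congr rfl fun j _ => ?_
      rw [map_mul]
      ring)
    norm_num at this h3
    linarith
  rcases K.eq_empty_or_nonempty with hE | hE
  · refine ⟨1, one_pos, fun c χ h1 h2 _ => ?_⟩
    by_contra hn
    push Not at hn
    have : (c, χ) ∈ K := ⟨h1, h2, hn.le⟩
    rw [hE] at this
    exact this
  · obtain ⟨z, hz, hmax⟩ := hK.exists_isMaxOn hE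
      (f := fun z => ∑ i, ∑ σ, ∑ j, ‖z.1 i j * z.2 i σ‖ ^ 2) (by fun_prop)
    have hz3 := hpos z hz
    refine ⟨(3 - ∑ i, ∑ σ, ∑ j, ‖z.1 i j * z.2 i σ‖ ^ 2) / 2, by linarith, fun c χ h1 h2 h3 => ?_⟩
    by_contra hn
    push Not at hn
    have : (c, χ) ∈ K := ⟨h1, h2, hn.le⟩
    have h4 := isMaxOn_iff.1 hmax _ this
    simp only at h4
    linarith

theorem fd_lower : ∃ δ0 : ℝ, 0 < δ0 ∧ ∀ (c : Fin 3 → Fin 3 → ℂ) (χ : Fin 3 → Fin 2 → ℂ),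
    (∀ α : Fin 3 → ℂ, ∑ σ, ∑ j, ‖∑ i, α i * (c i j * χ i σ)‖ ^ 2 ≤ ∑ i, ‖α i‖ ^ 2) →
    3 - δ0 ≤ ∑ i, ∑ σ, ∑ j, ‖c i j * χ i σ‖ ^ 2 →
    -(3 / 60 : ℝ) - 44 / 10 * (1 / 60) ^ 2 ≤
      -(1 / 60) * (∑ i, ∑ σ, ‖∑ j, c i j * χ i σ‖ ^ 2) +
        ∑ j, detj (fun i σ j => c i j * χ i σ) j := by
  obtain ⟨δ, hδ, H⟩ := fd_unit
  refine ⟨min δ (1 / 2), lt_min hδ (by norm_num), fun c χ h2 h3 => ?_⟩
  have hm := fd_mass_le (fun i σ j => c i j * χ i σ) h2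
  have hδ1 := min_le_left δ (1 / 2)
  have hδ2 := min_le_right δ (1 / 2)
  have hpos : ∀ i, 0 < ∑ σ, ‖χ i σ‖ ^ 2 := by
    intro i
    have h0 : 0 < ∑ σ, ∑ j, ‖c i j * χ i σ‖ ^ 2 := by
      rw [Fin.sum_univ_three] at h3
      have m0 := hm 0
      have m1 := hm 1
      have m2 := hm 2
      fin_cases i
      · simp only [Fin.zero_eta]; linarith
      · simp only [Fin.mk_one]; linarith
      · simp only [Fin.reduceFinMk]; linarith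
    rw [fd_mass_eq] at h0
    exact (pos_iff_pos_of_mul_pos h0).1 (lt_of_le_of_ne (Finset.sum_nonneg fun _ _ => sq_nonneg _)
      (fun h => by rw [← h, zero_mul] at h0; exact lt_irrefl _ h0))
  let s : Fin 3 → ℝ := fun i => Real.sqrt (∑ σ, ‖χ i σ‖ ^ 2)
  have hs : ∀ i, 0 < s i := fun i => Real.sqrt_pos.2 (hpos i)
  have hs2 : ∀ i, s i ^ 2 = ∑ σ, ‖χ i σ‖ ^ 2 := fun i => Real.sq_sqrt (hpos i).le
  have hprod : ∀ i j σ, (c i j * (s i : ℂ)) * (χ i σ / (s i : ℂ)) = c i j * χ i σ := by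
    intro i j σ
    have : (s i : ℂ) ≠ 0 := by exact_mod_cast (hs i).ne'
    field_simp
  have := H (fun i j => c i j * (s i : ℂ)) (fun i σ => χ i σ / (s i : ℂ)) (fun i => by
    simp only [norm_div, div_pow, ← Finset.sum_div, Complex.norm_real, Real.norm_eq_abs, sq_abs,
      hs2]
    exact div_self (hpos i).ne') (by simpa only [hprod] using h2)
    (by simp only [hprod]; linarith)
  simpa only [hprod] using this

end Pool.Agent.MP_e62678_mp.H54
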