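import Pool.Agent.MP_e62678_mp.H54.Work

/-! The Hubbard triangle: a lower bound for product-form tuples. -/

open MeasureTheory Filter Topology
open scoped ComplexConjugate

namespace Pool.Agent.MP_e62678_mp.H54

theorem fd_add_sq (u v : ℂ) {l : ℝ} (hl : 0 < l) :
    ‖u + v‖ ^ 2 ≤ (1 + 1 / l) * ‖u‖ ^ 2 + (1 + l) * ‖v‖ ^ 2 := by
  have h1 : ‖u + v‖ ^ 2 ≤ (‖u‖ + ‖v‖) ^ 2 :=
    pow_le_pow_left₀ (norm_nonneg _) (norm_add_le u v) 2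
  have h2 : 2 * ‖u‖ * ‖v‖ ≤ 1 / l * ‖u‖ ^ 2 + l * ‖v‖ ^ 2 := by
    have h3 : 0 ≤ 1 / l * (‖u‖ - l * ‖v‖) ^ 2 := by positivity
    have h4 : 1 / l * (‖u‖ - l * ‖v‖) ^ 2 =
        1 / l * ‖u‖ ^ 2 + l * ‖v‖ ^ 2 - 2 * ‖u‖ * ‖v‖ := by
      field_simp
      ring
    linarith
  nlinarith

theorem fd_real (x n1 n2 q0 q1 q2 P C : ℝ) (hx : 0 ≤ x) (hn1 : n1 ≤ 1) (hn2 : n2 ≤ 1)
    (hs : x + n1 + n2 = 2) (h0 : 0 ≤ q0) (h1 : 0 ≤ q1) (h2 : 0 ≤ q2) (hq : q0 + q1 + q2 = 1)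
    (hm1 : x ≤ n1) (hm2 : x ≤ n2) (hP : P ≤ 3) (hC : C ≤ 3)
    (hP' : P ≤ 57 * x + 2 * (1 + 1 / 56))
    (hC' : C ≤ (1 + 9 / 250) * q0 + (1 + 250 / 9) * (2 * (q1 + q2))) :
    -(3 / 60 : ℝ) - 431 / 100 * (1 / 60) ^ 2 ≤
      -(1 / 60) * (P + C) + (x * q0 + n1 * q1 + n2 * q2) := by
  by_cases hF : 3 / 60 ≤ x * q0 + n1 * q1 + n2 * q2
  · nlinarith
  push Not at hF
  have e1 : x * q1 ≤ n1 * q1 := mul_le_mul_of_nonneg_right hm1 h1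
  have e2 : x * q2 ≤ n2 * q2 := mul_le_mul_of_nonneg_right hm2 h2
  have hx3 : x ≤ 3 / 60 := by
    have : x * q0 + x * q1 + x * q2 = x := by rw [← mul_add, ← mul_add, hq, mul_one]
    linarith
  have f1 : (1 - x) * q1 ≤ n1 * q1 := mul_le_mul_of_nonneg_right (by linarith) h1
  have f2 : (1 - x) * q2 ≤ n2 * q2 := mul_le_mul_of_nonneg_right (by linarith) h2
  obtain ⟨y, hy⟩ : ∃ y, y = q1 + q2 := ⟨_, rfl⟩
  have hy0 : 0 ≤ y := by linarith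
  have hq0 : q0 = 1 - y := by linarith
  have hxq : 0 ≤ x * q0 := mul_nonneg hx h0
  have hy1 : (1 - x) * y ≤ 3 / 60 := by rw [hy]; nlinarith
  have hy2 : y ≤ 1 / 19 := by nlinarith
  have hlow : x + y - 2 * (x * y) ≤ x * q0 + n1 * q1 + n2 * q2 := by
    have : x + y - 2 * (x * y) = x * q0 + (1 - x) * q1 + (1 - x) * q2 := by
      rw [hq0, hy]; ring
    linarith
  have hxy : 2 * (x * y) ≤ 3 / 60 * x + 1 / 19 * y := by nlinarith [sq_nonneg (x - y)]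
  rw [← hy, hq0] at hC'
  nlinarith

theorem fd_core (p0 p1 p2 r0 r1 r2 c0 c1 c2 : ℂ)
    (hn1 : ‖p1‖ ^ 2 + ‖r1‖ ^ 2 ≤ 1) (hn2 : ‖p2‖ ^ 2 + ‖r2‖ ^ 2 ≤ 1)
    (hs : (‖p0‖ ^ 2 + ‖r0‖ ^ 2) + (‖p1‖ ^ 2 + ‖r1‖ ^ 2) + (‖p2‖ ^ 2 + ‖r2‖ ^ 2) = 2)
    (hq : ‖c0‖ ^ 2 + ‖c1‖ ^ 2 + ‖c2‖ ^ 2 = 1)
    (hall : ‖p0 + p1 + p2‖ ^ 2 + ‖r0 + r1 + r2‖ ^ 2 ≤ 3)
    (h12 : ‖p1 + p2‖ ^ 2 + ‖r1 + r2‖ ^ 2 ≤ 2)
    (hm1 : ‖p0‖ ^ 2 + ‖r0‖ ^ 2 ≤ ‖p1‖ ^ 2 + ‖r1‖ ^ 2)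
    (hm2 : ‖p0‖ ^ 2 + ‖r0‖ ^ 2 ≤ ‖p2‖ ^ 2 + ‖r2‖ ^ 2) :
    -(3 / 60 : ℝ) - 431 / 100 * (1 / 60) ^ 2 ≤
      -(1 / 60) * ((‖p0 + p1 + p2‖ ^ 2 + ‖r0 + r1 + r2‖ ^ 2) + ‖c0 + c1 + c2‖ ^ 2) +
        ((‖p0‖ ^ 2 + ‖r0‖ ^ 2) * ‖c0‖ ^ 2 + (‖p1‖ ^ 2 + ‖r1‖ ^ 2) * ‖c1‖ ^ 2 +
          (‖p2‖ ^ 2 + ‖r2‖ ^ 2) * ‖c2‖ ^ 2) := by
  have hc12 : ‖c1 + c2‖ ^ 2 ≤ 2 * (‖c1‖ ^ 2 + ‖c2‖ ^ 2) := by
    have := fd_add_sq c1 c2 one_pos
    linarith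
  apply fd_real _ _ _ _ _ _ _ _ (by positivity) hn1 hn2 hs (by positivity) (by positivity)
    (by positivity) hq hm1 hm2 hall
  · have h := fd_add_sq c0 (c1 + c2) (l := 1 / 2) (by norm_num)
    rw [← add_assoc] at h
    nlinarith
  · have h := fd_add_sq p0 (p1 + p2) (l := 1 / 56) (by norm_num)
    have h' := fd_add_sq r0 (r1 + r2) (l := 1 / 56) (by norm_num)
    rw [← add_assoc] at h h'
    nlinarith
  · have h := fd_add_sq c0 (c1 + c2) (l := 250 / 9) (by norm_num)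
    rw [← add_assoc] at h
    nlinarith

theorem fd_bessel {n : ℕ} (c : Fin n → Fin 3 → ℂ)
    (h : ∀ i i', ∑ j, conj (c i j) * c i' j = if i = i' then 1 else 0) (z : Fin 3 → ℂ) :
    ∑ i, ‖∑ j, c i j * z j‖ ^ 2 ≤ ∑ j, ‖z j‖ ^ 2 := by
  let v : Fin n → EuclideanSpace ℂ (Fin 3) := fun i => WithLp.toLp 2 fun j => conj (c i j)
  have hv : Orthonormal ℂ v := by
    rw [orthonormal_iff_ite]
    intro i i'
    have h1 := congrArg conj (h i i')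
    simp only [map_sum, map_mul, Complex.conj_conj] at h1
    rw [PiLp.inner_apply]
    simp only [v, RCLike.inner_apply, Complex.conj_conj]
    rw [show (∑ j, conj (c i' j) * c i j) = ∑ j, c i j * conj (c i' j) from
      Finset.sum_congr rfl fun j _ => mul_comm _ _, h1]
    split_ifs <;> simp
  have hb := hv.sum_inner_products_le (WithLp.toLp 2 z : EuclideanSpace ℂ (Fin 3))
    (s := Finset.univ)
  rw [EuclideanSpace.norm_sq_eq] at hb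
  simp only [PiLp.inner_apply, v, RCLike.inner_apply, Complex.conj_conj] at hb
  simpa only [mul_comm] using hb

theorem fd_uhf (p r c : Fin 3 → ℂ) (hp : ∑ j, ‖p j‖ ^ 2 = 1) (hr : ∑ j, ‖r j‖ ^ 2 = 1)
    (hpr : ∑ j, conj (p j) * r j = 0) (hc : ∑ j, ‖c j‖ ^ 2 = 1) :
    -(3 / 60 : ℝ) - 431 / 100 * (1 / 60) ^ 2 ≤
      -(1 / 60) * ((‖∑ j, p j‖ ^ 2 + ‖∑ j, r j‖ ^ 2) + ‖∑ j, c j‖ ^ 2) +
        ∑ j, (‖p j‖ ^ 2 + ‖r j‖ ^ 2) * ‖c j‖ ^ 2 := by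
  have hsq : ∀ q : Fin 3 → ℂ, ∑ j, ‖q j‖ ^ 2 = 1 → ∑ j, conj (q j) * q j = 1 := by
    intro q hq
    have : ((∑ j, ‖q j‖ ^ 2 : ℝ) : ℂ) = 1 := by rw [hq]; simp
    rw [← this]
    push_cast
    exact Finset.sum_congr rfl fun j _ => Complex.conj_mul' _
  have hrp : ∑ j, conj (r j) * p j = 0 := by
    have h1 := congrArg conj hpr
    simp only [map_sum, map_mul, Complex.conj_conj, map_zero] at h1
    rw [← h1]
    exact Finset.sum_congr rfl fun j _ => mul_comm _ _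
  have hb : ∀ z : Fin 3 → ℂ, ‖∑ j, p j * z j‖ ^ 2 + ‖∑ j, r j * z j‖ ^ 2 ≤ ∑ j, ‖z j‖ ^ 2 := by
    intro z
    have := fd_bessel ![p, r] (by
      intro i i'
      fin_cases i <;> fin_cases i'
      · simpa using hsq p hp
      · simpa using hpr
      · simpa using hrp
      · simpa using hsq r hr) z
    simpa [Fin.sum_univ_two] using this
  have b0 := hb ![1, 0, 0]
  have b1 := hb ![0, 1, 0]
  have b2 := hb ![0, 0, 1]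
  have b01 := hb ![1, 1, 0]
  have b02 := hb ![1, 0, 1]
  have b12 := hb ![0, 1, 1]
  have b012 := hb ![1, 1, 1]
  simp only [Fin.sum_univ_three, Matrix.cons_val_zero, Matrix.cons_val_one, Matrix.cons_val_two,
    Matrix.head_cons, Matrix.tail_cons, mul_one, mul_zero, add_zero, zero_add, norm_one,
    norm_zero, one_pow, ne_eq, OfNat.ofNat_ne_zero, not_false_eq_true, zero_pow]
    at b0 b1 b2 b01 b02 b12 b012 hp hr hc ⊢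
  rcases le_total (‖p 0‖ ^ 2 + ‖r 0‖ ^ 2) (‖p 1‖ ^ 2 + ‖r 1‖ ^ 2) with h01 | h01
  · rcases le_total (‖p 0‖ ^ 2 + ‖r 0‖ ^ 2) (‖p 2‖ ^ 2 + ‖r 2‖ ^ 2) with h02 | h02
    · exact fd_core (p 0) (p 1) (p 2) (r 0) (r 1) (r 2) (c 0) (c 1) (c 2) b1 b2 (by linarith) hc
        (by linarith) (by linarith) h01 h02
    · have := fd_core (p 2) (p 0) (p 1) (r 2) (r 0) (r 1) (c 2) (c 0) (c 1) b0 b1 (by linarith)
        (by linarith) (by rw [add_assoc, add_comm (p 2), add_assoc (r 2), add_comm (r 2)]; linarith)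
        (by linarith) h02 (by linarith)
      rw [add_assoc (p 2), add_comm (p 2), add_assoc (r 2), add_comm (r 2), add_assoc (c 2),
        add_comm (c 2)] at this
      linarith
  · rcases le_total (‖p 1‖ ^ 2 + ‖r 1‖ ^ 2) (‖p 2‖ ^ 2 + ‖r 2‖ ^ 2) with h12 | h12
    · have := fd_core (p 1) (p 0) (p 2) (r 1) (r 0) (r 2) (c 1) (c 0) (c 2) b0 b2 (by linarith)
        (by linarith) (by rw [add_comm (p 1), add_comm (r 1)]; linarith)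
        (by linarith) h01 h12
      rw [add_comm (p 1), add_comm (r 1), add_comm (c 1)] at this
      linarith
    · have := fd_core (p 2) (p 0) (p 1) (r 2) (r 0) (r 1) (c 2) (c 0) (c 1) b0 b1 (by linarith)
        (by linarith) (by rw [add_assoc, add_comm (p 2), add_assoc (r 2), add_comm (r 2)]; linarith)
        (by linarith) (by linarith) h12
      rw [add_assoc (p 2), add_comm (p 2), add_assoc (r 2), add_comm (r 2), add_assoc (c 2),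
        add_comm (c 2)] at this
      linarith

end Pool.Agent.MP_e62678_mp.H54
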