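import Pool.Agent.MP_e62678_mp.H54.Density

/-! The vector field identity, Hardy's inequality, and limits along approximating sequences. -/

open MeasureTheory Filter Topology
open scoped ComplexConjugate

namespace Pool.Agent.MP_e62678_mp.H54

variable {u v : E3 → ℂ} {g : Fin 3 → E3 → ℂ}

theorem hardy_pd_normsq (hv : Nice v) (k : Fin 3) (x : E3) :
    pd k (fun y => ‖v y‖ ^ 2) x = 2 * inner ℝ (v x) (pd k v x) := by
  have h := ((hv.1.differentiable one_ne_zero) x).hasFDerivAt.norm_sq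
  unfold pd
  rw [h.fderiv]
  simp
  ring

theorem hardy_supp (hv : Nice v) : HasCompactSupport fun y => ‖v y‖ ^ 2 :=
  hv.2.comp_left (g := fun z : ℂ => ‖z‖ ^ 2) (by simp)

theorem hardy_int_mul (hv : Nice v) {f : E3 → ℝ} (hf : Continuous f) :
    Integrable fun x => f x * ‖v x‖ ^ 2 :=
  (hf.mul (hv.1.continuous.norm.pow 2)).integrable_of_hasCompactSupport (hardy_supp hv).mul_left

theorem hardy_cont_pd {f : E3 → ℝ} (hf : ContDiff ℝ 1 f) (k : Fin 3) : Continuous (pd k f) :=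
  (hf.continuous_fderiv one_ne_zero).clm_apply continuous_const

theorem hardy_vf_one (hv : Nice v) (F : E3 → ℝ) (hF : ContDiff ℝ 1 F) (k : Fin 3) :
    ∫ x, ‖pd k v x + ((F x : ℝ) : ℂ) * v x‖ ^ 2 =
      nrm (pd k v) + ∫ x, (F x ^ 2 - pd k F x) * ‖v x‖ ^ 2 := by
  have hn : ContDiff ℝ 1 fun y => ‖v y‖ ^ 2 := hv.1.norm_sq ℝ
  have i1 : Integrable fun x => ‖pd k v x‖ ^ 2 := integrable_sq (hv.isH1.gradL2 k)
  have i2 : Integrable fun x => F x ^ 2 * ‖v x‖ ^ 2 := hardy_int_mul hv (hF.continuous.pow 2)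
  have i3 : Integrable fun x => pd k F x * ‖v x‖ ^ 2 := hardy_int_mul hv (hardy_cont_pd hF k)
  have i4 : Integrable fun x => F x * pd k (fun y => ‖v y‖ ^ 2) x :=
    (hF.continuous.mul (hardy_cont_pd hn k)).integrable_of_hasCompactSupport
      ((hardy_supp hv).fderiv_apply ℝ _).mul_left
  have ibp : ∫ x, F x * pd k (fun y => ‖v y‖ ^ 2) x = -∫ x, pd k F x * ‖v x‖ ^ 2 :=
    integral_mul_fderiv_eq_neg_fderiv_mul_of_integrable i3 i4 (hardy_int_mul hv hF.continuous)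
      (fun x _ => hF.differentiable one_ne_zero x) (fun x _ => hn.differentiable one_ne_zero x)
  have pt : ∀ x, ‖pd k v x + ((F x : ℝ) : ℂ) * v x‖ ^ 2 =
      ‖pd k v x‖ ^ 2 + (F x ^ 2 * ‖v x‖ ^ 2 + F x * pd k (fun y => ‖v y‖ ^ 2) x) := by
    intro x
    rw [hardy_pd_normsq hv, norm_add_sq_real, ← Complex.real_smul, inner_smul_right, norm_smul,
      mul_pow, Real.norm_eq_abs, sq_abs, real_inner_comm]
    ring
  simp_rw [pt, sub_mul]
  have i5 : Integrable fun x => F x ^ 2 * ‖v x‖ ^ 2 + F x * pd k (fun y => ‖v y‖ ^ 2) x :=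
    i2.add i4
  rw [integral_add i1 i5, integral_add i2 i4, integral_sub i2 i3, ibp]
  unfold nrm
  ring

theorem vf_identity (hv : Nice v) (F : Fin 3 → E3 → ℝ) (hF : ∀ k, ContDiff ℝ 1 (F k)) :
    ∑ k, ∫ x, ‖pd k v x + ((F k x : ℝ) : ℂ) * v x‖ ^ 2 =
      kin (grad v) + ∫ x, (∑ k, (F k x ^ 2 - pd k (F k) x)) * ‖v x‖ ^ 2 := by
  simp_rw [fun k => hardy_vf_one hv (F k) (hF k) k, Finset.sum_mul]
  have i : ∀ k, Integrable fun x => (F k x ^ 2 - pd k (F k) x) * ‖v x‖ ^ 2 := fun k =>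
    hardy_int_mul hv (((hF k).continuous.pow 2).sub (hardy_cont_pd (hF k) k))
  rw [Finset.sum_add_distrib, integral_finsetSum _ fun k _ => i k]
  rfl

/-- The vector field used for Hardy's inequality. -/
noncomputable def hardy_F (a : E3) (η : ℝ) (k : Fin 3) (x : E3) : ℝ :=
  (x k - a k) * (2 * (‖x - a‖ ^ 2 + η ^ 2))⁻¹

theorem hardy_F_smooth (a : E3) {η : ℝ} (hη : 0 < η) (k : Fin 3) : ContDiff ℝ 1 (hardy_F a η k) := by
  unfold hardy_F
  refine ContDiff.mul (by fun_prop) (ContDiff.inv ?_ fun x => by positivity)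
  exact contDiff_const.mul (((contDiff_id.sub contDiff_const).norm_sq ℝ).add contDiff_const)

theorem hardy_F_pd (a : E3) {η : ℝ} (hη : 0 < η) (k : Fin 3) (x : E3) :
    pd k (hardy_F a η k) x =
      (2 * (‖x - a‖ ^ 2 + η ^ 2))⁻¹ - (x k - a k) ^ 2 / (‖x - a‖ ^ 2 + η ^ 2) ^ 2 := by
  have h1 : HasFDerivAt (fun y : E3 => y k - a k) (EuclideanSpace.proj k : E3 →L[ℝ] ℝ) x :=
    (EuclideanSpace.proj k : E3 →L[ℝ] ℝ).hasFDerivAt.sub_const _
  have h2 := ((((hasFDerivAt_id x).sub_const a).norm_sq).add_const (η ^ 2)).const_mul 2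
  have hs : (2 * (‖x - a‖ ^ 2 + η ^ 2)) ≠ 0 := by positivity
  have h3 := (hasDerivAt_inv hs).comp_hasFDerivAt x h2
  have h4 := h1.mul h3
  unfold pd
  have e : hardy_F a η k = (fun y : E3 => y k - a k) *
      ((fun y : ℝ => y⁻¹) ∘ fun y : E3 => 2 * (‖id y - a‖ ^ 2 + η ^ 2)) := by
    funext y; rfl
  rw [e, h4.fderiv]
  simp [EuclideanSpace.inner_single_right]
  field_simp
  ring

theorem hardy_nice (hv : Nice v) (a : E3) {η : ℝ} (hη : 0 < η) :
    ∫ x, ‖v x‖ ^ 2 / (‖x - a‖ ^ 2 + η ^ 2) ≤ 4 * kin (grad v) := by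
  have h := vf_identity hv (hardy_F a η) (hardy_F_smooth a hη)
  have h0 : 0 ≤ ∑ k, ∫ x, ‖pd k v x + ((hardy_F a η k x : ℝ) : ℂ) * v x‖ ^ 2 :=
    Finset.sum_nonneg fun k _ => integral_nonneg fun x => by positivity
  have hc : Continuous fun x : E3 => -(1 / 4) * (‖x - a‖ ^ 2 + η ^ 2)⁻¹ :=
    continuous_const.mul (Continuous.inv₀ (by fun_prop) fun x => by positivity)
  have h1 : ∫ x, (∑ k, (hardy_F a η k x ^ 2 - pd k (hardy_F a η k) x)) * ‖v x‖ ^ 2 ≤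
      ∫ x, -(1 / 4) * (‖x - a‖ ^ 2 + η ^ 2)⁻¹ * ‖v x‖ ^ 2 := by
    refine integral_mono (hardy_int_mul hv (continuous_finsetSum _ fun k _ =>
      ((hardy_F_smooth a hη k).continuous.pow 2).sub (hardy_cont_pd (hardy_F_smooth a hη k) k)))
      (hardy_int_mul hv hc) fun x => ?_
    refine mul_le_mul_of_nonneg_right ?_ (by positivity)
    simp_rw [hardy_F_pd a hη]
    have hr : ‖x - a‖ ^ 2 = (x 0 - a 0) ^ 2 + (x 1 - a 1) ^ 2 + (x 2 - a 2) ^ 2 := by
      rw [EuclideanSpace.norm_sq_eq, Fin.sum_univ_three]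
      simp
    rw [Fin.sum_univ_three]
    unfold hardy_F
    have hs : 0 < ‖x - a‖ ^ 2 + η ^ 2 := by positivity
    have hle : (x 0 - a 0) ^ 2 + (x 1 - a 1) ^ 2 + (x 2 - a 2) ^ 2 ≤ ‖x - a‖ ^ 2 + η ^ 2 := by
      rw [← hr]; nlinarith
    generalize ‖x - a‖ ^ 2 + η ^ 2 = s at hs hle
    generalize x 0 - a 0 = p at hle
    generalize x 1 - a 1 = q at hle
    generalize x 2 - a 2 = r at hle
    have e : (p * (2 * s)⁻¹) ^ 2 - ((2 * s)⁻¹ - p ^ 2 / s ^ 2) +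
        ((q * (2 * s)⁻¹) ^ 2 - ((2 * s)⁻¹ - q ^ 2 / s ^ 2)) +
        ((r * (2 * s)⁻¹) ^ 2 - ((2 * s)⁻¹ - r ^ 2 / s ^ 2)) =
        -(1 / 4) * s⁻¹ - 5 / 4 * ((s - (p ^ 2 + q ^ 2 + r ^ 2)) / s ^ 2) := by
      field_simp
      ring
    rw [e]
    have : 0 ≤ (s - (p ^ 2 + q ^ 2 + r ^ 2)) / s ^ 2 := div_nonneg (by linarith) (by positivity)
    linarith
  have h2 : ∫ x, -(1 / 4) * (‖x - a‖ ^ 2 + η ^ 2)⁻¹ * ‖v x‖ ^ 2 =
      -(1 / 4) * ∫ x, ‖v x‖ ^ 2 / (‖x - a‖ ^ 2 + η ^ 2) := by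
    rw [← integral_const_mul]
    congr 1
    funext x
    ring
  linarith

theorem hardy_seq {A : ℝ} {B D : ℕ → ℝ} (hD : Tendsto D atTop (𝓝 0))
    (h1 : ∀ t : ℝ, 0 < t → ∀ n, A ≤ (1 + t) * B n + (1 + 1 / t) * D n)
    (h2 : ∀ t : ℝ, 0 < t → ∀ n, B n ≤ (1 + t) * A + (1 + 1 / t) * D n) :
    Tendsto B atTop (𝓝 A) := by
  have key : ∀ p q : ℝ, p < q → ∃ t : ℝ, 0 < t ∧ ∀ᶠ n in atTop,
      (1 + t) * p + (1 + 1 / t) * D n < q := by
    intro p q hpq
    have hp : 0 < |p| + 1 := by positivity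
    refine ⟨(q - p) / (|p| + 1), div_pos (by linarith) hp, ?_⟩
    have ht : 0 < (q - p) / (|p| + 1) := div_pos (by linarith) hp
    have e : (q - p) / (|p| + 1) * (|p| + 1) = q - p := by field_simp
    set t := (q - p) / (|p| + 1)
    have h3 : (1 + t) * p + (1 + 1 / t) * 0 < q := by
      have := le_abs_self p
      nlinarith
    exact ((hD.const_mul (1 + 1 / t)).const_add ((1 + t) * p)).eventually (gt_mem_nhds h3)
  refine tendsto_order.2 ⟨fun p hp => ?_, fun q hq => ?_⟩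
  · obtain ⟨t, ht, he⟩ := key p A hp
    filter_upwards [he] with n hn
    have := h1 t ht n
    nlinarith
  · obtain ⟨t, ht, he⟩ := key A q hq
    filter_upwards [he] with n hn
    exact (h2 t ht n).trans_lt hn

theorem hardy_div_le {w : E3 → ℂ} (d : E3 → ℝ) (hd : ∀ x, 0 ≤ d x)
    (hu : Integrable fun x => ‖u x‖ ^ 2 / d x) (hv : Integrable fun x => ‖v x‖ ^ 2 / d x)
    (hw : Integrable fun x => ‖w x‖ ^ 2 / d x) (h : ∀ x, ‖u x‖ ≤ ‖v x‖ + ‖w x‖) {t : ℝ}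
    (ht : 0 < t) :
    ∫ x, ‖u x‖ ^ 2 / d x ≤
      (1 + t) * (∫ x, ‖v x‖ ^ 2 / d x) + (1 + 1 / t) * ∫ x, ‖w x‖ ^ 2 / d x := by
  rw [← integral_const_mul, ← integral_const_mul,
    ← integral_add (hv.const_mul _) (hw.const_mul _)]
  refine integral_mono hu ((hv.const_mul _).add (hw.const_mul _)) fun x => ?_
  simp only
  rw [← mul_div_assoc, ← mul_div_assoc, ← add_div]
  refine div_le_div_of_nonneg_right ?_ (hd x)
  have h1 : ‖u x‖ ^ 2 ≤ (‖v x‖ + ‖w x‖) ^ 2 := by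
    have := h x
    gcongr
  have h2 : (1 + t) * ‖v x‖ ^ 2 + (1 + 1 / t) * ‖w x‖ ^ 2 - (‖v x‖ + ‖w x‖) ^ 2 =
      (t * ‖v x‖ - ‖w x‖) ^ 2 / t := by
    field_simp
    ring
  have h3 : 0 ≤ (t * ‖v x‖ - ‖w x‖) ^ 2 / t := by positivity
  linarith

theorem hardy_tendsto_div (d : E3 → ℝ) (hd : ∀ x, 0 ≤ d x) (v : ℕ → E3 → ℂ)
    (hu : Integrable fun x => ‖u x‖ ^ 2 / d x) (hv : ∀ n, Integrable fun x => ‖v n x‖ ^ 2 / d x)
    (hw : ∀ n, Integrable fun x => ‖(u - v n) x‖ ^ 2 / d x)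
    (h : Tendsto (fun n => ∫ x, ‖(u - v n) x‖ ^ 2 / d x) atTop (𝓝 0)) :
    Tendsto (fun n => ∫ x, ‖v n x‖ ^ 2 / d x) atTop (𝓝 (∫ x, ‖u x‖ ^ 2 / d x)) := by
  refine hardy_seq h (fun t ht n => hardy_div_le d hd hu (hv n) (hw n) (fun x => ?_) ht)
    fun t ht n => hardy_div_le d hd (hv n) hu (hw n) (fun x => ?_) ht
  · exact norm_le_norm_add_norm_sub' _ _
  · exact norm_le_norm_add_norm_sub _ _

theorem hardy_tendsto_nrm (v : ℕ → E3 → ℂ) (hu : MemLp u 2 volume)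
    (hv : ∀ n, MemLp (v n) 2 volume) (h : Tendsto (fun n => nrm (u - v n)) atTop (𝓝 0)) :
    Tendsto (fun n => nrm (v n)) atTop (𝓝 (nrm u)) := by
  have := hardy_tendsto_div (u := u) (fun _ => 1) (fun _ => zero_le_one) v
    (by simpa using integrable_sq hu) (fun n => by simpa using integrable_sq (hv n))
    (fun n => by simpa using integrable_sq (hu.sub (hv n))) (by simpa [nrm] using h)
  simpa [nrm] using this

theorem hardy_tendsto_kin (h : ℕ → Fin 3 → E3 → ℂ) (hg : ∀ k, MemLp (g k) 2 volume)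
    (hh : ∀ n k, MemLp (h n k) 2 volume) (h2 : Tendsto (fun n => kin (g - h n)) atTop (𝓝 0)) :
    Tendsto (fun n => kin (h n)) atTop (𝓝 (kin g)) := by
  unfold kin
  refine tendsto_finsetSum _ fun k _ => hardy_tendsto_nrm (fun n => h n k) (hg k)
    (fun n => hh n k) ?_
  refine squeeze_zero (fun n => nrm_nonneg _) (fun n => ?_) h2
  exact Finset.single_le_sum (f := fun k => nrm ((g - h n) k)) (fun k _ => nrm_nonneg _)
    (Finset.mem_univ k)

theorem IsH1.approx (hu : IsH1 u g) : ∃ v : ℕ → E3 → ℂ, (∀ n, Nice (v n)) ∧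
    Tendsto (fun n => nrm (u - v n)) atTop (𝓝 0) ∧
    Tendsto (fun n => kin (g - grad (v n))) atTop (𝓝 0) := by
  choose v hv h1 h2 using fun n : ℕ => hu.dense (ε := 1 / ((n : ℝ) + 1)) (by positivity)
  exact ⟨v, hv, squeeze_zero (fun n => nrm_nonneg _) h1 tendsto_one_div_add_atTop_nhds_zero_nat,
    squeeze_zero (fun n => kin_nonneg _) h2 tendsto_one_div_add_atTop_nhds_zero_nat⟩

theorem hardy_meas (hu : MemLp u 2 volume) {d : E3 → ℝ} (hd : Continuous d) :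
    AEMeasurable (fun x => ‖u x‖ ^ 2 / d x) volume :=
  (hu.1.norm.aemeasurable.pow_const 2).div hd.aemeasurable

theorem hardy_int_eta (hu : MemLp u 2 volume) (a : E3) {η : ℝ} (hη : 0 < η) :
    Integrable (fun x => ‖u x‖ ^ 2 / (‖x - a‖ ^ 2 + η ^ 2)) ∧
      ∫ x, ‖u x‖ ^ 2 / (‖x - a‖ ^ 2 + η ^ 2) ≤ nrm u / η ^ 2 := by
  have pt : ∀ x, ‖u x‖ ^ 2 / (‖x - a‖ ^ 2 + η ^ 2) ≤ ‖u x‖ ^ 2 / η ^ 2 := fun x =>
    div_le_div_of_nonneg_left (by positivity) (by positivity) (by nlinarith [sq_nonneg ‖x - a‖])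
  have i1 : Integrable (fun x => ‖u x‖ ^ 2 / (‖x - a‖ ^ 2 + η ^ 2)) :=
    ((integrable_sq hu).div_const (η ^ 2)).mono'
      (hardy_meas hu (by fun_prop)).aestronglyMeasurable
      (Eventually.of_forall fun x => by rw [Real.norm_of_nonneg (by positivity)]; exact pt x)
  refine ⟨i1, (integral_mono i1 ((integrable_sq hu).div_const (η ^ 2)) pt).trans ?_⟩
  rw [integral_div]
  rfl

theorem hardy_eta (hu : IsH1 u g) (a : E3) {η : ℝ} (hη : 0 < η) :
    ∫ x, ‖u x‖ ^ 2 / (‖x - a‖ ^ 2 + η ^ 2) ≤ 4 * kin g := by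
  obtain ⟨v, hv, h1, h2⟩ := hu.approx
  have t1 := hardy_tendsto_div (fun x => ‖x - a‖ ^ 2 + η ^ 2) (fun x => by positivity) v
    (hardy_int_eta hu.memL2 a hη).1 (fun n => (hardy_int_eta (hv n).memLp a hη).1)
    (fun n => (hardy_int_eta (hu.memL2.sub (hv n).memLp) a hη).1)
    (squeeze_zero (fun n => integral_nonneg fun x => by positivity)
      (fun n => (hardy_int_eta (hu.memL2.sub (hv n).memLp) a hη).2)
      (by simpa using h1.div_const (η ^ 2)))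
  have t2 := (hardy_tendsto_kin (fun n => grad (v n)) hu.gradL2
    (fun n => (hv n).isH1.gradL2) h2).const_mul 4
  exact le_of_tendsto_of_tendsto' t1 t2 fun n => hardy_nice (hv n) a hη

theorem IsH1.hardy (hu : IsH1 u g) (a : E3) :
    Integrable (fun x => ‖u x‖ ^ 2 / ‖x - a‖ ^ 2) ∧
      ∫ x, ‖u x‖ ^ 2 / ‖x - a‖ ^ 2 ≤ 4 * kin g := by
  have hk : 0 ≤ 4 * kin g := by have := kin_nonneg g; positivity
  have hm : AEMeasurable (fun x => ‖u x‖ ^ 2 / ‖x - a‖ ^ 2) volume :=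
    hardy_meas hu.memL2 (by fun_prop)
  have fat := lintegral_liminf_le' (μ := (volume : Measure E3)) (u := atTop)
    (f := fun (n : ℕ) x => ENNReal.ofReal (‖u x‖ ^ 2 / (‖x - a‖ ^ 2 + (1 / ((n : ℝ) + 1)) ^ 2)))
    (fun n => (hardy_meas hu.memL2 (by fun_prop)).ennreal_ofReal)
  have h1 : ∀ᵐ x : E3, ENNReal.ofReal (‖u x‖ ^ 2 / ‖x - a‖ ^ 2) = liminf (fun n : ℕ =>
      ENNReal.ofReal (‖u x‖ ^ 2 / (‖x - a‖ ^ 2 + (1 / ((n : ℝ) + 1)) ^ 2))) atTop := by
    have h0 : ∀ᵐ x : E3, x ≠ a := by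
      rw [ae_iff]
      simp
    filter_upwards [h0] with x hx
    have hx' : ‖x - a‖ ^ 2 + 0 ^ 2 ≠ 0 := by
      have := norm_pos_iff.2 (sub_ne_zero.2 hx)
      positivity
    have t := (tendsto_const_nhds (x := ‖u x‖ ^ 2)).div
      (((tendsto_one_div_add_atTop_nhds_zero_nat (𝕜 := ℝ)).pow 2).const_add (‖x - a‖ ^ 2)) hx'
    have t2 := ENNReal.tendsto_ofReal t
    rw [show ‖x - a‖ ^ 2 + 0 ^ 2 = ‖x - a‖ ^ 2 by ring] at t2
    exact t2.liminf_eq.symm
  have h2 : ∫⁻ x, ENNReal.ofReal (‖u x‖ ^ 2 / ‖x - a‖ ^ 2) ≤ ENNReal.ofReal (4 * kin g) := by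
    rw [lintegral_congr_ae h1]
    refine fat.trans (liminf_le_of_frequently_le' (Frequently.of_forall fun n => ?_))
    have hη : (0 : ℝ) < 1 / ((n : ℝ) + 1) := by positivity
    rw [← ofReal_integral_eq_lintegral_ofReal (hardy_int_eta hu.memL2 a hη).1
      (Eventually.of_forall fun x => by positivity)]
    exact ENNReal.ofReal_le_ofReal (hardy_eta hu a hη)
  have hn : 0 ≤ᵐ[volume] fun x => ‖u x‖ ^ 2 / ‖x - a‖ ^ 2 :=
    Eventually.of_forall fun x => by positivity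
  refine ⟨⟨hm.aestronglyMeasurable, (hasFiniteIntegral_iff_ofReal hn).2
    (h2.trans_lt ENNReal.ofReal_lt_top)⟩, ?_⟩
  rw [integral_eq_lintegral_of_nonneg_ae hn hm.aestronglyMeasurable]
  exact ENNReal.toReal_le_of_le_ofReal hk h2

theorem hardy_pt (p r : ℝ) (hp : 0 ≤ p) (hr : 0 ≤ r) {ε : ℝ} (hε : 0 < ε) :
    p / r ≤ ε / 4 * (p / r ^ 2) + p / ε := by
  rcases hr.eq_or_lt with rfl | hr
  · simp
    positivity
  · have e : ε / 4 * (p / r ^ 2) + p / ε - p / r = p * (ε / (2 * r) - 1) ^ 2 / ε := by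
      field_simp
      ring
    have : 0 ≤ p * (ε / (2 * r) - 1) ^ 2 / ε := by positivity
    linarith

theorem IsH1.integrable_cou (hu : IsH1 u g) (a : E3) :
    Integrable (fun x => ‖u x‖ ^ 2 / ‖x - a‖) :=
  (((hu.hardy a).1.const_mul (1 / 4)).add ((integrable_sq hu.memL2).div_const 1)).mono'
    (hardy_meas hu.memL2 (by fun_prop)).aestronglyMeasurable
    (Eventually.of_forall fun x => by
      rw [Real.norm_of_nonneg (by positivity)]
      exact hardy_pt _ _ (by positivity) (norm_nonneg _) one_pos)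

theorem IsH1.cou_le (hu : IsH1 u g) (a : E3) {ε : ℝ} (hε : 0 < ε) :
    cou a u ≤ ε * kin g + nrm u / ε := by
  have i1 := (hu.hardy a).1.const_mul (ε / 4)
  have i2 := (integrable_sq hu.memL2).div_const ε
  have h := integral_mono (hu.integrable_cou a) (i1.add i2) fun x =>
    hardy_pt (‖u x‖ ^ 2) ‖x - a‖ (by positivity) (norm_nonneg _) hε
  rw [integral_add' i1 i2, integral_const_mul, integral_div] at h
  have h2 := mul_le_mul_of_nonneg_left (hu.hardy a).2 (show 0 ≤ ε / 4 by positivity)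
  unfold cou nrm
  linarith

theorem IsH1.kin_le (hu : IsH1 u g) (L : ℝ) : kin g ≤ 2 * qf L u g + 36 * nrm u := by
  have h0 := hu.cou_le (site L 0) (ε := 1 / 6) (by norm_num)
  have h1 := hu.cou_le (site L 1) (ε := 1 / 6) (by norm_num)
  have h2 := hu.cou_le (site L 2) (ε := 1 / 6) (by norm_num)
  unfold qf
  rw [Fin.sum_univ_three]
  have e : nrm u / (1 / 6) = 6 * nrm u := by ring
  rw [e] at h0 h1 h2
  linarith

theorem IsH1.tendsto_of_approx (hu : IsH1 u g) (v : ℕ → E3 → ℂ) (hv : ∀ n, Nice (v n))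
    (h1 : Tendsto (fun n => nrm (u - v n)) atTop (𝓝 0))
    (h2 : Tendsto (fun n => kin (g - grad (v n))) atTop (𝓝 0)) :
    Tendsto (fun n => nrm (v n)) atTop (𝓝 (nrm u)) ∧
    Tendsto (fun n => kin (grad (v n))) atTop (𝓝 (kin g)) ∧
    (∀ a, Tendsto (fun n => cou a (v n)) atTop (𝓝 (cou a u))) ∧
    (∀ L, Tendsto (fun n => qf L (v n) (grad (v n))) atTop (𝓝 (qf L u g))) ∧
    (∀ w, MemLp w 2 volume → Tendsto (fun n => ip w (v n)) atTop (𝓝 (ip w u))) := by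
  have tk := hardy_tendsto_kin (fun n => grad (v n)) hu.gradL2 (fun n => (hv n).isH1.gradL2) h2
  have tc : ∀ a, Tendsto (fun n => cou a (v n)) atTop (𝓝 (cou a u)) := fun a =>
    hardy_tendsto_div (fun x => ‖x - a‖) (fun x => norm_nonneg _) v (hu.integrable_cou a)
      (fun n => (hv n).isH1.integrable_cou a) (fun n => (hu.sub (hv n).isH1).integrable_cou a)
      (squeeze_zero (fun n => cou_nonneg a (u - v n))
        (fun n => (hu.sub (hv n).isH1).cou_le a one_pos) (by simpa using h2.add h1))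
  refine ⟨hardy_tendsto_nrm v hu.memL2 (fun n => (hv n).memLp) h1, tk, tc, fun L => ?_,
    fun w hw => ?_⟩
  · exact tk.sub (tendsto_finsetSum _ fun j _ => tc _)
  · rw [tendsto_iff_norm_sub_tendsto_zero]
    have e : ∀ n, ‖ip w (v n) - ip w u‖ = ‖ip w (u - v n)‖ := by
      intro n
      rw [norm_sub_rev]
      unfold ip
      rw [← integral_sub (integrable_ip hw hu.memL2) (integrable_ip hw (hv n).memLp)]
      simp only [Pi.sub_apply, mul_sub]
    simp_rw [e]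
    have t : Tendsto (fun n => Real.sqrt (nrm w * nrm (u - v n))) atTop (𝓝 0) := by
      simpa using (h1.const_mul (nrm w)).sqrt
    exact squeeze_zero (fun n => norm_nonneg _)
      (fun n => Real.le_sqrt_of_sq_le (norm_ip_sq_le hw (hu.memL2.sub (hv n).memLp))) t

end Pool.Agent.MP_e62678_mp.H54
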