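import Pool.Agent.MP_e62678_mp.H54.Single

/-! Three wells: IMS localisation gives a gap above three low-lying states. -/

open MeasureTheory Filter Topology
open scoped ComplexConjugate

namespace Pool.Agent.MP_e62678_mp.H54

theorem ims_nice_mul {v : E3 → ℂ} (hv : Nice v) {f : E3 → ℝ} (hf : ContDiff ℝ 1 f) :
    Nice fun x => ((f x : ℝ) : ℂ) * v x := by
  refine ⟨(Complex.ofRealCLM.contDiff.comp hf).mul hv.1, ?_⟩
  exact hv.2.mul_left

theorem ims_pd_mul {v : E3 → ℂ} (hv : ContDiff ℝ 1 v) {f : E3 → ℝ} (hf : ContDiff ℝ 1 f)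
    (k : Fin 3) (x : E3) :
    pd k (fun x => ((f x : ℝ) : ℂ) * v x) x =
      ((pd k f x : ℝ) : ℂ) * v x + ((f x : ℝ) : ℂ) * pd k v x := by
  have h1 : HasFDerivAt f (fderiv ℝ f x) x :=
    (hf.differentiable one_ne_zero x).hasFDerivAt
  have h2 : HasFDerivAt v (fderiv ℝ v x) x :=
    (hv.differentiable one_ne_zero x).hasFDerivAt
  have h3 : HasFDerivAt (fun x => ((f x : ℝ) : ℂ))
      (Complex.ofRealCLM.comp (fderiv ℝ f x)) x :=
    Complex.ofRealCLM.hasFDerivAt.comp x h1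
  have h4 := h3.mul h2
  unfold pd
  have h5 : fderiv ℝ (fun x => ((f x : ℝ) : ℂ) * v x) x = _ := h4.fderiv
  rw [h5]
  simp
  ring

theorem ims_pd_cos {θ : E3 → ℝ} (hθ : ContDiff ℝ 1 θ) (k : Fin 3) (x : E3) :
    pd k (fun x => Real.cos (θ x)) x = -Real.sin (θ x) * pd k θ x := by
  have h1 : HasFDerivAt θ (fderiv ℝ θ x) x :=
    (hθ.differentiable one_ne_zero x).hasFDerivAt
  unfold pd
  rw [h1.cos.fderiv]
  simp

theorem ims_pd_sin {θ : E3 → ℝ} (hθ : ContDiff ℝ 1 θ) (k : Fin 3) (x : E3) :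
    pd k (fun x => Real.sin (θ x)) x = Real.cos (θ x) * pd k θ x := by
  have h1 : HasFDerivAt θ (fderiv ℝ θ x) x :=
    (hθ.differentiable one_ne_zero x).hasFDerivAt
  unfold pd
  rw [h1.sin.fderiv]
  simp

theorem ims_pointwise (c s t : ℝ) (hcs : s ^ 2 + c ^ 2 = 1) (v w : ℂ) :
    ‖((-s * t : ℝ) : ℂ) * v + (c : ℂ) * w‖ ^ 2 + ‖((c * t : ℝ) : ℂ) * v + (s : ℂ) * w‖ ^ 2 =
      ‖w‖ ^ 2 + t ^ 2 * ‖v‖ ^ 2 := by
  simp only [Complex.sq_norm, Complex.normSq_apply, Complex.add_re, Complex.add_im,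
    Complex.mul_re, Complex.mul_im, Complex.ofReal_re, Complex.ofReal_im]
  linear_combination (w.re ^ 2 + w.im ^ 2 + t ^ 2 * (v.re ^ 2 + v.im ^ 2)) * hcs

theorem ims_int_pd {v : E3 → ℂ} (hv : Nice v) (k : Fin 3) :
    Integrable (fun x => ‖pd k v x‖ ^ 2) :=
  integrable_sq (hv.isH1.gradL2 k)

theorem ims {v : E3 → ℂ} (hv : Nice v) {θ : E3 → ℝ} (hθ : ContDiff ℝ 1 θ) {ε : ℝ}
    (hε : ∀ k x, |pd k θ x| ≤ ε) :
    kin (grad fun x => ((Real.cos (θ x) : ℝ) : ℂ) * v x) +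
      kin (grad fun x => ((Real.sin (θ x) : ℝ) : ℂ) * v x) ≤
      kin (grad v) + 3 * ε ^ 2 * nrm v := by
  have hc : ContDiff ℝ 1 fun x => Real.cos (θ x) := hθ.cos
  have hs : ContDiff ℝ 1 fun x => Real.sin (θ x) := hθ.sin
  have hnc := ims_nice_mul hv hc
  have hns := ims_nice_mul hv hs
  have key : ∀ k : Fin 3, nrm (pd k fun x => ((Real.cos (θ x) : ℝ) : ℂ) * v x) +
      nrm (pd k fun x => ((Real.sin (θ x) : ℝ) : ℂ) * v x) ≤ nrm (pd k v) + ε ^ 2 * nrm v := by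
    intro k
    unfold nrm
    rw [← integral_add (ims_int_pd hnc k) (ims_int_pd hns k), ← integral_const_mul,
      ← integral_add (ims_int_pd hv k) ((integrable_sq hv.memLp).const_mul _)]
    refine integral_mono ((ims_int_pd hnc k).add (ims_int_pd hns k))
      ((ims_int_pd hv k).add ((integrable_sq hv.memLp).const_mul _)) fun x => ?_
    simp only
    rw [ims_pd_mul hv.1 hc, ims_pd_mul hv.1 hs, ims_pd_cos hθ, ims_pd_sin hθ,
      ims_pointwise _ _ _ (Real.sin_sq_add_cos_sq _)]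
    have h1 : pd k θ x ^ 2 ≤ ε ^ 2 := by
      rw [← sq_abs]
      exact pow_le_pow_left₀ (abs_nonneg _) (hε k x) 2
    have h2 : 0 ≤ ‖v x‖ ^ 2 := by positivity
    nlinarith [mul_le_mul_of_nonneg_right h1 h2]
  unfold kin grad
  simp only [Fin.sum_univ_three]
  linarith [key 0, key 1, key 2]

theorem ims_nrm_mul_le {v : E3 → ℂ} (hv : Nice v) {f : E3 → ℝ} (hf : ContDiff ℝ 1 f)
    (h1 : ∀ x, f x ^ 2 ≤ 1) : nrm (fun x => ((f x : ℝ) : ℂ) * v x) ≤ nrm v := by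
  unfold nrm
  refine integral_mono (integrable_sq (ims_nice_mul hv hf).memLp) (integrable_sq hv.memLp)
    fun x => ?_
  simp only [norm_mul, mul_pow, Complex.norm_real, Real.norm_eq_abs, sq_abs]
  have h2 : 0 ≤ ‖v x‖ ^ 2 := by positivity
  nlinarith [mul_le_mul_of_nonneg_right (h1 x) h2]

theorem ims_pd_shift (θ : E3 → ℝ) (a : E3) (k : Fin 3) (x : E3) :
    pd k (fun y => θ (y - a)) x = pd k θ (x - a) := by
  unfold pd
  rw [fderiv_comp_sub]

theorem ims_cs (c0 c1 c2 S : ℝ) (h : c0 ^ 2 + c1 ^ 2 + c2 ^ 2 + S ^ 2 = 1) (a0 a1 a2 b : ℂ) :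
    ‖(c0 : ℂ) * a0 + (c1 : ℂ) * a1 + (c2 : ℂ) * a2 + (S : ℂ) * b‖ ^ 2 ≤
      ‖a0‖ ^ 2 + ‖a1‖ ^ 2 + ‖a2‖ ^ 2 + ‖b‖ ^ 2 := by
  have h1 : ‖(c0 : ℂ) * a0 + (c1 : ℂ) * a1 + (c2 : ℂ) * a2 + (S : ℂ) * b‖ ≤
      |c0| * ‖a0‖ + |c1| * ‖a1‖ + |c2| * ‖a2‖ + |S| * ‖b‖ := by
    refine (norm_add_le _ _).trans (add_le_add ((norm_add_le _ _).trans
      (add_le_add ((norm_add_le _ _).trans (add_le_add ?_ ?_)) ?_)) ?_) <;>
    simp [norm_mul]
  have h2 := pow_le_pow_left₀ (norm_nonneg _) h1 2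
  refine h2.trans ?_
  rw [← sq_abs c0, ← sq_abs c1, ← sq_abs c2, ← sq_abs S] at h
  generalize |c0| = p0 at *
  generalize |c1| = p1 at *
  generalize |c2| = p2 at *
  generalize |S| = p3 at *
  generalize ‖a0‖ = q0 at *
  generalize ‖a1‖ = q1 at *
  generalize ‖a2‖ = q2 at *
  generalize ‖b‖ = q3 at *
  have h3 : (p0 ^ 2 + p1 ^ 2 + p2 ^ 2 + p3 ^ 2) * (q0 ^ 2 + q1 ^ 2 + q2 ^ 2 + q3 ^ 2) -
      (p0 * q0 + p1 * q1 + p2 * q2 + p3 * q3) ^ 2 =
      (p0 * q1 - p1 * q0) ^ 2 + (p0 * q2 - p2 * q0) ^ 2 + (p0 * q3 - p3 * q0) ^ 2 +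
      (p1 * q2 - p2 * q1) ^ 2 + (p1 * q3 - p3 * q1) ^ 2 + (p2 * q3 - p3 * q2) ^ 2 := by ring
  rw [h, one_mul] at h3
  have h4 : 0 ≤ (p0 * q1 - p1 * q0) ^ 2 + (p0 * q2 - p2 * q0) ^ 2 + (p0 * q3 - p3 * q0) ^ 2 +
      (p1 * q2 - p2 * q1) ^ 2 + (p1 * q3 - p3 * q1) ^ 2 + (p2 * q3 - p3 * q2) ^ 2 := by
    positivity
  linarith

theorem ims_memLp_phi {η : ℝ} (hη : 0 < η) (a : E3) :
    MemLp (fun x : E3 => ((phi η (x - a) : ℝ) : ℂ)) 2 volume := by
  have hc : Continuous fun x : E3 => ((phi η (x - a) : ℝ) : ℂ) :=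
    Complex.continuous_ofReal.comp
      ((contDiff_phi hη).continuous.comp (continuous_id.sub continuous_const))
  rw [memLp_two_iff_integrable_sq_norm hc.aestronglyMeasurable]
  refine (integrable_exp_neg_norm.comp_sub_right a).mono'
    ((hc.norm.pow 2).aestronglyMeasurable) (Eventually.of_forall fun x => ?_)
  simp only [norm_pow, norm_norm, Complex.norm_real, Real.norm_eq_abs, sq_abs]
  exact phi_sq_le η _

theorem ims_cou_le {v : E3 → ℂ} (hv : Nice v) {θ : E3 → ℝ} (hθ : ContDiff ℝ 1 θ) {ρ : ℝ}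
    (hρ : 0 < ρ) (a : E3) (h0 : ∀ x, ‖x - a‖ ≤ ρ → θ x = 0) :
    cou a v ≤ cou a (fun x => ((Real.cos (θ x) : ℝ) : ℂ) * v x) + nrm v / ρ := by
  have hnc := ims_nice_mul hv hθ.cos
  unfold cou nrm
  rw [← integral_div, ← integral_add (hnc.isH1.integrable_cou a)
    ((integrable_sq hv.memLp).div_const _)]
  refine integral_mono (hv.isH1.integrable_cou a)
    ((hnc.isH1.integrable_cou a).add ((integrable_sq hv.memLp).div_const _)) fun x => ?_
  simp only [norm_mul, mul_pow, Complex.norm_real, Real.norm_eq_abs, sq_abs]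
  have h2 : 0 ≤ ‖v x‖ ^ 2 := by positivity
  by_cases hx : ‖x - a‖ ≤ ρ
  · rw [h0 x hx, Real.cos_zero]
    have : 0 ≤ ‖v x‖ ^ 2 / ρ := by positivity
    simp only [one_pow, one_mul]
    linarith
  · push Not at hx
    have h3 : ‖v x‖ ^ 2 / ‖x - a‖ ≤ ‖v x‖ ^ 2 / ρ := div_le_div_of_nonneg_left h2 hρ hx.le
    have h4 : 0 ≤ Real.cos (θ x) ^ 2 * ‖v x‖ ^ 2 / ‖x - a‖ := by positivity
    linarith

theorem ims_far {ρ L : ℝ} (hρ : 0 < ρ) (hL : 4 * ρ ≤ L) {j k : Fin 3} (hjk : j ≠ k) {x : E3}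
    (hx : ‖x - site L j‖ < 2 * ρ) : 2 * ρ ≤ ‖x - site L k‖ := by
  have h1 := norm_site_sub L hjk
  have h2 : 4 * ρ ≤ ‖site L j - site L k‖ := by
    by_contra hcon
    push Not at hcon
    have h3 := norm_nonneg (site L j - site L k)
    nlinarith
  have h4 : ‖site L j - site L k‖ ≤ ‖x - site L j‖ + ‖x - site L k‖ := by
    have : site L j - site L k = (x - site L k) - (x - site L j) := by abel
    rw [this]
    exact (norm_sub_le _ _).trans (by linarith)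
  linarith

theorem ims_nrm4 {a b c d : E3 → ℂ} (ha : MemLp a 2 volume) (hb : MemLp b 2 volume)
    (hc : MemLp c 2 volume) (hd : MemLp d 2 volume) :
    Integrable (fun x => ‖a x‖ ^ 2 + ‖b x‖ ^ 2 + ‖c x‖ ^ 2 + ‖d x‖ ^ 2) ∧
    nrm a + nrm b + nrm c + nrm d = ∫ x, (‖a x‖ ^ 2 + ‖b x‖ ^ 2 + ‖c x‖ ^ 2 + ‖d x‖ ^ 2) := by
  have h1 : Integrable (fun x => ‖a x‖ ^ 2 + ‖b x‖ ^ 2) :=
    (integrable_sq ha).add (integrable_sq hb)
  have h2 : Integrable (fun x => ‖a x‖ ^ 2 + ‖b x‖ ^ 2 + ‖c x‖ ^ 2) := h1.add (integrable_sq hc)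
  refine ⟨h2.add (integrable_sq hd), ?_⟩
  unfold nrm
  rw [integral_add h2 (integrable_sq hd), integral_add h1 (integrable_sq hc),
    integral_add (integrable_sq ha) (integrable_sq hb)]

theorem three_gap : ∃ g : ℝ, 0 < g ∧ ∀ (η ρ ε L : ℝ) (θ : E3 → ℝ), 0 < η → η ≤ 1 → 0 < ρ →
    4 * ρ ≤ L → ε ≤ 1 → ContDiff ℝ 1 θ → (∀ y, ‖y‖ ≤ ρ → θ y = 0) →
    (∀ y, 2 * ρ ≤ ‖y‖ → θ y = Real.pi / 2) → (∀ k y, |pd k θ y| ≤ ε) →
    ∀ v : E3 → ℂ, Nice v → ∃ α : Fin 3 → ℂ,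
      g * nrm (v - ∑ j, α j • well L (fun y => Real.cos (θ y) * phi η y) j) ≤
        qf L v (grad v) + (1 / 4 + 200 * η + 3 / ρ + 9 * ε ^ 2) * nrm v := by
  obtain ⟨g0, hg0, hgap⟩ := single_gap
  refine ⟨min g0 (1 / 4) / 9, by positivity, ?_⟩
  intro η ρ ε L θ hη hη1 hρ hL hε1 hθ hin hout hpd v hv
  have hε0 : 0 ≤ ε := (abs_nonneg _).trans (hpd 0 0)
  set T : Fin 3 → E3 → ℝ := fun j x => θ (x - site L j) with hT
  have hTs : ∀ j, ContDiff ℝ 1 (T j) := fun j => hθ.comp (contDiff_id.sub contDiff_const)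
  have hTpd : ∀ j k x, |pd k (T j) x| ≤ ε := fun j k x => by
    rw [hT]
    simp only
    rw [ims_pd_shift]
    exact hpd k _
  have hsep : ∀ j k, j ≠ k → ∀ x, Real.cos (T j x) = 0 ∨
      (Real.cos (T k x) = 0 ∧ Real.sin (T k x) = 1) := by
    intro j k hjk x
    by_cases hx : 2 * ρ ≤ ‖x - site L j‖
    · left
      simp only [hT, hout _ hx, Real.cos_pi_div_two]
    · right
      push Not at hx
      simp only [hT, hout _ (ims_far hρ hL hjk hx), Real.cos_pi_div_two, Real.sin_pi_div_two,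
        and_self]
  have hcs : ∀ j k, j ≠ k → ∀ x, Real.cos (T j x) * Real.sin (T k x) = Real.cos (T j x) := by
    intro j k hjk x
    rcases hsep j k hjk x with h | h
    · rw [h, zero_mul]
    · rw [h.2, mul_one]
  set S : E3 → ℝ := fun x => Real.sin (T 2 x) * (Real.sin (T 1 x) * Real.sin (T 0 x)) with hS
  have hSs : ContDiff ℝ 1 S := (hTs 2).sin.mul ((hTs 1).sin.mul (hTs 0).sin)
  have hone : ∀ x, Real.cos (T 0 x) ^ 2 + Real.cos (T 1 x) ^ 2 + Real.cos (T 2 x) ^ 2 +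
      S x ^ 2 = 1 := by
    intro x
    have e0 := Real.sin_sq_add_cos_sq (T 0 x)
    have e1 := Real.sin_sq_add_cos_sq (T 1 x)
    have e2 := Real.sin_sq_add_cos_sq (T 2 x)
    have f10 := hcs 1 0 (by decide) x
    have f20 := hcs 2 0 (by decide) x
    have f21 := hcs 2 1 (by decide) x
    simp only [hS]
    generalize Real.cos (T 0 x) = c0 at *
    generalize Real.cos (T 1 x) = c1 at *
    generalize Real.cos (T 2 x) = c2 at *
    generalize Real.sin (T 0 x) = s0 at *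
    generalize Real.sin (T 1 x) = s1 at *
    generalize Real.sin (T 2 x) = s2 at *
    have g1 : c1 ^ 2 = (c1 * s0) ^ 2 := by rw [f10]
    have g2 : c2 ^ 2 = (c2 * s1 * s0) ^ 2 := by rw [f21, f20]
    rw [g1, g2]
    linear_combination e0 + s0 ^ 2 * e1 + s0 ^ 2 * s1 ^ 2 * e2
  set u : Fin 3 → E3 → ℂ := fun j x => ((Real.cos (T j x) : ℝ) : ℂ) * v x with hu
  have hun : ∀ j, Nice (u j) := fun j => ims_nice_mul hv (hTs j).cos
  set w : E3 → ℂ := fun x => ((S x : ℝ) : ℂ) * v x with hw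
  have hwn : Nice w := ims_nice_mul hv hSs
  have hN0 := nrm_nonneg v
  have hK : kin (grad (u 0)) + kin (grad (u 1)) + kin (grad (u 2)) ≤
      kin (grad v) + 9 * ε ^ 2 * nrm v := by
    have hv1 := ims_nice_mul hv (hTs 0).sin
    have hv2 := ims_nice_mul hv1 (hTs 1).sin
    have i0 := ims hv (hTs 0) (hTpd 0)
    have i1 := ims hv1 (hTs 1) (hTpd 1)
    have i2 := ims hv2 (hTs 2) (hTpd 2)
    have n1 := ims_nrm_mul_le hv (hTs 0).sin fun x => Real.sin_sq_le_one _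
    have n2 := ims_nrm_mul_le hv1 (hTs 1).sin fun x => Real.sin_sq_le_one _
    have q1 : (fun x => ((Real.cos (T 1 x) : ℝ) : ℂ) * (((Real.sin (T 0 x) : ℝ) : ℂ) * v x)) =
        u 1 := by
      funext x
      rw [← mul_assoc, ← Complex.ofReal_mul, hcs 1 0 (by decide)]
    have q2 : (fun x => ((Real.cos (T 2 x) : ℝ) : ℂ) * (((Real.sin (T 1 x) : ℝ) : ℂ) *
        (((Real.sin (T 0 x) : ℝ) : ℂ) * v x))) = u 2 := by
      funext x
      rw [← mul_assoc, ← Complex.ofReal_mul, hcs 2 1 (by decide), ← mul_assoc,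
        ← Complex.ofReal_mul, hcs 2 0 (by decide)]
    rw [q1] at i1
    rw [q2] at i2
    have k0 := kin_nonneg (grad fun x => ((Real.sin (T 2 x) : ℝ) : ℂ) *
      (((Real.sin (T 1 x) : ℝ) : ℂ) * (((Real.sin (T 0 x) : ℝ) : ℂ) * v x)))
    have e2 : 0 ≤ 3 * ε ^ 2 := by positivity
    have m1 := mul_le_mul_of_nonneg_left n1 e2
    have m2 := mul_le_mul_of_nonneg_left (n2.trans n1) e2
    have i0' : kin (grad (u 0)) + kin (grad fun x => ((Real.sin (T 0 x) : ℝ) : ℂ) * v x) ≤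
        kin (grad v) + 3 * ε ^ 2 * nrm v := i0
    linarith
  have hN : nrm (u 0) + nrm (u 1) + nrm (u 2) + nrm w = nrm v := by
    rw [(ims_nrm4 (hun 0).memLp (hun 1).memLp (hun 2).memLp hwn.memLp).2]
    unfold nrm
    refine integral_congr_ae (Eventually.of_forall fun x => ?_)
    simp only [hu, hw, Pi.add_apply, norm_mul, mul_pow, Complex.norm_real, Real.norm_eq_abs,
      sq_abs]
    linear_combination ‖v x‖ ^ 2 * hone x
  have hC : ∀ j, cou (site L j) v ≤ cou (site L j) (u j) + nrm v / ρ := fun j =>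
    ims_cou_le hv (hTs j) hρ (site L j) fun x hx => hin _ hx
  choose α hα using fun j => hgap η hη hη1 (site L j) (u j) (hun j)
  refine ⟨α, ?_⟩
  set a : Fin 3 → E3 → ℂ := fun j x => u j x - α j * ((phi η (x - site L j) : ℝ) : ℂ) with ha
  have haL : ∀ j, MemLp (a j) 2 volume := fun j =>
    (hun j).memLp.sub ((ims_memLp_phi hη (site L j)).const_mul (α j))
  have hD : nrm (v - ∑ j, α j • well L (fun y => Real.cos (θ y) * phi η y) j) ≤
      nrm (a 0) + nrm (a 1) + nrm (a 2) + nrm w := by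
    rw [(ims_nrm4 (haL 0) (haL 1) (haL 2) hwn.memLp).2]
    unfold nrm
    refine integral_mono_of_nonneg (Eventually.of_forall fun x => by positivity)
      (ims_nrm4 (haL 0) (haL 1) (haL 2) hwn.memLp).1
      (Eventually.of_forall fun x => ?_)
    have h1 := ims_cs _ _ _ _ (hone x) (a 0 x) (a 1 x) (a 2 x) (w x)
    have h2 : (v - ∑ j, α j • well L (fun y => Real.cos (θ y) * phi η y) j) x =
        ((Real.cos (T 0 x) : ℝ) : ℂ) * a 0 x + ((Real.cos (T 1 x) : ℝ) : ℂ) * a 1 x +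
        ((Real.cos (T 2 x) : ℝ) : ℂ) * a 2 x + ((S x : ℝ) : ℂ) * w x := by
      have h3 : (((Real.cos (T 0 x) ^ 2 + Real.cos (T 1 x) ^ 2 + Real.cos (T 2 x) ^ 2 +
          S x ^ 2 : ℝ)) : ℂ) = 1 := by rw [hone x]; simp
      simp only [Fin.sum_univ_three, Pi.sub_apply, Pi.add_apply, Pi.smul_apply, smul_eq_mul,
        well, ha, hu, hw, Complex.ofReal_mul]
      simp only [Complex.ofReal_add, Complex.ofReal_pow] at h3
      have t0 : ∀ j, θ (x - site L j) = T j x := fun j => rfl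
      simp only [t0]
      linear_combination (-v x) * h3
    simp only
    rw [h2]
    exact h1
  have hkin := hv.isH1.kin_le L
  have hA0 := hα 0
  have hA1 := hα 1
  have hA2 := hα 2
  change g0 * nrm (a 0) ≤ _ at hA0
  change g0 * nrm (a 1) ≤ _ at hA1
  change g0 * nrm (a 2) ≤ _ at hA2
  have hq : qf L v (grad v) = kin (grad v) -
      (cou (site L 0) v + cou (site L 1) v + cou (site L 2) v) := by
    unfold qf
    rw [Fin.sum_univ_three]
  set D := nrm (v - ∑ j, α j • well L (fun y => Real.cos (θ y) * phi η y) j) with hDdef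
  have hD0 : 0 ≤ D := nrm_nonneg _
  have hm1 : min g0 (1 / 4) ≤ g0 := min_le_left _ _
  have hm2 : min g0 (1 / 4) ≤ 1 / 4 := min_le_right _ _
  have hm0 : 0 < min g0 (1 / 4) := by positivity
  generalize min g0 (1 / 4) = m at *
  have ha0 := nrm_nonneg (a 0)
  have ha1 := nrm_nonneg (a 1)
  have ha2 := nrm_nonneg (a 2)
  have hw0 := nrm_nonneg w
  have s1 : m * D ≤ g0 * nrm (a 0) + g0 * nrm (a 1) + g0 * nrm (a 2) + nrm w / 4 := by
    have := mul_le_mul_of_nonneg_left hD hm0.le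
    nlinarith [mul_le_mul_of_nonneg_right hm1 ha0, mul_le_mul_of_nonneg_right hm1 ha1,
      mul_le_mul_of_nonneg_right hm1 ha2, mul_le_mul_of_nonneg_right hm2 hw0]
  have s2 : 4 * η * (kin (grad (u 0)) + kin (grad (u 1)) + kin (grad (u 2))) ≤
      4 * η * (kin (grad v) + 9 * ε ^ 2 * nrm v) :=
    mul_le_mul_of_nonneg_left hK (by positivity)
  have s3 : 4 * η * kin (grad v) ≤ 4 * η * (2 * qf L v (grad v) + 36 * nrm v) :=
    mul_le_mul_of_nonneg_left hkin (by positivity)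
  have s4 : η * ε ^ 2 * nrm v ≤ η * nrm v := by
    have : ε ^ 2 ≤ 1 := by nlinarith
    have h5 : 0 ≤ η * nrm v := by positivity
    nlinarith [mul_le_mul_of_nonneg_left this h5]
  have s5 : 3 / ρ * nrm v = 3 * (nrm v / ρ) := by ring
  have s6 : 0 ≤ η * nrm v := by positivity
  set Y := (200 * η + 3 / ρ + 9 * ε ^ 2) * nrm v with hY
  have hY0 : 0 ≤ Y := by positivity
  set X := qf L v (grad v) + nrm v / 4 with hX
  have s7 : m * D ≤ (1 + 8 * η) * X + Y := by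
    have c0 := hC 0
    have c1 := hC 1
    have c2 := hC 2
    rw [hX, hY]
    nlinarith
  have s8 : m * D ≤ (1 + 8 * η) * (X + Y) := by nlinarith [mul_nonneg hη.le hY0]
  have s9 : 0 ≤ X + Y := by
    by_contra hcon
    push Not at hcon
    have : (1 + 8 * η) * (X + Y) < 0 := mul_neg_of_pos_of_neg (by positivity) hcon
    have := mul_nonneg hm0.le hD0
    linarith
  have s10 : (1 + 8 * η) * (X + Y) ≤ 9 * (X + Y) :=
    mul_le_mul_of_nonneg_right (by linarith) s9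
  have s11 : qf L v (grad v) + (1 / 4 + 200 * η + 3 / ρ + 9 * ε ^ 2) * nrm v = X + Y := by
    rw [hX, hY]
    ring
  rw [s11]
  linarith

end Pool.Agent.MP_e62678_mp.H54
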