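import Pool.Agent.MP_e62678_mp.H54.Hardy

/-! The interaction energy against its truncation. -/

open MeasureTheory Filter Topology
open scoped ComplexConjugate

namespace Pool.Agent.MP_e62678_mp.H54

variable {N : ℕ}

theorem inter1_rho_nonneg (u : Fin N → Fin 2 → E3 → ℂ) (x : E3) : 0 ≤ rho u x :=
  Finset.sum_nonneg fun _ _ => Finset.sum_nonneg fun _ _ => sq_nonneg _

theorem inter1_gam_le (u : Fin N → Fin 2 → E3 → ℂ) (x y : E3) (σ τ : Fin 2) :
    ‖gam u x σ y τ‖ ^ 2 ≤ (∑ i, ‖u i σ x‖ ^ 2) * ∑ i, ‖u i τ y‖ ^ 2 := by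
  have h1 : ‖gam u x σ y τ‖ ≤ ∑ i, ‖u i σ x‖ * ‖u i τ y‖ := by
    unfold gam
    refine (norm_sum_le _ _).trans (le_of_eq ?_)
    exact Finset.sum_congr rfl fun i _ => by rw [norm_mul, Complex.norm_conj]
  exact (pow_le_pow_left₀ (norm_nonneg _) h1 2).trans (Finset.sum_mul_sq_le_sq_mul_sq _ _ _)

theorem inter1_exch_le (u : Fin N → Fin 2 → E3 → ℂ) (x y : E3) :
    ∑ σ, ∑ τ, ‖gam u x σ y τ‖ ^ 2 ≤ rho u x * rho u y := by
  have e : ∀ z, rho u z = ∑ σ, ∑ i, ‖u i σ z‖ ^ 2 := fun z => Finset.sum_comm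
  rw [e x, e y, Finset.sum_mul_sum]
  exact Finset.sum_le_sum fun σ _ => Finset.sum_le_sum fun τ _ => inter1_gam_le u x y σ τ

theorem inter1_exch_nonneg (u : Fin N → Fin 2 → E3 → ℂ) (x y : E3) :
    0 ≤ ∑ σ, ∑ τ, ‖gam u x σ y τ‖ ^ 2 :=
  Finset.sum_nonneg fun _ _ => Finset.sum_nonneg fun _ _ => sq_nonneg _

theorem Dfun_nonneg (u : Fin N → Fin 2 → E3 → ℂ) (x y : E3) : 0 ≤ Dfun u x y :=
  sub_nonneg.2 (inter1_exch_le u x y)

theorem Dfun_le (u : Fin N → Fin 2 → E3 → ℂ) (x y : E3) : Dfun u x y ≤ rho u x * rho u y :=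
  sub_le_self _ (inter1_exch_nonneg u x y)

theorem inter1_rho_int (U : Orbitals N) : Integrable (rho U.u) :=
  integrable_finsetSum _ fun i _ => integrable_finsetSum _ fun σ _ =>
    integrable_sq (U.h1 i σ).memL2

theorem inter1_rho_integral (U : Orbitals N) : ∫ x, rho U.u x = Ntot U.u := by
  unfold rho Ntot nrm
  rw [integral_finsetSum _ fun i _ => integrable_finsetSum _ fun σ _ =>
    integrable_sq (U.h1 i σ).memL2]
  exact Finset.sum_congr rfl fun i _ =>
    integral_finsetSum _ fun σ _ => integrable_sq (U.h1 i σ).memL2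

theorem inter1_hardy (U : Orbitals N) (a : E3) :
    Integrable (fun x => rho U.u x / ‖x - a‖ ^ 2) ∧
      ∫ x, rho U.u x / ‖x - a‖ ^ 2 ≤ 4 * Ktot U.g := by
  have e : (fun x => rho U.u x / ‖x - a‖ ^ 2) =
      fun x => ∑ i, ∑ σ, ‖U.u i σ x‖ ^ 2 / ‖x - a‖ ^ 2 := by
    funext x
    unfold rho
    rw [Finset.sum_div]
    exact Finset.sum_congr rfl fun i _ => Finset.sum_div _ _ _
  rw [e]
  have hi : ∀ i, Integrable (fun x => ∑ σ, ‖U.u i σ x‖ ^ 2 / ‖x - a‖ ^ 2) := fun i =>
    integrable_finsetSum _ fun σ _ => ((U.h1 i σ).hardy a).1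
  refine ⟨integrable_finsetSum _ fun i _ => hi i, ?_⟩
  rw [integral_finsetSum _ fun i _ => hi i]
  unfold Ktot
  rw [Finset.mul_sum]
  refine Finset.sum_le_sum fun i _ => ?_
  rw [integral_finsetSum _ fun σ _ => ((U.h1 i σ).hardy a).1, Finset.mul_sum]
  exact Finset.sum_le_sum fun σ _ => ((U.h1 i σ).hardy a).2

theorem inter1_rr_meas (U : Orbitals N) :
    AEMeasurable (fun p : E3 × E3 => rho U.u p.1 * rho U.u p.2) (volume.prod volume) :=
  ((inter1_rho_int U).mul_prod (inter1_rho_int U)).aemeasurable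

theorem inter1_dist_meas : Measurable (fun p : E3 × E3 => ‖p.1 - p.2‖) :=
  (continuous_fst.sub continuous_snd).norm.measurable

theorem inter1_int2 (U : Orbitals N) :
    Integrable (fun p : E3 × E3 => rho U.u p.1 * rho U.u p.2 / ‖p.1 - p.2‖ ^ 2)
      (volume.prod volume) ∧
    ∫ p : E3 × E3, rho U.u p.1 * rho U.u p.2 / ‖p.1 - p.2‖ ^ 2 ∂(volume.prod volume) ≤
      4 * Ktot U.g * Ntot U.u := by
  have hm : AEStronglyMeasurable
      (fun p : E3 × E3 => rho U.u p.1 * rho U.u p.2 / ‖p.1 - p.2‖ ^ 2) (volume.prod volume) :=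
    ((inter1_rr_meas U).div (inter1_dist_meas.pow_const 2).aemeasurable).aestronglyMeasurable
  have e : ∀ y, (fun x => rho U.u x * rho U.u y / ‖x - y‖ ^ 2) =
      fun x => rho U.u x / ‖x - y‖ ^ 2 * rho U.u y := by
    intro y; funext x; ring
  have hb : ∀ y, ∫ x, rho U.u x * rho U.u y / ‖x - y‖ ^ 2 ≤ 4 * Ktot U.g * rho U.u y := by
    intro y
    rw [e y, integral_mul_const]
    exact mul_le_mul_of_nonneg_right (inter1_hardy U y).2 (inter1_rho_nonneg _ _)
  have hnn : ∀ x y, 0 ≤ rho U.u x * rho U.u y / ‖x - y‖ ^ 2 := fun x y =>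
    div_nonneg (mul_nonneg (inter1_rho_nonneg _ _) (inter1_rho_nonneg _ _)) (sq_nonneg _)
  have hint : Integrable (fun p : E3 × E3 => rho U.u p.1 * rho U.u p.2 / ‖p.1 - p.2‖ ^ 2)
      (volume.prod volume) := by
    rw [integrable_prod_iff' hm]
    constructor
    · refine Eventually.of_forall fun y => ?_
      show Integrable (fun x => rho U.u x * rho U.u y / ‖x - y‖ ^ 2)
      rw [e y]
      exact (inter1_hardy U y).1.mul_const _
    · refine Integrable.mono' ((inter1_rho_int U).const_mul (4 * Ktot U.g))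
        hm.norm.prod_swap.integral_prod_right' (Eventually.of_forall fun y => ?_)
      rw [Real.norm_of_nonneg (integral_nonneg fun x => norm_nonneg _)]
      refine le_trans (le_of_eq ?_) (hb y)
      exact integral_congr_ae (Eventually.of_forall fun x => Real.norm_of_nonneg (hnn x y))
  refine ⟨hint, ?_⟩
  rw [integral_prod_symm _ hint, ← inter1_rho_integral, ← integral_const_mul]
  exact integral_mono hint.integral_prod_right ((inter1_rho_int U).const_mul _) hb

theorem inter1_div_le {A r : ℝ} (hA : 0 ≤ A) (hr : 0 ≤ r) : A / r ≤ A / r ^ 2 + A := by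
  rcases hr.eq_or_lt with h | h
  · subst h; simpa using hA
  · rw [div_add' _ _ _ (by positivity), div_le_div_iff₀ h (by positivity)]
    nlinarith [mul_nonneg (mul_nonneg hA hr) (sq_nonneg (r - 1)), mul_nonneg hA (sq_nonneg r)]

theorem integrable_direct (U : Orbitals N) :
    Integrable (fun p : E3 × E3 => rho U.u p.1 * rho U.u p.2 / ‖p.1 - p.2‖) := by
  rw [Measure.volume_eq_prod]
  refine Integrable.mono' ((inter1_int2 U).1.add
    ((inter1_rho_int U).mul_prod (inter1_rho_int U)))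
    ((inter1_rr_meas U).div inter1_dist_meas.aemeasurable).aestronglyMeasurable
    (Eventually.of_forall fun p => ?_)
  have hA := mul_nonneg (inter1_rho_nonneg U.u p.1) (inter1_rho_nonneg U.u p.2)
  rw [Real.norm_of_nonneg (div_nonneg hA (norm_nonneg _))]
  exact inter1_div_le hA (norm_nonneg _)

theorem inter1_exch_meas (U : Orbitals N) :
    AEMeasurable (fun p : E3 × E3 => ∑ σ, ∑ τ, ‖gam U.u p.1 σ p.2 τ‖ ^ 2)
      (volume.prod volume) := by
  refine Finset.aemeasurable_fun_sum _ fun σ _ => Finset.aemeasurable_fun_sum _ fun τ _ => ?_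
  refine AEMeasurable.pow_const (AEMeasurable.norm ?_) 2
  unfold gam
  refine Finset.aemeasurable_fun_sum _ fun i _ => ?_
  have h1 : AEMeasurable (U.u i σ) volume := (U.h1 i σ).memL2.aestronglyMeasurable.aemeasurable
  have h2 : AEMeasurable (fun y => conj (U.u i τ y)) volume :=
    Complex.continuous_conj.measurable.comp_aemeasurable
      (U.h1 i τ).memL2.aestronglyMeasurable.aemeasurable
  exact h1.comp_fst.mul h2.comp_snd

theorem integrable_exchange (U : Orbitals N) :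
    Integrable (fun p : E3 × E3 => (∑ σ, ∑ τ, ‖gam U.u p.1 σ p.2 τ‖ ^ 2) / ‖p.1 - p.2‖) := by
  refine Integrable.mono' (integrable_direct U) ?_ (Eventually.of_forall fun p => ?_)
  · rw [Measure.volume_eq_prod]
    exact ((inter1_exch_meas U).div inter1_dist_meas.aemeasurable).aestronglyMeasurable
  · rw [Real.norm_of_nonneg (div_nonneg (inter1_exch_nonneg _ _ _) (norm_nonneg _))]
    exact div_le_div_of_nonneg_right (inter1_exch_le _ _ _) (norm_nonneg _)

theorem inter1_kM_pos {M : ℝ} (hM : 0 < M) (x y : E3) : 0 < kM M x y :=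
  one_div_pos.2 (lt_max_of_lt_right (one_div_pos.2 hM))

theorem inter1_kM_le {M : ℝ} (hM : 0 < M) (x y : E3) : kM M x y ≤ M := by
  unfold kM
  rw [one_div_le (lt_max_of_lt_right (one_div_pos.2 hM)) hM]
  exact le_max_right _ _

theorem Jm_nonneg {M : ℝ} (hM : 0 < M) (u : Fin N → Fin 2 → E3 → ℂ) : 0 ≤ Jm M u :=
  mul_nonneg (by norm_num) (integral_nonneg fun p =>
    mul_nonneg (Dfun_nonneg u p.1 p.2) (inter1_kM_pos hM p.1 p.2).le)

theorem inter1_Iint_eq (U : Orbitals N) :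
    Iint U.u = 1 / 2 * ∫ p : E3 × E3, Dfun U.u p.1 p.2 / ‖p.1 - p.2‖ := by
  unfold Iint Dfun
  simp_rw [sub_div]
  rw [integral_sub (integrable_direct U) (integrable_exchange U), mul_sub]

theorem inter1_D_int (U : Orbitals N) :
    Integrable (fun p : E3 × E3 => Dfun U.u p.1 p.2 / ‖p.1 - p.2‖) := by
  unfold Dfun
  simp_rw [sub_div]
  exact (integrable_direct U).sub (integrable_exchange U)

theorem inter1_DkM_int (U : Orbitals N) {M : ℝ} (hM : 0 < M) :
    Integrable (fun p : E3 × E3 => Dfun U.u p.1 p.2 * kM M p.1 p.2) := by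
  rw [Measure.volume_eq_prod]
  have hk : Measurable fun p : E3 × E3 => kM M p.1 p.2 :=
    measurable_const.div (inter1_dist_meas.max measurable_const)
  refine Integrable.mono' (((inter1_rho_int U).mul_prod (inter1_rho_int U)).mul_const M)
    ((((inter1_rr_meas U).sub (inter1_exch_meas U)).mul hk.aemeasurable).aestronglyMeasurable)
    (Eventually.of_forall fun p => ?_)
  rw [Real.norm_of_nonneg (mul_nonneg (Dfun_nonneg _ _ _) (inter1_kM_pos hM _ _).le)]
  exact mul_le_mul (Dfun_le _ _ _) (inter1_kM_le hM _ _) (inter1_kM_pos hM _ _).le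
    (mul_nonneg (inter1_rho_nonneg _ _) (inter1_rho_nonneg _ _))

theorem inter1_ae_ne : ∀ᵐ p : E3 × E3, p.1 ≠ p.2 := by
  rw [Measure.volume_eq_prod, Measure.ae_prod_iff_ae_ae
    (isOpen_ne_fun continuous_fst continuous_snd).measurableSet]
  refine Eventually.of_forall fun x => ?_
  have : ∀ᵐ y : E3, y ∉ ({x} : Set E3) := compl_mem_ae_iff.2 (measure_singleton x)
  filter_upwards [this] with y hy
  exact fun h => hy h.symm

theorem Jm_le_Iint (U : Orbitals N) {M : ℝ} (hM : 0 < M) : Jm M U.u ≤ Iint U.u := by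
  rw [inter1_Iint_eq]
  unfold Jm
  refine mul_le_mul_of_nonneg_left ?_ (by norm_num)
  refine integral_mono_ae (inter1_DkM_int U hM) (inter1_D_int U) ?_
  filter_upwards [inter1_ae_ne] with p hp
  have hr : 0 < ‖p.1 - p.2‖ := norm_pos_iff.2 (sub_ne_zero.2 hp)
  rw [div_eq_mul_one_div]
  exact mul_le_mul_of_nonneg_left (one_div_le_one_div_of_le hr (le_max_left _ _))
    (Dfun_nonneg _ _ _)

theorem inter1_point {D A r M : ℝ} (hD : 0 ≤ D) (hDA : D ≤ A) (hr : 0 ≤ r) (hM : 0 < M) :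
    D / r ≤ D * (1 / max r (1 / M)) + 1 / M * (A / r ^ 2) := by
  have hA : 0 ≤ A := hD.trans hDA
  have hmax : 0 < max r (1 / M) := lt_max_of_lt_right (one_div_pos.2 hM)
  have h1 : 0 ≤ D * (1 / max r (1 / M)) := by positivity
  have h2 : 0 ≤ 1 / M * (A / r ^ 2) := by positivity
  rcases hr.eq_or_lt with h | h
  · rw [← h, div_zero]
    rw [← h] at h1 h2
    exact add_nonneg h1 h2
  · rcases le_total (1 / M) r with h3 | h3
    · rw [max_eq_left h3, mul_one_div]
      linarith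
    · have h4 : r * M ≤ 1 := (le_div_iff₀ hM).1 h3
      have h5 : D / r ≤ 1 / M * (A / r ^ 2) := by
        have e : 1 / M * (A / r ^ 2) = A / (M * r ^ 2) := by field_simp
        rw [e, div_le_div_iff₀ h (by positivity)]
        calc D * (M * r ^ 2) = D * r * (r * M) := by ring
          _ ≤ D * r * 1 := mul_le_mul_of_nonneg_left h4 (by positivity)
          _ ≤ A * r := by rw [mul_one]; exact mul_le_mul_of_nonneg_right hDA h.le
      linarith

theorem Iint_le (U : Orbitals N) {M : ℝ} (hM : 0 < M) :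
    Iint U.u ≤ Jm M U.u + 2 / M * Ktot U.g * Ntot U.u := by
  rw [inter1_Iint_eq]
  unfold Jm
  obtain ⟨h1, h2⟩ := inter1_int2 U
  rw [← Measure.volume_eq_prod] at h1 h2
  have h3 : ∫ p : E3 × E3, Dfun U.u p.1 p.2 / ‖p.1 - p.2‖ ≤
      ∫ p : E3 × E3, (Dfun U.u p.1 p.2 * kM M p.1 p.2 +
        1 / M * (rho U.u p.1 * rho U.u p.2 / ‖p.1 - p.2‖ ^ 2)) :=
    integral_mono (inter1_D_int U) ((inter1_DkM_int U hM).add (h1.const_mul _)) fun p =>
      inter1_point (Dfun_nonneg _ _ _) (Dfun_le _ _ _) (norm_nonneg _) hM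
  rw [integral_add (inter1_DkM_int U hM) (h1.const_mul _), integral_const_mul] at h3
  have h4 := mul_le_mul_of_nonneg_left h2 (one_div_pos.2 hM).le
  have e : 2 / M * Ktot U.g * Ntot U.u = 1 / 2 * (1 / M * (4 * Ktot U.g * Ntot U.u)) := by ring
  rw [e]
  linarith

end Pool.Agent.MP_e62678_mp.H54
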