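import Pool.Agent.MP_e62678_mp.H54.Basic

/-! The truncated interaction: continuity in `L²` and its value on the wells. -/

open MeasureTheory Filter Topology
open scoped ComplexConjugate

namespace Pool.Agent.MP_e62678_mp.H54

variable {N : ℕ}

/-- The defect in the Cauchy-Schwarz inequality. -/
noncomputable def inter2_lag (a b : Fin N → ℂ) : ℝ :=
  (∑ i, ‖a i‖ ^ 2) * (∑ i, ‖b i‖ ^ 2) - ‖∑ i, a i * conj (b i)‖ ^ 2

lemma inter2_lagrange (a b : Fin N → ℂ) :
    2 * inter2_lag a b = ∑ i, ∑ j, ‖a i * b j - a j * b i‖ ^ 2 := by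
  apply Complex.ofReal_injective
  simp only [inter2_lag, Complex.ofReal_mul, Complex.ofReal_sub, Complex.ofReal_sum,
    Complex.ofReal_pow, ← Complex.mul_conj', map_sum, map_mul, map_sub, Complex.conj_conj,
    Finset.sum_mul_sum, Complex.ofReal_ofNat]
  rw [two_mul, ← Finset.sum_sub_distrib]
  simp only [← Finset.sum_sub_distrib]
  nth_rewrite 2 [Finset.sum_comm]
  simp only [← Finset.sum_add_distrib]
  exact Finset.sum_congr rfl fun i _ => Finset.sum_congr rfl fun j _ => by ring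

lemma inter2_lag_nonneg (a b : Fin N → ℂ) : 0 ≤ inter2_lag a b := by
  have : 0 ≤ 2 * inter2_lag a b := by rw [inter2_lagrange]; positivity
  linarith

lemma inter2_lag_le (a b : Fin N → ℂ) :
    inter2_lag a b ≤ (∑ i, ‖a i‖ ^ 2) * ∑ i, ‖b i‖ ^ 2 := sub_le_self _ (by positivity)

lemma inter2_lag_self (a : Fin N → ℂ) : inter2_lag a a = 0 := by
  have := inter2_lagrange a a
  simpa [mul_comm] using this

lemma inter2_lag_comm (a b : Fin N → ℂ) : inter2_lag a b = inter2_lag b a := by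
  have h1 := inter2_lagrange a b
  have h2 := inter2_lagrange b a
  rw [Finset.sum_comm] at h2
  simp only [mul_comm (b _)] at h2
  linarith

lemma inter2_lag_smul (a b : Fin N → ℂ) (w w' : ℝ) :
    inter2_lag (fun i => a i * w) (fun i => b i * w') = w ^ 2 * w' ^ 2 * inter2_lag a b := by
  have h1 := inter2_lagrange (fun i => a i * w) (fun i => b i * w')
  have h2 : ∀ i j, ‖a i * w * (b j * w') - a j * w * (b i * w')‖ ^ 2
      = w ^ 2 * w' ^ 2 * ‖a i * b j - a j * b i‖ ^ 2 := fun i j => by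
    rw [show a i * w * (b j * w') - a j * w * (b i * w') = w * w' * (a i * b j - a j * b i) by ring]
    simp [mul_pow]
  simp only [h2, ← Finset.mul_sum, ← inter2_lagrange] at h1
  linarith

lemma inter2_sq {s : ℝ} (hs : 0 < s) (x y z : ℂ) :
    ‖x - y - z‖ ^ 2 ≤ (1 + s) * ‖x‖ ^ 2 + 2 * (1 + 1 / s) * (‖y‖ ^ 2 + ‖z‖ ^ 2) := by
  have h1 : ‖x - y - z‖ ≤ ‖x‖ + (‖y‖ + ‖z‖) := by
    rw [← add_assoc]
    exact (norm_sub_le _ _).trans (add_le_add_left (norm_sub_le _ _) _)
  have h2 : 0 ≤ 1 / s * (s * ‖x‖ - (‖y‖ + ‖z‖)) ^ 2 := by positivity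
  have h3 : 0 ≤ (1 + 1 / s) * (‖y‖ - ‖z‖) ^ 2 := by positivity
  have h4 : 1 / s * s = 1 := one_div_mul_cancel hs.ne'
  refine (pow_le_pow_left₀ (norm_nonneg _) h1 2).trans ?_
  generalize 1 / s = t at *
  have h5 : t * (s * ‖x‖ - (‖y‖ + ‖z‖)) ^ 2
      = s * ‖x‖ ^ 2 - 2 * ‖x‖ * (‖y‖ + ‖z‖) + t * (‖y‖ + ‖z‖) ^ 2 := by
    linear_combination (s * ‖x‖ ^ 2 - 2 * ‖x‖ * (‖y‖ + ‖z‖)) * h4
  nlinarith

lemma inter2_lag_perturb {s : ℝ} (hs : 0 < s) (a b a' b' : Fin N → ℂ) :
    inter2_lag a' b' ≤ (1 + s) * inter2_lag a b + 2 * (1 + 1 / s) *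
      ((∑ i, ‖a i - a' i‖ ^ 2) * ∑ i, ‖b i‖ ^ 2 + (∑ i, ‖a' i‖ ^ 2) * ∑ i, ‖b i - b' i‖ ^ 2) := by
  have h1 : 2 * inter2_lag a' b' ≤ (1 + s) * (2 * inter2_lag a b) + 2 * (1 + 1 / s) *
      (2 * inter2_lag (fun i => a i - a' i) b + 2 * inter2_lag a' fun i => b i - b' i) := by
    simp only [inter2_lagrange, ← Finset.sum_add_distrib]
    simp only [Finset.mul_sum, ← Finset.sum_add_distrib]
    refine Finset.sum_le_sum fun i _ => Finset.sum_le_sum fun j _ => ?_
    rw [show a' i * b' j - a' j * b' i = a i * b j - a j * b i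
      - ((a i - a' i) * b j - (a j - a' j) * b i)
      - (a' i * (b j - b' j) - a' j * (b i - b' i)) by ring]
    exact inter2_sq hs _ _ _
  have h2 := inter2_lag_le (fun i => a i - a' i) b
  have h3 := inter2_lag_le a' fun i => b i - b' i
  have h4 : 0 ≤ 2 * (1 + 1 / s) := by positivity
  nlinarith [mul_le_mul_of_nonneg_left (add_le_add h2 h3) h4]

lemma inter2_rho_mul (u v : Fin N → Fin 2 → E3 → ℂ) (x y : E3) :
    rho u x * rho v y = ∑ σ, ∑ τ, (∑ i, ‖u i σ x‖ ^ 2) * ∑ i, ‖v i τ y‖ ^ 2 := by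
  rw [rho, rho, Finset.sum_comm, Finset.sum_comm (f := fun i σ => ‖v i σ y‖ ^ 2),
    Finset.sum_mul_sum]

lemma inter2_Dfun (u : Fin N → Fin 2 → E3 → ℂ) (x y : E3) :
    Dfun u x y = ∑ σ, ∑ τ, inter2_lag (fun i => u i σ x) fun i => u i τ y := by
  simp only [Dfun, inter2_rho_mul, inter2_lag, gam, Finset.sum_sub_distrib]

lemma inter2_kM_pos {M : ℝ} (hM : 0 < M) (x y : E3) : 0 < kM M x y :=
  one_div_pos.mpr (lt_max_of_lt_right (one_div_pos.mpr hM))

lemma inter2_kM_le {M : ℝ} (hM : 0 < M) (x y : E3) : kM M x y ≤ M := by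
  rw [kM, one_div_le (lt_max_of_lt_right (one_div_pos.mpr hM)) hM]
  exact le_max_right _ _

lemma inter2_kM_cont {M : ℝ} (hM : 0 < M) : Continuous fun p : E3 × E3 => kM M p.1 p.2 :=
  continuous_const.div (by fun_prop) fun _ => (lt_max_of_lt_right (one_div_pos.mpr hM)).ne'

lemma inter2_int_kM {M : ℝ} (hM : 0 < M) {f : E3 × E3 → ℝ} (hf : Integrable f) :
    Integrable fun p => f p * kM M p.1 p.2 :=
  hf.mul_bdd (c := M) (inter2_kM_cont hM).aestronglyMeasurable (ae_of_all _ fun p => by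
    rw [Real.norm_of_nonneg (inter2_kM_pos hM _ _).le]; exact inter2_kM_le hM _ _)

lemma inter2_int_rho {u : Fin N → Fin 2 → E3 → ℂ} (hu : ∀ i σ, MemLp (u i σ) 2 volume) :
    Integrable (rho u) :=
  integrable_finsetSum _ fun i _ => integrable_finsetSum _ fun σ _ => integrable_sq (hu i σ)

lemma inter2_integral_rho {u : Fin N → Fin 2 → E3 → ℂ} (hu : ∀ i σ, MemLp (u i σ) 2 volume) :
    ∫ x, rho u x = Ntot u := by
  simp only [rho, Ntot, nrm]
  rw [integral_finsetSum _ fun i _ => integrable_finsetSum _ fun σ _ => integrable_sq (hu i σ)]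
  exact Finset.sum_congr rfl fun i _ => integral_finsetSum _ fun σ _ => integrable_sq (hu i σ)

lemma inter2_int_Dfun {u : Fin N → Fin 2 → E3 → ℂ} (hu : ∀ i σ, MemLp (u i σ) 2 volume) :
    Integrable fun p : E3 × E3 => Dfun u p.1 p.2 := by
  have h1 := (inter2_int_rho hu).mul_prod (inter2_int_rho hu)
  refine h1.mono' (h1.aestronglyMeasurable.sub ?_) (ae_of_all _ fun p => ?_)
  · refine Finset.aestronglyMeasurable_fun_sum _ fun σ _ =>
      Finset.aestronglyMeasurable_fun_sum _ fun τ _ => AEStronglyMeasurable.pow ?_ 2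
    refine AEStronglyMeasurable.norm (Finset.aestronglyMeasurable_fun_sum _ fun i _ => ?_)
    exact (hu i σ).1.comp_fst.mul
      (Complex.continuous_conj.comp_aestronglyMeasurable (hu i τ).1.comp_snd)
  · rw [Real.norm_of_nonneg]
    · exact sub_le_self _ (by positivity)
    · rw [inter2_Dfun]
      exact Finset.sum_nonneg fun _ _ => Finset.sum_nonneg fun _ _ => inter2_lag_nonneg _ _

theorem Jm_perturb {M s : ℝ} (hM : 0 < M) (hs : 0 < s) (u v : Fin N → Fin 2 → E3 → ℂ)
    (hu : ∀ i σ, MemLp (u i σ) 2 volume) (hv : ∀ i σ, MemLp (v i σ) 2 volume) :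
    Jm M v ≤ (1 + s) * Jm M u + (1 + 1 / s) * M * Ntot (u - v) * (Ntot u + Ntot v) := by
  have hd : ∀ i σ, MemLp ((u - v) i σ) 2 volume := fun i σ => (hu i σ).sub (hv i σ)
  have h1 := (inter2_int_rho hd).mul_prod (inter2_int_rho hu)
  have h2 := (inter2_int_rho hv).mul_prod (inter2_int_rho hd)
  have h3 := (inter2_int_kM hM (inter2_int_Dfun hu)).const_mul (1 + s)
  have h4 : Integrable fun p : E3 × E3 => 2 * (1 + 1 / s) * M *
      (rho (u - v) p.1 * rho u p.2 + rho v p.1 * rho (u - v) p.2) :=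
    (h1.add h2).const_mul (2 * (1 + 1 / s) * M)
  have h5 := integral_mono (inter2_int_kM hM (inter2_int_Dfun hv)) (h3.add h4) fun p => by
    have h6 : Dfun v p.1 p.2 ≤ (1 + s) * Dfun u p.1 p.2 + 2 * (1 + 1 / s) *
        (rho (u - v) p.1 * rho u p.2 + rho v p.1 * rho (u - v) p.2) := by
      simp only [inter2_Dfun, inter2_rho_mul, Finset.mul_sum Finset.univ _ (1 + s),
        Finset.mul_sum Finset.univ _ (2 * (1 + 1 / s)), ← Finset.sum_add_distrib]
      exact Finset.sum_le_sum fun σ _ => Finset.sum_le_sum fun τ _ => inter2_lag_perturb hs _ _ _ _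
    have h7 : 0 ≤ 2 * (1 + 1 / s) *
        (rho (u - v) p.1 * rho u p.2 + rho v p.1 * rho (u - v) p.2) := by
      unfold rho
      positivity
    have h8 := mul_le_mul_of_nonneg_right h6 (inter2_kM_pos hM p.1 p.2).le
    have h9 := mul_le_mul_of_nonneg_left (inter2_kM_le hM p.1 p.2) h7
    simp only [Pi.add_apply]
    linarith
  simp only [Pi.add_apply] at h5
  rw [integral_add h3 h4, integral_const_mul, integral_const_mul, Measure.volume_eq_prod,
    integral_add h1 h2, integral_prod_mul, integral_prod_mul, inter2_integral_rho hu,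
    inter2_integral_rho hv, inter2_integral_rho hd] at h5
  simp only [Jm, Measure.volume_eq_prod]
  linarith

theorem Jm_wells {g cU δ L M : ℝ} {W : E3 → ℝ} (h : Wells g cU δ L W) (hδ : 0 < δ) (hM : 0 < M)
    (c : Fin N → Fin 2 → Fin 3 → ℂ) :
    Um M W * ∑ j, detj c j ≤ Jm M (fun i σ => ∑ j, c i σ j • well L W j) ∧
    Jm M (fun i σ => ∑ j, c i σ j • well L W j) ≤
      Um M W * ∑ j, detj c j + δ / 2 * (∑ i, ∑ σ, ∑ j, ‖c i σ j‖ ^ 2) ^ 2 := by
  let w : Fin 3 → E3 → ℝ := fun j x => W (x - site L j)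
  let D : Fin 3 → Fin 3 → ℝ := fun j k => ∑ σ, ∑ τ, inter2_lag (fun i => c i σ j) fun i => c i τ k
  let n : Fin 3 → ℝ := fun j => ∑ σ, ∑ i, ‖c i σ j‖ ^ 2
  let I : Fin 3 → Fin 3 → ℝ := fun j k => ∫ p : E3 × E3, w j p.1 ^ 2 * w k p.2 ^ 2 * kM M p.1 p.2
  have h1 : ∀ x, ∃ j, ∀ k, k ≠ j → w k x = 0 := fun x => by
    by_cases hx : ∃ j, w j x ≠ 0
    · obtain ⟨j, hj⟩ := hx
      refine ⟨j, fun k hk => by_contra fun hk' => ?_⟩
      have := h.sep k j hk x x hk' hj
      norm_num at this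
    · push Not at hx
      exact ⟨0, fun k _ => hx k⟩
  have h2 : ∀ x y, Dfun (fun i σ => ∑ j, c i σ j • well L W j) x y
      = ∑ j, ∑ k, D j k * (w j x ^ 2 * w k y ^ 2) := fun x y => by
    obtain ⟨j, hj⟩ := h1 x
    obtain ⟨k, hk⟩ := h1 y
    have h3 : ∀ i σ x j, (∀ k, k ≠ j → w k x = 0) →
        (∑ j, c i σ j • well L W j) x = c i σ j * w j x := fun i σ x j hj => by
      rw [Finset.sum_apply, Finset.sum_eq_single j (fun k _ hk => ?_) (by simp)]
      · rfl
      · change c i σ k * (w k x : ℂ) = 0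
        simp [hj k hk]
    rw [Finset.sum_eq_single j (fun a _ ha => by simp [hj a ha]) (by simp),
      Finset.sum_eq_single k (fun a _ ha => by simp [hk a ha]) (by simp), inter2_Dfun]
    simp only [h3 _ _ x j hj, h3 _ _ y k hk, inter2_lag_smul, ← Finset.mul_sum, D]
    exact mul_comm _ _
  have h3 : ∀ j, Integrable fun x => w j x ^ 2 := fun j =>
    (Continuous.integrable_of_hasCompactSupport (f := fun x => W x ^ 2) (h.smooth.continuous.pow 2)
      (h.compact.comp_left (g := fun t : ℝ => t ^ 2) (by simp))).comp_sub_right (site L j)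
  have h4 : ∀ j, ∫ x, w j x ^ 2 = 1 := fun j =>
    (integral_sub_right_eq_self (fun x => W x ^ 2) (site L j)).trans h.unit
  have h5 : ∀ j k, Integrable fun p : E3 × E3 => w j p.1 ^ 2 * w k p.2 ^ 2 * kM M p.1 p.2 :=
    fun j k => inter2_int_kM hM ((h3 j).mul_prod (h3 k))
  have h6 : Jm M (fun i σ => ∑ j, c i σ j • well L W j) = 1 / 2 * ∑ j, ∑ k, D j k * I j k := by
    simp only [Jm, h2, Finset.sum_mul, mul_assoc (D _ _)]
    rw [integral_finsetSum _ fun j _ => integrable_finsetSum _ fun k _ => (h5 j k).const_mul _]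
    congr 1
    refine Finset.sum_congr rfl fun j _ => ?_
    rw [integral_finsetSum _ fun k _ => (h5 j k).const_mul _]
    exact Finset.sum_congr rfl fun k _ => integral_const_mul _ _
  have h7 : ∀ j, I j j = Um M W := fun j => by
    rw [Um, Measure.volume_eq_prod, ← integral_sub_right_eq_self _ (site L j, site L j)]
    simp [I, w, kM, Measure.volume_eq_prod]
  have h8 : ∀ j k, 0 ≤ I j k := fun j k => integral_nonneg fun p =>
    mul_nonneg (by positivity) (inter2_kM_pos hM _ _).le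
  have h9 : ∀ j k, j ≠ k → I j k ≤ δ := fun j k hjk => by
    refine (integral_mono (h5 j k) (((h3 j).mul_prod (h3 k)).mul_const δ) fun p => ?_).trans_eq ?_
    · by_cases hj : w j p.1 = 0
      · simp [hj]
      by_cases hk : w k p.2 = 0
      · simp [hk]
      have h10 := h.sep j k hjk _ _ hj hk
      refine mul_le_mul_of_nonneg_left ?_ (by positivity)
      rw [kM, div_le_iff₀ (lt_max_of_lt_right (one_div_pos.mpr hM))]
      exact h10.trans (mul_le_mul_of_nonneg_left (le_max_left _ _) hδ.le)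
    · rw [integral_mul_const, Measure.volume_eq_prod,
        integral_prod_mul (fun x => w j x ^ 2) (fun x => w k x ^ 2), h4, h4, one_mul, one_mul]
  have h10 : ∀ j, D j j = 2 * detj c j := fun j => by
    simp only [D, Fin.sum_univ_two, inter2_lag_self]
    rw [inter2_lag_comm fun i => c i 1 j, zero_add, add_zero, two_mul]
    rfl
  have h11 : ∀ j k, 0 ≤ D j k := fun j k =>
    Finset.sum_nonneg fun _ _ => Finset.sum_nonneg fun _ _ => inter2_lag_nonneg _ _
  have h12 : ∀ j k, D j k ≤ n j * n k := fun j k => by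
    rw [Finset.sum_mul_sum]
    exact Finset.sum_le_sum fun _ _ => Finset.sum_le_sum fun _ _ => inter2_lag_le _ _
  have h13 : ∑ i, ∑ σ, ∑ j, ‖c i σ j‖ ^ 2 = ∑ j, n j := by
    rw [Finset.sum_comm, Finset.sum_comm (f := fun j σ => ∑ i, ‖c i σ j‖ ^ 2)]
    exact Finset.sum_congr rfl fun σ _ => Finset.sum_comm
  have h14 : Um M W * ∑ j, detj c j = 1 / 2 * ∑ j, D j j * I j j := by
    simp only [h7, h10, Finset.mul_sum]
    exact Finset.sum_congr rfl fun j _ => by ring
  rw [h6, h14, h13]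
  constructor
  · refine mul_le_mul_of_nonneg_left (Finset.sum_le_sum fun j _ => ?_) (by norm_num)
    exact Finset.single_le_sum (f := fun k => D j k * I j k)
      (fun k _ => mul_nonneg (h11 j k) (h8 j k)) (Finset.mem_univ j)
  · have h15 : ∀ j, ∑ k, D j k * I j k ≤ D j j * I j j + ∑ k, δ * (n j * n k) := fun j => by
      rw [← Finset.add_sum_erase _ _ (Finset.mem_univ j)]
      refine add_le_add_right ((Finset.sum_le_sum fun k hk => ?_).trans
        (Finset.sum_le_sum_of_subset_of_nonneg (Finset.erase_subset j _) fun k _ _ =>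
          mul_nonneg hδ.le ((h11 j k).trans (h12 j k)))) _
      rw [mul_comm δ]
      exact mul_le_mul (h12 j k) (h9 j k (Finset.ne_of_mem_erase hk).symm) (h8 j k)
        ((h11 j k).trans (h12 j k))
    have h16 := Finset.sum_le_sum fun j (_ : j ∈ Finset.univ) => h15 j
    simp only [Finset.sum_add_distrib, ← Finset.mul_sum, ← Finset.sum_mul] at h16
    rw [sq]
    linarith

end Pool.Agent.MP_e62678_mp.H54
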