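import Pool.Agent.MP_e62678_mp.H54.Trial
import Pool.Agent.MP_e62678_mp.H54.FinDim

/-! Lower bound for product-form tuples. -/

open MeasureTheory Filter Topology
open scoped ComplexConjugate ComplexOrder

namespace Pool.Agent.MP_e62678_mp.H54

theorem adm_form {N : ℕ} {U : Orbitals N} (hU : Admissible U) (α : Fin N → ℂ) :
    ∑ σ, ‖∑ i, α i • iota (toS U i σ)‖ ^ 2 ≤ ∑ i, ‖α i‖ ^ 2 := by
  have h := hU.2.dotProduct_mulVec_nonneg α
  have e1 : star α ⬝ᵥ (1 - gram U).mulVec α =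
      ((∑ i, ‖α i‖ ^ 2 - ∑ σ, ‖∑ i, α i • iota (toS U i σ)‖ ^ 2 : ℝ) : ℂ) := by
    rw [Matrix.sub_mulVec, dotProduct_sub, Matrix.one_mulVec]
    have a1 : star α ⬝ᵥ α = ((∑ i, ‖α i‖ ^ 2 : ℝ) : ℂ) := by
      simp only [dotProduct, Pi.star_apply, RCLike.star_def]
      push_cast
      exact Finset.sum_congr rfl fun j _ => Complex.conj_mul' _
    have a2 : star α ⬝ᵥ (gram U).mulVec α =
        ((∑ σ, ‖∑ i, α i • iota (toS U i σ)‖ ^ 2 : ℝ) : ℂ) := by
      have : ∀ σ, ((‖∑ i, α i • iota (toS U i σ)‖ ^ 2 : ℝ) : ℂ) =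
          ∑ i, ∑ j, conj (α i) * (inner ℂ (iota (toS U i σ)) (iota (toS U j σ)) * α j) := by
        intro σ
        have e := inner_self_eq_norm_sq_to_K (𝕜 := ℂ) (∑ i, α i • iota (toS U i σ))
        have e' : ((‖∑ i, α i • iota (toS U i σ)‖ ^ 2 : ℝ) : ℂ) =
            inner ℂ (∑ i, α i • iota (toS U i σ)) (∑ i, α i • iota (toS U i σ)) := by
          rw [e]
          push_cast
          rfl
        rw [e', sum_inner]
        refine Finset.sum_congr rfl fun i _ => ?_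
        rw [inner_sum]
        refine Finset.sum_congr rfl fun j _ => ?_
        rw [inner_smul_left, inner_smul_right]
        ring
      rw [Complex.ofReal_sum]
      simp only [this, dotProduct, Matrix.mulVec, gram_toS, Pi.star_apply, RCLike.star_def,
        Finset.sum_mul, Finset.mul_sum]
      symm
      rw [Finset.sum_comm]
      refine Finset.sum_congr rfl fun i _ => ?_
      rw [Finset.sum_comm]
    rw [a1, a2]
    push_cast
    ring
  rw [e1] at h
  have := Complex.zero_le_real.1 h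
  linarith

theorem adm_Ntot {U : Orbitals 3} (hU : Admissible U) : Ntot U.u ≤ 3 := by
  have e : ∀ i, ∑ σ, nrm (U.u i σ) ≤ 1 := by
    intro i
    have := adm_form hU (Pi.single i 1)
    have e1 : ∀ σ, ∑ k, (Pi.single i (1 : ℂ) : Fin 3 → ℂ) k • iota (toS U k σ) =
        iota (toS U i σ) := by
      intro σ
      rw [Finset.sum_eq_single i] <;> simp +contextual
    have e2 : ∑ k, ‖(Pi.single i (1 : ℂ) : Fin 3 → ℂ) k‖ ^ 2 = 1 := by
      rw [Finset.sum_eq_single i] <;> simp +contextual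
    simp only [e1, e2, norm_iota] at this
    exact this
  calc Ntot U.u ≤ ∑ _i : Fin 3, (1 : ℝ) := Finset.sum_le_sum fun i _ => e i
    _ = 3 := by simp

theorem product_lower {g cU δ L : ℝ} {W : E3 → ℝ} (h : Wells g cU δ L W) (hg : 0 < g) (hδ : 0 < δ)
    (hδ1 : δ ≤ 1 / 8) {E0 E1 : ℝ} (h01 : E0 < E1) (hE : E1 ≤ -1 / 4 + δ)
    (hlow : ∀ u : H1s, E1 * ‖iota u‖ ^ 2 - (E1 - E0) *
        (‖∑ j, inner ℂ (iota (wS h j)) (iota u)‖ ^ 2 / 3 +
        (‖iota u‖ ^ 2 - ∑ j, ‖inner ℂ (iota (wS h j)) (iota u)‖ ^ 2)) ≤ qS L u)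
    {δ0 b : ℝ} (hfd : ∀ (c : Fin 3 → Fin 3 → ℂ) (χ : Fin 3 → Fin 2 → ℂ),
      (∀ α : Fin 3 → ℂ, ∑ σ, ∑ j, ‖∑ i, α i * (c i j * χ i σ)‖ ^ 2 ≤ ∑ i, ‖α i‖ ^ 2) →
      3 - δ0 ≤ ∑ i, ∑ σ, ∑ j, ‖c i j * χ i σ‖ ^ 2 →
      b ≤ -(1 / 60) * (∑ i, ∑ σ, ‖∑ j, c i j * χ i σ‖ ^ 2) +
        ∑ j, detj (fun i σ j => c i j * χ i σ) j)
    (hδ0 : 24 * δ + 6 * δ / g ≤ δ0) {M s : ℝ} (hM : 0 < M) (hs : 0 < s)
    (U : Orbitals 3) (hU : Admissible U) (hP : ProductForm U)
    (hq : onebody L U ≤ -3 / 4 + 3 * δ) :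
    ∃ X D : ℝ, X ≤ 9 ∧ b ≤ -(1 / 60) * X + D ∧
      3 * E1 - (E1 - E0) * (X / 3 + 6 * δ / g) ≤ onebody L U ∧
      Um M W * D - (1 + 1 / s) * M * (36 * δ / g) ≤ (1 + s) * Iint U.u := by
  choose φ gφ χ hφ hu using hP
  let c : Fin 3 → Fin 3 → ℂ := fun i j => ip (well L W j) (φ i)
  have hv : ∀ i σ j, inner ℂ (iota (wS h j)) (iota (toS U i σ)) = c i j * χ i σ := by
    intro i σ j
    rw [inner_iota]
    show ip (well L W j) (U.u i σ) = ip (well L W j) (φ i) * χ i σ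
    unfold ip
    rw [← integral_mul_const]
    refine integral_congr_ae ?_
    filter_upwards [hu i σ] with x hx
    rw [hx, mul_assoc]
  have hn := adm_Ntot hU
  have hnS : Ntot U.u = ∑ i, ∑ σ, ‖iota (toS U i σ)‖ ^ 2 := by
    simp only [norm_iota]
    rfl
  have hqS : onebody L U = ∑ i, ∑ σ, qS L (toS U i σ) := rfl
  set n := Ntot U.u with hn_def
  set m := ∑ i, ∑ σ, ∑ j, ‖c i j * χ i σ‖ ^ 2 with hm_def
  have hwm : ∀ j, MemLp (well L W j) 2 volume := fun j => (h.nice j).memLp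
  let v : Fin 3 → Fin 2 → E3 → ℂ := fun i σ => ∑ j, (c i j * χ i σ) • well L W j
  have hvip : ∀ i σ j, ip (well L W j) (U.u i σ) = c i j * χ i σ := by
    intro i σ j
    rw [← hv, inner_iota]
    rfl
  have hd : Ntot (U.u - v) = n - m := by
    have e : ∀ i σ, nrm ((U.u - v) i σ) = nrm (U.u i σ) - ∑ j, ‖c i j * χ i σ‖ ^ 2 := by
      intro i σ
      have := nrm_sub_proj hwm h.ortho (U.h1 i σ).memL2
      simp only [hvip] at this
      exact this
    simp only [Ntot, e, Finset.sum_sub_distrib]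
    rfl
  have hd0 : 0 ≤ n - m := by
    rw [← hd]
    exact Finset.sum_nonneg fun i _ => Finset.sum_nonneg fun σ _ => nrm_nonneg _
  have hm0 : 0 ≤ m := by positivity
  have hgap : g * (n - m) ≤ onebody L U + (1 / 4 + δ) * n := by
    have e : ∀ i σ, g * (nrm (U.u i σ) - ∑ j, ‖c i j * χ i σ‖ ^ 2) ≤
        qf L (U.u i σ) (U.g i σ) + (1 / 4 + δ) * nrm (U.u i σ) := by
      intro i σ
      have := h.gap_h1 (U.h1 i σ)
      simp only [hvip] at this
      exact this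
    have := Finset.sum_le_sum fun i (_ : i ∈ Finset.univ) =>
      Finset.sum_le_sum fun σ (_ : σ ∈ Finset.univ) => e i σ
    simp only [Finset.sum_add_distrib, ← Finset.mul_sum, Finset.sum_sub_distrib] at this
    exact this
  have hgd : g * (n - m) ≤ 6 * δ := by nlinarith
  have hd1 : n - m ≤ 6 * δ / g := by
    rw [le_div_iff₀ hg]
    linarith
  have hn1 : 3 - 24 * δ ≤ n := by nlinarith [mul_nonneg hg.le hd0]
  have hyp1 : ∀ α : Fin 3 → ℂ, ∑ σ, ∑ j, ‖∑ i, α i * (c i j * χ i σ)‖ ^ 2 ≤ ∑ i, ‖α i‖ ^ 2 := by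
    intro α
    refine le_trans (Finset.sum_le_sum fun σ _ => ?_) (adm_form hU α)
    have := (ortho_wS h).sum_inner_products_le (∑ i, α i • iota (toS U i σ)) (s := Finset.univ)
    simp only [inner_sum, inner_smul_right, hv] at this
    exact this
  have hb := hfd c χ hyp1 (by linarith)
  refine ⟨∑ i, ∑ σ, ‖∑ j, c i j * χ i σ‖ ^ 2, ∑ j, detj (fun i σ j => c i j * χ i σ) j,
    ?_, hb, ?_, ?_⟩
  · have e : ∀ i σ, ‖∑ j, c i j * χ i σ‖ ^ 2 ≤ 3 * ∑ j, ‖c i j * χ i σ‖ ^ 2 := by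
      intro i σ
      have h1 : ‖∑ j, c i j * χ i σ‖ ≤ ∑ j, ‖c i j * χ i σ‖ := norm_sum_le _ _
      have h2 := pow_le_pow_left₀ (norm_nonneg _) h1 2
      simp only [Fin.sum_univ_three] at h2 ⊢
      nlinarith [sq_nonneg (‖c i 0 * χ i σ‖ - ‖c i 1 * χ i σ‖),
        sq_nonneg (‖c i 0 * χ i σ‖ - ‖c i 2 * χ i σ‖),
        sq_nonneg (‖c i 1 * χ i σ‖ - ‖c i 2 * χ i σ‖)]
    have := Finset.sum_le_sum fun i (_ : i ∈ Finset.univ) =>
      Finset.sum_le_sum fun σ (_ : σ ∈ Finset.univ) => e i σ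
    simp only [← Finset.mul_sum] at this
    linarith
  · have e := Finset.sum_le_sum fun i (_ : i ∈ Finset.univ) =>
      Finset.sum_le_sum fun σ (_ : σ ∈ Finset.univ) => hlow (toS U i σ)
    simp only [hv, Finset.sum_add_distrib, ← Finset.mul_sum, Finset.sum_sub_distrib,
      ← Finset.sum_div] at e
    rw [← hnS, ← hqS] at e
    have k1 : 3 * E1 ≤ E1 * n := by nlinarith
    have k2 : (E1 - E0) * (n - m) ≤ (E1 - E0) * (6 * δ / g) :=
      mul_le_mul_of_nonneg_left hd1 (by linarith)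
    linarith
  · have i1 := Jm_le_Iint U hM
    have hvm : ∀ i σ, MemLp (v i σ) 2 volume := fun i σ =>
      memLp_finsetSum' _ fun j _ => (hwm j).const_smul _
    have i3 := Jm_perturb hM hs U.u v (fun i σ => (U.h1 i σ).memL2) hvm
    have i4 := (Jm_wells h hδ hM fun i σ j => c i j * χ i σ).1
    have hNv : Ntot v = m := by
      have e : ∀ i σ, nrm (v i σ) = ∑ j, ‖c i j * χ i σ‖ ^ 2 := by
        intro i σ
        have e0 : v i σ = (∑ j, (c i j * χ i σ) • wS h j : H1s).1.1 :=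
          (coe_sum_fst Finset.univ (fun j => c i j * χ i σ) (wS h)).symm
        rw [e0, ← norm_iota, map_sum]
        simp only [map_smul]
        have e2 := (ortho_wS h).inner_sum (fun j => c i j * χ i σ) (fun j => c i j * χ i σ)
          Finset.univ
        rw [inner_self_eq_norm_sq_to_K] at e2
        apply Complex.ofReal_injective
        push_cast
        refine Eq.trans e2 (Finset.sum_congr rfl fun j _ => ?_)
        exact Complex.conj_mul' _
      simp only [Ntot, e]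
      rfl
    rw [hd, hNv, ← hn_def] at i3
    have k1 : (n - m) * (n + m) ≤ 36 * δ / g := by
      have : (n - m) * (n + m) ≤ (6 * δ / g) * 6 :=
        mul_le_mul hd1 (by linarith) (by linarith) (by positivity)
      have e : 36 * δ / g = (6 * δ / g) * 6 := by ring
      linarith
    have k2 : (1 + 1 / s) * M * ((n - m) * (n + m)) ≤ (1 + 1 / s) * M * (36 * δ / g) :=
      mul_le_mul_of_nonneg_left k1 (by positivity)
    have k3 := mul_le_mul_of_nonneg_left i1 (by positivity : (0 : ℝ) ≤ 1 + s)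
    have e : (1 + 1 / s) * M * (n - m) * (n + m) = (1 + 1 / s) * M * ((n - m) * (n + m)) := by ring
    rw [e] at i3
    have i4' : Um M W * ∑ j, detj (fun i σ j => c i j * χ i σ) j ≤ Jm M v := i4
    linarith

end Pool.Agent.MP_e62678_mp.H54
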