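import Pool.Agent.MP_e62678_mp.H54.Basic

/-! Dilations. -/

open MeasureTheory Filter Topology
open scoped ComplexConjugate

namespace Pool.Agent.MP_e62678_mp.H54

theorem scale_int {F : Type} [NormedAddCommGroup F] [NormedSpace ℝ F] (f : E3 → F) {s : ℝ}
    (hs : 0 < s) : ∫ x, f (s • x) = (s ^ 3)⁻¹ • ∫ x, f x := by
  have h := Measure.integral_comp_smul_of_nonneg (volume : Measure E3) f s (hR := hs.le)
  rwa [finrank_euclideanSpace_fin] at h

theorem scale_int2 (f : E3 × E3 → ℝ) {s : ℝ} (hs : 0 < s) :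
    ∫ p : E3 × E3, f (s • p) = (s ^ 6)⁻¹ * ∫ p, f p := by
  haveI : (volume : Measure (E3 × E3)).IsAddHaarMeasure :=
    Measure.prod.instIsAddHaarMeasure volume volume
  have h := Measure.integral_comp_smul_of_nonneg (volume : Measure (E3 × E3)) f s (hR := hs.le)
  rwa [Module.finrank_prod, finrank_euclideanSpace_fin] at h

theorem scale_memLp {u : E3 → ℂ} (hu : MemLp u 2 volume) {s : ℝ} (hs : 0 < s) (c : ℂ) :
    MemLp (fun x => c * u (s • x)) 2 volume := by
  have h1 : MemLp u 2 (Measure.map (fun x : E3 => s • x) volume) := by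
    rw [Measure.map_addHaar_smul volume hs.ne']
    exact hu.smul_measure ENNReal.ofReal_ne_top
  exact (h1.comp_of_map (measurable_const_smul s).aemeasurable).const_mul c

theorem scale_isH1 {u : E3 → ℂ} {g : Fin 3 → E3 → ℂ} (hu : IsH1 u g) {s : ℝ} (hs : 0 < s)
    (c : ℂ) : IsH1 (fun x => c * u (s • x)) (fun k x => c * s * g k (s • x)) where
  memL2 := scale_memLp hu.memL2 hs c
  gradL2 k := scale_memLp (hu.gradL2 k) hs _
  weak k φ hφ hc := by
    have hψ : ContDiff ℝ ((⊤ : ℕ∞) : WithTop ℕ∞) fun y : E3 => φ (s⁻¹ • y) :=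
      hφ.comp (contDiff_const_smul s⁻¹)
    have hψc : HasCompactSupport fun y : E3 => φ (s⁻¹ • y) :=
      hc.comp_smul (inv_ne_zero hs.ne')
    have hw := hu.weak k _ hψ hψc
    have hpd : ∀ y : E3, pd k (fun y : E3 => φ (s⁻¹ • y)) y = s⁻¹ * pd k φ (s⁻¹ • y) := by
      intro y
      unfold pd
      rw [fderiv_comp_smul]; rfl
    have hss : ∀ x : E3, s⁻¹ • s • x = x := fun x => inv_smul_smul₀ hs.ne' x
    have hsC : (s : ℂ) ≠ 0 := by exact_mod_cast hs.ne'
    have e1 := scale_int (fun y => ((pd k (fun y : E3 => φ (s⁻¹ • y)) y : ℝ) : ℂ) * u y) hs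
    have e2 := scale_int (fun y => ((φ (s⁻¹ • y) : ℝ) : ℂ) * g k y) hs
    simp only [hpd, hss] at e1 e2 hw
    have l1 : ∀ x, ((pd k φ x : ℝ) : ℂ) * (c * u (s • x)) =
        c * s * (((s⁻¹ * pd k φ x : ℝ) : ℂ) * u (s • x)) := by
      intro x; push_cast; field_simp
    have l2 : ∀ x, ((φ x : ℝ) : ℂ) * (c * s * g k (s • x)) =
        c * s * (((φ x : ℝ) : ℂ) * g k (s • x)) := by
      intro x; ring
    simp only [l1, l2]
    rw [integral_const_mul, integral_const_mul, e1, e2, hw, smul_neg, mul_neg]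

theorem exists_scale {N : ℕ} (U : Orbitals N) {s : ℝ} (hs : 0 < s) : ∃ V : Orbitals N,
    gram V = gram U ∧ (ProductForm U → ProductForm V) ∧
    (∀ i σ, kin (V.g i σ) = s ^ 2 * kin (U.g i σ)) ∧
    (∀ i σ a, cou a (V.u i σ) = s * cou (s • a) (U.u i σ)) ∧
    Iint V.u = s * Iint U.u := by
  obtain ⟨c, hc0, hc⟩ : ∃ c : ℝ, 0 < c ∧ c ^ 2 = s ^ 3 :=
    ⟨Real.sqrt (s ^ 3), Real.sqrt_pos.mpr (by positivity), Real.sq_sqrt (by positivity)⟩
  have hcC : (c : ℂ) ^ 2 = (s : ℂ) ^ 3 := by exact_mod_cast hc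
  have hsC : (s : ℂ) ≠ 0 := by exact_mod_cast hs.ne'
  have hn : ∀ z : ℂ, ‖(c : ℂ) * z‖ ^ 2 = s ^ 3 * ‖z‖ ^ 2 := by
    intro z; rw [norm_mul, mul_pow, Complex.norm_real, Real.norm_eq_abs, sq_abs, hc]
  have hd : ∀ x y : E3, ‖s • x - s • y‖ = s * ‖x - y‖ := by
    intro x y; rw [← smul_sub, norm_smul, Real.norm_eq_abs, abs_of_pos hs]
  refine ⟨⟨fun i σ x => c * U.u i σ (s • x), fun i σ k x => c * s * U.g i σ k (s • x),
    fun i σ => scale_isH1 (U.h1 i σ) hs c⟩, ?_, ?_, ?_, ?_, ?_⟩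
  · ext i j
    simp only [gram, Matrix.of_apply]
    refine Finset.sum_congr rfl fun σ _ => ?_
    have e := scale_int (fun y => conj (U.u i σ y) * U.u j σ y) hs
    have l : ∀ x, conj ((c : ℂ) * U.u i σ (s • x)) * (c * U.u j σ (s • x)) =
        (s : ℂ) ^ 3 * (conj (U.u i σ (s • x)) * U.u j σ (s • x)) := by
      intro x; rw [map_mul, Complex.conj_ofReal, ← hcC]; ring
    simp only [l]
    rw [integral_const_mul, e, Complex.real_smul]
    push_cast
    field_simp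
  · intro hP i
    obtain ⟨φ, gφ, χ, h1, h2⟩ := hP i
    refine ⟨_, _, χ, scale_isH1 h1 hs c, fun σ => ?_⟩
    have := (Measure.quasiMeasurePreserving_smul (volume : Measure E3) hs.ne').ae_eq_comp (h2 σ)
    filter_upwards [this] with x hx
    simp only [Function.comp] at hx
    simp only [hx]; ring
  · intro i σ
    simp only [kin, nrm, Finset.mul_sum]
    refine Finset.sum_congr rfl fun k _ => ?_
    have e := scale_int (fun y => ‖U.g i σ k y‖ ^ 2) hs
    have l : ∀ x, ‖(c : ℂ) * s * U.g i σ k (s • x)‖ ^ 2 =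
        s ^ 3 * s ^ 2 * ‖U.g i σ k (s • x)‖ ^ 2 := by
      intro x
      rw [mul_assoc, hn, norm_mul, mul_pow, Complex.norm_real, Real.norm_eq_abs, sq_abs]; ring
    simp only [l]
    rw [integral_const_mul, e, smul_eq_mul]
    field_simp
  · intro i σ a
    simp only [cou]
    have e := scale_int (fun y => ‖U.u i σ y‖ ^ 2 / ‖y - s • a‖) hs
    have l : ∀ x, ‖(c : ℂ) * U.u i σ (s • x)‖ ^ 2 / ‖x - a‖ =
        s ^ 3 * s * (‖U.u i σ (s • x)‖ ^ 2 / ‖s • x - s • a‖) := by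
      intro x
      rw [hn, hd]
      by_cases h : ‖x - a‖ = 0
      · simp [h]
      · field_simp
    simp only [l]
    rw [integral_const_mul, e, smul_eq_mul]
    field_simp
  · simp only [Iint]
    have e1 := scale_int2 (fun p => rho U.u p.1 * rho U.u p.2 / ‖p.1 - p.2‖) hs
    have e2 := scale_int2 (fun p => (∑ σ, ∑ τ, ‖gam U.u p.1 σ p.2 τ‖ ^ 2) / ‖p.1 - p.2‖) hs
    simp only [Prod.smul_fst, Prod.smul_snd] at e1 e2
    have r1 : ∀ x, rho (fun i σ x => (c : ℂ) * U.u i σ (s • x)) x = s ^ 3 * rho U.u (s • x) := by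
      intro x; simp only [rho, hn, Finset.mul_sum]
    have r2 : ∀ x σ y τ, ‖gam (fun i σ x => (c : ℂ) * U.u i σ (s • x)) x σ y τ‖ ^ 2 =
        s ^ 6 * ‖gam U.u (s • x) σ (s • y) τ‖ ^ 2 := by
      intro x σ y τ
      have : gam (fun i σ x => (c : ℂ) * U.u i σ (s • x)) x σ y τ =
          c * (c * gam U.u (s • x) σ (s • y) τ) := by
        simp only [gam, Finset.mul_sum]
        refine Finset.sum_congr rfl fun i _ => ?_
        rw [map_mul, Complex.conj_ofReal]; ring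
      rw [this, hn, hn]; ring
    have l1 : ∀ p : E3 × E3, s ^ 3 * rho U.u (s • p.1) * (s ^ 3 * rho U.u (s • p.2)) / ‖p.1 - p.2‖ =
        s ^ 6 * s * (rho U.u (s • p.1) * rho U.u (s • p.2) / ‖s • p.1 - s • p.2‖) := by
      intro p
      rw [hd]
      by_cases h : ‖p.1 - p.2‖ = 0
      · simp [h]
      · field_simp
    have l2 : ∀ p : E3 × E3, (∑ σ, ∑ τ, s ^ 6 * ‖gam U.u (s • p.1) σ (s • p.2) τ‖ ^ 2) / ‖p.1 - p.2‖ =
        s ^ 6 * s * ((∑ σ, ∑ τ, ‖gam U.u (s • p.1) σ (s • p.2) τ‖ ^ 2) / ‖s • p.1 - s • p.2‖) := by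
      intro p
      simp only [← Finset.mul_sum]
      rw [hd]
      by_cases h : ‖p.1 - p.2‖ = 0
      · simp [h]
      · field_simp
    simp only [r1, r2, l1, l2]
    rw [integral_const_mul (s ^ 6 * s), integral_const_mul (s ^ 6 * s), e1, e2]
    field_simp

end Pool.Agent.MP_e62678_mp.H54
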