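import Pool.Agent.MP_e62678_mp.H54.Lower
import Pool.Agent.MP_e62678_mp.H54.Scale

/-! The rescaled theorem and the physical theorem. -/

open MeasureTheory Filter Topology
open scoped ComplexConjugate ComplexOrder

namespace Pool.Agent.MP_e62678_mp.H54

theorem adm_of_gram {N : ℕ} {V : Orbitals N} (h : gram V = 1) : Admissible V := by
  unfold Admissible
  rw [h, sub_self]
  exact ⟨Matrix.PosSemidef.one, Matrix.PosSemidef.zero⟩

theorem scaled_main : ∃ L lam : ℝ, 0 < L ∧ 0 < lam ∧ ∃ V : Orbitals 3, gram V = 1 ∧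
    ∀ U : Orbitals 3, Admissible U → ProductForm U →
      onebody L V + lam * Iint V.u < onebody L U + lam * Iint U.u := by
  obtain ⟨δ0, hδ0, hfd⟩ := fd_lower
  obtain ⟨g, cU, hg, hcU, hw⟩ := wells_exist
  obtain ⟨s, hs_def⟩ : ∃ s : ℝ, s = 1 / 1000000 := ⟨_, rfl⟩
  have hs : 0 < s := by rw [hs_def]; positivity
  obtain ⟨M, hM_def⟩ : ∃ M : ℝ, M = max 1 (648 / (cU * s)) := ⟨_, rfl⟩
  have hM1 : 1 ≤ M := hM_def ▸ le_max_left _ _
  have hM : 0 < M := by linarith
  have hM2 : 648 / M ≤ cU * s := by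
    rw [div_le_iff₀ hM]
    have : 648 / (cU * s) ≤ M := hM_def ▸ le_max_right _ _
    rw [div_le_iff₀ (by positivity)] at this
    linarith
  have ev : ∀ a b : ℝ, 0 < b → ∀ᶠ δ in 𝓝[>] (0 : ℝ), a * δ ≤ b := by
    intro a b hb
    have : Tendsto (fun δ : ℝ => a * δ) (𝓝 0) (𝓝 (a * 0)) :=
      (continuous_const.mul continuous_id).tendsto 0
    rw [mul_zero] at this
    exact (this.eventually (ge_mem_nhds hb)).filter_mono nhdsWithin_le_nhds
  obtain ⟨δ, ⟨⟨⟨⟨⟨d1, d2⟩, d3⟩, d4⟩, d5⟩, d6⟩, hδ⟩ :=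
    (((((((ev 1 (1 / 8) (by norm_num)).and (ev 8 g hg)).and (ev (24 + 6 / g) δ0 hδ0)).and
      (ev ((1 + 1 / s) * M * (108 / g)) (cU * s) (by positivity))).and
      (ev 9 (cU * s) (by positivity))).and (ev (6 / g) s hs)).and self_mem_nhdsWithin).exists
  have hδ : 0 < δ := hδ
  obtain ⟨L, W, h⟩ := hw δ hδ
  obtain ⟨E0, E1, h01, hE, hlow, hnear⟩ := wells_sector h hg hδ (by linarith) d2
  obtain ⟨τ, hτ_def⟩ : ∃ τ : ℝ, τ = E1 - E0 := ⟨_, rfl⟩
  have hτ : 0 < τ := by linarith
  have hUm := h.rep M hM1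
  obtain ⟨Uu, hUu_def⟩ : ∃ Uu : ℝ, Uu = Um M W := ⟨_, rfl⟩
  rw [← hUu_def] at hUm
  have hUu : 0 < Uu := by linarith
  have hε : 0 < min δ (τ * s) := lt_min hδ (by positivity)
  obtain ⟨a, ha, q0, q1, q2, hd⟩ := hnear _ hε (min_le_left _ _)
  obtain ⟨V, hV, v1, v2⟩ := trial_exists h hδ (by linarith) h01 hE (min_le_left _ _) a ha q0 q1 q2
    hd hM hs
  rw [← hUu_def] at v2
  rw [← hτ_def] at v1
  obtain ⟨lam, hlam_def⟩ : ∃ lam : ℝ, lam = 20 * τ / Uu := ⟨_, rfl⟩
  have hlam : 0 < lam := by rw [hlam_def]; positivity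
  have hlU : lam * Uu = 20 * τ := by
    rw [hlam_def]
    field_simp
  have hlc : lam * (cU * s) ≤ 20 * τ * s := by
    have : lam * cU ≤ lam * Uu := mul_le_mul_of_nonneg_left hUm hlam.le
    nlinarith
  have e108 : (1 + 1 / s) * M * (108 * δ / g) ≤ cU * s := by
    have : (1 + 1 / s) * M * (108 * δ / g) = (1 + 1 / s) * M * (108 / g) * δ := by ring
    linarith
  have e36 : (1 + 1 / s) * M * (36 * δ / g) ≤ cU * s := by
    have : (1 + 1 / s) * M * (36 * δ / g) * 3 = (1 + 1 / s) * M * (108 * δ / g) := by ring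
    have h0 : 0 ≤ (1 + 1 / s) * M * (36 * δ / g) := by positivity
    linarith
  have e6 : 6 * δ / g ≤ s := by
    have : 6 * δ / g = 6 / g * δ := by ring
    linarith
  have hup : onebody L V + lam * Iint V.u ≤ 3 * E1 - 20 * τ * (51240 / 1000000) := by
    have k1 : Iint V.u ≤ (1 + s) * (Uu * (3 / 4 - (840 / 841 + 1 / 2) ^ 2 / 3)) + 3 * (cU * s) := by
      have : (1 + s) * (9 / 2 * δ) ≤ cU * s := by
        have : (1 + s) * (9 / 2 * δ) ≤ 2 * (9 / 2 * δ) :=
          mul_le_mul_of_nonneg_right (by rw [hs_def]; norm_num) (by positivity)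
        linarith
      linarith
    have k2 := mul_le_mul_of_nonneg_left k1 hlam.le
    have k3 : lam * ((1 + s) * (Uu * (3 / 4 - (840 / 841 + 1 / 2) ^ 2 / 3)) + 3 * (cU * s)) =
        (1 + s) * (lam * Uu) * (3 / 4 - (840 / 841 + 1 / 2) ^ 2 / 3) + 3 * (lam * (cU * s)) := by
      ring
    rw [k3, hlU] at k2
    have k4 : min δ (τ * s) ≤ τ * s := min_le_right _ _
    generalize min δ (τ * s) = ε at v1 k4
    rw [hs_def] at k2 k4 hlc
    linarith
  refine ⟨L, lam, h.Lpos, hlam, V, hV, fun U hU hP => ?_⟩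
  by_contra hcon
  have hcon : onebody L U + lam * Iint U.u ≤ onebody L V + lam * Iint V.u := not_lt.1 hcon
  have hI0 : 0 ≤ Iint U.u := (Jm_nonneg hM U.u).trans (Jm_le_Iint U hM)
  have hI1 : 0 ≤ lam * Iint U.u := by positivity
  have hq : onebody L U ≤ -3 / 4 + 3 * δ := by linarith
  obtain ⟨X, D, hX, hb, l1, l2⟩ := product_lower h hg hδ (by linarith) h01 hE hlow hfd
    (by
      have : (24 + 6 / g) * δ = 24 * δ + 6 * δ / g := by ring
      linarith) hM hs U hU hP hq
  rw [← hUu_def] at l2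
  rw [← hτ_def] at l1
  have k1 := mul_le_mul_of_nonneg_left l2 hlam.le
  have k2 : lam * (Uu * D - (1 + 1 / s) * M * (36 * δ / g)) =
      20 * τ * D - lam * ((1 + 1 / s) * M * (36 * δ / g)) := by
    rw [← hlU]
    ring
  have k3 := mul_le_mul_of_nonneg_left e36 hlam.le
  have k4 : τ * (6 * δ / g) ≤ τ * s := mul_le_mul_of_nonneg_left e6 hτ.le
  have k5 : τ * X ≤ τ * 9 := mul_le_mul_of_nonneg_left hX hτ.le
  have k6 := mul_le_mul_of_nonneg_left hb hτ.le
  rw [k2] at k1
  rw [hs_def] at k1 k3 k4 hlc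
  have k7 : lam * ((1 + 1 / 1000000) * Iint U.u) = (1 + 1 / 1000000) * (lam * Iint U.u) := by ring
  rw [k7] at k1
  have k8 : τ * (X / 3 + 6 * δ / g) = τ * X / 3 + τ * (6 * δ / g) := by ring
  rw [k8] at l1
  have k9 : τ * (-(1 / 60) * X + D) = -(1 / 60) * (τ * X) + τ * D := by ring
  rw [k9] at k6
  linarith

theorem energy_eq {N : ℕ} (z : ℝ) (R : Fin 3 → E3) (U : Orbitals N) :
    energy (fun _ => z) R U =
      (∑ i, ∑ σ, (kin (U.g i σ) - z * ∑ j, cou (R j) (U.u i σ))) + Iint U.u := by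
  have e : ∀ i σ, ∫ x, pot (fun _ => z) R x * ‖U.u i σ x‖ ^ 2 =
      -(z * ∑ j, cou (R j) (U.u i σ)) := by
    intro i σ
    unfold cou
    rw [← integral_finsetSum _ fun j _ => (U.h1 i σ).integrable_cou (R j), ← integral_const_mul,
      ← integral_neg]
    refine integral_congr_ae (Eventually.of_forall fun x => ?_)
    simp only [pot, Fin.sum_univ_three]
    ring
  unfold energy Iint
  simp only [e, sub_eq_add_neg, add_assoc]
  rfl

theorem main : ∃ (z : Fin 3 → ℝ) (R : Fin 3 → E3), (∀ j, 0 < z j) ∧ Function.Injective R ∧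
    ∃ V : Orbitals 3, Admissible V ∧ ∀ U : Orbitals 3, Admissible U → ProductForm U →
      energy z R V < energy z R U := by
  obtain ⟨L, lam, hL, hlam, V, hV, hmain⟩ := scaled_main
  have hz : 0 < 1 / lam := by positivity
  obtain ⟨V', g1, -, k1, c1, i1⟩ := exists_scale V hz
  have hsite : ∀ (a b : ℝ) (j : Fin 3), a • site b j = site (a * b) j := by
    intro a b j
    ext k
    by_cases hk : k = j <;> simp [site, hk]
  refine ⟨fun _ => 1 / lam, site (lam * L), fun _ => hz, ?_, V', adm_of_gram (g1.trans hV), ?_⟩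
  · intro j k hjk
    by_contra hne
    have := norm_site_sub (lam * L) hne
    rw [hjk, sub_self, norm_zero] at this
    have : 0 < (lam * L) ^ 2 := by positivity
    linarith
  · intro U hU hP
    obtain ⟨U', g2, p2, k2, c2, i2⟩ := exists_scale U hlam
    have hU' : Admissible U' := by
      unfold Admissible
      rw [g2]
      exact hU
    have h := hmain U' hU' (p2 hP)
    have eV : energy (fun _ => 1 / lam) (site (lam * L)) V' =
        (1 / lam) ^ 2 * (onebody L V + lam * Iint V.u) := by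
      rw [energy_eq, i1]
      have e : 1 / lam * (lam * L) = L := by field_simp
      simp only [k1, c1, hsite, e, onebody, qf, Fin.sum_univ_three, Fin.sum_univ_two]
      field_simp
    have eU : energy (fun _ => 1 / lam) (site (lam * L)) U =
        (1 / lam) ^ 2 * (onebody L U' + lam * Iint U'.u) := by
      rw [energy_eq, i2]
      simp only [k2, c2, hsite, onebody, qf, Fin.sum_univ_three, Fin.sum_univ_two]
      field_simp
    rw [eV, eU]
    exact mul_lt_mul_of_pos_left h (by positivity)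

end Pool.Agent.MP_e62678_mp.H54
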