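import Pool.Agent.MP_e62678_mp.H54.Basic

/-! A Poincaré inequality for the weight `exp (-|x|)` on `ℝ³`. -/

open MeasureTheory Filter Topology
open scoped ComplexConjugate ENNReal

namespace Pool.Agent.MP_e62678_mp.H54

/-- Squared length of the gradient. -/
noncomputable def poinD (f : E3 → ℂ) (z : E3) : ℝ := ∑ k, ‖pd k f z‖ ^ 2

theorem poinD_nonneg (f : E3 → ℂ) (z : E3) : 0 ≤ poinD f z :=
  Finset.sum_nonneg fun _ _ => by positivity

theorem poinD_continuous {f : E3 → ℂ} (hf : Nice f) : Continuous (poinD f) :=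
  continuous_finsetSum _ fun k _ => (hf.continuous_pd k).norm.pow 2

theorem poin_fderiv_le (f : E3 → ℂ) (z v : E3) :
    ‖fderiv ℝ f z v‖ ^ 2 ≤ ‖v‖ ^ 2 * poinD f z := by
  have hv : v = ∑ k, v k • EuclideanSpace.single k (1 : ℝ) := by
    ext j
    simp [Finset.sum_apply, Pi.single_apply]
  have h1 : fderiv ℝ f z v = ∑ k, v k • pd k f z := by
    conv_lhs => rw [hv]
    simp only [map_sum, map_smul, pd]
  have h2 : ‖fderiv ℝ f z v‖ ≤ ∑ k, ‖v k‖ * ‖pd k f z‖ := by
    rw [h1]
    refine (norm_sum_le _ _).trans (le_of_eq ?_)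
    simp only [norm_smul]
  have h3 := Finset.sum_mul_sq_le_sq_mul_sq Finset.univ (fun k => ‖v k‖) fun k => ‖pd k f z‖
  rw [EuclideanSpace.norm_sq_eq v]
  exact (pow_le_pow_left₀ (norm_nonneg _) h2 2).trans h3

theorem poin_seg {f : E3 → ℂ} (hf : Nice f) (y v : E3) {a b : ℝ} (hab : a ≤ b) :
    ‖f (y + b • v) - f (y + a • v)‖ ≤ ∫ t in a..b, ‖fderiv ℝ f (y + t • v) v‖ := by
  have hc : Continuous (fderiv ℝ f) := hf.1.continuous_fderiv one_ne_zero
  have hd : ∀ t : ℝ, HasDerivAt (fun t : ℝ => f (y + t • v)) (fderiv ℝ f (y + t • v) v) t := by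
    intro t
    have h1 : HasDerivAt (fun t : ℝ => y + t • v) v t := by
      simpa using ((hasDerivAt_id t).smul_const v).const_add y
    exact (hf.1.differentiable one_ne_zero (y + t • v)).hasFDerivAt.comp_hasDerivAt t h1
  have hi : Continuous fun t : ℝ => fderiv ℝ f (y + t • v) v := by fun_prop
  rw [← intervalIntegral.integral_eq_sub_of_hasDerivAt (fun t _ => hd t)
    (hi.intervalIntegrable a b)]
  exact intervalIntegral.norm_integral_le_integral_norm hab

theorem poin_cs {u n : ℝ → ℝ} (hu : Continuous u) (hn : Continuous n) (hn0 : ∀ t, 0 < n t)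
    {a b : ℝ} (hab : a ≤ b) :
    (∫ t in a..b, u t) ^ 2 ≤ (∫ t in a..b, n t) * ∫ t in a..b, u t ^ 2 / n t := by
  have hq : Continuous fun t => u t ^ 2 / n t := (hu.pow 2).div hn fun t => (hn0 t).ne'
  have h := discrim_le_zero (a := ∫ t in a..b, n t) (b := -2 * ∫ t in a..b, u t)
    (c := ∫ t in a..b, u t ^ 2 / n t) fun κ => by
      have h1 : 0 ≤ ∫ t in a..b, (κ * κ * n t + -2 * κ * u t + u t ^ 2 / n t) := by
        refine intervalIntegral.integral_nonneg hab fun t _ => ?_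
        have h2 : κ * κ * n t + -2 * κ * u t + u t ^ 2 / n t = (κ * n t - u t) ^ 2 / n t := by
          have := (hn0 t).ne'
          field_simp
          ring
        rw [h2]
        exact div_nonneg (sq_nonneg _) (hn0 t).le
      rw [intervalIntegral.integral_add (Continuous.intervalIntegrable (by fun_prop) _ _)
          (hq.intervalIntegrable _ _),
        intervalIntegral.integral_add (Continuous.intervalIntegrable (by fun_prop) _ _)
          (Continuous.intervalIntegrable (by fun_prop) _ _),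
        intervalIntegral.integral_const_mul, intervalIntegral.integral_const_mul] at h1
      linarith
  rw [discrim] at h
  nlinarith

theorem poin_J {a : ℝ} : ∫ t in (1 / 3 : ℝ)..1, a * Real.exp (-(1 - t) * a / 2) ≤ 2 := by
  have hd : ∀ t : ℝ, HasDerivAt (fun t : ℝ => 2 * Real.exp (-(1 - t) * a / 2))
      (a * Real.exp (-(1 - t) * a / 2)) t := by
    intro t
    have h1 : HasDerivAt (fun t : ℝ => -(1 - t) * a / 2) (a / 2) t := by
      simpa using ((((hasDerivAt_id t).const_sub 1).neg).mul_const a).div_const 2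
    have h2 := h1.exp.const_mul 2
    have h3 : 2 * (Real.exp (-(1 - t) * a / 2) * (a / 2)) = a * Real.exp (-(1 - t) * a / 2) := by
      ring
    exact h3 ▸ h2
  rw [intervalIntegral.integral_eq_sub_of_hasDerivAt (fun t _ => hd t)
    (Continuous.intervalIntegrable (by fun_prop) _ _)]
  have := Real.exp_pos (-(1 - 1 / 3) * a / 2)
  simp only [sub_self, neg_zero, zero_mul, zero_div, Real.exp_zero]
  linarith

/-- The kernel of the dilation step. -/
noncomputable def poinK (f : E3 → ℂ) (t : ℝ) (z : E3) : ℝ :=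
  6 * (poinD f z * Real.exp (-‖z‖)) * (‖z‖ * Real.exp (-(1 - t) * ‖z‖ / 2))

theorem poinK_nonneg (f : E3 → ℂ) (t : ℝ) (z : E3) : 0 ≤ poinK f t z := by
  have := poinD_nonneg f z
  unfold poinK
  positivity

theorem poinK_continuous {f : E3 → ℂ} (hf : Nice f) :
    Continuous fun p : ℝ × E3 => poinK f p.1 p.2 := by
  have := poinD_continuous hf
  unfold poinK
  fun_prop

theorem poin_pt1 {f : E3 → ℂ} (hf : Nice f) (x : E3) :
    ‖f x - f ((1 / 3 : ℝ) • x)‖ ^ 2 * Real.exp (-‖x‖) ≤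
      ∫ t in (1 / 3 : ℝ)..1, poinK f t (t • x) := by
  have h13 : (1 / 3 : ℝ) ≤ 1 := by norm_num
  rcases eq_or_ne x 0 with rfl | hx
  · simp [poinK]
  have ha : 0 < ‖x‖ := norm_pos_iff.2 hx
  have hc : Continuous (fderiv ℝ f) := hf.1.continuous_fderiv one_ne_zero
  have hD := poinD_continuous hf
  have hK := poinK_continuous hf
  have h1 := poin_seg hf 0 x h13
  simp only [zero_add, one_smul] at h1
  have hu : Continuous fun t : ℝ => ‖fderiv ℝ f (t • x) x‖ := by fun_prop
  have hn : Continuous fun t : ℝ => ‖x‖ * Real.exp (-(1 - t) * ‖x‖ / 2) := by fun_prop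
  have hn0 : ∀ t : ℝ, 0 < ‖x‖ * Real.exp (-(1 - t) * ‖x‖ / 2) := fun t => by positivity
  have h2 := poin_cs hu hn hn0 h13
  have h3 : 0 ≤ ∫ t in (1 / 3 : ℝ)..1,
      ‖fderiv ℝ f (t • x) x‖ ^ 2 / (‖x‖ * Real.exp (-(1 - t) * ‖x‖ / 2)) :=
    intervalIntegral.integral_nonneg h13 fun t _ => by positivity
  have h4 : ‖f x - f ((1 / 3 : ℝ) • x)‖ ^ 2 ≤ 2 * ∫ t in (1 / 3 : ℝ)..1,
      ‖fderiv ℝ f (t • x) x‖ ^ 2 / (‖x‖ * Real.exp (-(1 - t) * ‖x‖ / 2)) :=
    ((pow_le_pow_left₀ (norm_nonneg _) h1 2).trans h2).trans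
      (mul_le_mul_of_nonneg_right poin_J h3)
  refine (mul_le_mul_of_nonneg_right h4 (Real.exp_pos _).le).trans ?_
  rw [← intervalIntegral.integral_const_mul, ← intervalIntegral.integral_mul_const]
  refine intervalIntegral.integral_mono_on h13 (Continuous.intervalIntegrable ?_ _ _)
    (Continuous.intervalIntegrable (by fun_prop) _ _) fun t ht => ?_
  · exact (((hu.pow 2).div hn fun t => (hn0 t).ne').const_mul 2).mul_const _
  · obtain ⟨ht1, ht2⟩ := ht
    have hz : ‖t • x‖ = t * ‖x‖ := by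
      rw [norm_smul, Real.norm_eq_abs, abs_of_nonneg (by linarith)]
    have h5 := poin_fderiv_le f (t • x) x
    have h6 := poinD_nonneg f (t • x)
    unfold poinK
    rw [hz]
    set a := ‖x‖
    set D := poinD f (t • x)
    have e1 : Real.exp (-a) = Real.exp (-(t * a)) * Real.exp (-(1 - t) * a / 2) *
        Real.exp (-(1 - t) * a / 2) := by
      rw [← Real.exp_add, ← Real.exp_add]; congr 1; ring
    have e2 : Real.exp (-(1 - t) * a / 2) ≤ Real.exp (-(1 - t) * (t * a) / 2) := by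
      rw [Real.exp_le_exp]
      have : 0 ≤ (1 - t) * ((1 - t) * a) := by
        have : 0 ≤ 1 - t := by linarith
        positivity
      nlinarith
    have e3 := Real.exp_pos (-(1 - t) * a / 2)
    calc 2 * (‖fderiv ℝ f (t • x) x‖ ^ 2 / (a * Real.exp (-(1 - t) * a / 2))) * Real.exp (-a)
        ≤ 2 * (a ^ 2 * D / (a * Real.exp (-(1 - t) * a / 2))) * Real.exp (-a) := by gcongr
      _ = 2 * (D * Real.exp (-(t * a))) * (a * Real.exp (-(1 - t) * a / 2)) := by
        rw [e1]; field_simp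
      _ ≤ 2 * (D * Real.exp (-(t * a))) * ((3 * (t * a)) * Real.exp (-(1 - t) * (t * a) / 2)) := by
        gcongr
        nlinarith
      _ = _ := by ring

theorem poin_pt2 {f : E3 → ℂ} (hf : Nice f) (y v : E3) (hy : ‖y‖ ≤ 1) :
    ‖f (y + v) - f y‖ ^ 2 * Real.exp (-3 * ‖y + v‖) ≤
      ∫ t in (0 : ℝ)..1, 2 * Real.exp 3 * Real.exp (-‖v‖) *
        (poinD f (y + t • v) * Real.exp (-‖y + t • v‖)) := by
  have hc : Continuous (fderiv ℝ f) := hf.1.continuous_fderiv one_ne_zero
  have hD := poinD_continuous hf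
  have h1 := poin_seg hf y v zero_le_one
  simp only [one_smul, zero_smul, add_zero] at h1
  have hu : Continuous fun t : ℝ => ‖fderiv ℝ f (y + t • v) v‖ := by fun_prop
  have h2 := poin_cs (n := fun _ => 1) hu continuous_const (fun _ => one_pos) zero_le_one
  simp only [intervalIntegral.integral_const, sub_zero, smul_eq_mul, mul_one, one_mul,
    div_one] at h2
  have h4 := (pow_le_pow_left₀ (norm_nonneg _) h1 2).trans h2
  refine (mul_le_mul_of_nonneg_right h4 (Real.exp_pos _).le).trans ?_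
  rw [← intervalIntegral.integral_mul_const]
  refine intervalIntegral.integral_mono_on zero_le_one
    (Continuous.intervalIntegrable (by fun_prop) _ _)
    (Continuous.intervalIntegrable (by fun_prop) _ _) fun t ht => ?_
  obtain ⟨ht0, ht1⟩ := ht
  have h5 := poin_fderiv_le f (y + t • v) v
  have h6 := poinD_nonneg f (y + t • v)
  have hv : ‖v‖ ≤ ‖y + v‖ + 1 := by
    calc ‖v‖ = ‖(y + v) - y‖ := by simp
      _ ≤ ‖y + v‖ + ‖y‖ := norm_sub_le _ _
      _ ≤ _ := by linarith
  have hz : ‖y + t • v‖ ≤ ‖y + v‖ + 1 := by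
    have e : y + t • v = t • (y + v) + (1 - t) • y := by
      rw [smul_add, sub_smul, one_smul]; abel
    rw [e]
    refine (norm_add_le _ _).trans ?_
    rw [norm_smul, norm_smul, Real.norm_eq_abs, Real.norm_eq_abs, abs_of_nonneg ht0,
      abs_of_nonneg (by linarith)]
    nlinarith [norm_nonneg (y + v), norm_nonneg y]
  have e1 : Real.exp (-3 * ‖y + v‖) ≤
      Real.exp 3 * Real.exp (-‖v‖) * Real.exp (-‖v‖) * Real.exp (-‖y + t • v‖) := by
    rw [← Real.exp_add, ← Real.exp_add, ← Real.exp_add, Real.exp_le_exp]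
    linarith
  have e2 : ‖v‖ ^ 2 * Real.exp (-‖v‖) ≤ 2 := by
    have := Real.quadratic_le_exp_of_nonneg (norm_nonneg v)
    rw [Real.exp_neg, ← div_eq_mul_inv, div_le_iff₀ (Real.exp_pos _)]
    nlinarith [norm_nonneg v]
  calc ‖fderiv ℝ f (y + t • v) v‖ ^ 2 * Real.exp (-3 * ‖y + v‖)
      ≤ (‖v‖ ^ 2 * poinD f (y + t • v)) *
        (Real.exp 3 * Real.exp (-‖v‖) * Real.exp (-‖v‖) * Real.exp (-‖y + t • v‖)) := by gcongr
    _ = (‖v‖ ^ 2 * Real.exp (-‖v‖)) * (Real.exp 3 * Real.exp (-‖v‖) *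
        (poinD f (y + t • v) * Real.exp (-‖y + t • v‖))) := by ring
    _ ≤ 2 * (Real.exp 3 * Real.exp (-‖v‖) *
        (poinD f (y + t • v) * Real.exp (-‖y + t • v‖))) := by gcongr
    _ = _ := by ring

theorem poin_ofReal {k : ℝ → ℝ} (hk : Continuous k) (h0 : ∀ t, 0 ≤ k t) {a b : ℝ} (hab : a ≤ b) :
    ENNReal.ofReal (∫ t in a..b, k t) = ∫⁻ t in Set.Ioc a b, ENNReal.ofReal (k t) := by
  rw [intervalIntegral.integral_of_le hab]
  exact ofReal_integral_eq_lintegral_ofReal (hk.integrableOn_Ioc) (ae_of_all _ h0)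

theorem poin_dil {F : E3 → ℝ≥0∞} (hF : Measurable F) {t : ℝ} (ht : 1 / 3 ≤ t) :
    ∫⁻ x, F (t • x) ≤ 27 * ∫⁻ z, F z := by
  have ht0 : 0 < t := by linarith
  rw [← lintegral_map hF (measurable_const_smul t), Measure.map_addHaar_smul volume ht0.ne',
    lintegral_smul_measure, smul_eq_mul]
  gcongr
  have h1 : |(t ^ Module.finrank ℝ E3)⁻¹| ≤ 27 := by
    rw [finrank_euclideanSpace_fin, abs_of_pos (by positivity), inv_le_comm₀ (by positivity)
      (by norm_num)]
    calc (27 : ℝ)⁻¹ = (1 / 3) ^ 3 := by norm_num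
      _ ≤ t ^ 3 := by gcongr
  calc ENNReal.ofReal _ ≤ ENNReal.ofReal 27 := ENNReal.ofReal_le_ofReal h1
    _ = 27 := by norm_num

/-- The weighted Dirichlet integral. -/
noncomputable def poinG (f : E3 → ℂ) : ℝ≥0∞ :=
  ∫⁻ z, ENNReal.ofReal (poinD f z * Real.exp (-‖z‖))

theorem poin_step1 {f : E3 → ℂ} (hf : Nice f) :
    ∫⁻ x, ENNReal.ofReal (‖f x - f ((1 / 3 : ℝ) • x)‖ ^ 2 * Real.exp (-‖x‖)) ≤
      324 * poinG f := by
  have h13 : (1 / 3 : ℝ) ≤ 1 := by norm_num
  have hK := poinK_continuous hf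
  have hD := poinD_continuous hf
  calc ∫⁻ x, ENNReal.ofReal (‖f x - f ((1 / 3 : ℝ) • x)‖ ^ 2 * Real.exp (-‖x‖))
      ≤ ∫⁻ x, ∫⁻ t in Set.Ioc (1 / 3 : ℝ) 1, ENNReal.ofReal (poinK f t (t • x)) := by
        refine lintegral_mono fun x => ?_
        rw [← poin_ofReal (k := fun t => poinK f t (t • x))
          (hK.comp (f := fun t : ℝ => (t, t • x)) (by fun_prop))
          (fun t => poinK_nonneg f t _) h13]
        exact ENNReal.ofReal_le_ofReal (poin_pt1 hf x)
    _ = ∫⁻ t in Set.Ioc (1 / 3 : ℝ) 1, ∫⁻ x, ENNReal.ofReal (poinK f t (t • x)) := by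
        refine lintegral_lintegral_swap (Measurable.aemeasurable ?_)
        exact (hK.comp (f := fun p : E3 × ℝ => (p.2, p.2 • p.1))
          (by fun_prop)).measurable.ennreal_ofReal
    _ ≤ ∫⁻ t in Set.Ioc (1 / 3 : ℝ) 1, 27 * ∫⁻ z, ENNReal.ofReal (poinK f t z) := by
        refine setLIntegral_mono' measurableSet_Ioc fun t ht => ?_
        exact poin_dil (F := fun z => ENNReal.ofReal (poinK f t z))
          (hK.comp (f := fun z : E3 => (t, z)) (by fun_prop)).measurable.ennreal_ofReal ht.1.le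
    _ = 27 * ∫⁻ z, ∫⁻ t in Set.Ioc (1 / 3 : ℝ) 1, ENNReal.ofReal (poinK f t z) := by
        rw [lintegral_const_mul' _ _ (by norm_num)]
        congr 1
        exact lintegral_lintegral_swap hK.measurable.ennreal_ofReal.aemeasurable
    _ ≤ 27 * ∫⁻ z, 12 * ENNReal.ofReal (poinD f z * Real.exp (-‖z‖)) := by
        gcongr with z
        rw [← poin_ofReal (k := fun t => poinK f t z)
          (hK.comp (f := fun t : ℝ => (t, z)) (by fun_prop))
          (fun t => poinK_nonneg f t _) h13]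
        have h0 : 0 ≤ poinD f z * Real.exp (-‖z‖) :=
          mul_nonneg (poinD_nonneg f z) (Real.exp_pos _).le
        have h1 : ∫ t in (1 / 3 : ℝ)..1, poinK f t z ≤ 12 * (poinD f z * Real.exp (-‖z‖)) := by
          unfold poinK
          rw [intervalIntegral.integral_const_mul]
          nlinarith [poin_J (a := ‖z‖)]
        refine (ENNReal.ofReal_le_ofReal h1).trans (le_of_eq ?_)
        rw [ENNReal.ofReal_mul (by norm_num)]
        norm_num
    _ = 324 * poinG f := by
        rw [lintegral_const_mul' _ _ (by norm_num), ← mul_assoc, poinG]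
        norm_num

/-- The constant of the second step. -/
noncomputable def poinA : ℝ≥0∞ := ∫⁻ v : E3, ENNReal.ofReal (2 * Real.exp 3 * Real.exp (-‖v‖))

theorem poinA_ne_top : poinA ≠ ∞ :=
  ((integrable_exp_neg_norm.const_mul (2 * Real.exp 3)).lintegral_lt_top).ne

theorem poin_step2 {f : E3 → ℂ} (hf : Nice f) : ∃ c : ℂ,
    ∫⁻ x, ENNReal.ofReal (‖f x - c‖ ^ 2 * Real.exp (-3 * ‖x‖)) ≤
      poinA / volume (Metric.ball (0 : E3) 1) * poinG f := by
  have hD := poinD_continuous hf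
  have hfc := hf.1.continuous
  have hm : Measurable fun y : E3 =>
      ∫⁻ x, ENNReal.ofReal (‖f x - f y‖ ^ 2 * Real.exp (-3 * ‖x‖)) := by
    refine Measurable.lintegral_prod_right' (f := fun p : E3 × E3 =>
      ENNReal.ofReal (‖f p.2 - f p.1‖ ^ 2 * Real.exp (-3 * ‖p.2‖))) ?_
    exact Measurable.ennreal_ofReal (Continuous.measurable (by fun_prop))
  obtain ⟨y, -, hy⟩ := exists_le_setLAverage (μ := volume) (s := Metric.ball (0 : E3) 1)
    (Metric.measure_ball_pos volume 0 one_pos).ne' measure_ball_lt_top.ne hm.aemeasurable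
  refine ⟨f y, hy.trans ?_⟩
  rw [setLAverage_eq, div_eq_mul_inv, div_eq_mul_inv, mul_right_comm]
  gcongr
  set k : E3 → E3 → ℝ → ℝ := fun y v t => 2 * Real.exp 3 * Real.exp (-‖v‖) *
    (poinD f (y + t • v) * Real.exp (-‖y + t • v‖)) with hk
  have hkc : Continuous fun p : E3 × E3 × ℝ => k p.1 p.2.1 p.2.2 := by
    simp only [hk]
    fun_prop
  have hk0 : ∀ y v t, 0 ≤ k y v t := fun y v t => by
    have := poinD_nonneg f (y + t • v)
    simp only [hk]
    positivity
  calc ∫⁻ y in Metric.ball (0 : E3) 1,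
        ∫⁻ x, ENNReal.ofReal (‖f x - f y‖ ^ 2 * Real.exp (-3 * ‖x‖))
      ≤ ∫⁻ y in Metric.ball (0 : E3) 1, ∫⁻ v, ∫⁻ t in Set.Ioc (0 : ℝ) 1,
          ENNReal.ofReal (k y v t) := by
        refine setLIntegral_mono' measurableSet_ball fun y hy => ?_
        rw [← lintegral_add_left_eq_self _ y]
        refine lintegral_mono fun v => ?_
        rw [← poin_ofReal (k := fun t => k y v t)
          (hkc.comp (f := fun t : ℝ => (y, v, t)) (by fun_prop))
          (fun t => hk0 y v t) zero_le_one]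
        exact ENNReal.ofReal_le_ofReal (poin_pt2 hf y v (mem_ball_zero_iff.1 hy).le)
    _ ≤ ∫⁻ y, ∫⁻ v, ∫⁻ t in Set.Ioc (0 : ℝ) 1, ENNReal.ofReal (k y v t) :=
        setLIntegral_le_lintegral _ _
    _ = ∫⁻ v, ∫⁻ y, ∫⁻ t in Set.Ioc (0 : ℝ) 1, ENNReal.ofReal (k y v t) := by
        refine lintegral_lintegral_swap (Measurable.aemeasurable ?_)
        refine Measurable.lintegral_prod_right' (f := fun p : (E3 × E3) × ℝ =>
          ENNReal.ofReal (k p.1.1 p.1.2 p.2)) ?_
        exact (hkc.comp (f := fun p : (E3 × E3) × ℝ => (p.1.1, p.1.2, p.2))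
          (by fun_prop)).measurable.ennreal_ofReal
    _ = ∫⁻ v : E3, ENNReal.ofReal (2 * Real.exp 3 * Real.exp (-‖v‖)) * poinG f := by
        refine lintegral_congr fun v => ?_
        rw [lintegral_lintegral_swap (Measurable.aemeasurable
          (hkc.comp (f := fun p : E3 × ℝ => (p.1, v, p.2))
            (by fun_prop)).measurable.ennreal_ofReal)]
        have h1 : ∀ t : ℝ, ∫⁻ y, ENNReal.ofReal (k y v t) =
            ENNReal.ofReal (2 * Real.exp 3 * Real.exp (-‖v‖)) * poinG f := by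
          intro t
          simp only [hk]
          simp_rw [ENNReal.ofReal_mul (p := 2 * Real.exp 3 * Real.exp (-‖v‖)) (by positivity)]
          rw [lintegral_const_mul' _ _ ENNReal.ofReal_ne_top, poinG]
          congr 1
          exact lintegral_add_right_eq_self
            (fun z => ENNReal.ofReal (poinD f z * Real.exp (-‖z‖))) (t • v)
        simp [h1]
    _ = poinA * poinG f := by
        rw [poinA, lintegral_mul_const]
        exact Measurable.ennreal_ofReal (Continuous.measurable (by fun_prop))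

theorem poinG_eq {f : E3 → ℂ} (hf : Nice f) :
    poinG f = ENNReal.ofReal (∑ k, ∫ x, ‖pd k f x‖ ^ 2 * Real.exp (-‖x‖)) := by
  have hi : ∀ k, Integrable fun x => ‖pd k f x‖ ^ 2 * Real.exp (-‖x‖) := by
    intro k
    have hc := hf.continuous_pd k
    refine Continuous.integrable_of_hasCompactSupport (by fun_prop) ?_
    refine HasCompactSupport.mul_right ?_
    exact (hf.hasCompactSupport_pd k).comp_left (g := fun c : ℂ => ‖c‖ ^ 2) (by simp)
  rw [← integral_finsetSum _ fun k _ => hi k, ofReal_integral_eq_lintegral_ofReal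
    (integrable_finsetSum _ fun k _ => hi k)
    (ae_of_all _ fun x => Finset.sum_nonneg fun k _ => by positivity)]
  simp only [poinG, poinD, Finset.sum_mul]

theorem poincare_exp : ∃ C : ℝ, 0 < C ∧ ∀ f : E3 → ℂ, Nice f → ∃ c : ℂ,
    ∫ x, ‖f x - c‖ ^ 2 * Real.exp (-‖x‖) ≤
      C * ∑ k, ∫ x, ‖pd k f x‖ ^ 2 * Real.exp (-‖x‖) := by
  set A : ℝ≥0∞ := poinA / volume (Metric.ball (0 : E3) 1) with hA
  have hA' : A ≠ ∞ :=
    ENNReal.div_ne_top poinA_ne_top (Metric.measure_ball_pos volume 0 one_pos).ne'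
  refine ⟨648 + 54 * A.toReal, by positivity, fun f hf => ?_⟩
  obtain ⟨c, hc⟩ := poin_step2 hf
  have hfc := hf.1.continuous
  refine ⟨c, ?_⟩
  have hS : 0 ≤ ∑ k, ∫ x, ‖pd k f x‖ ^ 2 * Real.exp (-‖x‖) :=
    Finset.sum_nonneg fun k _ => integral_nonneg fun x => by positivity
  rw [integral_eq_lintegral_of_nonneg_ae (ae_of_all _ fun x => by positivity)
    (Continuous.aestronglyMeasurable (by fun_prop))]
  refine ENNReal.toReal_le_of_le_ofReal (by positivity) ?_
  have h2 : ∫⁻ x, ENNReal.ofReal (‖f ((1 / 3 : ℝ) • x) - c‖ ^ 2 * Real.exp (-‖x‖)) ≤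
      27 * (A * poinG f) := by
    have h3 := poin_dil (F := fun z => ENNReal.ofReal (‖f z - c‖ ^ 2 * Real.exp (-3 * ‖z‖)))
      (Measurable.ennreal_ofReal (Continuous.measurable (by fun_prop))) (le_refl (1 / 3 : ℝ))
    refine le_trans (le_of_eq (lintegral_congr fun x => ?_)) (h3.trans (by gcongr))
    have : -3 * ‖(1 / 3 : ℝ) • x‖ = -‖x‖ := by
      rw [norm_smul, Real.norm_eq_abs, abs_of_pos (by norm_num)]; ring
    rw [this]
  calc ∫⁻ x, ENNReal.ofReal (‖f x - c‖ ^ 2 * Real.exp (-‖x‖))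
      ≤ ∫⁻ x, (2 * ENNReal.ofReal (‖f x - f ((1 / 3 : ℝ) • x)‖ ^ 2 * Real.exp (-‖x‖)) +
          2 * ENNReal.ofReal (‖f ((1 / 3 : ℝ) • x) - c‖ ^ 2 * Real.exp (-‖x‖))) := by
        refine lintegral_mono fun x => ?_
        have e2 : ∀ r : ℝ, 2 * ENNReal.ofReal r = ENNReal.ofReal (2 * r) := fun r => by
          rw [ENNReal.ofReal_mul (by norm_num)]
          norm_num
        rw [e2, e2, ← ENNReal.ofReal_add (by positivity) (by positivity)]
        refine ENNReal.ofReal_le_ofReal ?_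
        have h4 : ‖f x - c‖ ≤ ‖f x - f ((1 / 3 : ℝ) • x)‖ + ‖f ((1 / 3 : ℝ) • x) - c‖ :=
          norm_sub_le_norm_sub_add_norm_sub _ _ _
        have h5 : ‖f x - c‖ ^ 2 ≤
            2 * ‖f x - f ((1 / 3 : ℝ) • x)‖ ^ 2 + 2 * ‖f ((1 / 3 : ℝ) • x) - c‖ ^ 2 := by
          nlinarith [norm_nonneg (f x - c), norm_nonneg (f x - f ((1 / 3 : ℝ) • x)),
            norm_nonneg (f ((1 / 3 : ℝ) • x) - c),
            sq_nonneg (‖f x - f ((1 / 3 : ℝ) • x)‖ - ‖f ((1 / 3 : ℝ) • x) - c‖)]
        nlinarith [Real.exp_pos (-‖x‖)]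
    _ = 2 * (∫⁻ x, ENNReal.ofReal (‖f x - f ((1 / 3 : ℝ) • x)‖ ^ 2 * Real.exp (-‖x‖))) +
          2 * ∫⁻ x, ENNReal.ofReal (‖f ((1 / 3 : ℝ) • x) - c‖ ^ 2 * Real.exp (-‖x‖)) := by
        rw [lintegral_add_left, lintegral_const_mul' _ _ (by norm_num),
          lintegral_const_mul' _ _ (by norm_num)]
        exact (Measurable.ennreal_ofReal (Continuous.measurable (by fun_prop))).const_mul _
    _ ≤ 2 * (324 * poinG f) + 2 * (27 * (A * poinG f)) := by
        gcongr
        exact poin_step1 hf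
    _ = (648 + 54 * A) * poinG f := by ring
    _ = _ := by
        rw [poinG_eq hf, ENNReal.ofReal_mul (by positivity),
          ENNReal.ofReal_add (by norm_num) (by positivity), ENNReal.ofReal_mul (by norm_num),
          ENNReal.ofReal_toReal hA']
        norm_num

end Pool.Agent.MP_e62678_mp.H54
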