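import Pool.Agent.MP_e62678_mp.H54.Hardy
import Pool.Agent.MP_e62678_mp.H54.Poincare

/-! One well: spectral gap above the hydrogen ground state, and the energy of a cut-off state. -/

open MeasureTheory Filter Topology
open scoped ComplexConjugate

namespace Pool.Agent.MP_e62678_mp.H54

/-- The regularised distance. -/
noncomputable def single_q (η : ℝ) (y : E3) : ℝ := Real.sqrt (‖y‖ ^ 2 + η ^ 2)

/-- The vector field of the regularised ground state. -/
noncomputable def single_G (η : ℝ) (k : Fin 3) (y : E3) : ℝ := y k / (2 * single_q η y)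

/-- The potential produced by the vector field. -/
noncomputable def single_W (η : ℝ) (y : E3) : ℝ :=
  1 / 4 - η ^ 2 / (4 * single_q η y ^ 2) - 1 / single_q η y - η ^ 2 / (2 * single_q η y ^ 3)

theorem single_q_pos {η : ℝ} (hη : 0 < η) (y : E3) : 0 < single_q η y :=
  Real.sqrt_pos.2 (by positivity)

theorem single_q_sq (η : ℝ) (y : E3) : single_q η y ^ 2 = ‖y‖ ^ 2 + η ^ 2 :=
  Real.sq_sqrt (by positivity)

theorem single_norm_le_q (η : ℝ) (y : E3) : ‖y‖ ≤ single_q η y :=
  Real.le_sqrt_of_sq_le (by nlinarith [sq_nonneg η])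

theorem single_eta_le_q (η : ℝ) (y : E3) : η ≤ single_q η y :=
  Real.le_sqrt_of_sq_le (by nlinarith [sq_nonneg ‖y‖])

theorem single_q_le {η : ℝ} (hη : 0 < η) (y : E3) : single_q η y ≤ ‖y‖ + η :=
  Real.sqrt_le_iff.2 ⟨by positivity, by nlinarith [mul_nonneg (norm_nonneg y) hη.le]⟩

theorem single_contDiff_q {η : ℝ} (hη : 0 < η) : ContDiff ℝ 1 (single_q η) :=
  ((contDiff_norm_sq ℝ).add contDiff_const).sqrt fun y => by positivity

theorem single_contDiff_coord (k : Fin 3) : ContDiff ℝ 1 fun y : E3 => y k :=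
  (EuclideanSpace.proj k : E3 →L[ℝ] ℝ).contDiff

theorem single_contDiff_G {η : ℝ} (hη : 0 < η) (k : Fin 3) : ContDiff ℝ 1 (single_G η k) :=
  (single_contDiff_coord k).div (contDiff_const.mul (single_contDiff_q hη))
    fun y => by have := single_q_pos hη y; positivity

theorem single_pd_mul {A : Type} [NormedCommRing A] [NormedAlgebra ℝ A] {f g : E3 → A} {x : E3}
    (hf : DifferentiableAt ℝ f x) (hg : DifferentiableAt ℝ g x) (k : Fin 3) :
    pd k (fun y => f y * g y) x = pd k f x * g x + f x * pd k g x := by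
  unfold pd
  rw [fderiv_fun_mul hf hg]
  simp only [add_apply, smul_apply, smul_eq_mul]
  ring

theorem single_pd_ofReal {f : E3 → ℝ} {x : E3} (hf : DifferentiableAt ℝ f x) (k : Fin 3) :
    pd k (fun y => ((f y : ℝ) : ℂ)) x = ((pd k f x : ℝ) : ℂ) := by
  unfold pd
  have := (Complex.ofRealCLM.hasFDerivAt.comp x hf.hasFDerivAt).fderiv
  have h2 : (fun y => ((f y : ℝ) : ℂ)) = Complex.ofRealCLM ∘ f := rfl
  rw [h2, this]
  rfl

theorem single_pd_sub {A : Type} [NormedAddCommGroup A] [NormedSpace ℝ A] (f : E3 → A) (a x : E3)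
    (k : Fin 3) : pd k (fun y => f (y - a)) x = pd k f (x - a) := by
  unfold pd
  rw [fderiv_comp_sub]

theorem single_pd_add {A : Type} [NormedAddCommGroup A] [NormedSpace ℝ A] (f : E3 → A) (a x : E3)
    (k : Fin 3) : pd k (fun y => f (y + a)) x = pd k f (x + a) := by
  unfold pd
  rw [fderiv_comp_add_right]

theorem single_pd_coord (k : Fin 3) (x : E3) : pd k (fun y : E3 => y k) x = 1 := by
  unfold pd
  have : HasFDerivAt (fun y : E3 => y k) (EuclideanSpace.proj k : E3 →L[ℝ] ℝ) x :=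
    (EuclideanSpace.proj k : E3 →L[ℝ] ℝ).hasFDerivAt
  rw [this.fderiv]
  simp

theorem single_pd_q {η : ℝ} (hη : 0 < η) (k : Fin 3) (y : E3) :
    pd k (single_q η) y = y k / single_q η y := by
  have h1 := ((hasStrictFDerivAt_norm_sq y).hasFDerivAt.add_const (η ^ 2)).sqrt (by positivity)
  have h2 := single_q_pos hη y
  unfold pd
  unfold single_q at h2 ⊢
  rw [h1.fderiv]
  simp [EuclideanSpace.inner_single_right]
  field_simp

theorem contDiff_phi {η : ℝ} (hη : 0 < η) : ContDiff ℝ 1 (phi η) :=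
  Real.contDiff_exp.comp ((single_contDiff_q hη).neg.div_const 2)

theorem phi_pos (η : ℝ) (y : E3) : 0 < phi η y := Real.exp_pos _

theorem single_phi_sq (η : ℝ) (y : E3) : phi η y ^ 2 = Real.exp (-single_q η y) := by
  unfold phi single_q
  rw [sq, ← Real.exp_add]
  congr 1
  ring

theorem phi_sq_le (η : ℝ) (y : E3) : phi η y ^ 2 ≤ Real.exp (-‖y‖) := by
  rw [single_phi_sq]
  exact Real.exp_le_exp.2 (neg_le_neg (single_norm_le_q η y))

theorem single_le_phi_sq {η : ℝ} (hη : 0 < η) (hη1 : η ≤ 1) (y : E3) :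
    Real.exp (-‖y‖) ≤ Real.exp 1 * phi η y ^ 2 := by
  rw [single_phi_sq, ← Real.exp_add]
  have := single_q_le hη y
  exact Real.exp_le_exp.2 (by linarith)

theorem pd_phi {η : ℝ} (hη : 0 < η) (k : Fin 3) (y : E3) :
    pd k (phi η) y = -(y k / (2 * Real.sqrt (‖y‖ ^ 2 + η ^ 2))) * phi η y := by
  have h1 := ((single_contDiff_q hη).differentiable one_ne_zero y).hasFDerivAt
  have h2 := (h1.const_mul (-1 / 2 : ℝ)).exp
  have h3 : phi η = fun x => Real.exp (-1 / 2 * single_q η x) := by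
    funext x
    unfold phi single_q
    congr 1
    ring
  have h4 := single_pd_q hη k y
  have h5 := single_q_pos hη y
  change pd k (phi η) y = -(y k / (2 * single_q η y)) * phi η y
  unfold pd at h4 ⊢
  rw [h3, h2.fderiv]
  simp only [smul_apply, smul_eq_mul, h4]
  field_simp

theorem single_pd_G {η : ℝ} (hη : 0 < η) (k : Fin 3) (y : E3) :
    pd k (single_G η k) y = 1 / (2 * single_q η y) - y k ^ 2 / (2 * single_q η y ^ 3) := by
  have h0 := single_q_pos hη y
  have h1 := single_pd_mul ((single_contDiff_G hη k).differentiable one_ne_zero y)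
    ((single_contDiff_q hη).differentiable one_ne_zero y) k
  have h2 : (fun y => single_G η k y * single_q η y) = fun y : E3 => y k * (1 / 2) := by
    funext y
    have := single_q_pos hη y
    unfold single_G
    field_simp
  have h3 := single_pd_mul ((single_contDiff_coord k).differentiable one_ne_zero y)
    (differentiableAt_const (1 / 2 : ℝ)) k
  have h4 : pd k (fun _ : E3 => (1 / 2 : ℝ)) y = 0 := by simp [pd]
  rw [h2, h3, h4, single_pd_coord, single_pd_q hη] at h1
  have h5 : pd k (single_G η k) y =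
      (1 / 2 - single_G η k y * (y k / single_q η y)) / single_q η y := by
    rw [eq_div_iff h0.ne']
    linarith
  rw [h5]
  unfold single_G
  field_simp

theorem single_sum_G {η : ℝ} (hη : 0 < η) (y : E3) :
    ∑ k, (single_G η k y ^ 2 - pd k (single_G η k) y) = single_W η y := by
  have h0 := single_q_pos hη y
  have h1 : y 0 ^ 2 + y 1 ^ 2 + y 2 ^ 2 = single_q η y ^ 2 - η ^ 2 := by
    rw [single_q_sq, EuclideanSpace.real_norm_sq_eq, Fin.sum_univ_three]
    ring
  have h2 : η ^ 2 = single_q η y ^ 2 - (y 0 ^ 2 + y 1 ^ 2 + y 2 ^ 2) := by linarith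
  simp only [Fin.sum_univ_three, single_pd_G hη]
  unfold single_G single_W
  rw [h2]
  field_simp
  ring

theorem single_continuous_W {η : ℝ} (hη : 0 < η) : Continuous (single_W η) := by
  have h := (single_contDiff_q hη).continuous
  have h0 := single_q_pos hη
  unfold single_W
  refine ((continuous_const.sub (continuous_const.div (continuous_const.mul (h.pow 2)) ?_)).sub
    (continuous_const.div h ?_)).sub (continuous_const.div (continuous_const.mul (h.pow 3)) ?_)
  · exact fun y => mul_ne_zero four_ne_zero (pow_ne_zero 2 (h0 y).ne')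
  · exact fun y => (h0 y).ne'
  · exact fun y => mul_ne_zero two_ne_zero (pow_ne_zero 3 (h0 y).ne')

theorem single_W_le {η : ℝ} (hη : 0 < η) (y : E3) :
    single_W η y ≤ 1 / 4 - 1 / ‖y‖ + η / ‖y‖ ^ 2 := by
  have h0 := single_q_pos hη y
  have h1 : 0 ≤ η ^ 2 / (4 * single_q η y ^ 2) := by positivity
  have h2 : 0 ≤ η ^ 2 / (2 * single_q η y ^ 3) := by positivity
  have h3 : 1 / ‖y‖ ≤ 1 / single_q η y + η / ‖y‖ ^ 2 := by
    rcases (norm_nonneg y).eq_or_lt with h | h
    · rw [← h]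
      simp [h0.le]
    · have h4 := single_norm_le_q η y
      have h5 := single_q_le hη y
      have h6 : 1 / ‖y‖ - 1 / single_q η y = (single_q η y - ‖y‖) / (‖y‖ * single_q η y) := by
        field_simp
      have h7 : (single_q η y - ‖y‖) / (‖y‖ * single_q η y) ≤ η / ‖y‖ ^ 2 := by
        rw [sq]
        gcongr
        linarith
      linarith
  unfold single_W
  linarith

theorem single_le_W {η : ℝ} (hη : 0 < η) (hη1 : η ≤ 1) {y : E3} (hy : y ≠ 0) :
    1 / 4 - 1 / ‖y‖ - 3 / 4 * η / ‖y‖ ^ 2 ≤ single_W η y := by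
  have h0 := single_q_pos hη y
  have h := norm_pos_iff.2 hy
  have h4 := single_norm_le_q η y
  have h5 := single_eta_le_q η y
  have h1 : η ^ 2 / (4 * single_q η y ^ 2) ≤ η / (4 * ‖y‖ ^ 2) := by
    gcongr
    nlinarith
  have h2 : η ^ 2 / (2 * single_q η y ^ 3) ≤ η / (2 * ‖y‖ ^ 2) := by
    rw [div_le_div_iff₀ (by positivity) (by positivity)]
    have h6 : ‖y‖ ^ 2 ≤ single_q η y ^ 2 := by gcongr
    have h7 : η * ‖y‖ ^ 2 ≤ single_q η y * single_q η y ^ 2 := by gcongr
    nlinarith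
  have h3 : 1 / single_q η y ≤ 1 / ‖y‖ := by gcongr
  have h8 : 3 / 4 * η / ‖y‖ ^ 2 = η / (4 * ‖y‖ ^ 2) + η / (2 * ‖y‖ ^ 2) := by
    field_simp
    ring
  unfold single_W
  linarith

/-- The vector field identity for the regularised ground state centred at `a`. -/
theorem single_vf {η : ℝ} (hη : 0 < η) (a : E3) {v : E3 → ℂ} (hv : Nice v) :
    ∑ k, ∫ x, ‖pd k v x + ((single_G η k (x - a) : ℝ) : ℂ) * v x‖ ^ 2 =
      kin (grad v) + ∫ x, single_W η (x - a) * ‖v x‖ ^ 2 := by
  rw [vf_identity hv (fun k x => single_G η k (x - a))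
    fun k => (single_contDiff_G hη k).comp (contDiff_id.sub contDiff_const)]
  simp only [single_pd_sub, single_sum_G hη]

theorem single_integrable_W {η : ℝ} (hη : 0 < η) (a : E3) {v : E3 → ℂ} (hv : Nice v) :
    Integrable fun x => single_W η (x - a) * ‖v x‖ ^ 2 := by
  refine Continuous.integrable_of_hasCompactSupport
    (((single_continuous_W hη).comp (continuous_id.sub continuous_const)).mul
      (hv.1.continuous.norm.pow 2)) (HasCompactSupport.mul_left ?_)
  exact hv.2.comp_left (g := fun z : ℂ => ‖z‖ ^ 2) (by simp)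

theorem single_int_comb (a : E3) {v : E3 → ℂ} (hv : Nice v) (t : ℝ) :
    Integrable (fun x => ‖v x‖ ^ 2 / 4 - ‖v x‖ ^ 2 / ‖x - a‖ + t * (‖v x‖ ^ 2 / ‖x - a‖ ^ 2)) ∧
    ∫ x, (‖v x‖ ^ 2 / 4 - ‖v x‖ ^ 2 / ‖x - a‖ + t * (‖v x‖ ^ 2 / ‖x - a‖ ^ 2)) =
      nrm v / 4 - cou a v + t * ∫ x, ‖v x‖ ^ 2 / ‖x - a‖ ^ 2 := by
  have h1 := (integrable_sq hv.memLp).div_const 4
  have h2 := hv.isH1.integrable_cou a
  have h3 := (hv.isH1.hardy a).1.const_mul t
  have h12 : Integrable fun x => ‖v x‖ ^ 2 / 4 - ‖v x‖ ^ 2 / ‖x - a‖ := h1.sub h2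
  refine ⟨h12.add h3, ?_⟩
  rw [integral_add h12 h3, integral_sub h1 h2, integral_div, integral_const_mul]
  rfl

theorem single_int_W_le {η : ℝ} (hη : 0 < η) (a : E3) {v : E3 → ℂ} (hv : Nice v) :
    ∫ x, single_W η (x - a) * ‖v x‖ ^ 2 ≤ nrm v / 4 - cou a v + 4 * η * kin (grad v) := by
  obtain ⟨h1, h2⟩ := single_int_comb a hv η
  have h3 := integral_mono (single_integrable_W hη a hv) h1 fun x => by
    have := mul_le_mul_of_nonneg_right (single_W_le hη (x - a)) (sq_nonneg ‖v x‖)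
    refine this.trans (le_of_eq ?_)
    ring
  have h4 := mul_le_mul_of_nonneg_left (hv.isH1.hardy a).2 hη.le
  linarith

theorem single_le_int_W {η : ℝ} (hη : 0 < η) (hη1 : η ≤ 1) (a : E3) {v : E3 → ℂ} (hv : Nice v) :
    nrm v / 4 - cou a v - 3 * η * kin (grad v) ≤ ∫ x, single_W η (x - a) * ‖v x‖ ^ 2 := by
  obtain ⟨h1, h2⟩ := single_int_comb a hv (-(3 / 4 * η))
  have hae : ∀ᵐ x : E3, x ≠ a := by
    rw [ae_iff]
    simp
  have h3 := integral_mono_ae h1 (single_integrable_W hη a hv) (by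
    filter_upwards [hae] with x hx
    have := mul_le_mul_of_nonneg_right (single_le_W hη hη1 (sub_ne_zero.2 hx)) (sq_nonneg ‖v x‖)
    refine le_trans (le_of_eq ?_) this
    ring)
  have h4 := mul_le_mul_of_nonneg_left (hv.isH1.hardy a).2 hη.le
  linarith

theorem single_integrable_exp (a : E3) : Integrable fun x : E3 => Real.exp (-‖x - a‖) :=
  integrable_exp_neg_norm.comp_sub_right a

theorem single_poincare : ∃ C : ℝ, 0 < C ∧ ∀ (a : E3) (f : E3 → ℂ), Nice f → ∃ c : ℂ,
    ∫ x, ‖f x - c‖ ^ 2 * Real.exp (-‖x - a‖) ≤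
      C * ∑ k, ∫ x, ‖pd k f x‖ ^ 2 * Real.exp (-‖x - a‖) := by
  obtain ⟨C, hC, h⟩ := poincare_exp
  refine ⟨C, hC, fun a f hf => ?_⟩
  obtain ⟨c, hc⟩ := h (fun y => f (y + a)) ⟨hf.1.comp (contDiff_id.add contDiff_const),
    hf.2.comp_homeomorph (Homeomorph.addRight a)⟩
  refine ⟨c, ?_⟩
  rw [← integral_add_right_eq_self _ a]
  simp only [single_pd_add] at hc
  simp only [add_sub_cancel_right]
  refine hc.trans (le_of_eq ?_)
  congr 1
  refine Finset.sum_congr rfl fun k _ => ?_
  rw [← integral_add_right_eq_self (fun x => ‖pd k f x‖ ^ 2 * Real.exp (-‖x - a‖)) a]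
  simp only [add_sub_cancel_right]

theorem single_contDiff_phiC {η : ℝ} (hη : 0 < η) (a : E3) :
    ContDiff ℝ 1 fun x : E3 => ((phi η (x - a) : ℝ) : ℂ) :=
  Complex.ofRealCLM.contDiff.comp ((contDiff_phi hη).comp (contDiff_id.sub contDiff_const))

/-- The conjugated derivative of a product with the ground state. -/
theorem single_pd_prod {η : ℝ} (hη : 0 < η) (a : E3) {f : E3 → ℂ} (hf : ContDiff ℝ 1 f)
    (k : Fin 3) (x : E3) :
    pd k (fun y => f y * ((phi η (y - a) : ℝ) : ℂ)) x +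
      ((single_G η k (x - a) : ℝ) : ℂ) * (f x * ((phi η (x - a) : ℝ) : ℂ)) =
      pd k f x * ((phi η (x - a) : ℝ) : ℂ) := by
  rw [single_pd_mul (hf.differentiable one_ne_zero x)
    ((single_contDiff_phiC hη a).differentiable one_ne_zero x),
    single_pd_ofReal (f := fun y => phi η (y - a))
      (((contDiff_phi hη).comp (contDiff_id.sub contDiff_const)).differentiable one_ne_zero x),
    single_pd_sub, pd_phi hη]
  unfold single_G single_q
  push_cast
  ring

theorem single_gap : ∃ g : ℝ, 0 < g ∧ ∀ η : ℝ, 0 < η → η ≤ 1 → ∀ (a : E3) (v : E3 → ℂ), Nice v →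
    ∃ c : ℂ, g * nrm (fun x => v x - c * ((phi η (x - a) : ℝ) : ℂ)) ≤
      kin (grad v) - cou a v + nrm v / 4 + 4 * η * kin (grad v) := by
  obtain ⟨C, hC, h⟩ := single_poincare
  have he := Real.exp_pos 1
  refine ⟨1 / (C * Real.exp 1), by positivity, fun η hη hη1 a v hv => ?_⟩
  have hφ : ∀ x : E3, ((phi η (x - a) : ℝ) : ℂ) ≠ 0 := fun x =>
    Complex.ofReal_ne_zero.2 (phi_pos η _).ne'
  obtain ⟨f, hf, rfl⟩ : ∃ f, Nice f ∧ v = fun y => f y * ((phi η (y - a) : ℝ) : ℂ) := by
    refine ⟨fun y => v y * (((phi η (y - a) : ℝ) : ℂ))⁻¹,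
      ⟨hv.1.mul ((single_contDiff_phiC hη a).inv hφ), hv.2.mul_right⟩, ?_⟩
    funext y
    rw [mul_assoc, inv_mul_cancel₀ (hφ y), mul_one]
  obtain ⟨c, hc⟩ := h a f hf
  refine ⟨c, ?_⟩
  have h1 := single_vf hη a hv
  simp only [single_pd_prod hη a hf.1] at h1
  have h2 := single_int_W_le hη a hv
  have h3 : nrm (fun x => f x * ((phi η (x - a) : ℝ) : ℂ) - c * ((phi η (x - a) : ℝ) : ℂ)) ≤
      ∫ x, ‖f x - c‖ ^ 2 * Real.exp (-‖x - a‖) := by
    refine integral_mono_of_nonneg (Eventually.of_forall fun x => by positivity) ?_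
      (Eventually.of_forall fun x => ?_)
    · obtain ⟨M, hM⟩ := hf.1.continuous.bounded_above_of_compact_support hf.2
      refine (single_integrable_exp a).bdd_mul (c := (M + ‖c‖) ^ 2)
        ((hf.1.continuous.sub continuous_const).norm.pow 2).aestronglyMeasurable
        (Eventually.of_forall fun x => ?_)
      rw [norm_pow, norm_norm]
      have := (norm_sub_le (f x) c).trans (add_le_add (hM x) le_rfl)
      gcongr
    · simp only [← sub_mul, norm_mul, mul_pow, Complex.norm_real, Real.norm_eq_abs, sq_abs]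
      exact mul_le_mul_of_nonneg_left (phi_sq_le η _) (sq_nonneg _)
  have h4 : ∀ k, ∫ x, ‖pd k f x‖ ^ 2 * Real.exp (-‖x - a‖) ≤
      Real.exp 1 * ∫ x, ‖pd k f x * ((phi η (x - a) : ℝ) : ℂ)‖ ^ 2 := by
    intro k
    rw [← integral_const_mul]
    refine integral_mono_of_nonneg (Eventually.of_forall fun x => by positivity) ?_
      (Eventually.of_forall fun x => ?_)
    · refine (integrable_sq (Continuous.memLp_of_hasCompactSupport
        ((hf.continuous_pd k).mul (single_contDiff_phiC hη a).continuous)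
        (hf.hasCompactSupport_pd k).mul_right)).const_mul _
    · simp only [norm_mul, mul_pow, Complex.norm_real, Real.norm_eq_abs, sq_abs]
      have := mul_le_mul_of_nonneg_left (single_le_phi_sq hη hη1 (x - a)) (sq_nonneg ‖pd k f x‖)
      linarith
  have h5 := Finset.sum_le_sum fun k (_ : k ∈ Finset.univ) => h4 k
  rw [← Finset.mul_sum, h1] at h5
  have h6 := h3.trans (hc.trans (mul_le_mul_of_nonneg_left h5 hC.le))
  rw [one_div, inv_mul_le_iff₀ (by positivity)]
  refine h6.trans ?_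
  rw [mul_assoc]
  refine mul_le_mul_of_nonneg_left (mul_le_mul_of_nonneg_left ?_ he.le) hC.le
  linarith

theorem cutoff_energy {η : ℝ} (hη : 0 < η) (hη1 : η ≤ 1) (a : E3) {c : E3 → ℝ}
    (hc : ContDiff ℝ 1 c) (hcs : HasCompactSupport c) {ε : ℝ} (hε : ∀ k x, |pd k c x| ≤ ε)
    (u : E3 → ℂ) (hu : u = fun x => ((c x * phi η (x - a) : ℝ) : ℂ)) :
    kin (grad u) - cou a u + nrm u / 4 ≤
      3 * ε ^ 2 * (∫ x : E3, Real.exp (-‖x‖)) + 3 * η * kin (grad u) := by
  have hcC : ContDiff ℝ 1 fun x => ((c x : ℝ) : ℂ) := Complex.ofRealCLM.contDiff.comp hc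
  have hu' : u = fun x => ((c x : ℝ) : ℂ) * ((phi η (x - a) : ℝ) : ℂ) := by
    rw [hu]
    funext x
    push_cast
    rfl
  have hN : Nice u := by
    rw [hu']
    exact ⟨hcC.mul (single_contDiff_phiC hη a),
      (hcs.comp_left (g := fun t : ℝ => (t : ℂ)) (by simp)).mul_right⟩
  have h1 := single_vf hη a hN
  have h2 := single_le_int_W hη hη1 a hN
  have h3 : ∀ k, ∫ x, ‖pd k u x + ((single_G η k (x - a) : ℝ) : ℂ) * u x‖ ^ 2 ≤
      ε ^ 2 * ∫ x : E3, Real.exp (-‖x‖) := by
    intro k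
    rw [← integral_sub_right_eq_self (fun x : E3 => Real.exp (-‖x‖)) a, ← integral_const_mul]
    refine integral_mono_of_nonneg (Eventually.of_forall fun x => by positivity)
      ((single_integrable_exp a).const_mul _) (Eventually.of_forall fun x => ?_)
    simp only [hu', single_pd_prod hη a hcC,
      single_pd_ofReal (hc.differentiable one_ne_zero x), norm_mul, mul_pow, Complex.norm_real,
      Real.norm_eq_abs, sq_abs]
    refine mul_le_mul ?_ (phi_sq_le η _) (sq_nonneg _) (sq_nonneg _)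
    exact sq_le_sq' (abs_le.1 (hε k x)).1 (abs_le.1 (hε k x)).2
  have h4 := Finset.sum_le_sum fun k (_ : k ∈ Finset.univ) => h3 k
  rw [h1] at h4
  simp only [Finset.sum_const, Finset.card_univ, Fintype.card_fin, nsmul_eq_mul, Nat.cast_ofNat]
    at h4
  linarith

end Pool.Agent.MP_e62678_mp.H54
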