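import Pool.Agent.MP_e62678_mp.H54.Bridge
import Pool.Agent.MP_e62678_mp.H54.Inter1
import Pool.Agent.MP_e62678_mp.H54.Inter2

/-! The non-collinear trial state. -/

open MeasureTheory Filter Topology
open scoped ComplexConjugate

namespace Pool.Agent.MP_e62678_mp.H54

/-- One-body part of the rescaled energy. -/
noncomputable def onebody {N : ℕ} (L : ℝ) (U : Orbitals N) : ℝ :=
  ∑ i, ∑ σ, qf L (U.u i σ) (U.g i σ)

/-- A tuple built from elements of `H¹`. -/
def ofS {N : ℕ} (p : Fin N → Fin 2 → H1s) : Orbitals N :=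
  ⟨fun i σ => (p i σ).1.1, fun i σ => (p i σ).1.2, fun _ _ => H1s.h1 _⟩

/-- The orbitals of a tuple as elements of `H¹`. -/
def toS {N : ℕ} (U : Orbitals N) (i : Fin N) (σ : Fin 2) : H1s := ⟨(U.u i σ, U.g i σ), U.h1 i σ⟩

theorem gram_toS {N : ℕ} (U : Orbitals N) (i j : Fin N) :
    gram U i j = ∑ σ, inner ℂ (iota (toS U i σ)) (iota (toS U j σ)) := by
  simp only [inner_iota]
  rfl

/-- Amplitudes of the trial orbitals. -/
noncomputable def amp : Fin 3 → Fin 2 → ℝ :=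
  ![![21 / 29, 20 / 29], ![Real.sqrt (1 / 2), Real.sqrt (1 / 2)], ![20 / 29, 21 / 29]]

/-- Sectors of the trial orbitals. -/
def sec : Fin 3 → Fin 2 → Fin 3 := ![![0, 1], ![1, 2], ![2, 0]]

/-- Coefficients of the lattice trial state. -/
noncomputable def cV (k : Fin 3) (σ : Fin 2) (j : Fin 3) : ℂ :=
  (amp k σ : ℝ) * (om ^ (j.val * (sec k σ).val) / (Real.sqrt 3 : ℝ))

theorem half_sq : Real.sqrt (1 / 2) ^ 2 = 1 / 2 := Real.sq_sqrt (by norm_num)

theorem norm_cV (k : Fin 3) (σ : Fin 2) (j : Fin 3) : ‖cV k σ j‖ ^ 2 = amp k σ ^ 2 / 3 := by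
  have h3 : Real.sqrt 3 ^ 2 = 3 := Real.sq_sqrt (by norm_num)
  simp only [cV, norm_mul, norm_div, norm_pow, norm_om, one_pow, Complex.norm_real,
    Real.norm_eq_abs, mul_pow, div_pow, sq_abs, h3]
  ring

theorem amp_sum (k : Fin 3) : ∑ σ, amp k σ ^ 2 = 1 := by
  have := half_sq
  fin_cases k <;> simp [amp, Fin.sum_univ_two] <;> norm_num

theorem detj_cV (j : Fin 3) : detj cV j = 1 / 4 - (840 / 841 + 1 / 2) ^ 2 / 9 := by
  have hh := half_sq
  have h0 : ∑ i, ‖cV i 0 j‖ ^ 2 = 1 / 2 := by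
    simp only [norm_cV, Fin.sum_univ_three]
    simp only [amp, Matrix.cons_val_zero, Matrix.cons_val_one, Matrix.cons_val_two,
      Matrix.head_cons, Matrix.tail_cons, hh]
    norm_num
  have h1 : ∑ i, ‖cV i 1 j‖ ^ 2 = 1 / 2 := by
    simp only [norm_cV, Fin.sum_univ_three]
    simp only [amp, Matrix.cons_val_zero, Matrix.cons_val_one, Matrix.cons_val_two,
      Matrix.head_cons, Matrix.tail_cons, Matrix.cons_val_fin_one, hh]
    norm_num
  have hz3 : (om ^ j.val) ^ 3 = 1 := by rw [← pow_mul, mul_comm, pow_mul, om_cube, one_pow]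
  have hzc : conj (om ^ j.val) = (om ^ j.val) ^ 2 := by
    rw [map_pow, conj_om, ← pow_mul, ← pow_mul, mul_comm]
  have h3 : ((Real.sqrt 3 : ℝ) : ℂ) * (Real.sqrt 3 : ℝ) = 3 := by
    rw [← Complex.ofReal_mul, Real.mul_self_sqrt (by norm_num)]
    norm_num
  have h3' : ((Real.sqrt 3 : ℝ) : ℂ) ≠ 0 := by
    intro h
    rw [h] at h3
    norm_num at h3
  have hh' : ((Real.sqrt (1 / 2) : ℝ) : ℂ) * (Real.sqrt (1 / 2) : ℝ) = 1 / 2 := by
    rw [← Complex.ofReal_mul, Real.mul_self_sqrt (by norm_num)]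
    norm_num
  have h2 : ∑ i, cV i 0 j * conj (cV i 1 j) =
      (om ^ j.val) ^ 2 * (((840 / 841 + 1 / 2) / 3 : ℝ) : ℂ) := by
    simp only [Fin.sum_univ_three, cV, pow_mul, map_mul, map_div₀, map_pow, Complex.conj_ofReal]
    rw [← map_pow, hzc]
    simp only [amp, sec, Matrix.cons_val_zero, Matrix.cons_val_one, Matrix.cons_val_two,
      Matrix.head_cons, Matrix.tail_cons, Matrix.cons_val_fin_one, Fin.val_zero, Fin.val_one,
      Fin.val_two]
    set z := om ^ j.val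
    set r := ((Real.sqrt (1 / 2) : ℝ) : ℂ)
    set s := ((Real.sqrt 3 : ℝ) : ℂ)
    have hs : s⁻¹ * s⁻¹ = 1 / 3 := by
      rw [← mul_inv, h3]
      norm_num
    push_cast
    simp only [div_eq_mul_inv _ s]
    linear_combination (420 / 841 * 2 * z ^ 2 + r * r * z ^ 5) * hs + (z ^ 5 / 3) * hh' +
      (z ^ 2 / 6) * hz3
  rw [detj, h0, h1, h2, norm_mul, norm_pow, norm_pow, norm_om, Complex.norm_real, Real.norm_eq_abs,
    mul_pow, sq_abs]
  norm_num

theorem trial_exists {g cU δ L : ℝ} {W : E3 → ℝ} (h : Wells g cU δ L W) (hδ : 0 < δ)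
    (hδ1 : δ ≤ 1 / 8) {E0 E1 ε : ℝ} (h01 : E0 < E1) (hE : E1 ≤ -1 / 4 + δ) (hεδ : ε ≤ δ)
    (a : Fin 3 → H1s) (ha : Orthonormal ℂ fun k => iota (a k))
    (q0 : qS L (a 0) ≤ E0 + ε) (q1 : qS L (a 1) ≤ E1 + ε) (q2 : qS L (a 2) ≤ E1 + ε)
    (hd : ∀ k : Fin 3, ‖iota (a k) - ∑ j : Fin 3,
          (om ^ (j.val * k.val) / (Real.sqrt 3 : ℝ)) • iota (wS h j)‖ ^ 2 ≤ 6 * δ / g)
    {M s : ℝ} (hM : 0 < M) (hs : 0 < s) :
    ∃ V : Orbitals 3, gram V = 1 ∧ onebody L V ≤ 3 * E1 - 882 / 841 * (E1 - E0) + 3 * ε ∧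
      Iint V.u ≤ (1 + s) * (Um M W * (3 / 4 - (840 / 841 + 1 / 2) ^ 2 / 3) + 9 / 2 * δ) +
        (1 + 1 / s) * M * (108 * δ / g) + 648 / M := by
  have hh := half_sq
  let p : Fin 3 → Fin 2 → H1s := fun k σ => ((amp k σ : ℝ) : ℂ) • a (sec k σ)
  let r : Fin 3 → Fin 2 → H1s := fun k σ => ∑ j, cV k σ j • wS h j
  have han : ∀ k, nrm (a k).1.1 = 1 := by
    intro k
    rw [← norm_iota, ha.1 k]
    norm_num
  have hpn : ∀ k σ, nrm (p k σ).1.1 = amp k σ ^ 2 := by
    intro k σ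
    show nrm (((amp k σ : ℝ) : ℂ) • (a (sec k σ)).1.1) = _
    rw [nrm_smul, han, Complex.norm_real, Real.norm_eq_abs, sq_abs, mul_one]
  have hN : Ntot (ofS p).u = 3 := by
    show ∑ k, ∑ σ, nrm (p k σ).1.1 = 3
    simp only [hpn, amp_sum]
    simp
  have hqa : ∀ k, qS L (a k) ≤ 0 := by
    intro k
    fin_cases k
    · show qS L (a 0) ≤ 0
      linarith
    · show qS L (a 1) ≤ 0
      linarith
    · show qS L (a 2) ≤ 0
      linarith
  have hK : Ktot (ofS p).g ≤ 108 := by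
    have e : ∀ k σ, kin (p k σ).1.2 ≤ amp k σ ^ 2 * 36 := by
      intro k σ
      show kin (((amp k σ : ℝ) : ℂ) • (a (sec k σ)).1.2) ≤ _
      rw [kin_smul, Complex.norm_real, Real.norm_eq_abs, sq_abs]
      have := (H1s.h1 (a (sec k σ))).kin_le L
      rw [han] at this
      have h2 := hqa (sec k σ)
      unfold qS at h2
      exact mul_le_mul_of_nonneg_left (by linarith) (sq_nonneg _)
    calc Ktot (ofS p).g ≤ ∑ k, ∑ σ, amp k σ ^ 2 * 36 :=
          Finset.sum_le_sum fun k _ => Finset.sum_le_sum fun σ _ => e k σ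
      _ = 108 := by
          simp only [← Finset.sum_mul, amp_sum]
          norm_num
  have hru : (fun k σ => (r k σ).1.1) = fun k σ => ∑ j, cV k σ j • well L W j := by
    funext k σ
    exact coe_sum_fst _ _ _
  have hrn : ∀ k σ, nrm (r k σ).1.1 = amp k σ ^ 2 := by
    intro k σ
    rw [← norm_iota]
    have e : iota (r k σ) = ∑ j, cV k σ j • iota (wS h j) := by
      simp only [r, map_sum, map_smul]
    have e2 := (ortho_wS h).inner_sum (cV k σ) (cV k σ) Finset.univ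
    rw [← e, inner_self_eq_norm_sq_to_K] at e2
    have e3 : ∑ j, conj (cV k σ j) * cV k σ j = ((∑ j, ‖cV k σ j‖ ^ 2 : ℝ) : ℂ) := by
      push_cast
      exact Finset.sum_congr rfl fun j _ => Complex.conj_mul' _
    rw [e3] at e2
    have e4 : ‖iota (r k σ)‖ ^ 2 = ∑ j, ‖cV k σ j‖ ^ 2 := by
      apply Complex.ofReal_injective
      rw [← e2]
      push_cast
      rfl
    rw [e4]
    simp only [norm_cV]
    simp
    ring
  have hNr : Ntot (fun k σ => (r k σ).1.1) = 3 := by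
    show ∑ k, ∑ σ, nrm (r k σ).1.1 = 3
    simp only [hrn, amp_sum]
    simp
  have hdiff : Ntot ((fun k σ => (r k σ).1.1) - (ofS p).u) ≤ 18 * δ / g := by
    have e : ∀ k σ, nrm (r k σ - p k σ).1.1 ≤ amp k σ ^ 2 * (6 * δ / g) := by
      intro k σ
      rw [← norm_iota]
      have e1 : iota (r k σ - p k σ) = -(((amp k σ : ℝ) : ℂ) • (iota (a (sec k σ)) - ∑ j : Fin 3,
          (om ^ (j.val * (sec k σ).val) / (Real.sqrt 3 : ℝ)) • iota (wS h j))) := by
        simp only [r, p, map_sub, map_sum, map_smul, smul_sub, Finset.smul_sum, smul_smul, cV,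
          neg_sub]
      rw [e1, norm_neg, norm_smul, mul_pow, Complex.norm_real, Real.norm_eq_abs, sq_abs]
      exact mul_le_mul_of_nonneg_left (hd _) (sq_nonneg _)
    calc Ntot ((fun k σ => (r k σ).1.1) - (ofS p).u) ≤ ∑ k, ∑ σ, amp k σ ^ 2 * (6 * δ / g) :=
          Finset.sum_le_sum fun k _ => Finset.sum_le_sum fun σ _ => e k σ
      _ = 18 * δ / g := by
          simp only [← Finset.sum_mul, amp_sum]
          simp
          ring
  refine ⟨ofS p, ?_, ?_, ?_⟩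
  · ext k k'
    rw [gram_toS]
    have e : ∀ k σ, toS (ofS p) k σ = p k σ := fun _ _ => rfl
    have ho := orthonormal_iff_ite.1 ha
    have hh' : ((Real.sqrt 2 : ℝ) : ℂ)⁻¹ * ((Real.sqrt 2 : ℝ) : ℂ)⁻¹ = 1 / 2 := by
      rw [← mul_inv, ← Complex.ofReal_mul, Real.mul_self_sqrt (by norm_num)]
      norm_num
    simp only [e, p, map_smul, inner_smul_left, inner_smul_right, ho, Complex.conj_ofReal,
      Fin.sum_univ_two]
    fin_cases k <;> fin_cases k' <;> simp [amp, sec, hh'] <;> norm_num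
  · have e : ∀ k σ, qf L (p k σ).1.1 (p k σ).1.2 = amp k σ ^ 2 * qS L (a (sec k σ)) := by
      intro k σ
      show qf L (((amp k σ : ℝ) : ℂ) • (a (sec k σ)).1.1)
        (((amp k σ : ℝ) : ℂ) • (a (sec k σ)).1.2) = _
      rw [qf_smul, Complex.norm_real, Real.norm_eq_abs, sq_abs]
      rfl
    show ∑ k, ∑ σ, qf L (p k σ).1.1 (p k σ).1.2 ≤ _
    simp only [e, Fin.sum_univ_three, Fin.sum_univ_two]
    simp only [amp, sec, Matrix.cons_val_zero, Matrix.cons_val_one, Matrix.cons_val_two,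
      Matrix.head_cons, Matrix.tail_cons, Matrix.cons_val_fin_one, hh]
    linarith
  · have i2 := Iint_le (ofS p) hM
    have i3 := Jm_perturb hM hs (fun k σ => (r k σ).1.1) (ofS p).u
      (fun k σ => (H1s.h1 (r k σ)).memL2) (fun k σ => ((ofS p).h1 k σ).memL2)
    have i4 := (Jm_wells h hδ hM cV).2
    rw [← hru] at i4
    have m3 : ∑ i, ∑ σ, ∑ j, ‖cV i σ j‖ ^ 2 = 3 := by
      simp only [norm_cV]
      have : ∀ i σ, ∑ _j : Fin 3, amp i σ ^ 2 / 3 = amp i σ ^ 2 := by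
        intro i σ
        simp
        ring
      simp only [this, amp_sum]
      simp
    have d3 : ∑ j, detj cV j = 3 / 4 - (840 / 841 + 1 / 2) ^ 2 / 3 := by
      simp only [detj_cV]
      norm_num
    rw [m3, d3] at i4
    rw [hN, hNr] at i3
    rw [hN] at i2
    have k1 : 2 / M * Ktot (ofS p).g * 3 ≤ 648 / M := by
      have : 2 / M * Ktot (ofS p).g ≤ 2 / M * 108 :=
        mul_le_mul_of_nonneg_left hK (by positivity)
      have e : 648 / M = 2 / M * 108 * 3 := by ring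
      linarith
    have k2 : (1 + 1 / s) * M * Ntot ((fun k σ => (r k σ).1.1) - (ofS p).u) * (3 + 3) ≤
        (1 + 1 / s) * M * (108 * δ / g) := by
      have : (1 + 1 / s) * M * Ntot ((fun k σ => (r k σ).1.1) - (ofS p).u) ≤
          (1 + 1 / s) * M * (18 * δ / g) := mul_le_mul_of_nonneg_left hdiff (by positivity)
      have e : (1 + 1 / s) * M * (108 * δ / g) = (1 + 1 / s) * M * (18 * δ / g) * (3 + 3) := by ring
      linarith
    have k3 := mul_le_mul_of_nonneg_left i4 (by positivity : (0 : ℝ) ≤ 1 + s)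
    have e : δ / 2 * 3 ^ 2 = 9 / 2 * δ := by ring
    rw [e] at k3
    linarith

end Pool.Agent.MP_e62678_mp.H54
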