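import Pool.Agent.MP_e62678_mp.H54.Hardy

/-! The explicit subsolution used in the tunnelling estimate. -/

open MeasureTheory Filter Topology
open scoped ComplexConjugate

namespace Pool.Agent.MP_e62678_mp.H54

/-- The linear form `x 1 - x 2`. -/
noncomputable def tn_T : E3 →L[ℝ] ℝ :=
  (EuclideanSpace.proj 1 : E3 →L[ℝ] ℝ) - (EuclideanSpace.proj 2 : E3 →L[ℝ] ℝ)

/-- Its coefficients. -/
def tn_e : Fin 3 → ℝ := ![0, 1, -1]

/-- Regularised distance to the mirror plane. -/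
noncomputable def tn_m (a : ℝ) (x : E3) : ℝ := Real.sqrt ((x 1 - x 2) ^ 2 + a ^ 2)

/-- The subsolution. -/
noncomputable def tn_G (a : ℝ) (x : E3) : ℝ := Real.exp (-2 * tn_m a x - ‖x‖ ^ 2)

/-- Its logarithmic gradient. -/
noncomputable def tn_l (a : ℝ) (k : Fin 3) (x : E3) : ℝ :=
  -2 * ((x 1 - x 2) / tn_m a x) * tn_e k - 2 * x k

/-- The derivative of the logarithmic gradient. -/
noncomputable def tn_dl (a : ℝ) (k : Fin 3) (x : E3) : ℝ :=
  -2 * (a ^ 2 / tn_m a x ^ 3) * tn_e k ^ 2 - 2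

theorem tn_T_single (k : Fin 3) : tn_T (EuclideanSpace.single k 1) = tn_e k := by
  fin_cases k <;> simp [tn_T, tn_e]

theorem tn_hT (x : E3) : HasFDerivAt (fun y : E3 => y 1 - y 2) tn_T x := tn_T.hasFDerivAt

theorem tn_m_pos {a : ℝ} (ha : 0 < a) (x : E3) : 0 < tn_m a x :=
  Real.sqrt_pos.mpr (by positivity)

theorem tn_m_sq (a : ℝ) (x : E3) : tn_m a x ^ 2 = (x 1 - x 2) ^ 2 + a ^ 2 :=
  Real.sq_sqrt (by positivity)

theorem tn_le_m (a : ℝ) (x : E3) : a ≤ tn_m a x :=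
  Real.le_sqrt_of_sq_le (by nlinarith [sq_nonneg (x 1 - x 2)])

theorem tn_abs_le_m (a : ℝ) (x : E3) : |x 1 - x 2| ≤ tn_m a x :=
  Real.abs_le_sqrt (by nlinarith [sq_nonneg a])

theorem tn_sqrt_deriv {a : ℝ} (ha : 0 < a) (t : ℝ) :
    HasDerivAt (fun s : ℝ => Real.sqrt (s ^ 2 + a ^ 2)) (t / Real.sqrt (t ^ 2 + a ^ 2)) t := by
  have h1 : HasDerivAt (fun s : ℝ => s ^ 2 + a ^ 2) (2 * t) t := by
    simpa using (hasDerivAt_pow 2 t).add_const (a ^ 2)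
  have h2 := h1.sqrt (by positivity : (0 : ℝ) < t ^ 2 + a ^ 2).ne'
  rwa [mul_div_mul_left _ _ (two_ne_zero)] at h2

theorem tn_hm {a : ℝ} (ha : 0 < a) (x : E3) :
    HasFDerivAt (tn_m a) (((x 1 - x 2) / tn_m a x) • tn_T) x :=
  HasDerivAt.comp_hasFDerivAt (h₂ := fun s : ℝ => Real.sqrt (s ^ 2 + a ^ 2))
    (f := fun y : E3 => y 1 - y 2) x (tn_sqrt_deriv ha (x 1 - x 2)) (tn_hT x)

theorem tn_hq {a : ℝ} (ha : 0 < a) (x : E3) :
    HasFDerivAt (fun y : E3 => (y 1 - y 2) / tn_m a y) ((a ^ 2 / tn_m a x ^ 3) • tn_T) x := by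
  have h3 := (tn_m_pos ha x).ne'
  have h1 : HasDerivAt (fun s : ℝ => s / Real.sqrt (s ^ 2 + a ^ 2))
      (a ^ 2 / tn_m a x ^ 3) (x 1 - x 2) := by
    have h4 := (hasDerivAt_id' (x 1 - x 2)).div (tn_sqrt_deriv ha (x 1 - x 2)) h3
    have h5 := tn_m_sq a x
    have h6 : a ^ 2 / tn_m a x ^ 3 = (1 * tn_m a x - (x 1 - x 2) * ((x 1 - x 2) / tn_m a x)) /
        tn_m a x ^ 2 := by
      field_simp
      linarith
    rw [h6]
    exact h4
  exact HasDerivAt.comp_hasFDerivAt (h₂ := fun s : ℝ => s / Real.sqrt (s ^ 2 + a ^ 2))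
    (f := fun y : E3 => y 1 - y 2) x h1 (tn_hT x)

theorem tn_hn (x : E3) : HasFDerivAt (fun y : E3 => ‖y‖ ^ 2) (2 • innerSL ℝ x) x :=
  (hasStrictFDerivAt_norm_sq x).hasFDerivAt

theorem tn_pd_eq {F : Type} [NormedAddCommGroup F] [NormedSpace ℝ F] {f : E3 → F}
    {f' : E3 →L[ℝ] F} {x : E3} (h : HasFDerivAt f f' x) (k : Fin 3) :
    pd k f x = f' (EuclideanSpace.single k 1) := by
  rw [pd, h.fderiv]

theorem tn_hG {a : ℝ} (ha : 0 < a) (x : E3) : HasFDerivAt (tn_G a)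
    (tn_G a x • ((-2 : ℝ) • (((x 1 - x 2) / tn_m a x) • tn_T) - 2 • innerSL ℝ x)) x :=
  (((tn_hm ha x).const_mul (-2)).sub (tn_hn x)).exp

theorem tn_pd_G {a : ℝ} (ha : 0 < a) (k : Fin 3) (x : E3) :
    pd k (tn_G a) x = tn_G a x * tn_l a k x := by
  rw [tn_pd_eq (tn_hG ha x)]
  simp [tn_T_single, tn_l, EuclideanSpace.inner_single_right]
  left
  ring

theorem tn_hl {a : ℝ} (ha : 0 < a) (k : Fin 3) (x : E3) : HasFDerivAt (tn_l a k)
    (tn_e k • ((-2 : ℝ) • ((a ^ 2 / tn_m a x ^ 3) • tn_T)) -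
      (2 : ℝ) • (EuclideanSpace.proj k : E3 →L[ℝ] ℝ)) x :=
  (((tn_hq ha x).const_mul (-2)).mul_const (tn_e k)).sub
    (((EuclideanSpace.proj k : E3 →L[ℝ] ℝ).hasFDerivAt).const_mul 2)

theorem tn_pd_H {a : ℝ} (ha : 0 < a) (k : Fin 3) (x : E3) :
    pd k (fun y => tn_G a y * tn_l a k y) x = tn_G a x * (tn_l a k x ^ 2 + tn_dl a k x) := by
  have h1 := tn_pd_G ha k x
  rw [tn_pd_eq (tn_hG ha x)] at h1
  rw [tn_pd_eq ((tn_hG ha x).fun_mul (tn_hl ha k x))]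
  generalize (tn_G a x • ((-2 : ℝ) • (((x 1 - x 2) / tn_m a x) • tn_T) - 2 • innerSL ℝ x)) = D
    at h1 ⊢
  simp [tn_T_single, tn_dl, h1]
  ring

theorem tn_cont_m (a : ℝ) : Continuous (tn_m a) := by
  unfold tn_m
  fun_prop

theorem tn_cont_G (a : ℝ) : Continuous (tn_G a) := by
  have := tn_cont_m a
  unfold tn_G
  fun_prop

theorem tn_cont_l {a : ℝ} (ha : 0 < a) (k : Fin 3) : Continuous (tn_l a k) := by
  have h := tn_cont_m a
  have h1 : Continuous fun x : E3 => (x 1 - x 2) / tn_m a x :=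
    Continuous.div (by fun_prop) h fun x => (tn_m_pos ha x).ne'
  unfold tn_l
  fun_prop

theorem tn_cont_dl {a : ℝ} (ha : 0 < a) (k : Fin 3) : Continuous (tn_dl a k) := by
  have h := tn_cont_m a
  have h1 : Continuous fun x : E3 => a ^ 2 / tn_m a x ^ 3 :=
    Continuous.div (by fun_prop) (by fun_prop) fun x => (pow_pos (tn_m_pos ha x) 3).ne'
  unfold tn_dl
  fun_prop

theorem tn_contDiff_G {a : ℝ} (ha : 0 < a) : ContDiff ℝ 1 (tn_G a) := by
  have h1 : ContDiff ℝ 1 (tn_m a) :=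
    ContDiff.sqrt (by fun_prop) fun x => (by positivity : (0 : ℝ) < (x 1 - x 2) ^ 2 + a ^ 2).ne'
  have h2 : ContDiff ℝ 1 fun x : E3 => ‖x‖ ^ 2 := contDiff_norm_sq ℝ
  exact ((contDiff_const.mul h1).sub h2).exp

theorem tn_G_pos (a : ℝ) (x : E3) : 0 < tn_G a x := Real.exp_pos _

theorem tn_G_le (a : ℝ) (x : E3) : tn_G a x ≤ Real.exp (-‖x‖ ^ 2) := by
  have : 0 ≤ tn_m a x := Real.sqrt_nonneg _
  exact Real.exp_le_exp.mpr (by linarith)

theorem tn_G_le' (a : ℝ) (x : E3) : tn_G a x ≤ Real.exp 1 * Real.exp (-‖x‖) := by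
  refine (tn_G_le a x).trans ?_
  rw [← Real.exp_add]
  exact Real.exp_le_exp.mpr (by nlinarith [sq_nonneg (‖x‖ - 1), norm_nonneg x])

theorem tn_coord_le (x : E3) (k : Fin 3) : |x k| ≤ ‖x‖ := by
  simpa using PiLp.norm_apply_le x k

theorem tn_G_ge {a : ℝ} (ha : 0 < a) (ha1 : a ≤ 1) (x : E3) :
    Real.exp (-(4 * ‖x‖ + 2 + ‖x‖ ^ 2)) ≤ tn_G a x := by
  have h1 : tn_m a x ≤ 2 * ‖x‖ + 1 := by
    have h2 := abs_le.mp (tn_coord_le x 1)
    have h3 := abs_le.mp (tn_coord_le x 2)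
    refine Real.sqrt_le_iff.mpr ⟨by positivity, ?_⟩
    have h4 : (x 1 - x 2) ^ 2 ≤ (2 * ‖x‖) ^ 2 := sq_le_sq' (by linarith) (by linarith)
    nlinarith [norm_nonneg x]
  exact Real.exp_le_exp.mpr (by linarith)

theorem tn_l_le {a : ℝ} (ha : 0 < a) (k : Fin 3) (x : E3) : |tn_l a k x| ≤ 2 + 2 * ‖x‖ := by
  have h1 : |(x 1 - x 2) / tn_m a x| ≤ 1 := by
    rw [abs_div, abs_of_pos (tn_m_pos ha x), div_le_one (tn_m_pos ha x)]
    exact tn_abs_le_m a x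
  have h2 : |tn_e k| ≤ 1 := by fin_cases k <;> simp [tn_e]
  have h3 := tn_coord_le x k
  unfold tn_l
  refine (abs_sub _ _).trans ?_
  rw [abs_mul, abs_mul, abs_mul]
  have h4 : |(x 1 - x 2) / tn_m a x| * |tn_e k| ≤ 1 :=
    mul_le_one₀ h1 (abs_nonneg _) h2
  norm_num
  nlinarith

theorem tn_G_sq_le (a : ℝ) (x : E3) : tn_G a x ^ 2 ≤ Real.exp 2 * Real.exp (-‖x‖) := by
  have h1 := pow_le_pow_left₀ (tn_G_pos a x).le (tn_G_le a x) 2
  refine h1.trans ?_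
  rw [← Real.exp_add, ← Real.exp_nat_mul]
  exact Real.exp_le_exp.mpr (by push_cast; nlinarith [sq_nonneg (‖x‖ - 1), norm_nonneg x])

theorem tn_H_sq_le {a : ℝ} (ha : 0 < a) (k : Fin 3) (x : E3) :
    (tn_G a x * tn_l a k x) ^ 2 ≤ 4 * Real.exp 2 * Real.exp (-‖x‖) := by
  have h1 : |tn_l a k x| ≤ 2 * Real.exp ‖x‖ := by
    have := Real.add_one_le_exp ‖x‖
    linarith [tn_l_le ha k x]
  have h2 : |tn_G a x * tn_l a k x| ≤ Real.exp (-‖x‖ ^ 2) * (2 * Real.exp ‖x‖) := by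
    rw [abs_mul, abs_of_pos (tn_G_pos a x)]
    exact mul_le_mul (tn_G_le a x) h1 (abs_nonneg _) (Real.exp_pos _).le
  have h3 := pow_le_pow_left₀ (abs_nonneg _) h2 2
  rw [sq_abs] at h3
  refine h3.trans ?_
  have h4 : (Real.exp (-‖x‖ ^ 2) * (2 * Real.exp ‖x‖)) ^ 2 =
      4 * Real.exp (2 * (-‖x‖ ^ 2 + ‖x‖)) := by
    rw [show (2 : ℝ) * (-‖x‖ ^ 2 + ‖x‖) = ((2 : ℕ) : ℝ) * (-‖x‖ ^ 2 + ‖x‖) by norm_num,
      Real.exp_nat_mul, Real.exp_add]
    ring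
  rw [h4, mul_assoc, ← Real.exp_add]
  refine mul_le_mul_of_nonneg_left (Real.exp_le_exp.mpr ?_) (by norm_num)
  nlinarith [sq_nonneg (‖x‖ - 1), norm_nonneg x]

/-- The pointwise subsolution inequality. -/
theorem tn_sub {a μ : ℝ} (ha : 0 < a) (ha1 : a ≤ 1) (hμ : μ ≤ 1) (x : E3) :
    (x 1 - x 2) ^ 2 * (μ - ∑ k, (tn_l a k x ^ 2 + tn_dl a k x)) ≤ 12 * a ∨
      μ - ∑ k, (tn_l a k x ^ 2 + tn_dl a k x) ≤ 0 := by
  left
  have hm := tn_m_pos ha x
  have hm2 := tn_m_sq a x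
  have ham := tn_le_m a x
  set m := tn_m a x with hmdef
  set t := x 1 - x 2 with ht
  set q := t / m with hq
  have hqt : 0 ≤ q * t := by
    rw [hq, div_mul_eq_mul_div]
    exact div_nonneg (mul_self_nonneg t) hm.le
  have hq2 : q ^ 2 = 1 - a ^ 2 / m ^ 2 := by
    rw [hq, div_pow]
    field_simp
    linarith
  have h1 : μ - ∑ k, (tn_l a k x ^ 2 + tn_dl a k x) ≤ 8 * (a ^ 2 / m ^ 2) + 4 * (a ^ 2 / m ^ 3) := by
    simp only [Fin.sum_univ_three, tn_l, tn_dl, tn_e, ← hmdef, ← ht, ← hq]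
    simp only [Matrix.cons_val_zero, Matrix.cons_val_one, Matrix.cons_val]
    have h2 : q * t = q * x 1 - q * x 2 := by rw [ht]; ring
    nlinarith [sq_nonneg (x 0), sq_nonneg (x 1), sq_nonneg (x 2)]
  have h3 : t ^ 2 ≤ m ^ 2 := by nlinarith [sq_nonneg a]
  have h4 : m ^ 2 * (8 * (a ^ 2 / m ^ 2) + 4 * (a ^ 2 / m ^ 3)) = 8 * a ^ 2 + 4 * (a * (a / m)) := by
    field_simp
  have h5 : a / m ≤ 1 := (div_le_one hm).mpr ham
  have h6 : 0 ≤ 8 * (a ^ 2 / m ^ 2) + 4 * (a ^ 2 / m ^ 3) := by positivity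
  calc t ^ 2 * (μ - ∑ k, (tn_l a k x ^ 2 + tn_dl a k x))
      ≤ t ^ 2 * (8 * (a ^ 2 / m ^ 2) + 4 * (a ^ 2 / m ^ 3)) :=
        mul_le_mul_of_nonneg_left h1 (sq_nonneg t)
    _ ≤ m ^ 2 * (8 * (a ^ 2 / m ^ 2) + 4 * (a ^ 2 / m ^ 3)) := mul_le_mul_of_nonneg_right h3 h6
    _ ≤ 12 * a := by rw [h4]; nlinarith

theorem tn_cont_pd {f : E3 → ℝ} (hf : ContDiff ℝ 1 f) (k : Fin 3) : Continuous (pd k f) :=
  (hf.continuous_fderiv (by simp)).clm_apply continuous_const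

theorem tn_cs_pd {f : E3 → ℝ} (hc : HasCompactSupport f) (k : Fin 3) :
    HasCompactSupport (pd k f) :=
  hc.fderiv_apply ℝ _

/-- The mixed term without the attraction is small. -/
theorem tn_mixed {a μ K : ℝ} (ha : 0 < a) (ha1 : a ≤ 1) (hμ : μ ≤ 1) (hK : 0 ≤ K) {f : E3 → ℝ}
    (hf : ContDiff ℝ 1 f) (hc : HasCompactSupport f) (h0 : ∀ x, 0 ≤ f x)
    (h1 : ∀ x, f x ≤ K * (x 1 - x 2) ^ 2) :
    (∑ k, ∫ x, pd k f x * (tn_G a x * tn_l a k x)) + μ * ∫ x, f x * tn_G a x ≤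
      a * (12 * K * Real.exp 1 * ∫ x : E3, Real.exp (-‖x‖)) := by
  have hG := tn_cont_G a
  have hfc := hf.continuous
  have i1 : ∀ k, Integrable fun x => f x * (tn_G a x * (tn_l a k x ^ 2 + tn_dl a k x)) := by
    intro k
    have hl := tn_cont_l ha k
    have hdl := tn_cont_dl ha k
    exact Continuous.integrable_of_hasCompactSupport (by fun_prop) hc.mul_right
  have i2 : Integrable fun x => f x * tn_G a x :=
    Continuous.integrable_of_hasCompactSupport (by fun_prop) hc.mul_right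
  have e1 : ∀ k, ∫ x, pd k f x * (tn_G a x * tn_l a k x) =
      -∫ x, f x * (tn_G a x * (tn_l a k x ^ 2 + tn_dl a k x)) := by
    intro k
    have hl := tn_cont_l ha k
    have hpd := tn_cont_pd hf k
    have h2 := integral_mul_fderiv_eq_neg_fderiv_mul_of_integrable (μ := (volume : Measure E3))
      (f := f) (g := fun y => tn_G a y * tn_l a k y) (v := EuclideanSpace.single k 1)
      (Continuous.integrable_of_hasCompactSupport (hpd.mul (by fun_prop))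
        (tn_cs_pd hc k).mul_right)
      (by
        have h3 := i1 k
        simp only [← tn_pd_H ha] at h3
        exact h3)
      (Continuous.integrable_of_hasCompactSupport (by fun_prop) hc.mul_right)
      (fun x _ => hf.differentiable (by simp) x)
      (fun x _ => ((tn_hG ha x).mul (tn_hl ha k x)).differentiableAt)
    simp only [← tn_pd_H ha]
    exact (neg_eq_iff_eq_neg.mpr h2).symm
  rw [Finset.sum_congr rfl fun k _ => e1 k]
  rw [Finset.sum_neg_distrib, ← integral_finsetSum _ fun k _ => i1 k, ← integral_const_mul,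
    neg_add_eq_sub, ← integral_sub (i2.const_mul μ) (integrable_finsetSum _ fun k _ => i1 k),
    ← integral_const_mul, ← integral_const_mul]
  refine integral_mono ((i2.const_mul μ).sub (integrable_finsetSum _ fun k _ => i1 k))
    ((integrable_exp_neg_norm.const_mul _).const_mul _) fun x => ?_
  have h2 : μ * (f x * tn_G a x) - ∑ k, f x * (tn_G a x * (tn_l a k x ^ 2 + tn_dl a k x)) =
      tn_G a x * (f x * (μ - ∑ k, (tn_l a k x ^ 2 + tn_dl a k x))) := by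
    rw [← Finset.mul_sum, ← Finset.mul_sum]
    ring
  have h3 : f x * (μ - ∑ k, (tn_l a k x ^ 2 + tn_dl a k x)) ≤ K * (12 * a) := by
    by_cases h4 : μ - ∑ k, (tn_l a k x ^ 2 + tn_dl a k x) ≤ 0
    · exact (mul_nonpos_of_nonneg_of_nonpos (h0 x) h4).trans (by positivity)
    · have h5 := (tn_sub ha ha1 hμ x).resolve_right h4
      refine (mul_le_mul_of_nonneg_right (h1 x) (not_le.mp h4).le).trans ?_
      rw [mul_assoc]
      exact mul_le_mul_of_nonneg_left h5 hK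
  simp only
  rw [h2]
  calc tn_G a x * (f x * (μ - ∑ k, (tn_l a k x ^ 2 + tn_dl a k x)))
      ≤ tn_G a x * (K * (12 * a)) := mul_le_mul_of_nonneg_left h3 (tn_G_pos a x).le
    _ ≤ Real.exp 1 * Real.exp (-‖x‖) * (K * (12 * a)) :=
        mul_le_mul_of_nonneg_right (tn_G_le' a x) (by positivity)
    _ = a * (12 * K * Real.exp 1 * Real.exp (-‖x‖)) := by ring

end Pool.Agent.MP_e62678_mp.H54
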