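import Pool.Agent.MP_e62678_mp.H54.Ims

/-! Construction of the three wells. -/

open MeasureTheory Filter Topology
open scoped ComplexConjugate

namespace Pool.Agent.MP_e62678_mp.H54

theorem wex_nice {L : ℝ} {W : E3 → ℝ} (h1 : ContDiff ℝ 1 W) (h2 : HasCompactSupport W)
    (j : Fin 3) : Nice (well L W j) := by
  refine ⟨?_, ?_⟩
  · unfold well
    exact Complex.ofRealCLM.contDiff.comp (h1.comp (contDiff_id.sub contDiff_const))
  · have h3 : HasCompactSupport (fun x : E3 => W (x - site L j)) :=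
      h2.comp_homeomorph (Homeomorph.subRight (site L j))
    exact h3.comp_left (g := fun t : ℝ => (t : ℂ)) (by simp)

theorem wex_nrm (L : ℝ) (W : E3 → ℝ) (j : Fin 3) : nrm (well L W j) = ∫ x, W x ^ 2 := by
  unfold nrm well
  rw [← integral_sub_right_eq_self (fun x : E3 => W x ^ 2) (site L j)]
  refine integral_congr_ae (Eventually.of_forall fun x => ?_)
  simp

theorem wex_ortho {L : ℝ} {W : E3 → ℝ} (h1 : ContDiff ℝ 1 W) (h2 : HasCompactSupport W)
    (hu : ∫ x, W x ^ 2 = 1)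
    (hd : ∀ j k, j ≠ k → ∀ x, W (x - site L j) = 0 ∨ W (x - site L k) = 0) (j k : Fin 3) :
    ip (well L W j) (well L W k) = if j = k then 1 else 0 := by
  split_ifs with hjk
  · subst hjk
    rw [ip_self (wex_nice h1 h2 j).memLp, wex_nrm, hu]
    simp
  · unfold ip
    have : (fun x => conj (well L W j x) * well L W k x) = fun _ => 0 := by
      funext x
      rcases hd j k hjk x with h | h <;> simp [well, h]
    rw [this]
    simp

theorem Wells.nice {g cU δ L : ℝ} {W : E3 → ℝ} (h : Wells g cU δ L W) (j : Fin 3) :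
    Nice (well L W j) := wex_nice h.smooth h.compact j

theorem Wells.disj {g cU δ L : ℝ} {W : E3 → ℝ} (h : Wells g cU δ L W) {j k : Fin 3} (hjk : j ≠ k)
    (x : E3) : W (x - site L j) = 0 ∨ W (x - site L k) = 0 := by
  by_contra hc
  rw [not_or] at hc
  have := h.sep j k hjk x x hc.1 hc.2
  simp at this
  linarith

theorem Wells.ortho {g cU δ L : ℝ} {W : E3 → ℝ} (h : Wells g cU δ L W) (j k : Fin 3) :
    ip (well L W j) (well L W k) = if j = k then 1 else 0 :=
  wex_ortho h.smooth h.compact h.unit (fun _ _ hjk x => h.disj hjk x) j k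

theorem Wells.well_prm {g cU δ L : ℝ} {W : E3 → ℝ} (h : Wells g cU δ L W)
    (π : Equiv.Perm (Fin 3)) (j : Fin 3) (x : E3) :
    well L W j (prm π x) = well L W (π j) x := by
  unfold well
  rw [← prm_site π L j, ← prm_sub, h.sym]

/-- At a zero of a nonnegative well its gradient vanishes. -/
theorem wex_pd_zero {L : ℝ} {W : E3 → ℝ} (h1 : ContDiff ℝ 1 W) (h0 : ∀ x, 0 ≤ W x) (j k : Fin 3)
    (x : E3) (hx : W (x - site L j) = 0) : pd k (well L W j) x = 0 := by
  have hm : IsLocalMin (fun y : E3 => W (y - site L j)) x :=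
    Eventually.of_forall fun y => by simpa [hx] using h0 (y - site L j)
  have hz := hm.fderiv_eq_zero
  have hd : DifferentiableAt ℝ (fun y : E3 => W (y - site L j)) x :=
    ((h1.comp (contDiff_id.sub contDiff_const)).differentiable (by simp)) x
  have h3 := (Complex.ofRealCLM.hasFDerivAt.comp x hd.hasFDerivAt).fderiv
  unfold pd
  have h4 : well L W j = Complex.ofRealCLM ∘ fun y : E3 => W (y - site L j) := rfl
  rw [h4, h3, hz]
  simp

theorem wex_sq_sum (α a : Fin 3 → ℂ) (h : ∀ j k, j ≠ k → a j = 0 ∨ a k = 0) :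
    ‖∑ j, α j * a j‖ ^ 2 = ∑ j, ‖α j‖ ^ 2 * ‖a j‖ ^ 2 := by
  have h01 := h 0 1 (by decide)
  have h02 := h 0 2 (by decide)
  have h12 := h 1 2 (by decide)
  simp only [Fin.sum_univ_three]
  rcases h01 with h01 | h01 <;> rcases h02 with h02 | h02 <;> rcases h12 with h12 | h12 <;>
    simp [*, mul_pow]

/-- Combinations of the wells have low energy (the supports are disjoint). -/
theorem Wells.low_comb {g cU δ L : ℝ} {W : E3 → ℝ} (h : Wells g cU δ L W) (α : Fin 3 → ℂ) :
    qf L (∑ j, α j • well L W j) (∑ j, α j • grad (well L W j)) ≤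
      (-1 / 4 + δ) * ∑ j, ‖α j‖ ^ 2 := by
  have hk : kin (∑ j, α j • grad (well L W j)) = ∑ j, ‖α j‖ ^ 2 * kin (grad (well L W j)) := by
    unfold kin
    simp only [Finset.mul_sum]
    rw [Finset.sum_comm]
    refine Finset.sum_congr rfl fun k _ => ?_
    unfold nrm
    simp only [← integral_const_mul]
    rw [← integral_finsetSum]
    · refine integral_congr_ae (Eventually.of_forall fun x => ?_)
      have := wex_sq_sum α (fun j => pd k (well L W j) x) (fun j j' hj => by
        rcases h.disj hj x with h0 | h0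
        · exact Or.inl (wex_pd_zero h.smooth h.nonneg j k x h0)
        · exact Or.inr (wex_pd_zero h.smooth h.nonneg j' k x h0))
      simpa [Finset.sum_apply, grad] using this
    · intro j _
      exact (integrable_sq ((h.nice j).isH1.gradL2 k)).const_mul _
  have hc : ∀ a, cou a (∑ j, α j • well L W j) = ∑ j, ‖α j‖ ^ 2 * cou a (well L W j) := by
    intro a
    unfold cou
    simp only [← integral_const_mul]
    rw [← integral_finsetSum]
    · refine integral_congr_ae (Eventually.of_forall fun x => ?_)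
      have := wex_sq_sum α (fun j => well L W j x) (fun j j' hj => by
        rcases h.disj hj x with h0 | h0
        · exact Or.inl (by simp [well, h0])
        · exact Or.inr (by simp [well, h0]))
      simp only [Finset.sum_apply, Pi.smul_apply, smul_eq_mul]
      rw [this, Finset.sum_div]
      exact Finset.sum_congr rfl fun j _ => by ring
    · intro j _
      exact ((h.nice j).isH1.integrable_cou a).const_mul _
  have hq : qf L (∑ j, α j • well L W j) (∑ j, α j • grad (well L W j)) =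
      ∑ j, ‖α j‖ ^ 2 * qf L (well L W j) (grad (well L W j)) := by
    unfold qf
    rw [hk]
    simp only [hc, mul_sub, Finset.sum_sub_distrib, Finset.mul_sum]
    rw [Finset.sum_comm]
  rw [hq, Finset.mul_sum]
  refine Finset.sum_le_sum fun j _ => ?_
  rw [mul_comm]
  exact mul_le_mul_of_nonneg_right (h.low j) (by positivity)

/-- The gap estimate extends to `H¹`. -/
theorem Wells.gap_h1 {g cU δ L : ℝ} {W : E3 → ℝ} (h : Wells g cU δ L W) {u : E3 → ℂ}
    {G : Fin 3 → E3 → ℂ} (hu : IsH1 u G) :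
    g * (nrm u - ∑ j, ‖ip (well L W j) u‖ ^ 2) ≤ qf L u G + (1 / 4 + δ) * nrm u := by
  obtain ⟨v, hv, h1, h2⟩ := hu.approx
  obtain ⟨t1, -, -, t4, t5⟩ := hu.tendsto_of_approx v hv h1 h2
  refine le_of_tendsto_of_tendsto' (b := atTop)
    (f := fun n => g * (nrm (v n) - ∑ j, ‖ip (well L W j) (v n)‖ ^ 2))
    (g := fun n => qf L (v n) (grad (v n)) + (1 / 4 + δ) * nrm (v n)) ?_ ?_
    (fun n => h.gap (v n) (hv n))
  · refine Tendsto.const_mul _ (t1.sub (tendsto_finsetSum _ fun j _ => ?_))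
    exact ((t5 _ (h.nice j).memLp).norm).pow 2
  · exact (t4 L).add (t1.const_mul _)

/-- The angle function at scale one. -/
noncomputable def wexT (y : E3) : ℝ := Real.pi / 2 * Real.smoothTransition (‖y‖ ^ 2 - 1)

theorem wexT_contDiff : ContDiff ℝ 1 wexT := by
  unfold wexT
  exact contDiff_const.mul (Real.smoothTransition.contDiff.comp
    ((contDiff_norm_sq ℝ).sub contDiff_const))

theorem wexT_zero {y : E3} (hy : ‖y‖ ≤ 1) : wexT y = 0 := by
  unfold wexT
  rw [Real.smoothTransition.zero_of_nonpos, mul_zero]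
  nlinarith [norm_nonneg y]

theorem wexT_one {y : E3} (hy : 2 ≤ ‖y‖) : wexT y = Real.pi / 2 := by
  unfold wexT
  rw [Real.smoothTransition.one_of_one_le, mul_one]
  nlinarith

theorem wexT_nonneg (y : E3) : 0 ≤ wexT y :=
  mul_nonneg (by positivity) (Real.smoothTransition.nonneg _)

theorem wexT_le (y : E3) : wexT y ≤ Real.pi / 2 := by
  unfold wexT
  have := Real.smoothTransition.le_one (‖y‖ ^ 2 - 1)
  have h2 : 0 ≤ Real.pi / 2 := by positivity
  nlinarith

theorem wexT_bound : ∃ C : ℝ, 0 < C ∧ ∀ y, ‖fderiv ℝ wexT y‖ ≤ C := by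
  have hc : HasCompactSupport (fun y => wexT y - Real.pi / 2) := by
    refine HasCompactSupport.intro (isCompact_closedBall (0 : E3) 2) fun y hy => ?_
    rw [mem_closedBall_zero_iff, not_le] at hy
    rw [wexT_one hy.le, sub_self]
  have h1 : fderiv ℝ (fun y => wexT y - Real.pi / 2) = fderiv ℝ wexT := by
    funext y
    exact fderiv_sub_const _
  have h2 := hc.fderiv (𝕜 := ℝ)
  rw [h1] at h2
  obtain ⟨C, hC⟩ := (wexT_contDiff.continuous_fderiv (by simp)).bounded_above_of_compact_support h2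
  exact ⟨|C| + 1, by positivity, fun y => (hC y).trans (by linarith [le_abs_self C])⟩

/-- The angle function at scale `ρ`. -/
noncomputable def wexTh (ρ : ℝ) (y : E3) : ℝ := wexT (ρ⁻¹ • y)

theorem wexTh_contDiff (ρ : ℝ) : ContDiff ℝ 1 (wexTh ρ) :=
  wexT_contDiff.comp (contDiff_id.const_smul _)

theorem wexTh_zero {ρ : ℝ} (hρ : 0 < ρ) {y : E3} (hy : ‖y‖ ≤ ρ) : wexTh ρ y = 0 := by
  apply wexT_zero
  rw [norm_smul, norm_inv, Real.norm_of_nonneg hρ.le, inv_mul_le_iff₀ hρ]
  linarith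

theorem wexTh_one {ρ : ℝ} (hρ : 0 < ρ) {y : E3} (hy : 2 * ρ ≤ ‖y‖) :
    wexTh ρ y = Real.pi / 2 := by
  apply wexT_one
  rw [norm_smul, norm_inv, Real.norm_of_nonneg hρ.le, le_inv_mul_iff₀ hρ]
  linarith

theorem wexTh_pd {ρ C : ℝ} (hρ : 0 < ρ) (hC : ∀ y, ‖fderiv ℝ wexT y‖ ≤ C) (k : Fin 3) (y : E3) :
    |pd k (wexTh ρ) y| ≤ C / ρ := by
  have h1 : HasFDerivAt (fun y : E3 => ρ⁻¹ • y) (ρ⁻¹ • ContinuousLinearMap.id ℝ E3) y :=
    (hasFDerivAt_id y).const_smul ρ⁻¹
  have h2 := (((wexT_contDiff.differentiable (by simp)) (ρ⁻¹ • y)).hasFDerivAt.comp y h1).fderiv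
  have h3 : wexTh ρ = wexT ∘ fun y : E3 => ρ⁻¹ • y := rfl
  unfold pd
  rw [h3, h2]
  simp only [ContinuousLinearMap.comp_apply, smul_apply,
    ContinuousLinearMap.id_apply, map_smul, smul_eq_mul]
  rw [abs_mul, abs_inv, abs_of_pos hρ, div_eq_inv_mul]
  refine mul_le_mul_of_nonneg_left ?_ (by positivity)
  have := (fderiv ℝ wexT (ρ⁻¹ • y)).le_opNorm (EuclideanSpace.single k (1 : ℝ))
  simp only [PiLp.norm_single, norm_one, mul_one, Real.norm_eq_abs] at this
  exact this.trans (hC _)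

/-- The unnormalised well. -/
noncomputable def wexW (ρ η : ℝ) (y : E3) : ℝ := Real.cos (wexTh ρ y) * phi η y

theorem wexW_contDiff (ρ : ℝ) {η : ℝ} (hη : 0 < η) : ContDiff ℝ 1 (wexW ρ η) :=
  (Real.contDiff_cos.comp (wexTh_contDiff ρ)).mul (contDiff_phi hη)

theorem wexW_zero {ρ : ℝ} (hρ : 0 < ρ) (η : ℝ) {y : E3} (hy : 2 * ρ ≤ ‖y‖) : wexW ρ η y = 0 := by
  unfold wexW
  rw [wexTh_one hρ hy, Real.cos_pi_div_two, zero_mul]

theorem wexW_compact {ρ : ℝ} (hρ : 0 < ρ) (η : ℝ) : HasCompactSupport (wexW ρ η) := by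
  refine HasCompactSupport.intro (isCompact_closedBall (0 : E3) (2 * ρ)) fun y hy => ?_
  rw [mem_closedBall_zero_iff, not_le] at hy
  exact wexW_zero hρ η hy.le

theorem wexW_nonneg (ρ η : ℝ) (y : E3) : 0 ≤ wexW ρ η y := by
  refine mul_nonneg (Real.cos_nonneg_of_mem_Icc ⟨?_, wexT_le _⟩) (phi_pos η y).le
  have := wexT_nonneg (ρ⁻¹ • y)
  have h2 : 0 ≤ Real.pi / 2 := by positivity
  unfold wexTh
  linarith

theorem wexW_sym (ρ η : ℝ) (π : Equiv.Perm (Fin 3)) (y : E3) :
    wexW ρ η (prm π y) = wexW ρ η y := by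
  simp only [wexW, wexTh, wexT, phi, norm_smul, norm_prm]

theorem wexW_sq_le (ρ η : ℝ) (y : E3) : wexW ρ η y ^ 2 ≤ Real.exp (-‖y‖) := by
  unfold wexW
  rw [mul_pow]
  have h1 := Real.cos_sq_le_one (wexTh ρ y)
  have h2 := phi_sq_le η y
  nlinarith [sq_nonneg (phi η y)]

theorem wexW_ge {ρ η : ℝ} (hρ : 1 ≤ ρ) (hη : 0 < η) (hη1 : η ≤ 1) {y : E3} (hy : ‖y‖ < 1) :
    Real.exp (-2) ≤ wexW ρ η y ^ 2 := by
  unfold wexW
  rw [wexTh_zero (by linarith) (by linarith), Real.cos_zero, one_mul]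
  unfold phi
  rw [← Real.exp_nat_mul]
  apply Real.exp_le_exp.2
  have : Real.sqrt (‖y‖ ^ 2 + η ^ 2) ≤ 2 := by
    rw [Real.sqrt_le_iff]
    constructor
    · norm_num
    · nlinarith [norm_nonneg y]
  push_cast
  linarith

theorem wex_integrable_sq {W : E3 → ℝ} (h1 : ContDiff ℝ 1 W) (h2 : HasCompactSupport W) :
    Integrable (fun x => W x ^ 2) := by
  refine Continuous.integrable_of_hasCompactSupport (h1.continuous.pow 2) ?_
  exact h2.comp_left (g := fun t : ℝ => t ^ 2) (by simp)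

theorem wex_vol_pos : 0 < (volume : Measure E3).real (Metric.ball 0 1) :=
  ENNReal.toReal_pos (Metric.measure_ball_pos _ _ one_pos).ne' measure_ball_lt_top.ne

theorem wex_ind_integrable (c : ℝ) :
    Integrable ((Metric.ball (0 : E3) 1).indicator fun _ => c) :=
  (integrable_indicator_iff measurableSet_ball).2 (integrableOn_const measure_ball_lt_top.ne)

theorem wex_ind_integral (c : ℝ) :
    ∫ x, (Metric.ball (0 : E3) 1).indicator (fun _ => c) x =
      (volume : Measure E3).real (Metric.ball 0 1) * c := by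
  rw [integral_indicator_const _ measurableSet_ball, smul_eq_mul]

theorem wexW_lower {ρ η : ℝ} (hρ : 1 ≤ ρ) (hη : 0 < η) (hη1 : η ≤ 1) :
    (volume : Measure E3).real (Metric.ball 0 1) * Real.exp (-2) ≤ ∫ y, wexW ρ η y ^ 2 := by
  rw [← wex_ind_integral]
  refine integral_mono (wex_ind_integrable _)
    (wex_integrable_sq (wexW_contDiff ρ hη) (wexW_compact (by linarith) η)) fun y => ?_
  by_cases hy : y ∈ Metric.ball (0 : E3) 1
  · rw [Set.indicator_of_mem hy]
    exact wexW_ge hρ hη hη1 (mem_ball_zero_iff.1 hy)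
  · rw [Set.indicator_of_notMem hy]
    positivity

theorem wexW_upper {ρ η : ℝ} (hρ : 1 ≤ ρ) (hη : 0 < η) :
    ∫ y, wexW ρ η y ^ 2 ≤ ∫ y : E3, Real.exp (-‖y‖) :=
  integral_mono (wex_integrable_sq (wexW_contDiff ρ hη) (wexW_compact (by linarith) η))
    integrable_exp_neg_norm fun y => wexW_sq_le ρ η y

/-- Energy of the unnormalised well. -/
theorem wexW_energy {ρ η ε : ℝ} (hρ : 1 ≤ ρ) (hη : 0 < η) (hη1 : η ≤ 1 / 12)
    (hε : ∀ k y, |pd k (wexTh ρ) y| ≤ ε) (L : ℝ) (j : Fin 3) :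
    qf L (well L (wexW ρ η) j) (grad (well L (wexW ρ η) j)) ≤
      (-1 / 4 + 24 * η) * (∫ y, wexW ρ η y ^ 2) + 6 * ε ^ 2 * ∫ y : E3, Real.exp (-‖y‖) := by
  have hρ0 : 0 < ρ := by linarith
  set u := well L (wexW ρ η) j with hu
  have hn : Nice u := wex_nice (wexW_contDiff ρ hη) (wexW_compact hρ0 η) j
  have hth : ContDiff ℝ 1 (fun x : E3 => wexTh ρ (x - site L j)) :=
    (wexTh_contDiff ρ).comp (contDiff_id.sub contDiff_const)
  have hc : ContDiff ℝ 1 (fun x : E3 => Real.cos (wexTh ρ (x - site L j))) :=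
    Real.contDiff_cos.comp hth
  have hcs : HasCompactSupport (fun x : E3 => Real.cos (wexTh ρ (x - site L j))) := by
    refine HasCompactSupport.intro (isCompact_closedBall (site L j) (2 * ρ)) fun y hy => ?_
    rw [mem_closedBall_iff_norm, not_le] at hy
    rw [wexTh_one hρ0 hy.le, Real.cos_pi_div_two]
  have hcε : ∀ k x, |pd k (fun x : E3 => Real.cos (wexTh ρ (x - site L j))) x| ≤ ε := by
    intro k x
    have h1 : HasFDerivAt (fun x : E3 => wexTh ρ (x - site L j))
        (fderiv ℝ (wexTh ρ) (x - site L j)) x := by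
      have := (((wexTh_contDiff ρ).differentiable (by simp)) (x - site L j)).hasFDerivAt.comp x
        ((hasFDerivAt_id x).sub_const (site L j))
      rw [ContinuousLinearMap.comp_id] at this
      exact this
    have h2 := h1.cos.fderiv
    unfold pd
    rw [h2]
    simp only [smul_apply, smul_eq_mul, abs_mul, abs_neg]
    have h3 := hε k (x - site L j)
    unfold pd at h3
    have h4 := Real.abs_sin_le_one (wexTh ρ (x - site L j))
    nlinarith [abs_nonneg (Real.sin (wexTh ρ (x - site L j))),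
      abs_nonneg (fderiv ℝ (wexTh ρ) (x - site L j) (EuclideanSpace.single k 1))]
  have h1 := cutoff_energy hη (by linarith) (site L j) hc hcs hcε u rfl
  have h2 := hn.isH1.cou_le (site L j) (ε := 1 / 2) (by norm_num)
  have h3 : nrm u = ∫ y, wexW ρ η y ^ 2 := wex_nrm L _ j
  have h4 : qf L u (grad u) ≤ kin (grad u) - cou (site L j) u := by
    unfold qf
    have := Finset.single_le_sum (f := fun i => cou (site L i) u)
      (fun i _ => cou_nonneg (site L i) u) (Finset.mem_univ j)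
    linarith
  rw [← h3]
  set A := ∫ y : E3, Real.exp (-‖y‖) with hA
  have hA0 : 0 ≤ A := integral_nonneg fun y => (Real.exp_pos _).le
  have hK := kin_nonneg (grad u)
  have hN := nrm_nonneg u
  have hE : 0 ≤ ε ^ 2 * A := by positivity
  have h5 : 3 * η * kin (grad u) ≤ kin (grad u) / 4 := by nlinarith
  have h6 : kin (grad u) ≤ 8 * nrm u + 12 * (ε ^ 2 * A) := by
    have : nrm u / (1 / 2) = 2 * nrm u := by ring
    nlinarith
  have h7 : 3 * η * kin (grad u) ≤ 3 * η * (8 * nrm u + 12 * (ε ^ 2 * A)) :=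
    mul_le_mul_of_nonneg_left h6 (by positivity)
  have h8 : 36 * η * (ε ^ 2 * A) ≤ 3 * (ε ^ 2 * A) := by nlinarith
  nlinarith

theorem wex_well_smul (L c : ℝ) (W : E3 → ℝ) (j : Fin 3) :
    well L (fun y => c * W y) j = (c : ℂ) • well L W j := by
  funext x
  simp [well]

theorem wex_grad_smul {v : E3 → ℂ} (hv : Nice v) (c : ℂ) : grad (c • v) = c • grad v := by
  funext k x
  simp only [grad, pd, Pi.smul_apply]
  rw [fderiv_const_smul ((hv.1.differentiable (by simp)) x)]
  simp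

theorem wex_kM_pos {M : ℝ} (hM : 1 ≤ M) (x y : E3) : 0 < kM M x y := by
  unfold kM
  have : 0 < 1 / M := by positivity
  have h2 : 0 < max ‖x - y‖ (1 / M) := lt_max_of_lt_right this
  positivity

theorem wex_kM_le {M : ℝ} (hM : 1 ≤ M) (x y : E3) : kM M x y ≤ M := by
  unfold kM
  have : 0 < 1 / M := by positivity
  calc 1 / max ‖x - y‖ (1 / M) ≤ 1 / (1 / M) := one_div_le_one_div_of_le this (le_max_right _ _)
    _ = M := one_div_one_div M

theorem wex_kM_cont {M : ℝ} (hM : 1 ≤ M) : Continuous fun p : E3 × E3 => kM M p.1 p.2 := by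
  unfold kM
  have : 0 < 1 / M := by positivity
  refine continuous_const.div (by fun_prop) fun p => ?_
  exact (lt_max_of_lt_right this).ne'

theorem wex_rep {W : E3 → ℝ} (h1 : ContDiff ℝ 1 W) (h2 : HasCompactSupport W) {c : ℝ}
    (hc : 0 ≤ c) (hW : ∀ y, ‖y‖ < 1 → c ≤ W y ^ 2) {M : ℝ} (hM : 1 ≤ M) :
    1 / 2 * ((volume : Measure E3).real (Metric.ball 0 1) * c) ^ 2 ≤ Um M W := by
  have hi := wex_integrable_sq h1 h2
  set f : E3 → ℝ := (Metric.ball (0 : E3) 1).indicator fun _ => c with hf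
  have e1 : 1 / 2 * ((volume : Measure E3).real (Metric.ball 0 1) * c) ^ 2 =
      ∫ p : E3 × E3, 1 / 2 * (f p.1 * f p.2) := by
    rw [integral_const_mul, Measure.volume_eq_prod, integral_prod_mul f f, hf, wex_ind_integral,
      sq]
  rw [e1]
  unfold Um
  refine integral_mono ?_ ?_ fun p => ?_
  · rw [Measure.volume_eq_prod]
    exact ((wex_ind_integrable c).mul_prod (wex_ind_integrable c)).const_mul _
  · have hp : Integrable (fun p : E3 × E3 => W p.1 ^ 2 * W p.2 ^ 2) := by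
      rw [Measure.volume_eq_prod]
      exact hi.mul_prod hi
    refine hp.mul_bdd (c := M) (wex_kM_cont hM).aestronglyMeasurable
      (Eventually.of_forall fun p => ?_)
    rw [Real.norm_of_nonneg (wex_kM_pos hM _ _).le]
    exact wex_kM_le hM _ _
  · have hk := wex_kM_pos hM p.1 p.2
    by_cases hx : p.1 ∈ Metric.ball (0 : E3) 1
    · by_cases hy : p.2 ∈ Metric.ball (0 : E3) 1
      · simp only [hf, Set.indicator_of_mem hx, Set.indicator_of_mem hy]
        rw [mem_ball_zero_iff] at hx hy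
        have k1 : 1 / 2 ≤ kM M p.1 p.2 := by
          unfold kM
          have : 0 < 1 / M := by positivity
          refine one_div_le_one_div_of_le (lt_max_of_lt_right this) (max_le ?_ ?_)
          · linarith [norm_sub_le p.1 p.2]
          · have : 1 / M ≤ 1 := by rw [div_le_one (by linarith)]; exact hM
            linarith
        have k2 : c * c ≤ W p.1 ^ 2 * W p.2 ^ 2 :=
          mul_le_mul (hW _ hx) (hW _ hy) hc (by positivity)
        rw [mul_comm (1 / 2 : ℝ)]
        exact mul_le_mul k2 k1 (by norm_num) (by positivity)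
      · simp only [hf, Set.indicator_of_notMem hy, mul_zero]
        positivity
    · simp only [hf, Set.indicator_of_notMem hx, zero_mul, mul_zero]
      positivity

theorem wells_exist : ∃ g cU : ℝ, 0 < g ∧ 0 < cU ∧ ∀ δ : ℝ, 0 < δ → ∃ (L : ℝ) (W : E3 → ℝ),
    Wells g cU δ L W := by
  obtain ⟨g, hg, hgap⟩ := three_gap
  obtain ⟨C, hC0, hC⟩ := wexT_bound
  set A := ∫ y : E3, Real.exp (-‖y‖) with hA
  set V := (volume : Measure E3).real (Metric.ball 0 1) with hV
  have hV0 : 0 < V := wex_vol_pos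
  set c0 := V * Real.exp (-2) with hc0
  have hc00 : 0 < c0 := by positivity
  have hA0 : 0 < A :=
    lt_of_lt_of_le hc00 ((wexW_lower le_rfl one_pos le_rfl).trans (wexW_upper le_rfl one_pos))
  refine ⟨g, 1 / 2 * (V * (Real.exp (-2) / A)) ^ 2, hg, by positivity, fun δ hδ => ?_⟩
  -- parameters
  set η := min (1 / 12) (δ / 400) with hηd
  have hη : 0 < η := lt_min (by norm_num) (by positivity)
  have hη1 : η ≤ 1 / 12 := min_le_left _ _
  have hη2 : η ≤ δ / 400 := min_le_right _ _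
  obtain ⟨ρ, hρ1, hρ2, hρ3, hρ4⟩ : ∃ ρ : ℝ, 1 ≤ ρ ∧ C ≤ ρ ∧ (12 + 36 * C) / δ ≤ ρ ∧
      12 * C * A / (c0 * δ) ≤ ρ := by
    refine ⟨1 + C + (12 + 36 * C) / δ + 12 * C * A / (c0 * δ), ?_, ?_, ?_, ?_⟩
    all_goals
      have : 0 < (12 + 36 * C) / δ := by positivity
      have : 0 < 12 * C * A / (c0 * δ) := by positivity
      linarith
  have hρ0 : 0 < ρ := by linarith
  set ε := C / ρ with hεd
  have hε0 : 0 < ε := by positivity
  have hε1 : ε ≤ 1 := by rw [hεd, div_le_one hρ0]; exact hρ2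
  have hε2 : ε ^ 2 ≤ ε := by nlinarith
  have hε := wexTh_pd hρ0 hC
  have hρ5 : 12 + 36 * C ≤ ρ * δ := by rwa [div_le_iff₀ hδ] at hρ3
  have hsm1 : 3 / ρ + 9 * ε ≤ δ / 4 := by
    rw [hεd]
    have : 3 / ρ + 9 * (C / ρ) = (3 + 9 * C) / ρ := by ring
    rw [this, div_le_iff₀ hρ0]
    linarith
  have hsm2 : 6 * ε * A ≤ δ / 2 * c0 := by
    rw [div_le_iff₀ (by positivity)] at hρ4
    have : 6 * ε * A = 6 * C * A / ρ := by rw [hεd]; ring
    rw [this, div_le_iff₀ hρ0]
    nlinarith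
  set N0 := ∫ y, wexW ρ η y ^ 2 with hN0
  have hN1 : c0 ≤ N0 := wexW_lower hρ1 hη (by linarith)
  have hN2 : N0 ≤ A := wexW_upper hρ1 hη
  have hN3 : 0 < N0 := by linarith
  set s := (Real.sqrt N0)⁻¹ with hs
  have hs0 : 0 < s := by positivity
  have hs2 : s ^ 2 = N0⁻¹ := by rw [hs, inv_pow, Real.sq_sqrt hN3.le]
  have w1 : ContDiff ℝ 1 fun y => s * wexW ρ η y := contDiff_const.mul (wexW_contDiff ρ hη)
  have w2 : HasCompactSupport fun y => s * wexW ρ η y := (wexW_compact hρ0 η).mul_left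
  have w3 : ∫ y, (s * wexW ρ η y) ^ 2 = 1 := by
    simp only [mul_pow]
    rw [integral_const_mul, hs2, ← hN0, inv_mul_cancel₀ hN3.ne']
  have w4 : ∀ j k, j ≠ k → ∀ x y : E3, s * wexW ρ η (x - site (8 * ρ) j) ≠ 0 →
      s * wexW ρ η (y - site (8 * ρ) k) ≠ 0 → 1 ≤ δ * ‖x - y‖ := by
    intro j k hjk x y hx hy
    have hx' : ‖x - site (8 * ρ) j‖ < 2 * ρ := by
      by_contra hh
      exact hx (by rw [wexW_zero hρ0 η (not_lt.1 hh), mul_zero])
    have hy' : ‖y - site (8 * ρ) k‖ < 2 * ρ := by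
      by_contra hh
      exact hy (by rw [wexW_zero hρ0 η (not_lt.1 hh), mul_zero])
    have h1 := norm_site_sub (8 * ρ) hjk
    have h2 : 8 * ρ ≤ ‖site (8 * ρ) j - site (8 * ρ) k‖ := by
      refine abs_le_of_sq_le_sq' ?_ (norm_nonneg _) |>.2
      nlinarith
    have h3 : site (8 * ρ) j - site (8 * ρ) k =
        (x - y) - (x - site (8 * ρ) j) + (y - site (8 * ρ) k) := by abel
    have h4 : ‖site (8 * ρ) j - site (8 * ρ) k‖ ≤
        ‖x - y‖ + ‖x - site (8 * ρ) j‖ + ‖y - site (8 * ρ) k‖ := by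
      rw [h3]
      exact (norm_add_le _ _).trans (by linarith [norm_sub_le (x - y) (x - site (8 * ρ) j)])
    have h5 : ρ ≤ ‖x - y‖ := by linarith
    nlinarith
  have w5 : ∀ j k, j ≠ k → ∀ x : E3, s * wexW ρ η (x - site (8 * ρ) j) = 0 ∨
      s * wexW ρ η (x - site (8 * ρ) k) = 0 := by
    intro j k hjk x
    by_contra hc
    rw [not_or] at hc
    have := w4 j k hjk x x hc.1 hc.2
    simp at this
    linarith
  refine ⟨8 * ρ, fun y => s * wexW ρ η y, by positivity, w1, w2,
    fun y => mul_nonneg hs0.le (wexW_nonneg ρ η y), fun π x => by rw [wexW_sym], w3, w4,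
    fun v hv => ?_, fun j => ?_, fun M hM => ?_⟩
  · obtain ⟨α, hα⟩ := hgap η ρ ε (8 * ρ) (wexTh ρ) hη (by linarith) hρ0 (by linarith) hε1
      (wexTh_contDiff ρ) (fun y hy => wexTh_zero hρ0 hy) (fun y hy => wexTh_one hρ0 hy) hε v hv
    have h1 := proj_le (fun j => (wex_nice w1 w2 (L := 8 * ρ) j).memLp) (wex_ortho w1 w2 w3 w5)
      hv.memLp (fun j => α j * ((s⁻¹ : ℝ) : ℂ))
    have h2 : ∑ j, (α j * ((s⁻¹ : ℝ) : ℂ)) • well (8 * ρ) (fun y => s * wexW ρ η y) j =
        ∑ j, α j • well (8 * ρ) (fun y => Real.cos (wexTh ρ y) * phi η y) j := by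
      refine Finset.sum_congr rfl fun j _ => ?_
      rw [wex_well_smul, smul_smul, mul_assoc, ← Complex.ofReal_mul, inv_mul_cancel₀ hs0.ne']
      simp only [Complex.ofReal_one, mul_one]
      rfl
    rw [h2] at h1
    have h3 := mul_le_mul_of_nonneg_left h1 hg.le
    have h4 : (1 / 4 + 200 * η + 3 / ρ + 9 * ε ^ 2) * nrm v ≤ (1 / 4 + δ) * nrm v :=
      mul_le_mul_of_nonneg_right (by linarith) (nrm_nonneg v)
    linarith
  · have hn := wex_nice (wexW_contDiff ρ hη) (wexW_compact hρ0 η) (L := 8 * ρ) j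
    rw [wex_well_smul, wex_grad_smul hn, qf_smul]
    have h1 := wexW_energy hρ1 hη hη1 hε (8 * ρ) j
    rw [← hN0, ← hA] at h1
    rw [Complex.norm_real, Real.norm_of_nonneg hs0.le, hs2, inv_mul_le_iff₀ hN3]
    have h2 : 6 * ε ^ 2 * A ≤ 6 * ε * A := by nlinarith
    have h3 : δ / 2 * c0 ≤ δ / 2 * N0 := mul_le_mul_of_nonneg_left hN1 (by positivity)
    have h4 : 24 * η * N0 ≤ δ / 2 * N0 := mul_le_mul_of_nonneg_right (by linarith) hN3.le
    nlinarith
  · refine wex_rep w1 w2 (by positivity) (fun y hy => ?_) hM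
    rw [mul_pow, hs2, div_eq_inv_mul]
    refine mul_le_mul (inv_anti₀ hN3 hN2) (wexW_ge hρ1 hη (by linarith) hy) (by positivity)
      (by positivity)

end Pool.Agent.MP_e62678_mp.H54
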