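import Pool.Agent.MP_e62678_mp.H54.Defs

/-! Working definitions used only inside the proof. -/

open MeasureTheory
open scoped ComplexConjugate

namespace Pool.Agent.MP_e62678_mp.H54

/-- Squared `L²` norm. -/
noncomputable def nrm (u : E3 → ℂ) : ℝ := ∫ x, ‖u x‖ ^ 2

/-- Kinetic energy of a (weak) gradient. -/
noncomputable def kin (g : Fin 3 → E3 → ℂ) : ℝ := ∑ k, nrm (g k)

/-- `L²` inner product. -/
noncomputable def ip (u v : E3 → ℂ) : ℂ := ∫ x, conj (u x) * v x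

/-- Coulomb attraction to the point `a`. -/
noncomputable def cou (a : E3) (u : E3 → ℂ) : ℝ := ∫ x, ‖u x‖ ^ 2 / ‖x - a‖

/-- Classical gradient. -/
noncomputable def grad (v : E3 → ℂ) : Fin 3 → E3 → ℂ := fun k => pd k v

/-- `C¹` functions with compact support. -/
def Nice (v : E3 → ℂ) : Prop := ContDiff ℝ 1 v ∧ HasCompactSupport v

/-- The three nuclear positions `L e_j`. -/
noncomputable def site (L : ℝ) (j : Fin 3) : E3 := EuclideanSpace.single j L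

/-- The one-body quadratic form of `-Δ - ∑ 1/|x - L e_j|`. -/
noncomputable def qf (L : ℝ) (u : E3 → ℂ) (g : Fin 3 → E3 → ℂ) : ℝ :=
  kin g - ∑ j, cou (site L j) u

/-- Permutation of coordinates: `prm π x j = x (π j)`. -/
noncomputable def prm (π : Equiv.Perm (Fin 3)) (x : E3) : E3 := WithLp.toLp 2 fun j => x (π j)

/-- Regularised hydrogen ground state. -/
noncomputable def phi (η : ℝ) (y : E3) : ℝ := Real.exp (-Real.sqrt (‖y‖ ^ 2 + η ^ 2) / 2)

/-- The well function `W` moved to the `j`-th nucleus. -/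
noncomputable def well (L : ℝ) (W : E3 → ℝ) (j : Fin 3) (x : E3) : ℂ := ((W (x - site L j) : ℝ) : ℂ)

/-- Truncated Coulomb kernel. -/
noncomputable def kM (M : ℝ) (x y : E3) : ℝ := 1 / max ‖x - y‖ (1 / M)

/-- Direct minus exchange integrand. -/
noncomputable def Dfun {N : ℕ} (u : Fin N → Fin 2 → E3 → ℂ) (x y : E3) : ℝ :=
  rho u x * rho u y - ∑ σ, ∑ τ, ‖gam u x σ y τ‖ ^ 2

/-- Interaction energy with the truncated kernel. -/
noncomputable def Jm {N : ℕ} (M : ℝ) (u : Fin N → Fin 2 → E3 → ℂ) : ℝ :=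
  1 / 2 * ∫ p : E3 × E3, Dfun u p.1 p.2 * kM M p.1 p.2

/-- Interaction energy (direct minus exchange). -/
noncomputable def Iint {N : ℕ} (u : Fin N → Fin 2 → E3 → ℂ) : ℝ :=
  1 / 2 * (∫ p : E3 × E3, rho u p.1 * rho u p.2 / ‖p.1 - p.2‖)
    - 1 / 2 * (∫ p : E3 × E3, (∑ σ, ∑ τ, ‖gam u p.1 σ p.2 τ‖ ^ 2) / ‖p.1 - p.2‖)

/-- Total mass of a tuple. -/
noncomputable def Ntot {N : ℕ} (u : Fin N → Fin 2 → E3 → ℂ) : ℝ := ∑ i, ∑ σ, nrm (u i σ)

/-- Total kinetic energy of a tuple. -/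
noncomputable def Ktot {N : ℕ} (g : Fin N → Fin 2 → Fin 3 → E3 → ℂ) : ℝ := ∑ i, ∑ σ, kin (g i σ)

/-- On-site repulsion with the truncated kernel. -/
noncomputable def Um (M : ℝ) (W : E3 → ℝ) : ℝ := ∫ p : E3 × E3, W p.1 ^ 2 * W p.2 ^ 2 * kM M p.1 p.2

/-- Determinant of the on-site spin density matrix of the coefficients `c i σ j` at site `j`. -/
noncomputable def detj {N : ℕ} (c : Fin N → Fin 2 → Fin 3 → ℂ) (j : Fin 3) : ℝ :=
  (∑ i, ‖c i 0 j‖ ^ 2) * (∑ i, ‖c i 1 j‖ ^ 2) - ‖∑ i, c i 0 j * conj (c i 1 j)‖ ^ 2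

/-- A primitive cube root of unity. -/
noncomputable def om : ℂ := (-1 + (Real.sqrt 3 : ℝ) * Complex.I) / 2

/-- Properties of the three wells. -/
structure Wells (g cU δ L : ℝ) (W : E3 → ℝ) : Prop where
  Lpos : 0 < L
  smooth : ContDiff ℝ 1 W
  compact : HasCompactSupport W
  nonneg : ∀ x, 0 ≤ W x
  sym : ∀ π x, W (prm π x) = W x
  unit : ∫ x, W x ^ 2 = 1
  sep : ∀ j k, j ≠ k → ∀ x y, W (x - site L j) ≠ 0 → W (y - site L k) ≠ 0 → 1 ≤ δ * ‖x - y‖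
  gap : ∀ v, Nice v → g * (nrm v - ∑ j, ‖ip (well L W j) v‖ ^ 2) ≤
    qf L v (grad v) + (1 / 4 + δ) * nrm v
  low : ∀ j, qf L (well L W j) (grad (well L W j)) ≤ -1 / 4 + δ
  rep : ∀ M, 1 ≤ M → cU ≤ Um M W

end Pool.Agent.MP_e62678_mp.H54
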